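import Mathlib
import Pool.Agent.H261R2.CM.K5

/-!
# A one-variable inequality for the mean of `log (|p|² + c²)`
-/

set_option autoImplicit false

open Polynomial MeasureTheory

namespace Pool.Agent.R328.GD

open Pool.Agent.H261R2.CM

noncomputable section

lemma mass_ge_one (P : ℂ[X]) (s : ℕ) : ‖P.coeff s‖ ^ 2 ≤ mass P := by
  unfold mass
  by_cases h : s ∈ P.support
  · exact Finset.single_le_sum (f := fun j => ‖P.coeff j‖ ^ 2) (fun _ _ => by positivity) h
  · rw [notMem_support_iff.mp h, norm_zero]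
    simpa using Finset.sum_nonneg fun _ _ => by positivity

lemma mass_ge_two (P : ℂ[X]) {s : ℕ} (hs : s ≠ 0) :
    ‖P.coeff 0‖ ^ 2 + ‖P.coeff s‖ ^ 2 ≤ mass P := by
  have h : mass P = ∑ j ∈ P.support ∪ {0, s}, ‖P.coeff j‖ ^ 2 := by
    unfold mass
    refine Finset.sum_subset Finset.subset_union_left fun j _ hj => ?_
    rw [notMem_support_iff.mp hj]
    simp
  rw [h]
  have h2 : ‖P.coeff 0‖ ^ 2 + ‖P.coeff s‖ ^ 2 = ∑ j ∈ ({0, s} : Finset ℕ), ‖P.coeff j‖ ^ 2 := by
    rw [Finset.sum_pair hs.symm]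
  rw [h2]
  exact Finset.sum_le_sum_of_subset_of_nonneg Finset.subset_union_right fun _ _ _ => by positivity

lemma ez_per (t : ℝ) : ez (t + 1) = ez t := by
  simp only [ez]
  push_cast
  rw [mul_add, mul_one, Complex.exp_add, Complex.exp_two_pi_mul_I, mul_one]

lemma log_cont (p : ℂ[X]) {c : ℝ} (hc : 0 < c) :
    Continuous fun t : ℝ => Real.log (‖p.eval (ez t)‖ ^ 2 + c) := by
  apply Continuous.log
  · exact ((p.continuous.comp D_continuous_ez).norm.pow 2).add continuous_const
  · intro t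
    positivity

/-- the inequality (`c` stands for the square of the constant) -/
theorem one_var (p : ℂ[X]) {s : ℕ} (hs : s ≠ 0) (hp : ∀ j, 0 < j → j < s → p.coeff j = 0) {c : ℝ}
    (hc : 0 < c) :
    Real.log (‖p.coeff 0‖ ^ 2 + c) +
      Real.log (1 + ‖p.coeff s‖ ^ 2 * c / (‖p.coeff 0‖ ^ 2 + c) ^ 2) ≤
      ∫ t in (0:ℝ)..1, Real.log (‖p.eval (ez t)‖ ^ 2 + c) := by
  set I : ℝ := ∫ t in (0:ℝ)..1, Real.log (‖p.eval (ez t)‖ ^ 2 + c) with hI
  set A : ℝ := ‖p.coeff 0‖ ^ 2 + c with hA
  have hA0 : 0 < A := by positivity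
  set T : ℝ := A + ‖p.coeff s‖ ^ 2 * c / A with hT
  have hT0 : 0 < T := by positivity
  have e1 : Real.log A + Real.log (1 + ‖p.coeff s‖ ^ 2 * c / A ^ 2) = Real.log T := by
    rw [← Real.log_mul hA0.ne' (by positivity)]
    congr 1
    rw [hT]
    field_simp
  rw [e1]
  apply le_of_forall_pos_le_add
  intro η hη
  set ε : ℝ := η / 4 with hε
  have hε0 : 0 < ε := by positivity
  set ψ : ℝ → ℝ := fun t => -(1 / 2) * Real.log (‖p.eval (ez t)‖ ^ 2 + c) with hψ
  have hψc : Continuous ψ := (log_cont p hc).const_mul _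
  have hper : Function.Periodic ψ 1 := by
    intro t
    simp only [hψ, ez_per]
  obtain ⟨q, hq1, hq2⟩ := exp_poly_approx ψ hψc hper ε hε0
  have hint : ∫ t in (0:ℝ)..1, ψ t = -(1 / 2) * I := by
    simp only [hψ]
    rw [intervalIntegral.integral_const_mul]
  rw [hint] at hq2
  -- masses
  have hm : mass (q * p) + c * mass q ≤ Real.exp (2 * ε) := by
    unfold mass
    rw [parseval, parseval, ← intervalIntegral.integral_const_mul, ← intervalIntegral.integral_add]
    · calc ∫ t in (0:ℝ)..1, (‖(q * p).eval (ez t)‖ ^ 2 + c * ‖q.eval (ez t)‖ ^ 2)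
          ≤ ∫ t in (0:ℝ)..1, Real.exp (2 * ε) := by
            apply intervalIntegral.integral_mono_on zero_le_one
            · apply Continuous.intervalIntegrable
              exact (((q * p).continuous.comp D_continuous_ez).norm.pow 2).add
                (((q.continuous.comp D_continuous_ez).norm.pow 2).const_mul c)
            · exact intervalIntegrable_const
            · intro t _
              have hW : 0 < ‖p.eval (ez t)‖ ^ 2 + c := by positivity
              have h1 := (hq1 t).2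
              have h2 : ‖q.eval (ez t)‖ ^ 2 ≤ Real.exp (2 * ε) / (‖p.eval (ez t)‖ ^ 2 + c) := by
                calc ‖q.eval (ez t)‖ ^ 2 ≤ Real.exp (ψ t + ε) ^ 2 :=
                      pow_le_pow_left₀ (norm_nonneg _) h1 2
                  _ = Real.exp (2 * ε) / (‖p.eval (ez t)‖ ^ 2 + c) := by
                      rw [← Real.exp_nat_mul, eq_div_iff hW.ne']
                      have e3 : ((2 : ℕ) : ℝ) * (ψ t + ε) =
                          2 * ε - Real.log (‖p.eval (ez t)‖ ^ 2 + c) := by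
                        simp only [hψ]
                        push_cast
                        ring
                      rw [e3, Real.exp_sub, Real.exp_log hW, div_mul_cancel₀ _ hW.ne']
              rw [le_div_iff₀ hW] at h2
              rw [eval_mul, norm_mul]
              nlinarith
        _ = Real.exp (2 * ε) := by simp
    · apply Continuous.intervalIntegrable
      exact (((q * p).continuous.comp D_continuous_ez).norm.pow 2)
    · apply Continuous.intervalIntegrable
      exact (((q.continuous.comp D_continuous_ez).norm.pow 2).const_mul c)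
  have h0 : (q * p).coeff 0 = q.coeff 0 * p.coeff 0 := mul_coeff_zero q p
  have h1 : (q * p).coeff s = q.coeff 0 * p.coeff s + q.coeff s * p.coeff 0 := by
    rw [coeff_mul]
    have hsub : ({(0, s), (s, 0)} : Finset (ℕ × ℕ)) ⊆ Finset.HasAntidiagonal.antidiagonal s := by
      intro x hx
      rw [Finset.mem_insert, Finset.mem_singleton] at hx
      rcases hx with rfl | rfl <;> simp
    rw [← Finset.sum_subset hsub, Finset.sum_pair]
    · intro h
      exact hs (Prod.mk.inj h).1.symm
    · rintro ⟨i, j⟩ hij hn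
      rw [Finset.HasAntidiagonal.mem_antidiagonal] at hij
      dsimp only at hij
      rw [Finset.mem_insert, Finset.mem_singleton] at hn
      push Not at hn
      have hj0 : j ≠ 0 := by
        rintro rfl
        exact hn.2 (by rw [← hij, add_zero])
      have hi0 : i ≠ 0 := by
        rintro rfl
        exact hn.1 (by rw [← hij, zero_add])
      rw [hp j (Nat.pos_of_ne_zero hj0) (by omega), mul_zero]
  have h2 := mass_ge_two (q * p) hs
  have h3 := mass_ge_two q hs
  rw [h0, h1] at h2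
  set a := p.coeff 0 with ha
  set b := p.coeff s with hb
  set q0 := q.coeff 0 with hq0
  set q1 := q.coeff s with hq1'
  -- Cauchy-Schwarz
  have h4 : ‖q0‖ ^ 2 * (‖b‖ ^ 2 * c / A) ≤ ‖q0 * b + q1 * a‖ ^ 2 + c * ‖q1‖ ^ 2 := by
    have h5 : ‖q0‖ * ‖b‖ ≤ ‖q0 * b + q1 * a‖ + ‖q1‖ * ‖a‖ := by
      rw [← norm_mul, ← norm_mul]
      calc ‖q0 * b‖ = ‖(q0 * b + q1 * a) - q1 * a‖ := by rw [add_sub_cancel_right]
        _ ≤ _ := norm_sub_le _ _
    have h6 : (‖q0‖ * ‖b‖) ^ 2 ≤ (‖q0 * b + q1 * a‖ + ‖q1‖ * ‖a‖) ^ 2 :=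
      pow_le_pow_left₀ (by positivity) h5 2
    rw [← mul_div_assoc, div_le_iff₀ hA0, hA]
    nlinarith [sq_nonneg (‖q0 * b + q1 * a‖ * ‖a‖ - c * ‖q1‖), norm_nonneg (q0 * b + q1 * a),
      norm_nonneg q1, norm_nonneg a]
  have h5 : ‖q0‖ ^ 2 * T ≤ Real.exp (2 * ε) := by
    have e2 : ‖q0‖ ^ 2 * T = ‖q0 * a‖ ^ 2 + c * ‖q0‖ ^ 2 + ‖q0‖ ^ 2 * (‖b‖ ^ 2 * c / A) := by
      rw [hT, hA, norm_mul]
      ring
    rw [e2]
    nlinarith
  have h6 : Real.exp (-I - 2 * ε) ≤ ‖q0‖ ^ 2 := by
    calc Real.exp (-I - 2 * ε) = Real.exp (-(1 / 2) * I - ε) ^ 2 := by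
          rw [← Real.exp_nat_mul]
          congr 1
          push_cast
          ring
      _ ≤ ‖q0‖ ^ 2 := pow_le_pow_left₀ (Real.exp_pos _).le hq2 2
  have h7 : Real.exp (-I - 2 * ε) * T ≤ Real.exp (2 * ε) :=
    (mul_le_mul_of_nonneg_right h6 hT0.le).trans h5
  have h8 := Real.log_le_log (by positivity) h7
  rw [Real.log_mul (Real.exp_pos _).ne' hT0.ne', Real.log_exp, Real.log_exp] at h8
  linarith

end

end Pool.Agent.R328.GD
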