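import Mathlib
import Pool.Agent.R328.UA
import Pool.Agent.H887R3.LW.MV14

/-!
# Slices of the torus and the increment of the mean of `log (|A|² + |B|² + δ)`
-/

set_option autoImplicit false

open MeasureTheory

namespace Pool.Agent.R328.GD

open Pool.Agent.H261R2.CM

noncomputable section

variable {k : ℕ}

/-! ### translation invariance -/

lemma mp_pt (k : ℕ) : MeasurePreserving (fun t : Fin k → ℝ => fun i => ((t i : ℝ) : UnitAddCircle))
    ((volume : Measure (Fin k → ℝ)).restrict (Set.Icc (0 : Fin k → ℝ) 1))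
    (Measure.pi fun _ : Fin k => (volume : Measure UnitAddCircle)) := by
  rw [F_restrict_cube]
  refine measurePreserving_pi _ _ fun i => ?_
  have h := AddCircle.measurePreserving_mk (1 : ℝ) 0
  rw [zero_add, Measure.restrict_congr_set Ioc_ae_eq_Icc] at h
  exact h

lemma translate (Φ : UnitAddTorus (Fin k) → ℝ) (hΦ : Continuous Φ) (c : Fin k → ℝ) :
    ∫ t in Set.Icc (0 : Fin k → ℝ) 1, Φ (F_pt (t + c)) =
      ∫ t in Set.Icc (0 : Fin k → ℝ) 1, Φ (F_pt t) := by
  have hΦ' : Continuous fun x : Fin k → UnitAddCircle => Φ x := hΦ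
  set μ : Measure (Fin k → UnitAddCircle) := Measure.pi fun _ : Fin k => volume with hμ
  have h1 : ∀ Ψ : (Fin k → UnitAddCircle) → ℝ, Continuous Ψ →
      ∫ t in Set.Icc (0 : Fin k → ℝ) 1, Ψ (F_pt t) = ∫ x, Ψ x ∂μ := by
    intro Ψ hΨ
    rw [hμ, ← (mp_pt k).map_eq, integral_map (mp_pt k).measurable.aemeasurable
      hΨ.aestronglyMeasurable]
    rfl
  have e1 : ∀ t : Fin k → ℝ, F_pt (t + c) = (F_pt t : Fin k → UnitAddCircle) + F_pt c := by
    intro t
    funext i
    simp [F_pt]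
  have h2 := h1 (fun x => Φ (x + F_pt c)) (hΦ'.comp (continuous_id.add continuous_const))
  have h3 := h1 (fun x => Φ x) hΦ'
  rw [h3]
  simp only [e1]
  refine h2.trans ?_
  exact integral_add_right_eq_self (μ := μ) (fun x : Fin k → UnitAddCircle => Φ x) (F_pt c)

/-- the point `t + x w` -/
def sh (w : Fin k → ℤ) (t : Fin k → ℝ) (x : ℝ) : Fin k → ℝ := t + fun i => x * w i

lemma sh_cont (w : Fin k → ℤ) : Continuous fun q : (Fin k → ℝ) × ℝ => sh w q.1 q.2 := by
  unfold sh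
  fun_prop

lemma slice (Φ : UnitAddTorus (Fin k) → ℝ) (hΦ : Continuous Φ) (w : Fin k → ℤ) :
    ∫ t in Set.Icc (0 : Fin k → ℝ) 1, Φ (F_pt t) =
      ∫ t in Set.Icc (0 : Fin k → ℝ) 1, ∫ x in (0:ℝ)..1, Φ (F_pt (sh w t x)) := by
  have hc : Continuous fun q : (Fin k → ℝ) × ℝ => Φ (F_pt (sh w q.1 q.2)) :=
    hΦ.comp (F_continuous_pt.comp (sh_cont w))
  obtain ⟨K, hK⟩ := (isCompact_univ (X := UnitAddTorus (Fin k))).exists_bound_of_continuousOn
    hΦ.continuousOn
  simp only [intervalIntegral.integral_of_le zero_le_one]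
  rw [integral_integral_swap]
  · have h1 : ∀ x : ℝ, ∫ t in Set.Icc (0 : Fin k → ℝ) 1, Φ (F_pt (sh w t x)) =
        ∫ t in Set.Icc (0 : Fin k → ℝ) 1, Φ (F_pt t) := fun x => translate Φ hΦ _
    simp only [h1]
    rw [setIntegral_const]
    simp
  · refine Integrable.of_bound hc.aestronglyMeasurable K (Filter.Eventually.of_forall fun q => ?_)
    exact hK _ (Set.mem_univ _)

/-! ### weights -/

/-- the weight of an exponent -/
def wt (w : Fin k → ℤ) (m : Fin k →₀ ℕ) : ℤ := ∑ i, w i * (m i : ℤ)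

/-- the part of weight `n` -/
def lev (w : Fin k → ℤ) (n : ℤ) (A : MvPolynomial (Fin k) ℤ) : MvPolynomial (Fin k) ℤ :=
  ∑ m ∈ A.support.filter (fun m => wt w m = n), MvPolynomial.monomial m (A.coeff m)

lemma coeff_lev (w : Fin k → ℤ) (n : ℤ) (A : MvPolynomial (Fin k) ℤ) (m : Fin k →₀ ℕ) :
    (lev w n A).coeff m = if wt w m = n then A.coeff m else 0 := by
  classical
  unfold lev
  rw [MvPolynomial.coeff_sum]
  simp only [MvPolynomial.coeff_monomial]
  rw [Finset.sum_ite_eq' (A.support.filter (fun m => wt w m = n)) m (fun j => A.coeff j)]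
  by_cases h : wt w m = n
  · by_cases h2 : m ∈ A.support
    · rw [if_pos (Finset.mem_filter.2 ⟨h2, h⟩), if_pos h]
    · rw [if_neg (fun h3 => h2 (Finset.mem_filter.1 h3).1), if_pos h,
        MvPolynomial.notMem_support_iff.1 h2]
  · simp [h]

lemma mem_lev {w : Fin k → ℤ} {n : ℤ} {A : MvPolynomial (Fin k) ℤ} {m : Fin k →₀ ℕ} :
    m ∈ (lev w n A).support ↔ m ∈ A.support ∧ wt w m = n := by
  rw [MvPolynomial.mem_support_iff, coeff_lev, MvPolynomial.mem_support_iff]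
  by_cases h : wt w m = n
  · simp [h]
  · simp [h]

/-- the character -/
def chi (m : Fin k →₀ ℕ) (t : Fin k → ℝ) : ℂ := ∏ i, J.zz t i ^ (m i)

lemma tv_sum (A : MvPolynomial (Fin k) ℤ) (t : Fin k → ℝ) :
    tv A t = ∑ m ∈ A.support, ((A.coeff m : ℤ) : ℂ) * chi m t := by
  conv_lhs => rw [A.as_sum]
  rw [J.tv_eq, map_sum]
  exact Finset.sum_congr rfl fun m _ => J.tv_monomial m _ t

lemma tv_lev (w : Fin k → ℤ) (n : ℤ) (A : MvPolynomial (Fin k) ℤ) (t : Fin k → ℝ) :
    tv (lev w n A) t = ∑ m ∈ A.support.filter (fun m => wt w m = n), ((A.coeff m : ℤ) : ℂ) * chi m t := by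
  unfold lev
  rw [J.tv_eq, map_sum]
  exact Finset.sum_congr rfl fun m _ => J.tv_monomial m _ t

lemma zz_sh (w : Fin k → ℤ) (t : Fin k → ℝ) (x : ℝ) (i : Fin k) :
    J.zz (sh w t x) i = J.zz t i * ez x ^ (w i) := by
  unfold J.zz sh ez
  rw [← Complex.exp_int_mul, ← Complex.exp_add]
  congr 1
  simp only [Pi.add_apply]
  push_cast
  ring

lemma ez_ne (x : ℝ) : ez x ≠ 0 := Complex.exp_ne_zero _

lemma norm_ez (x : ℝ) : ‖ez x‖ = 1 := by
  unfold ez
  have : 2 * (Real.pi : ℂ) * Complex.I * ((x : ℝ) : ℂ) =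
      ((2 * Real.pi * x : ℝ) : ℂ) * Complex.I := by
    push_cast; ring
  rw [this, Complex.norm_exp_ofReal_mul_I]

lemma chi_sh (w : Fin k → ℤ) (m : Fin k →₀ ℕ) (t : Fin k → ℝ) (x : ℝ) :
    chi m (sh w t x) = chi m t * ez x ^ (wt w m) := by
  unfold chi wt
  simp only [zz_sh]
  have h2 : ez x ^ (∑ i, w i * (m i : ℤ)) = ∏ i, (ez x ^ (w i)) ^ (m i) := by
    have h3 : ∀ s : Finset (Fin k), ez x ^ (∑ i ∈ s, w i * (m i : ℤ)) =
        ∏ i ∈ s, (ez x ^ (w i)) ^ (m i) := by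
      intro s
      classical
      induction s using Finset.induction_on with
      | empty => simp
      | insert a s ha ih =>
        rw [Finset.sum_insert ha, Finset.prod_insert ha, zpow_add₀ (ez_ne x), ih, zpow_mul,
          zpow_natCast]
    exact h3 Finset.univ
  rw [h2, ← Finset.prod_mul_distrib]
  exact Finset.prod_congr rfl fun i _ => mul_pow _ _ _

/-- homogeneous polynomials have constant modulus along the slices -/
lemma norm_const {w : Fin k → ℤ} {B : MvPolynomial (Fin k) ℤ} {n : ℤ}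
    (hB : ∀ m ∈ B.support, wt w m = n) (t : Fin k → ℝ) (x : ℝ) :
    ‖tv B (sh w t x)‖ = ‖tv B t‖ := by
  have h1 : tv B (sh w t x) = tv B t * ez x ^ n := by
    rw [tv_sum, tv_sum, Finset.sum_mul]
    refine Finset.sum_congr rfl fun m hm => ?_
    rw [chi_sh, hB m hm]
    ring
  rw [h1, norm_mul, norm_zpow, norm_ez, one_zpow, mul_one]

/-- the polynomial of a slice -/
def sp (w : Fin k → ℤ) (n0 : ℤ) (A : MvPolynomial (Fin k) ℤ) (t : Fin k → ℝ) : Polynomial ℂ :=
  ∑ m ∈ A.support, Polynomial.monomial (wt w m - n0).toNat (((A.coeff m : ℤ) : ℂ) * chi m t)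

lemma norm_sp {w : Fin k → ℤ} {n0 : ℤ} {A : MvPolynomial (Fin k) ℤ}
    (hmin : ∀ m ∈ A.support, n0 ≤ wt w m) (t : Fin k → ℝ) (x : ℝ) :
    ‖tv A (sh w t x)‖ = ‖(sp w n0 A t).eval (ez x)‖ := by
  have h1 : tv A (sh w t x) = ez x ^ n0 * (sp w n0 A t).eval (ez x) := by
    unfold sp
    rw [tv_sum, Polynomial.eval_finsetSum, Finset.mul_sum]
    refine Finset.sum_congr rfl fun m hm => ?_
    rw [chi_sh, Polynomial.eval_monomial]
    have h2 : ez x ^ (wt w m) = ez x ^ n0 * ez x ^ (wt w m - n0).toNat := by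
      rw [← zpow_natCast, Int.toNat_of_nonneg (by linarith [hmin m hm]), ← zpow_add₀ (ez_ne x)]
      congr 1
      ring
    rw [h2]
    ring
  rw [h1, norm_mul, norm_zpow, norm_ez, one_zpow, one_mul]

lemma coeff_sp {w : Fin k → ℤ} {n0 : ℤ} {A : MvPolynomial (Fin k) ℤ}
    (hmin : ∀ m ∈ A.support, n0 ≤ wt w m) (t : Fin k → ℝ) (j : ℕ) :
    (sp w n0 A t).coeff j = tv (lev w (n0 + j) A) t := by
  classical
  unfold sp
  rw [Polynomial.finset_sum_coeff, tv_lev, Finset.sum_filter]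
  refine Finset.sum_congr rfl fun m hm => ?_
  rw [Polynomial.coeff_monomial]
  have h1 := hmin m hm
  by_cases h : wt w m = n0 + j
  · rw [if_pos h, if_pos (by omega)]
  · rw [if_neg h, if_neg (by omega)]

/-- the inequality on a slice -/
lemma slice_pt {w : Fin k → ℤ} {n0 : ℤ} {A : MvPolynomial (Fin k) ℤ}
    (hmin : ∀ m ∈ A.support, n0 ≤ wt w m) {s : ℕ} (hs : s ≠ 0)
    (hgap : ∀ m ∈ A.support, n0 < wt w m → n0 + s ≤ wt w m) {c : ℝ} (hc : 0 < c)
    (t : Fin k → ℝ) :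
    Real.log (‖tv (lev w n0 A) t‖ ^ 2 + c) +
      Real.log (1 + ‖tv (lev w (n0 + s) A) t‖ ^ 2 * c / (‖tv (lev w n0 A) t‖ ^ 2 + c) ^ 2) ≤
      ∫ x in (0:ℝ)..1, Real.log (‖tv A (sh w t x)‖ ^ 2 + c) := by
  have h := one_var (sp w n0 A t) hs (fun j hj1 hj2 => by
    rw [coeff_sp hmin]
    have h0 : lev w (n0 + j) A = 0 := by
      ext m
      rw [coeff_lev, MvPolynomial.coeff_zero]
      split_ifs with h
      · by_contra hne
        have h3 := hgap m (MvPolynomial.mem_support_iff.2 hne) (by omega)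
        omega
      · rfl
    rw [h0, J.tv_eq, map_zero]) hc
  rw [coeff_sp hmin, coeff_sp hmin, Nat.cast_zero, add_zero] at h
  simp only [norm_sp hmin]
  exact h

end

end Pool.Agent.R328.GD
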