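import Mathlib
import Pool.Agent.R328.UB

/-!
# The increment of the mean of `log (|A|² + |B|² + δ)`
-/

set_option autoImplicit false

open MeasureTheory

namespace Pool.Agent.R328.GD

open Pool.Agent.H261R2.CM

noncomputable section

variable {k : ℕ}

/-- the mean of `log (|A|² + |B|² + δ)` -/
def Ld (A B : MvPolynomial (Fin k) ℤ) (δ : ℝ) : ℝ :=
  ∫ t in Set.Icc (0 : Fin k → ℝ) 1, Real.log (‖tv A t‖ ^ 2 + (‖tv B t‖ ^ 2 + δ))

lemma cont_c (B : MvPolynomial (Fin k) ℤ) (δ : ℝ) : Continuous fun t => ‖tv B t‖ ^ 2 + δ :=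
  ((F_continuous_tv B).norm.pow 2).add continuous_const

lemma cont_L (A B : MvPolynomial (Fin k) ℤ) {δ : ℝ} (hδ : 0 < δ) :
    Continuous fun t => Real.log (‖tv A t‖ ^ 2 + (‖tv B t‖ ^ 2 + δ)) := by
  apply Continuous.log
  · exact ((F_continuous_tv A).norm.pow 2).add (cont_c B δ)
  · intro t
    positivity

/-- tangent of the convex function `log (1 + e ^ x)` -/
lemma tangent (x y : ℝ) : Real.log (1 + Real.exp y) +
    Real.exp y / (1 + Real.exp y) * (x - y) ≤ Real.log (1 + Real.exp x) := by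
  set θ : ℝ := Real.exp y / (1 + Real.exp y) with hθ
  have h1 : 0 < 1 + Real.exp y := by positivity
  have hθ0 : 0 ≤ θ := by positivity
  have hθ1 : θ ≤ 1 := by
    rw [hθ, div_le_one h1]
    linarith
  have hc := convexOn_exp.2 (Set.mem_univ (0 : ℝ)) (Set.mem_univ (x - y))
    (show (0 : ℝ) ≤ 1 - θ by linarith) hθ0 (by ring)
  simp only [smul_eq_mul, mul_zero, zero_add, Real.exp_zero, mul_one] at hc
  have e1 : (1 - θ) + θ * Real.exp (x - y) = (1 + Real.exp x) / (1 + Real.exp y) := by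
    rw [hθ, Real.exp_sub]
    field_simp
    ring
  rw [e1, le_div_iff₀ h1] at hc
  have h2 := Real.log_le_log (by positivity) hc
  rw [Real.log_mul (Real.exp_pos _).ne' h1.ne', Real.log_exp] at h2
  linarith

/-- Jensen's inequality for `log (1 + e ^ x)` -/
lemma jensen {a b B : MvPolynomial (Fin k) ℤ} (hb : b ≠ 0) (hB : B ≠ 0) {δ : ℝ} (hδ : 0 < δ) :
    Real.log (1 + Real.exp (-2 * Ld a B δ)) ≤
      ∫ t in Set.Icc (0 : Fin k → ℝ) 1,
        Real.log (1 + ‖tv b t‖ ^ 2 * (‖tv B t‖ ^ 2 + δ) / (‖tv a t‖ ^ 2 + (‖tv B t‖ ^ 2 + δ)) ^ 2) := by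
  set ℓ := Ld a B δ with hℓ
  set θ : ℝ := Real.exp (-2 * ℓ) / (1 + Real.exp (-2 * ℓ)) with hθ
  have hθ0 : 0 ≤ θ := by positivity
  set μ := (volume : Measure (Fin k → ℝ)).restrict (Set.Icc (0 : Fin k → ℝ) 1) with hμ
  set X : (Fin k → ℝ) → ℝ := fun t => 2 * Real.log ‖tv b t‖ + Real.log (‖tv B t‖ ^ 2 + δ) -
    2 * Real.log (‖tv a t‖ ^ 2 + (‖tv B t‖ ^ 2 + δ)) with hX
  have i1 : Integrable (fun t => Real.log ‖tv b t‖) μ := F_integrable hb
  have i2 : Integrable (fun t => Real.log (‖tv B t‖ ^ 2 + δ)) μ :=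
    (F_cont_f B δ hδ).integrableOn_Icc
  have i3 : Integrable (fun t => Real.log (‖tv a t‖ ^ 2 + (‖tv B t‖ ^ 2 + δ))) μ :=
    (cont_L a B hδ).integrableOn_Icc
  have iX : Integrable X μ := ((i1.const_mul 2).add i2).sub (i3.const_mul 2)
  have hIX : -2 * ℓ ≤ ∫ t, X t ∂μ := by
    have e1 : ∫ t, X t ∂μ = 2 * ∫ t, Real.log ‖tv b t‖ ∂μ + ∫ t, Real.log (‖tv B t‖ ^ 2 + δ) ∂μ -
        2 * ∫ t, Real.log (‖tv a t‖ ^ 2 + (‖tv B t‖ ^ 2 + δ)) ∂μ := by
      simp only [hX]
      have i12 : Integrable (fun t => 2 * Real.log ‖tv b t‖ + Real.log (‖tv B t‖ ^ 2 + δ)) μ :=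
        (i1.const_mul 2).add i2
      rw [integral_sub i12 (i3.const_mul 2),
        integral_add (i1.const_mul 2) i2, integral_const_mul, integral_const_mul]
    have e2 : 0 ≤ ∫ t, Real.log ‖tv b t‖ ∂μ := by
      have := one_le_mM b hb
      unfold mM at this
      rwa [Real.one_le_exp_iff] at this
    have e3 : 0 ≤ ∫ t, Real.log (‖tv B t‖ ^ 2 + δ) ∂μ := F_cube_nonneg hB δ hδ
    have e4 : ∫ t, Real.log (‖tv a t‖ ^ 2 + (‖tv B t‖ ^ 2 + δ)) ∂μ = ℓ := rfl
    rw [e1, e4]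
    linarith
  have hlow : ∫ t, (Real.log (1 + Real.exp (-2 * ℓ)) + θ * (X t - -2 * ℓ)) ∂μ ≤
      ∫ t, Real.log (1 + ‖tv b t‖ ^ 2 * (‖tv B t‖ ^ 2 + δ) /
        (‖tv a t‖ ^ 2 + (‖tv B t‖ ^ 2 + δ)) ^ 2) ∂μ := by
    apply integral_mono_ae
    · exact (integrable_const _).add ((iX.sub (integrable_const _)).const_mul θ)
    · apply Continuous.integrableOn_Icc
      apply Continuous.log
      · apply continuous_const.add
        apply Continuous.div
        · exact ((F_continuous_tv b).norm.pow 2).mul (cont_c B δ)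
        · exact (((F_continuous_tv a).norm.pow 2).add (cont_c B δ)).pow 2
        · intro t
          positivity
      · intro t
        positivity
    · filter_upwards [F_zero_null hb] with t ht
      have hb0 : 0 < ‖tv b t‖ := norm_pos_iff.mpr ht
      have hc0 : 0 < ‖tv B t‖ ^ 2 + δ := by positivity
      have ha0 : 0 < ‖tv a t‖ ^ 2 + (‖tv B t‖ ^ 2 + δ) := by positivity
      have e5 : ‖tv b t‖ ^ 2 * (‖tv B t‖ ^ 2 + δ) / (‖tv a t‖ ^ 2 + (‖tv B t‖ ^ 2 + δ)) ^ 2 =
          Real.exp (X t) := by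
        rw [← Real.exp_log (show 0 < ‖tv b t‖ ^ 2 * (‖tv B t‖ ^ 2 + δ) /
          (‖tv a t‖ ^ 2 + (‖tv B t‖ ^ 2 + δ)) ^ 2 by positivity)]
        congr 1
        rw [Real.log_div (by positivity) (by positivity), Real.log_mul (by positivity) hc0.ne',
          Real.log_pow, Real.log_pow]
        simp only [hX]
        push_cast
        ring
      rw [e5]
      exact tangent (X t) (-2 * ℓ)
  refine le_trans ?_ hlow
  have i4 : Integrable (fun t => X t - -2 * ℓ) μ := iX.sub (integrable_const _)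
  rw [integral_add (integrable_const _) (i4.const_mul θ),
    integral_const_mul, integral_sub iX (integrable_const _)]
  have hp : ∀ c : ℝ, ∫ _t, c ∂μ = c := by
    intro c
    rw [integral_const, probReal_univ, one_smul]
  rw [hp, hp]
  have : 0 ≤ θ * (∫ t, X t ∂μ - -2 * ℓ) := mul_nonneg hθ0 (by linarith)
  linarith

/-- one step: passing to a face of `A` in a direction in which `B` is homogeneous -/
theorem step {w : Fin k → ℤ} {n0 n : ℤ} {A B : MvPolynomial (Fin k) ℤ} (hB : B ≠ 0)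
    (hBw : ∀ m ∈ B.support, wt w m = n)
    (hmin : ∀ m ∈ A.support, n0 ≤ wt w m) {s : ℕ} (hs : s ≠ 0)
    (hgap : ∀ m ∈ A.support, n0 < wt w m → n0 + s ≤ wt w m)
    (hb : lev w (n0 + s) A ≠ 0) {δ : ℝ} (hδ : 0 < δ) :
    Ld (lev w n0 A) B δ + Real.log (1 + Real.exp (-2 * Ld (lev w n0 A) B δ)) ≤ Ld A B δ := by
  set a := lev w n0 A with ha
  set b := lev w (n0 + s) A with hb'
  set Φ : UnitAddTorus (Fin k) → ℝ := fun x =>
    Real.log (‖F_G A x‖ ^ 2 + (‖F_G B x‖ ^ 2 + δ)) with hΦ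
  have hΦc : Continuous Φ := by
    apply Continuous.log
    · exact ((F_G A).continuous.norm.pow 2).add (((F_G B).continuous.norm.pow 2).add continuous_const)
    · intro x
      positivity
  have e1 : ∀ t, Φ (F_pt t) = Real.log (‖tv A t‖ ^ 2 + (‖tv B t‖ ^ 2 + δ)) := by
    intro t
    simp only [hΦ, F_tv]
  have h1 := slice Φ hΦc w
  have e2 : ∫ t in Set.Icc (0 : Fin k → ℝ) 1, Φ (F_pt t) = Ld A B δ := by
    unfold Ld
    simp only [e1]
  rw [e2] at h1
  rw [h1]
  have hcont : Continuous fun t : Fin k → ℝ => ∫ x in (0:ℝ)..1, Φ (F_pt (sh w t x)) := by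
    apply intervalIntegral.continuous_parametric_intervalIntegral_of_continuous'
    exact hΦc.comp (F_continuous_pt.comp (sh_cont w))
  have hc1 : Continuous fun t : Fin k → ℝ => Real.log (‖tv a t‖ ^ 2 + (‖tv B t‖ ^ 2 + δ)) :=
    cont_L a B hδ
  have hc2 : Continuous fun t : Fin k → ℝ => Real.log (1 + ‖tv b t‖ ^ 2 * (‖tv B t‖ ^ 2 + δ) /
      (‖tv a t‖ ^ 2 + (‖tv B t‖ ^ 2 + δ)) ^ 2) := by
    apply Continuous.log
    · apply continuous_const.add
      apply Continuous.div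
      · exact ((F_continuous_tv b).norm.pow 2).mul (cont_c B δ)
      · exact (((F_continuous_tv a).norm.pow 2).add (cont_c B δ)).pow 2
      · intro t
        positivity
    · intro t
      positivity
  have h2 : ∫ t in Set.Icc (0 : Fin k → ℝ) 1, (Real.log (‖tv a t‖ ^ 2 + (‖tv B t‖ ^ 2 + δ)) +
      Real.log (1 + ‖tv b t‖ ^ 2 * (‖tv B t‖ ^ 2 + δ) /
        (‖tv a t‖ ^ 2 + (‖tv B t‖ ^ 2 + δ)) ^ 2)) ≤
      ∫ t in Set.Icc (0 : Fin k → ℝ) 1, ∫ x in (0:ℝ)..1, Φ (F_pt (sh w t x)) := by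
    apply integral_mono (hc1.add hc2).integrableOn_Icc hcont.integrableOn_Icc
    intro t
    have h3 := slice_pt hmin hs hgap (c := ‖tv B t‖ ^ 2 + δ) (by positivity) t
    refine h3.trans (le_of_eq ?_)
    apply intervalIntegral.integral_congr
    intro x _
    simp only [e1, norm_const hBw]
  rw [integral_add hc1.integrableOn_Icc hc2.integrableOn_Icc] at h2
  refine le_trans ?_ h2
  have h3 := jensen (a := a) (b := b) (B := B) hb hB hδ
  have e3 : ∫ t in Set.Icc (0 : Fin k → ℝ) 1, Real.log (‖tv a t‖ ^ 2 + (‖tv B t‖ ^ 2 + δ)) =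
      Ld a B δ := rfl
  rw [e3]
  linarith

/-- the start of the induction -/
lemma base {A B : MvPolynomial (Fin k) ℤ} (hA : A ≠ 0) (hB : B ≠ 0) {δ : ℝ} (hδ : 0 < δ) :
    Real.log 2 ≤ Ld A B δ := by
  set μ := (volume : Measure (Fin k → ℝ)).restrict (Set.Icc (0 : Fin k → ℝ) 1) with hμ
  have i1 : Integrable (fun t => Real.log ‖tv A t‖) μ := F_integrable hA
  have i2 : Integrable (fun t => Real.log ‖tv B t‖) μ := F_integrable hB
  have i12 : Integrable (fun t => Real.log ‖tv A t‖ + Real.log ‖tv B t‖) μ := i1.add i2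
  have h1 : ∫ t, (Real.log 2 + (Real.log ‖tv A t‖ + Real.log ‖tv B t‖)) ∂μ ≤ Ld A B δ := by
    unfold Ld
    apply integral_mono_ae ((integrable_const _).add i12) (cont_L A B hδ).integrableOn_Icc
    filter_upwards [F_zero_null hA, F_zero_null hB] with t h1 h2
    simp only [Pi.add_apply]
    have ha : 0 < ‖tv A t‖ := norm_pos_iff.mpr h1
    have hb : 0 < ‖tv B t‖ := norm_pos_iff.mpr h2
    rw [← Real.log_mul ha.ne' hb.ne', ← Real.log_mul (by norm_num) (by positivity)]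
    apply Real.log_le_log (by positivity)
    nlinarith [sq_nonneg (‖tv A t‖ - ‖tv B t‖)]
  rw [integral_add (integrable_const _) i12, integral_add i1 i2, integral_const,
    probReal_univ, one_smul] at h1
  have h2 : ∀ C : MvPolynomial (Fin k) ℤ, C ≠ 0 → 0 ≤ ∫ t, Real.log ‖tv C t‖ ∂μ := by
    intro C hC
    have := one_le_mM C hC
    unfold mM at this
    rwa [Real.one_le_exp_iff] at this
  have := h2 A hA
  have := h2 B hB
  linarith

/-- arithmetic of a step -/
lemma step_arith {x y : ℝ} {r : ℕ} (hx : 2 * (r : ℝ) + 4 ≤ Real.exp (2 * x))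
    (h : x + Real.log (1 + Real.exp (-2 * x)) ≤ y) : 2 * ((r + 1 : ℕ) : ℝ) + 4 ≤ Real.exp (2 * y) := by
  have h1 : 0 < 1 + Real.exp (-2 * x) := by positivity
  have h2 : Real.exp (2 * x) * (1 + Real.exp (-2 * x)) ^ 2 ≤ Real.exp (2 * y) := by
    calc Real.exp (2 * x) * (1 + Real.exp (-2 * x)) ^ 2
        = Real.exp (2 * (x + Real.log (1 + Real.exp (-2 * x)))) := by
          rw [mul_add, Real.exp_add]
          congr 1
          rw [two_mul, Real.exp_add, Real.exp_log h1]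
          ring
      _ ≤ _ := Real.exp_le_exp.2 (by linarith)
  have h3 : Real.exp (2 * x) * Real.exp (-2 * x) = 1 := by
    rw [← Real.exp_add]
    simp
  have h4 : Real.exp (2 * x) * (1 + Real.exp (-2 * x)) ^ 2 =
      Real.exp (2 * x) + 2 + Real.exp (-2 * x) := by
    have : Real.exp (2 * x) * (1 + Real.exp (-2 * x)) ^ 2 = Real.exp (2 * x) +
      2 * (Real.exp (2 * x) * Real.exp (-2 * x)) +
        (Real.exp (2 * x) * Real.exp (-2 * x)) * Real.exp (-2 * x) := by ring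
    rw [this, h3]
    ring
  have h5 := Real.exp_pos (-2 * x)
  push_cast
  linarith

end

end Pool.Agent.R328.GD
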