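import Mathlib
import Pool.Agent.R328.UC

/-!
# Facets relative to a subspace, and the induction
-/

set_option autoImplicit false

open MeasureTheory Module

namespace Pool.Agent.R328.GD

open Pool.Agent.H261R2.CM

noncomputable section

variable {k : ℕ}

/-- the rational vector of an exponent -/
def vc (m : Fin k →₀ ℕ) : Fin k → ℚ := fun i => ((m i : ℕ) : ℚ)

/-- the span of the differences of a finite set of exponents -/
def VS (T : Finset (Fin k →₀ ℕ)) : Submodule ℚ (Fin k → ℚ) := vectorSpan ℚ (vc '' (T : Set (Fin k →₀ ℕ)))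

lemma sub_mem_VS {T : Finset (Fin k →₀ ℕ)} {a b : Fin k →₀ ℕ} (ha : a ∈ T) (hb : b ∈ T) :
    vc a - vc b ∈ VS T := by
  have := vsub_mem_vectorSpan ℚ (Set.mem_image_of_mem vc (Finset.mem_coe.2 ha))
    (Set.mem_image_of_mem vc (Finset.mem_coe.2 hb))
  exact this

lemma VS_mono {S T : Finset (Fin k →₀ ℕ)} (h : S ⊆ T) : VS S ≤ VS T :=
  vectorSpan_mono ℚ (Set.image_mono (by exact_mod_cast h))

lemma VS_le {T : Finset (Fin k →₀ ℕ)} {W : Submodule ℚ (Fin k → ℚ)} {x0 : Fin k →₀ ℕ}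
    (hx0 : x0 ∈ T) (h : ∀ m ∈ T, vc m - vc x0 ∈ W) : VS T ≤ W := by
  unfold VS
  rw [vectorSpan_def, Submodule.span_le]
  rintro _ ⟨_, ⟨a, ha, rfl⟩, _, ⟨b, hb, rfl⟩, rfl⟩
  have h1 := W.sub_mem (h a (by exact_mod_cast ha)) (h b (by exact_mod_cast hb))
  rw [sub_sub_sub_cancel_right] at h1
  exact h1

/-- the face where `f` is minimal -/
def face (f : (Fin k → ℚ) →ₗ[ℚ] ℚ) (T : Finset (Fin k →₀ ℕ)) : Finset (Fin k →₀ ℕ) := by
  classical
  exact T.filter fun m => ∀ m' ∈ T, f (vc m) ≤ f (vc m')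

lemma mem_face {f : (Fin k → ℚ) →ₗ[ℚ] ℚ} {T : Finset (Fin k →₀ ℕ)} {m : Fin k →₀ ℕ} :
    m ∈ face f T ↔ m ∈ T ∧ ∀ m' ∈ T, f (vc m) ≤ f (vc m') := by
  classical
  unfold face
  rw [Finset.mem_filter]

lemma face_nonempty (f : (Fin k → ℚ) →ₗ[ℚ] ℚ) {T : Finset (Fin k →₀ ℕ)} (hT : T.Nonempty) :
    (face f T).Nonempty := by
  obtain ⟨m, hm, h⟩ := Finset.exists_min_image T (fun m => f (vc m)) hT
  exact ⟨m, mem_face.2 ⟨hm, h⟩⟩

/-- the facets of a finite set relative to a subspace -/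
theorem facet {T : Finset (Fin k →₀ ℕ)} (hT : T.Nonempty) (U : Submodule ℚ (Fin k → ℚ))
    (hU : ¬ VS T ≤ U) : ∃ f : (Fin k → ℚ) →ₗ[ℚ] ℚ, U ≤ LinearMap.ker f ∧
      (∃ m ∈ T, m ∉ face f T) ∧
      finrank ℚ ↥(VS T ⊔ U) ≤ finrank ℚ ↥(VS (face f T) ⊔ U) + 1 := by
  classical
  set P : ((Fin k → ℚ) →ₗ[ℚ] ℚ) → Prop := fun f => U ≤ LinearMap.ker f ∧ ∃ m ∈ T, m ∉ face f T
    with hP
  set d : ((Fin k → ℚ) →ₗ[ℚ] ℚ) → ℕ := fun f => finrank ℚ ↥(VS (face f T) ⊔ U) with hd
  -- existence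
  have hex : ∃ f, P f := by
    obtain ⟨v, hv, hvU⟩ := SetLike.not_le_iff_exists.1 hU
    obtain ⟨f, hf1, hf2⟩ := Submodule.exists_le_ker_of_notMem hvU
    refine ⟨f, hf2, ?_⟩
    by_contra hcon
    push Not at hcon
    obtain ⟨x0, hx0⟩ := hT
    apply hf1
    have : VS T ≤ LinearMap.ker f := by
      apply VS_le hx0
      intro m hm
      rw [LinearMap.mem_ker, map_sub]
      have h1 := (mem_face.1 (hcon m hm)).2 x0 hx0
      have h2 := (mem_face.1 (hcon x0 hx0)).2 m hm
      linarith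
    exact this hv
  -- a maximal one
  have hmax : ∃ f, P f ∧ ∀ g, P g → d g ≤ d f := by
    set N : Set ℕ := {n | ∃ f, P f ∧ d f = n} with hN
    have hne : N.Nonempty := by
      obtain ⟨f, hf⟩ := hex
      exact ⟨d f, f, hf, rfl⟩
    have hb : BddAbove N := by
      refine ⟨k, ?_⟩
      rintro _ ⟨f, -, rfl⟩
      have := Submodule.finrank_le (VS (face f T) ⊔ U)
      rwa [finrank_fin_fun] at this
    obtain ⟨f, hf, hfd⟩ := Nat.sSup_mem hne hb
    refine ⟨f, hf, fun g hg => ?_⟩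
    rw [hfd]
    exact le_csSup hb ⟨g, hg, rfl⟩
  obtain ⟨f, ⟨hfU, hfn⟩, hfm⟩ := hmax
  refine ⟨f, hfU, hfn, ?_⟩
  by_contra hcon
  push Not at hcon
  set W := VS T ⊔ U with hW
  set U' := VS (face f T) ⊔ U with hU'
  have hsub : face f T ⊆ T := fun m hm => (mem_face.1 hm).1
  have hU'W : U' ≤ W := sup_le_sup_right (VS_mono hsub) U
  obtain ⟨x0, hx0⟩ := face_nonempty f hT
  have hx0T := hsub hx0
  have hfx : ∀ m ∈ T, 0 ≤ f (vc m - vc x0) := by
    intro m hm
    rw [map_sub]
    have := (mem_face.1 hx0).2 m hm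
    linarith
  have hff : ∀ m ∈ face f T, f (vc m - vc x0) = 0 := by
    intro m hm
    rw [map_sub]
    have h1 := (mem_face.1 hx0).2 m (hsub hm)
    have h2 := (mem_face.1 hm).2 x0 hx0T
    linarith
  have hfpos : ∀ m ∈ T, m ∉ face f T → 0 < f (vc m - vc x0) := by
    intro m hm hmf
    rcases (hfx m hm).lt_or_eq with h | h
    · exact h
    · exfalso
      apply hmf
      refine mem_face.2 ⟨hm, fun m' hm' => ?_⟩
      rw [map_sub] at h
      have := (mem_face.1 hx0).2 m' hm'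
      linarith
  have hU'f : U' ≤ LinearMap.ker f := by
    apply sup_le _ hfU
    exact VS_le hx0 fun m hm => hff m hm
  -- a vector of `W` in the kernel of `f`, not in `U'`
  have hv0 : ∃ v ∈ W, f v = 0 ∧ v ∉ U' := by
    by_contra hno
    push Not at hno
    have h1 := LinearMap.finrank_range_add_finrank_ker (f.domRestrict W)
    have h2 : finrank ℚ ↥(LinearMap.range (f.domRestrict W)) ≤ 1 := by
      have := Submodule.finrank_le (LinearMap.range (f.domRestrict W))
      rwa [finrank_self] at this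
    have h3 : finrank ℚ ↥(LinearMap.ker (f.domRestrict W)) ≤ finrank ℚ ↥U' := by
      have h4 : (LinearMap.ker (f.domRestrict W)).map W.subtype ≤ U' := by
        rintro _ ⟨y, hy, rfl⟩
        exact hno _ y.2 (by simpa using hy)
      have h5 := Submodule.finrank_mono h4
      rwa [Submodule.finrank_map_subtype_eq] at h5
    omega
  obtain ⟨v0, hv0W, hv0f, hv0U⟩ := hv0
  obtain ⟨g0, hg01, hg02⟩ := Submodule.exists_le_ker_of_notMem hv0U
  -- the critical parameter
  have hT' : (T \ face f T).Nonempty := by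
    obtain ⟨m, hm, hmf⟩ := hfn
    exact ⟨m, Finset.mem_sdiff.2 ⟨hm, hmf⟩⟩
  obtain ⟨m1, hm1, hmin⟩ := Finset.exists_min_image (T \ face f T)
    (fun m => g0 (vc m - vc x0) / f (vc m - vc x0)) hT'
  rw [Finset.mem_sdiff] at hm1
  set θ : ℚ := g0 (vc m1 - vc x0) / f (vc m1 - vc x0) with hθ
  set g : (Fin k → ℚ) →ₗ[ℚ] ℚ := g0 - θ • f with hg
  have hgx : ∀ v, g v = g0 v - θ * f v := fun v => rfl
  have hg1 : ∀ m ∈ face f T, g (vc m - vc x0) = 0 := by
    intro m hm
    have h1 : vc m - vc x0 ∈ U' := Submodule.mem_sup_left (sub_mem_VS hm hx0)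
    rw [hgx, LinearMap.mem_ker.1 (hg02 h1), hff m hm]
    ring
  have hg2 : ∀ m ∈ T, 0 ≤ g (vc m - vc x0) := by
    intro m hm
    by_cases hmf : m ∈ face f T
    · rw [hg1 m hmf]
    · have h1 := hmin m (Finset.mem_sdiff.2 ⟨hm, hmf⟩)
      have h2 := hfpos m hm hmf
      rw [le_div_iff₀ h2] at h1
      rw [hgx]
      linarith
  have hg3 : g (vc m1 - vc x0) = 0 := by
    rw [hgx, hθ, div_mul_cancel₀ _ (hfpos m1 hm1.1 hm1.2).ne', sub_self]
  have hgface : ∀ m ∈ T, g (vc m - vc x0) = 0 → m ∈ face g T := by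
    intro m hm h
    refine mem_face.2 ⟨hm, fun m' hm' => ?_⟩
    have h1 := hg2 m' hm'
    rw [map_sub] at h h1
    linarith
  have hPg : P g := by
    refine ⟨?_, ?_⟩
    · intro u hu
      have h1 : u ∈ U' := Submodule.mem_sup_right hu
      rw [LinearMap.mem_ker, hgx, LinearMap.mem_ker.1 (hg02 h1), LinearMap.mem_ker.1 (hfU hu)]
      ring
    · by_contra hall
      push Not at hall
      have h1 : W ≤ LinearMap.ker g := by
        apply sup_le
        · apply VS_le hx0T
          intro m hm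
          rw [LinearMap.mem_ker, map_sub]
          have h1 := (mem_face.1 (hall m hm)).2 x0 hx0T
          have h2 := (mem_face.1 (hall x0 hx0T)).2 m hm
          linarith
        · intro u hu
          have h1 : u ∈ U' := Submodule.mem_sup_right hu
          rw [LinearMap.mem_ker, hgx, LinearMap.mem_ker.1 (hg02 h1), LinearMap.mem_ker.1 (hfU hu)]
          ring
      have h2 := LinearMap.mem_ker.1 (h1 hv0W)
      rw [hgx, hv0f, mul_zero, sub_zero] at h2
      exact hg01 h2
  have hlt : d f < d g := by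
    have h1 : U' ≤ VS (face g T) ⊔ U := by
      apply sup_le_sup_right
      apply VS_mono
      intro m hm
      exact hgface m (hsub hm) (hg1 m hm)
    have h2 : vc m1 - vc x0 ∈ VS (face g T) ⊔ U :=
      Submodule.mem_sup_left (sub_mem_VS (hgface m1 hm1.1 hg3) (hgface x0 hx0T (hg1 x0 hx0)))
    have h3 : vc m1 - vc x0 ∉ U' := by
      intro h
      have h4 := LinearMap.mem_ker.1 (hU'f h)
      have h5 := hfpos m1 hm1.1 hm1.2
      linarith
    exact Submodule.finrank_lt_finrank_of_lt (lt_of_le_of_ne h1 fun h => h3 (by rw [hU', h]; exact h2))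
  exact absurd (hfm g hPg) (not_le.2 hlt)

/-- integral multiples of functionals -/
lemma exists_int (f : (Fin k → ℚ) →ₗ[ℚ] ℚ) : ∃ (w : Fin k → ℤ) (D : ℚ), 0 < D ∧
    ∀ m : Fin k →₀ ℕ, (wt w m : ℚ) = D * f (vc m) := by
  classical
  set c : Fin k → ℚ := fun i => f (Pi.single i 1) with hc
  set D : ℕ := ∏ i, (c i).den with hD
  have hD0 : 0 < D := Finset.prod_pos fun i _ => (c i).den_pos
  have h1 : ∀ i, ∃ z : ℤ, (z : ℚ) = D * c i := by
    intro i
    obtain ⟨e, he⟩ := Finset.dvd_prod_of_mem (fun i => (c i).den) (Finset.mem_univ i)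
    refine ⟨(c i).num * e, ?_⟩
    have h2 : (D : ℚ) = (c i).den * e := by
      rw [hD]
      exact_mod_cast he
    have h3 := Rat.mul_den_eq_num (c i)
    push_cast
    rw [h2, ← h3]
    ring
  choose w hw using h1
  refine ⟨w, D, by exact_mod_cast hD0, fun m => ?_⟩
  have h2 : f (vc m) = ∑ i, (m i : ℚ) * c i := by
    have h3 : vc m = ∑ i, (m i : ℚ) • (Pi.single i (1 : ℚ) : Fin k → ℚ) := by
      ext j
      simp [vc, Finset.sum_apply, Pi.single_apply]
    rw [h3, map_sum]
    refine Finset.sum_congr rfl fun i _ => ?_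
    rw [map_smul, smul_eq_mul]
  unfold wt
  rw [h2, Finset.mul_sum]
  push_cast
  refine Finset.sum_congr rfl fun i _ => ?_
  rw [hw]
  ring

/-- the induction on the relative dimension -/
theorem main_delta {δ : ℝ} (hδ : 0 < δ) (r : ℕ) : ∀ A B : MvPolynomial (Fin k) ℤ, A ≠ 0 → B ≠ 0 →
    finrank ℚ ↥(VS B.support) + r ≤ finrank ℚ ↥(VS A.support ⊔ VS B.support) →
    2 * (r : ℝ) + 4 ≤ Real.exp (2 * Ld A B δ) := by
  classical
  induction r with
  | zero =>
    intro A B hA hB _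
    have h := base hA hB hδ
    have h1 : Real.exp (2 * Real.log 2) ≤ Real.exp (2 * Ld A B δ) := Real.exp_le_exp.2 (by linarith)
    rw [two_mul, Real.exp_add, Real.exp_log (by norm_num)] at h1
    norm_num at h1 ⊢
    exact h1
  | succ r ih =>
    intro A B hA hB hr
    have hT : A.support.Nonempty := MvPolynomial.support_nonempty.2 hA
    have hnot : ¬ VS A.support ≤ VS B.support := by
      intro h
      rw [sup_eq_right.2 h] at hr
      omega
    obtain ⟨f, hfU, ⟨m1, hm1, hm1f⟩, hdim⟩ := facet hT (VS B.support) hnot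
    obtain ⟨w, D, hD, hw⟩ := exists_int f
    obtain ⟨x0, hx0⟩ := face_nonempty f hT
    have hx0A := (mem_face.1 hx0).1
    set n0 : ℤ := wt w x0 with hn0
    have hle : ∀ a b : Fin k →₀ ℕ, wt w a ≤ wt w b ↔ f (vc a) ≤ f (vc b) := by
      intro a b
      have h1 : ((wt w a : ℤ) : ℚ) ≤ ((wt w b : ℤ) : ℚ) ↔ f (vc a) ≤ f (vc b) := by
        rw [hw, hw]
        exact mul_le_mul_iff_right₀ hD
      rw [← h1]
      exact Int.cast_le.symm
    have hmin : ∀ m ∈ A.support, n0 ≤ wt w m := fun m hm =>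
      (hle x0 m).2 ((mem_face.1 hx0).2 m hm)
    have hface : ∀ m ∈ A.support, (wt w m = n0 ↔ m ∈ face f A.support) := by
      intro m hm
      constructor
      · intro h
        refine mem_face.2 ⟨hm, fun m' hm' => ?_⟩
        rw [← hle, h]
        exact hmin m' hm'
      · intro h
        apply le_antisymm _ (hmin m hm)
        exact (hle m x0).2 ((mem_face.1 h).2 x0 hx0A)
    -- the next weight
    have hT' : (A.support.filter fun m => n0 < wt w m).Nonempty := by
      refine ⟨m1, Finset.mem_filter.2 ⟨hm1, lt_of_le_of_ne (hmin m1 hm1) fun h => hm1f ?_⟩⟩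
      exact (hface m1 hm1).1 h.symm
    obtain ⟨m2, hm2, hm2min⟩ := Finset.exists_min_image _ (fun m => wt w m) hT'
    rw [Finset.mem_filter] at hm2
    obtain ⟨s, hs⟩ := Int.eq_ofNat_of_zero_le (show 0 ≤ wt w m2 - n0 by linarith [hm2.2])
    have hs0 : s ≠ 0 := by
      rintro rfl
      have := hm2.2
      simp only [Nat.cast_zero] at hs
      omega
    have hw2 : wt w m2 = n0 + s := by omega
    have hgap : ∀ m ∈ A.support, n0 < wt w m → n0 + s ≤ wt w m := by
      intro m hm h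
      rw [← hw2]
      exact hm2min m (Finset.mem_filter.2 ⟨hm, h⟩)
    have hb : lev w (n0 + s) A ≠ 0 := by
      apply MvPolynomial.support_nonempty.1
      exact ⟨m2, mem_lev.2 ⟨hm2.1, hw2⟩⟩
    have ha : lev w n0 A ≠ 0 := by
      apply MvPolynomial.support_nonempty.1
      exact ⟨x0, mem_lev.2 ⟨hx0A, rfl⟩⟩
    have hsupp : (lev w n0 A).support = face f A.support := by
      ext m
      rw [mem_lev]
      constructor
      · rintro ⟨h1, h2⟩
        exact (hface m h1).1 h2
      · intro h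
        have h1 := (mem_face.1 h).1
        exact ⟨h1, (hface m h1).2 h⟩
    -- homogeneity of `B`
    obtain ⟨y0, hy0⟩ := MvPolynomial.support_nonempty.2 hB
    have hBw : ∀ m ∈ B.support, wt w m = wt w y0 := by
      intro m hm
      have h1 := LinearMap.mem_ker.1 (hfU (sub_mem_VS hm hy0))
      rw [map_sub] at h1
      have h2 : ((wt w m : ℤ) : ℚ) = ((wt w y0 : ℤ) : ℚ) := by
        rw [hw, hw]
        congr 1
        linarith
      exact_mod_cast h2
    have h1 := step hB hBw hmin hs0 hgap hb hδ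
    have h2 := ih (lev w n0 A) B ha hB (by rw [hsupp]; omega)
    exact step_arith h2 h1

end

end Pool.Agent.R328.GD
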