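import Mathlib
import Pool.Agent.R328.UD
import Pool.Agent.H887R3.LW.MV4

/-!
# Final inequalities for pairs and for the levels of a polynomial
-/

set_option autoImplicit false

open MeasureTheory Module

namespace Pool.Agent.R328.GD

open Pool.Agent.H261R2.CM

noncomputable section

variable {k : ℕ}

lemma log_mM (A : MvPolynomial (Fin k) ℤ) :
    Real.log (mM A) = ∫ t in Set.Icc (0 : Fin k → ℝ) 1, Real.log ‖tv A t‖ := by
  unfold mM
  rw [Real.log_exp]

lemma Ld_lim {A : MvPolynomial (Fin k) ℤ} (hA : A ≠ 0) (B : MvPolynomial (Fin k) ℤ) {η : ℝ}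
    (hη : 0 < η) : ∃ δ > 0, Ld A B δ ≤ Real.log 2 + 2 * mx A B + η := by
  obtain ⟨δ, hδ, hδx⟩ := mM_upper A hA (2 * Real.log (mM A) + η) (by linarith)
  refine ⟨δ, hδ, ?_⟩
  set μ := (volume : Measure (Fin k → ℝ)).restrict (Set.Icc (0 : Fin k → ℝ) 1) with hμ
  have i1 : Integrable (fun t => Real.log (thM ‖tv A t‖ ‖tv B t‖)) μ :=
    K4_intk thM thM_cont thM_ge A B hA
  have i2 : Integrable (fun t => Real.log (‖tv A t‖ ^ 2 + δ)) μ := (F_cont_f A δ hδ).integrableOn_Icc
  have i3 : Integrable (fun t => Real.log ‖tv A t‖) μ := F_integrable hA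
  have i4 : Integrable (fun t => Real.log 2 + Real.log (thM ‖tv A t‖ ‖tv B t‖)) μ :=
    (integrable_const _).add i1
  have i5 : Integrable (fun t => Real.log (‖tv A t‖ ^ 2 + δ) - 2 * Real.log ‖tv A t‖) μ :=
    i2.sub (i3.const_mul 2)
  have h1 : Ld A B δ ≤ ∫ t, ((Real.log 2 + Real.log (thM ‖tv A t‖ ‖tv B t‖)) +
      (Real.log (‖tv A t‖ ^ 2 + δ) - 2 * Real.log ‖tv A t‖)) ∂μ := by
    unfold Ld
    apply integral_mono_ae (cont_L A B hδ).integrableOn_Icc (i4.add i5)
    filter_upwards [F_zero_null hA] with t ht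
    have ha : 0 < ‖tv A t‖ := norm_pos_iff.mpr ht
    have hb := norm_nonneg (tv B t)
    have hm : 0 < thM ‖tv A t‖ ‖tv B t‖ := lt_of_lt_of_le (by positivity) (thM_ge _ _)
    simp only [Pi.add_apply]
    have e1 : 2 * Real.log ‖tv A t‖ = Real.log (‖tv A t‖ ^ 2) := by
      rw [Real.log_pow]; push_cast; ring
    rw [e1, ← Real.log_mul (by norm_num) hm.ne', ← Real.log_div (by positivity) (by positivity),
      ← Real.log_mul (by positivity) (by positivity)]
    apply Real.log_le_log (by positivity)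
    rw [← mul_div_assoc, le_div_iff₀ (by positivity)]
    have h2 : ‖tv A t‖ ^ 2 ≤ thM ‖tv A t‖ ‖tv B t‖ := le_max_left _ _
    have h3 : ‖tv B t‖ ^ 2 ≤ thM ‖tv A t‖ ‖tv B t‖ := le_max_right _ _
    have h4 : (‖tv A t‖ ^ 2 + ‖tv B t‖ ^ 2) * (‖tv A t‖ ^ 2 + δ) ≤
        2 * thM ‖tv A t‖ ‖tv B t‖ * (‖tv A t‖ ^ 2 + δ) :=
      mul_le_mul_of_nonneg_right (by linarith) (by positivity)
    refine le_trans ?_ h4
    have h5 : 0 ≤ ‖tv B t‖ ^ 2 * δ := by positivity
    nlinarith
  rw [integral_add i4 i5, integral_add (integrable_const _) i1, integral_sub i2 (i3.const_mul 2),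
    integral_const_mul, integral_const, probReal_univ, one_smul] at h1
  rw [← mx_eq, ← log_mM] at h1
  linarith

/-- the inequality for pairs -/
theorem pair_ineq {A B : MvPolynomial (Fin k) ℤ} (hA : A ≠ 0) (hB : B ≠ 0) {r : ℕ}
    (hr : finrank ℚ ↥(VS B.support) + r ≤ finrank ℚ ↥(VS A.support ⊔ VS B.support)) :
    (r : ℝ) + 2 ≤ 2 * Real.exp (mx A B) ^ 4 := by
  apply le_of_forall_pos_le_add
  intro ε hε
  set M : ℝ := 2 * Real.exp (mx A B) ^ 4 with hM
  have hM0 : 0 < M := by positivity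
  obtain ⟨η, hη, hη'⟩ : ∃ η > 0, M * Real.exp (2 * η) ≤ M + ε := by
    refine ⟨Real.log ((M + ε) / M) / 2, ?_, ?_⟩
    · have : 0 < Real.log ((M + ε) / M) := Real.log_pos (by rw [one_lt_div hM0]; linarith)
      linarith
    · rw [mul_div_cancel₀ _ two_ne_zero, Real.exp_log (by positivity), mul_div_cancel₀ _ hM0.ne']
  obtain ⟨δ, hδ, h⟩ := Ld_lim hA B hη
  have h1 := main_delta hδ r A B hA hB hr
  have h2 : Real.exp (2 * Ld A B δ) ≤ 2 * (M * Real.exp (2 * η)) := by
    calc Real.exp (2 * Ld A B δ) ≤ Real.exp (2 * (Real.log 2 + 2 * mx A B + η)) :=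
          Real.exp_le_exp.2 (by linarith)
      _ = 2 * (M * Real.exp (2 * η)) := by
          have e1 : 2 * (Real.log 2 + 2 * mx A B + η) =
              (Real.log 2 + Real.log 2) + (((4 : ℕ) : ℝ) * mx A B + 2 * η) := by
            push_cast; ring
          rw [e1, Real.exp_add, Real.exp_add, Real.exp_add, Real.exp_log (by norm_num),
            Real.exp_nat_mul, hM]
          ring
  linarith

lemma VS_mul {A B : MvPolynomial (Fin k) ℤ} (hA : A ≠ 0) (hB : B ≠ 0) :
    VS (A * B).support ≤ VS A.support ⊔ VS B.support := by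
  obtain ⟨x0, hx0⟩ := MvPolynomial.support_nonempty.2 (mul_ne_zero hA hB)
  obtain ⟨a0, ha0, b0, hb0, rfl⟩ := Pool.Agent.H887R3.LW.mem_add_of_mem_mul hx0
  apply VS_le hx0
  intro m hm
  obtain ⟨a, ha, b, hb, rfl⟩ := Pool.Agent.H887R3.LW.mem_add_of_mem_mul hm
  have e : vc (a + b) - vc (a0 + b0) = (vc a - vc a0) + (vc b - vc b0) := by
    ext i
    simp only [vc, Pi.sub_apply, Pi.add_apply, Finsupp.add_apply]
    push_cast
    ring
  rw [e]
  exact Submodule.add_mem_sup (sub_mem_VS ha ha0) (sub_mem_VS hb hb0)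

/-- the dimension of the Newton polytope -/
def ND (F : MvPolynomial (Fin k) ℤ) : ℕ := finrank ℚ ↥(VS F.support)

lemma mx_comm (A B : MvPolynomial (Fin k) ℤ) : mx A B = mx B A := by
  unfold mx
  simp only [max_comm]

theorem pair_dim {A B : MvPolynomial (Fin k) ℤ} (hA : A ≠ 0) (hB : B ≠ 0) :
    (ND (A * B) : ℝ) + 2 ≤ 2 * Real.exp (mx A B) ^ 4 + min (ND A : ℝ) (ND B) := by
  have key : ∀ A B : MvPolynomial (Fin k) ℤ, A ≠ 0 → B ≠ 0 →
      (ND (A * B) : ℝ) + 2 ≤ 2 * Real.exp (mx A B) ^ 4 + ND B := by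
    intro A B hA hB
    have h1 := Submodule.finrank_mono (VS_mul hA hB)
    have h0 : ND B ≤ finrank ℚ ↥(VS A.support ⊔ VS B.support) :=
      Submodule.finrank_mono (le_sup_right)
    have h2 := pair_ineq hA hB (r := finrank ℚ ↥(VS A.support ⊔ VS B.support) - ND B) (by
      change ND B + _ ≤ _
      omega)
    rw [Nat.cast_sub h0] at h2
    have h3 : (ND (A * B) : ℝ) ≤ (finrank ℚ ↥(VS A.support ⊔ VS B.support) : ℝ) := by
      exact_mod_cast h1
    linarith
  rcases le_total (ND A : ℝ) (ND B) with h | h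
  · rw [min_eq_left h, mul_comm A B, mx_comm A B]
    exact key B A hB hA
  · rw [min_eq_right h]
    exact key A B hA hB

/-! ### levels -/

lemma log_mahler (q : Polynomial ℂ) :
    Real.log q.mahlerMeasure = ∫ t in (0:ℝ)..1, Real.log ‖q.eval (ez t)‖ := by
  rw [← Polynomial.logMahlerMeasure_eq_log_MahlerMeasure, Polynomial.logMahlerMeasure_def,
    D_circleAverage (fun z => Real.log ‖q.eval z‖)]

lemma int_log (q : Polynomial ℂ) :
    IntervalIntegrable (fun t => Real.log ‖q.eval (ez t)‖) volume 0 1 := by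
  have h := Polynomial.intervalIntegrable_mahlerMeasure q
  have h2 := h.comp_mul_left (c := 2 * Real.pi)
  have hpi : (2 * Real.pi : ℝ) ≠ 0 := by positivity
  rw [zero_div, div_self hpi] at h2
  have h3 : (fun t => Real.log ‖q.eval (ez t)‖) =
      fun t => Real.log ‖q.eval (circleMap 0 1 (2 * Real.pi * t))‖ := by
    ext t
    simp only [D_ez_eq]
  rw [h3]
  exact h2

lemma ae_ne {q : Polynomial ℂ} (hq : q ≠ 0) : ∀ᵐ t : ℝ, q.eval (ez t) ≠ 0 := by
  have h1 : {t : ℝ | q.eval (ez t) = 0} ⊆ ⋃ z ∈ (q.roots.toFinset : Set ℂ), {t : ℝ | ez t = z} := by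
    intro t ht
    simp only [Set.mem_iUnion, Set.mem_ofPred_eq]
    refine ⟨ez t, ?_, rfl⟩
    rw [Finset.mem_coe, Multiset.mem_toFinset, Polynomial.mem_roots hq]
    exact ht
  have h2 : ∀ z : ℂ, {t : ℝ | ez t = z}.Countable := by
    intro z
    by_cases hz : ∃ s : ℝ, ez s = z
    · obtain ⟨s, rfl⟩ := hz
      refine (Set.countable_range fun n : ℤ => s + n).mono ?_
      intro t ht
      simp only [Set.mem_ofPred_eq, ez] at ht
      rw [Complex.exp_eq_exp_iff_exists_int] at ht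
      obtain ⟨n, hn⟩ := ht
      refine ⟨n, ?_⟩
      have hne : (2 * (Real.pi : ℂ) * Complex.I) ≠ 0 := Complex.two_pi_I_ne_zero
      have h3 : (t : ℂ) = s + n := by
        apply mul_left_cancel₀ hne
        rw [hn]
        ring
      simp only []
      exact_mod_cast h3.symm
    · have : {t : ℝ | ez t = z} = ∅ := by
        ext t
        simp only [Set.mem_ofPred_eq, Set.mem_empty_iff_false, iff_false]
        exact fun h => hz ⟨t, h⟩
      rw [this]
      exact Set.countable_empty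
  have h3 : {t : ℝ | q.eval (ez t) = 0}.Countable :=
    ((Set.Countable.biUnion (Finset.countable_toSet _) fun z _ => h2 z)).mono h1
  rw [ae_iff]
  simpa using h3.measure_zero volume

lemma mahler_le {q : Polynomial ℂ} (hq : q ≠ 0) {δ : ℝ} (hδ : 0 < δ) :
    2 * Real.log q.mahlerMeasure ≤ ∫ t in (0:ℝ)..1, Real.log (‖q.eval (ez t)‖ ^ 2 + δ) := by
  rw [log_mahler, ← intervalIntegral.integral_const_mul]
  refine intervalIntegral.integral_mono_ae zero_le_one
    ((int_log q).const_mul 2)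
    ((log_cont q hδ).intervalIntegrable _ _) ?_
  filter_upwards [ae_ne hq] with t ht
  have h1 : 0 < ‖q.eval (ez t)‖ := norm_pos_iff.mpr ht
  have h2 : 2 * Real.log ‖q.eval (ez t)‖ = Real.log (‖q.eval (ez t)‖ ^ 2) := by
    rw [Real.log_pow]; push_cast; ring
  rw [h2]
  exact Real.log_le_log (by positivity) (by linarith)

lemma natDegree_sp {w : Fin k → ℤ} {n0 : ℤ} {A : MvPolynomial (Fin k) ℤ} {N : ℕ}
    (hr : ∀ m ∈ A.support, n0 ≤ wt w m ∧ wt w m ≤ n0 + N) (t : Fin k → ℝ) :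
    (sp w n0 A t).natDegree ≤ N := by
  unfold sp
  apply Polynomial.natDegree_sum_le_of_forall_le
  intro m hm
  refine (Polynomial.natDegree_monomial_le _).trans ?_
  have := hr m hm
  omega

/-- the height of two levels of a polynomial -/
theorem level_mx {w : Fin k → ℤ} {n : ℤ} {P : MvPolynomial (Fin k) ℤ} (hP : P ≠ 0) {N : ℕ}
    (hr : ∀ m ∈ P.support, n ≤ wt w m ∧ wt w m ≤ n + N) {i j : ℕ} {C : ℝ} (hC : 1 ≤ C)
    (hc : ∀ q : Polynomial ℂ, q.natDegree ≤ N → ‖q.coeff i‖ ≤ C * q.mahlerMeasure ∧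
      ‖q.coeff j‖ ≤ C * q.mahlerMeasure)
    (hi : lev w (n + i) P ≠ 0) :
    mx (lev w (n + i) P) (lev w (n + j) P) ≤ Real.log C + Real.log (mM P) := by
  set A := lev w (n + i) P with hA
  set B := lev w (n + j) P with hB
  have hmin : ∀ m ∈ P.support, n ≤ wt w m := fun m hm => (hr m hm).1
  apply le_of_forall_pos_le_add
  intro η hη
  obtain ⟨δ, hδ, hδx⟩ := mM_upper P hP (2 * Real.log (mM P) + η) (by linarith)
  set Φ : UnitAddTorus (Fin k) → ℝ := fun x => Real.log (‖F_G P x‖ ^ 2 + δ) with hΦ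
  have hΦc : Continuous Φ := by
    apply Continuous.log
    · exact ((F_G P).continuous.norm.pow 2).add continuous_const
    · intro x
      positivity
  have e1 : ∀ t, Φ (F_pt t) = Real.log (‖tv P t‖ ^ 2 + δ) := by
    intro t
    simp only [hΦ, F_tv]
  have h1 := slice Φ hΦc w
  simp only [e1] at h1
  have hcont : Continuous fun t : Fin k → ℝ =>
      ∫ x in (0:ℝ)..1, Real.log (‖tv P (sh w t x)‖ ^ 2 + δ) := by
    apply intervalIntegral.continuous_parametric_intervalIntegral_of_continuous'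
    have h2 := hΦc.comp (F_continuous_pt.comp (sh_cont w))
    refine h2.congr fun q => ?_
    exact e1 _
  set μ := (volume : Measure (Fin k → ℝ)).restrict (Set.Icc (0 : Fin k → ℝ) 1) with hμ
  have i1 : Integrable (fun t => Real.log (thM ‖tv A t‖ ‖tv B t‖)) μ :=
    K4_intk thM thM_cont thM_ge A B hi
  have h2 : ∫ t, (Real.log (thM ‖tv A t‖ ‖tv B t‖) - 2 * Real.log C) ∂μ ≤
      ∫ t, (∫ x in (0:ℝ)..1, Real.log (‖tv P (sh w t x)‖ ^ 2 + δ)) ∂μ := by
    apply integral_mono_ae (i1.sub (integrable_const _)) hcont.integrableOn_Icc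
    filter_upwards [F_zero_null hi] with t ht
    have ha : 0 < ‖tv A t‖ := norm_pos_iff.mpr ht
    have hm : 0 < thM ‖tv A t‖ ‖tv B t‖ := lt_of_lt_of_le (by positivity) (thM_ge _ _)
    set q := sp w n P t with hq
    have hqi : q.coeff i = tv A t := coeff_sp hmin t i
    have hqj : q.coeff j = tv B t := coeff_sp hmin t j
    have hq0 : q ≠ 0 := by
      intro h
      rw [h, Polynomial.coeff_zero] at hqi
      exact ht hqi.symm
    have hM : 0 < q.mahlerMeasure := Polynomial.mahlerMeasure_pos_of_ne_zero hq0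
    obtain ⟨hc1, hc2⟩ := hc q (natDegree_sp hr t)
    rw [hqi] at hc1
    rw [hqj] at hc2
    have h3 : thM ‖tv A t‖ ‖tv B t‖ ≤ (C * q.mahlerMeasure) ^ 2 :=
      max_le (pow_le_pow_left₀ (norm_nonneg _) hc1 2) (pow_le_pow_left₀ (norm_nonneg _) hc2 2)
    have h4 := Real.log_le_log hm h3
    rw [Real.log_pow, Real.log_mul (by positivity) hM.ne'] at h4
    have h5 := mahler_le hq0 hδ
    have h6 : ∫ x in (0:ℝ)..1, Real.log (‖tv P (sh w t x)‖ ^ 2 + δ) =
        ∫ x in (0:ℝ)..1, Real.log (‖q.eval (ez x)‖ ^ 2 + δ) := by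
      apply intervalIntegral.integral_congr
      intro x _
      simp only [norm_sp hmin, hq]
    change Real.log (thM ‖tv A t‖ ‖tv B t‖) - 2 * Real.log C ≤ _
    rw [h6]
    push_cast at h4
    linarith
  rw [integral_sub i1 (integrable_const _), integral_const, probReal_univ, one_smul, ← mx_eq,
    ← h1] at h2
  linarith

lemma coeff_le_two {q : Polynomial ℂ} {N : ℕ} (h : q.natDegree ≤ N) (j : ℕ) :
    ‖q.coeff j‖ ≤ 2 ^ N * q.mahlerMeasure := by
  refine (Polynomial.norm_coeff_le_choose_mul_mahlerMeasure j q).trans ?_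
  apply mul_le_mul_of_nonneg_right _ (Polynomial.mahlerMeasure_nonneg q)
  calc ((q.natDegree.choose j : ℕ) : ℝ) ≤ ((2 ^ q.natDegree : ℕ) : ℝ) := by
        exact_mod_cast Nat.choose_le_two_pow _ _
    _ = 2 ^ q.natDegree := by push_cast; rfl
    _ ≤ 2 ^ N := pow_le_pow_right₀ (by norm_num) h

lemma coeff_le_one {q : Polynomial ℂ} {N : ℕ} (h : q.natDegree ≤ N) :
    ‖q.coeff 0‖ ≤ 1 * q.mahlerMeasure ∧ ‖q.coeff N‖ ≤ 1 * q.mahlerMeasure := by
  constructor
  · have h1 := Polynomial.norm_coeff_le_choose_mul_mahlerMeasure 0 q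
    rwa [Nat.choose_zero_right, Nat.cast_one] at h1
  · have h1 := Polynomial.norm_coeff_le_choose_mul_mahlerMeasure N q
    rcases h.lt_or_eq with h2 | h2
    · rw [Polynomial.coeff_eq_zero_of_natDegree_lt h2, norm_zero, one_mul]
      exact Polynomial.mahlerMeasure_nonneg q
    · subst h2
      rwa [Nat.choose_self, Nat.cast_one] at h1

/-- the dimensions of two levels -/
theorem level_dim {w : Fin k → ℤ} {n : ℤ} {P : MvPolynomial (Fin k) ℤ} (hP : P ≠ 0) {N : ℕ}
    (hr : ∀ m ∈ P.support, n ≤ wt w m ∧ wt w m ≤ n + N) {i j : ℕ}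
    (hi : lev w (n + i) P ≠ 0) (hj : lev w (n + j) P ≠ 0) :
    (ND (lev w (n + i) P * lev w (n + j) P) : ℝ) + 2 ≤ 2 * (2 ^ N * mM P) ^ 4 +
      min (ND (lev w (n + i) P) : ℝ) (ND (lev w (n + j) P)) := by
  have h1 := pair_dim hi hj
  have h2 := level_mx (C := 2 ^ N) hP hr (one_le_pow₀ (by norm_num))
    (fun q hq => ⟨coeff_le_two hq i, coeff_le_two hq j⟩) hi (j := j)
  have hM : 0 < mM P := Real.exp_pos _
  have h3 : Real.exp (mx (lev w (n + i) P) (lev w (n + j) P)) ≤ 2 ^ N * mM P := by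
    rw [← Real.log_mul (by positivity) hM.ne'] at h2
    exact (Real.le_log_iff_exp_le (by positivity)).1 h2
  have h4 := pow_le_pow_left₀ (Real.exp_pos _).le h3 4
  linarith

/-- the dimensions of opposite faces -/
theorem faces_dim {w : Fin k → ℤ} {n : ℤ} {P : MvPolynomial (Fin k) ℤ} (hP : P ≠ 0) {N : ℕ}
    (hr : ∀ m ∈ P.support, n ≤ wt w m ∧ wt w m ≤ n + N)
    (hi : lev w n P ≠ 0) (hj : lev w (n + N) P ≠ 0) :
    (ND (lev w n P * lev w (n + N) P) : ℝ) + 2 ≤ 2 * mM P ^ 4 +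
      min (ND (lev w n P) : ℝ) (ND (lev w (n + N) P)) := by
  have h1 := pair_dim hi hj
  have e0 : n + ((0 : ℕ) : ℤ) = n := by simp
  have h2 := level_mx (C := 1) hP hr le_rfl (i := 0) (j := N)
    (fun q hq => coeff_le_one hq) (by rw [e0]; exact hi)
  rw [e0, Real.log_one, zero_add] at h2
  have hM : 0 < mM P := Real.exp_pos _
  have h3 : Real.exp (mx (lev w n P) (lev w (n + N) P)) ≤ mM P :=
    (Real.le_log_iff_exp_le hM).1 h2
  have h4 := pow_le_pow_left₀ (Real.exp_pos _).le h3 4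
  linarith

end

end Pool.Agent.R328.GD
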