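import Mathlib
import Pool.Agent.R328.UE

/-!
# Explicit growth of Mahler measures with the dimension of the Newton polytope

Boyd's set `L` of the Mahler measures of integer polynomials in any number of variables would be
closed if polynomials of bounded Mahler measure could be written with a bounded number of variables.
The starting results give non-effective bounds for the dimension of the Newton polytope in terms of
the measure for nonreciprocal polynomials and for polynomials `A + u B`, by compactness.  Here are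
explicit bounds, with an elementary proof that also applies to reducible and to reciprocal
polynomials:

* `M(F + u) ^ 4 ≥ (dim N(F) + 2) / 2` for every nonzero `F`, `u` a new variable;
* `M(A + u B) ^ 4 ≥ (r + 2) / 2` for all nonzero `A`, `B`, with
  `r = dim N(A B) - min (dim N(A), dim N(B))`;
* the same for `M(P)`, if `A` and `B` are opposite faces of `P` (the parts of minimal and of maximal
  weight in a direction `w`);
* the same for `2 ^ N M(P)`, if `A` and `B` are any two levels of `P` in a direction `w` in which the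
  width of `P` is at most `N`.

The proof: for a direction `w` in which `B` is homogeneous, and with the first two levels `a`, `b`
of `A`, one has, for every `δ > 0`,
`∫ log (|A|² + |B|² + δ) ≥ ∫ log (|a|² + |B|² + δ) + ∫ log (1 + |b|² (|B|² + δ) / (|a|² + |B|² + δ)²)`,
and the last integral is at least `log (1 + exp (-2 ∫ log (|a|² + |B|² + δ)))`.  One passes to facets.
-/

set_option autoImplicit false

namespace Pool.Agent.Results.MP_6d22ea_nt.DimensionGrowth

noncomputable section

/-- Value of an integer polynomial in `k` variables at the torus point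
`(exp (2 π i t_1), …, exp (2 π i t_k))`. -/
def value {k : ℕ} (F : MvPolynomial (Fin k) ℤ) (t : Fin k → ℝ) : ℂ :=
  MvPolynomial.eval (fun j : Fin k => Complex.exp (2 * (Real.pi : ℂ) * Complex.I * ((t j : ℝ) : ℂ)))
    (MvPolynomial.map (Int.castRingHom ℂ) F)

/-- The Mahler measure of an integer polynomial in `k` variables. -/
def mahler {k : ℕ} (F : MvPolynomial (Fin k) ℤ) : ℝ :=
  Real.exp (∫ t in Set.Icc (0 : Fin k → ℝ) 1, Real.log ‖value F t‖)

/-- The dimension of the affine hull of the exponent vectors of `F` (the dimension of its Newton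
polytope). -/
def newtonDim {k : ℕ} (F : MvPolynomial (Fin k) ℤ) : ℕ :=
  Module.finrank ℚ (vectorSpan ℚ ((fun s : Fin k →₀ ℕ => fun i : Fin k => ((s i : ℕ) : ℚ)) ''
    (F.support : Set (Fin k →₀ ℕ))))

/-- The polynomial `F + z_0 G` for `F`, `G` in the variables `z_1, …, z_k`. -/
def linear {k : ℕ} (F G : MvPolynomial (Fin k) ℤ) : MvPolynomial (Fin (k + 1)) ℤ :=
  MvPolynomial.rename Fin.succ F + MvPolynomial.X 0 * MvPolynomial.rename Fin.succ G

/-- The weight of an exponent vector in the direction `w`. -/
def weight {k : ℕ} (w : Fin k → ℤ) (m : Fin k →₀ ℕ) : ℤ := ∑ i, w i * (m i : ℤ)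

/-- The sum of the terms of weight `n` of a polynomial. -/
def level {k : ℕ} (w : Fin k → ℤ) (n : ℤ) (P : MvPolynomial (Fin k) ℤ) : MvPolynomial (Fin k) ℤ :=
  ∑ m ∈ P.support.filter (fun m => weight w m = n), MvPolynomial.monomial m (P.coeff m)

/-- `dim N(A B) - min (dim N(A), dim N(B))`, where `N` is the Newton polytope. -/
def relDim {k : ℕ} (A B : MvPolynomial (Fin k) ℤ) : ℝ :=
  (newtonDim (A * B) : ℝ) - min (newtonDim A : ℝ) (newtonDim B)

theorem result :
    (∀ (k : ℕ) (F : MvPolynomial (Fin k) ℤ), F ≠ 0 →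
      ((newtonDim F : ℝ) + 2) / 2 ≤ mahler (linear F 1) ^ 4) ∧
    (∀ (k : ℕ) (A B : MvPolynomial (Fin k) ℤ), A ≠ 0 → B ≠ 0 →
      (relDim A B + 2) / 2 ≤ mahler (linear A B) ^ 4) ∧
    (∀ (k : ℕ) (P : MvPolynomial (Fin k) ℤ) (w : Fin k → ℤ) (n : ℤ) (N : ℕ),
      (∀ m ∈ P.support, n ≤ weight w m ∧ weight w m ≤ n + N) →
      (level w n P ≠ 0 → level w (n + N) P ≠ 0 →
        (relDim (level w n P) (level w (n + N) P) + 2) / 2 ≤ mahler P ^ 4) ∧
      ∀ i j : ℕ, level w (n + i) P ≠ 0 → level w (n + j) P ≠ 0 →
        (relDim (level w (n + i) P) (level w (n + j) P) + 2) / 2 ≤ (2 ^ N * mahler P) ^ 4) := by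
  have hlin : ∀ (k : ℕ) (A B : MvPolynomial (Fin k) ℤ), A ≠ 0 →
      mahler (linear A B) = Real.exp (Pool.Agent.H261R2.CM.mx A B) := fun k A B hA =>
    Pool.Agent.H887R3.LW.mM_lin A B hA
  have hP0 : ∀ (k : ℕ) (P : MvPolynomial (Fin k) ℤ) (w : Fin k → ℤ) (n : ℤ), level w n P ≠ 0 →
      P ≠ 0 := by
    rintro k P w n h rfl
    apply h
    simp [level]
  have key : ∀ (k : ℕ) (A B : MvPolynomial (Fin k) ℤ), A ≠ 0 → B ≠ 0 →
      (relDim A B + 2) / 2 ≤ mahler (linear A B) ^ 4 := by
    intro k A B hA hB
    rw [hlin k A B hA]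
    have h : (newtonDim (A * B) : ℝ) + 2 ≤ 2 * Real.exp (Pool.Agent.H261R2.CM.mx A B) ^ 4 +
        min (newtonDim A : ℝ) (newtonDim B) := Pool.Agent.R328.GD.pair_dim hA hB
    unfold relDim
    linarith
  refine ⟨?_, key, ?_⟩
  · intro k F hF
    have h := key k F 1 hF one_ne_zero
    have h1 : newtonDim (1 : MvPolynomial (Fin k) ℤ) = 0 := by
      unfold newtonDim
      rw [MvPolynomial.support_one]
      simp
    have h2 : min (newtonDim F : ℝ) (newtonDim (1 : MvPolynomial (Fin k) ℤ)) = 0 := by
      rw [h1]
      simp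
    unfold relDim at h
    rw [mul_one, h2, sub_zero] at h
    exact h
  · intro k P w n N hr
    refine ⟨fun h1 h2 => ?_, fun i j h1 h2 => ?_⟩
    · have h : (newtonDim (level w n P * level w (n + N) P) : ℝ) + 2 ≤ 2 * mahler P ^ 4 +
          min (newtonDim (level w n P) : ℝ) (newtonDim (level w (n + N) P)) :=
        Pool.Agent.R328.GD.faces_dim (hP0 k P w n h1) hr h1 h2
      unfold relDim
      linarith
    · have h : (newtonDim (level w (n + i) P * level w (n + j) P) : ℝ) + 2 ≤
          2 * (2 ^ N * mahler P) ^ 4 +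
          min (newtonDim (level w (n + i) P) : ℝ) (newtonDim (level w (n + j) P)) :=
        Pool.Agent.R328.GD.level_dim (hP0 k P w (n + i) h1) hr h1 h2
      unfold relDim
      linarith

end

end Pool.Agent.Results.MP_6d22ea_nt.DimensionGrowth
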