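import Mathlib
import Pool.Agent.Y947.DL.Pot

/-!
# A variational choice of contractions of a finite set of points of the disc
-/

set_option autoImplicit false

open Complex Metric Finset Pool.Agent.Y947.DL

namespace Pool.Agent.R328

variable {ι : Type*} [Fintype ι]

/-- the Poisson type kernel -/
noncomputable def PK (z : ℂ) : ℝ := (1 - ‖z‖ ^ 2) / ‖1 - z‖ ^ 2

lemma PK_eq {z : ℂ} (hz : ‖z‖ < 1) : PK z = 1 + 2 * (z / (1 - z)).re := re_div_one_sub hz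

lemma PK_nonneg {z : ℂ} (hz : ‖z‖ ≤ 1) : 0 ≤ PK z := by
  unfold PK
  apply div_nonneg _ (by positivity)
  nlinarith [norm_nonneg z]

lemma PK_conj (z : ℂ) : PK (starRingEnd ℂ z) = PK z := by
  unfold PK
  have e : 1 - starRingEnd ℂ z = starRingEnd ℂ (1 - z) := by rw [map_sub, map_one]
  rw [e, RCLike.norm_conj, RCLike.norm_conj]

lemma PK_le {z : ℂ} {r : ℝ} (hz : ‖z‖ ≤ r) (hr : r < 1) : PK z ≤ (1 + r) / (1 - r) := by
  unfold PK
  have h0 := norm_nonneg z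
  have h1 : 1 - ‖z‖ ≤ ‖1 - z‖ := by
    have := norm_sub_norm_le (1:ℂ) z
    rwa [norm_one] at this
  have h2 : (1 - ‖z‖) ^ 2 ≤ ‖1 - z‖ ^ 2 := pow_le_pow_left₀ (by linarith) h1 2
  have h3 : 0 < (1 - ‖z‖) ^ 2 := by
    apply pow_pos; linarith
  rw [div_le_div_iff₀ (by linarith) (by linarith)]
  have h4 : (1 - ‖z‖ ^ 2) * (1 - r) ≤ (1 + r) * (1 - ‖z‖) ^ 2 := by
    nlinarith [mul_nonneg (by linarith : (0:ℝ) ≤ 1 - ‖z‖) (by linarith : (0:ℝ) ≤ r - ‖z‖)]
  nlinarith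

/-- one variable derivative -/
lemma hasDeriv_log {w : ℂ} {s : ℝ} (h : ‖(s : ℂ) * w‖ < 1) :
    HasDerivAt (fun s : ℝ => -Real.log ‖1 - (s : ℂ) * w‖) (w / (1 - (s : ℂ) * w)).re s := by
  have h1 : HasDerivAt (fun s : ℝ => 1 - (s : ℂ) * w) (-w) s := by
    have h2 : HasDerivAt (fun s : ℝ => (s : ℂ)) 1 s := by
      simpa using (hasDerivAt_id s).ofReal_comp
    simpa using (h2.mul_const w).const_sub 1
  have h2 := h1.clog_real (mem_slit h)
  have h3 := (Complex.reCLM.hasFDerivAt).comp_hasDerivAt s h2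
  have h4 := h3.neg
  have e1 : -(Complex.reCLM (-w / (1 - (s : ℂ) * w))) = (w / (1 - (s : ℂ) * w)).re := by
    rw [Complex.reCLM_apply, neg_div, Complex.neg_re, neg_neg]
  rw [e1] at h4
  refine h4.congr_of_eventuallyEq ?_
  filter_upwards with t
  simp only [Function.comp_apply, Complex.reCLM_apply, Complex.log_re, Pi.neg_apply]

/-- the points `x i conj x j` -/
noncomputable def zz (b : ι → ℂ) (ρ : ι → ℝ) (i j : ι) : ℂ :=
  (((1 - ρ i) * (1 - ρ j) : ℝ) : ℂ) * (b i * starRingEnd ℂ (b j))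

/-- the energy of the contracted points -/
noncomputable def En (b : ι → ℂ) (ρ : ι → ℝ) : ℝ := ∑ i, ∑ j, -Real.log ‖1 - zz b ρ i j‖

/-- the sum of the kernels -/
noncomputable def Dd (b : ι → ℂ) (ρ : ι → ℝ) (i : ι) : ℝ := ∑ j, PK (zz b ρ i j)

omit [Fintype ι] in
lemma zz_conj (b : ι → ℂ) (ρ : ι → ℝ) (i j : ι) : zz b ρ j i = starRingEnd ℂ (zz b ρ i j) := by
  unfold zz
  rw [map_mul, map_mul, Complex.conj_ofReal, Complex.conj_conj]
  push_cast
  ring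

variable {b : ι → ℂ} (hb : ∀ j, ‖b j‖ ≤ 1)

include hb

omit [Fintype ι] in
lemma norm_bb (i j : ι) : ‖b i * starRingEnd ℂ (b j)‖ ≤ 1 := by
  rw [norm_mul, RCLike.norm_conj]
  exact mul_le_one₀ (hb i) (norm_nonneg _) (hb j)

omit [Fintype ι] in
lemma norm_zz {ρ : ι → ℝ} (hρ : ∀ j, 0 < ρ j ∧ ρ j ≤ 1) (i j : ι) :
    ‖zz b ρ i j‖ ≤ (1 - ρ i) * (1 - ρ j) := by
  unfold zz
  have h1 := hρ i
  have h2 := hρ j
  have h3 : 0 ≤ (1 - ρ i) * (1 - ρ j) := mul_nonneg (by linarith) (by linarith)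
  rw [norm_mul, Complex.norm_real, Real.norm_of_nonneg h3]
  have := norm_bb hb i j
  nlinarith [norm_nonneg (b i * starRingEnd ℂ (b j))]

omit [Fintype ι] in
lemma norm_zz_lt {ρ : ι → ℝ} (hρ : ∀ j, 0 < ρ j ∧ ρ j ≤ 1) (i j : ι) : ‖zz b ρ i j‖ < 1 := by
  have h := norm_zz hb hρ i j
  have h1 := hρ i
  have h2 := hρ j
  nlinarith

/-- directional derivative of the energy -/
lemma En_deriv {ρ : ι → ℝ} (hρ : ∀ j, 0 < ρ j ∧ ρ j ≤ 1 / 4) (v : ι → ℝ) :
    HasDerivAt (fun t : ℝ => En b (fun i => ρ i + t * v i))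
      (-∑ i, v i / (1 - ρ i) * (Dd b ρ i - Fintype.card ι)) 0 := by
  have hρ1 : ∀ j, 0 < ρ j ∧ ρ j ≤ 1 := fun j => ⟨(hρ j).1, by linarith [(hρ j).2]⟩
  have h1 : ∀ i j : ι, HasDerivAt (fun t : ℝ => -Real.log ‖1 - zz b (fun i => ρ i + t * v i) i j‖)
      (-(v i / (1 - ρ i) * ((PK (zz b ρ i j) - 1) / 2)) - v j / (1 - ρ j) * ((PK (zz b ρ j i) - 1) / 2)) 0 := by
    intro i j
    have hi : 0 < 1 - ρ i := by linarith [(hρ i).2]
    have hj : 0 < 1 - ρ j := by linarith [(hρ j).2]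
    set w := b i * starRingEnd ℂ (b j) with hw
    have hs : HasDerivAt (fun t : ℝ => (1 - (ρ i + t * v i)) * (1 - (ρ j + t * v j)))
        (-(v i) * (1 - ρ j) + (1 - ρ i) * -(v j)) 0 := by
      have a1 : HasDerivAt (fun t : ℝ => 1 - (ρ i + t * v i)) (-(v i)) 0 := by
        simpa using (((hasDerivAt_id (0:ℝ)).mul_const (v i)).const_add (ρ i)).const_sub 1
      have a2 : HasDerivAt (fun t : ℝ => 1 - (ρ j + t * v j)) (-(v j)) 0 := by
        simpa using (((hasDerivAt_id (0:ℝ)).mul_const (v j)).const_add (ρ j)).const_sub 1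
      have a3 := a1.mul a2
      simp only [zero_mul, add_zero] at a3
      exact a3
    have hz : ‖((((1 - (ρ i + 0 * v i)) * (1 - (ρ j + 0 * v j))) : ℝ) : ℂ) * w‖ < 1 := by
      simp only [zero_mul, add_zero]
      exact norm_zz_lt hb hρ1 i j
    have h2 := (hasDeriv_log hz).comp (0:ℝ) hs
    simp only [zero_mul, add_zero] at h2
    have e1 : (w / (1 - (((1 - ρ i) * (1 - ρ j) : ℝ) : ℂ) * w)).re * (-(v i) * (1 - ρ j) + (1 - ρ i) * -(v j)) =
        (-(v i / (1 - ρ i) * ((PK (zz b ρ i j) - 1) / 2)) - v j / (1 - ρ j) * ((PK (zz b ρ j i) - 1) / 2)) := by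
      have e2 : PK (zz b ρ j i) = PK (zz b ρ i j) := by rw [zz_conj, PK_conj]
      have e3 : (PK (zz b ρ i j) - 1) / 2 = ((1 - ρ i) * (1 - ρ j)) * (w / (1 - (((1 - ρ i) * (1 - ρ j) : ℝ) : ℂ) * w)).re := by
        rw [PK_eq (norm_zz_lt hb hρ1 i j)]
        have e4 : zz b ρ i j / (1 - zz b ρ i j) =
            (((1 - ρ i) * (1 - ρ j) : ℝ) : ℂ) * (w / (1 - (((1 - ρ i) * (1 - ρ j) : ℝ) : ℂ) * w)) := by
          unfold zz
          rw [mul_div_assoc]
        rw [e4, Complex.re_ofReal_mul]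
        ring
      rw [e2, e3]
      field_simp
      ring
    rw [← e1]
    exact h2
  have h3 := HasDerivAt.fun_sum fun i (_ : i ∈ Finset.univ) =>
    HasDerivAt.fun_sum fun j (_ : j ∈ Finset.univ) => h1 i j
  have e1 : ∑ i, ∑ j, (-(v i / (1 - ρ i) * ((PK (zz b ρ i j) - 1) / 2)) -
      v j / (1 - ρ j) * ((PK (zz b ρ j i) - 1) / 2)) =
      -∑ i, v i / (1 - ρ i) * (Dd b ρ i - Fintype.card ι) := by
    have e2 : ∑ i, ∑ j, v j / (1 - ρ j) * ((PK (zz b ρ j i) - 1) / 2) =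
        ∑ i, ∑ j, v i / (1 - ρ i) * ((PK (zz b ρ i j) - 1) / 2) := Finset.sum_comm
    simp only [Finset.sum_sub_distrib, Finset.sum_neg_distrib]
    rw [e2]
    have e3 : ∀ i, v i / (1 - ρ i) * (Dd b ρ i - Fintype.card ι) =
        2 * ∑ j, v i / (1 - ρ i) * ((PK (zz b ρ i j) - 1) / 2) := by
      intro i
      unfold Dd
      rw [← Finset.mul_sum, ← Finset.sum_div, Finset.sum_sub_distrib, Finset.sum_const, Finset.card_univ,
        nsmul_eq_mul, mul_one]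
      ring
    simp only [e3]
    rw [← Finset.mul_sum]
    ring
  rw [e1] at h3
  exact h3

omit hb in
lemma deriv_nonneg {h : ℝ → ℝ} {d δ : ℝ} (hδ : 0 < δ) (hd : HasDerivAt h d 0)
    (hm : ∀ t, 0 < t → t < δ → h 0 ≤ h t) : 0 ≤ d := by
  have h1 : Filter.Tendsto (slope h 0) (nhdsWithin 0 (Set.Ioi 0)) (nhds d) :=
    (hasDerivAt_iff_tendsto_slope.mp hd).mono_left (nhdsWithin_mono _ (by
      intro x hx
      exact ne_of_gt hx))
  apply ge_of_tendsto h1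
  have h2 : Set.Ioo 0 δ ∈ nhdsWithin (0:ℝ) (Set.Ioi 0) := Ioo_mem_nhdsGT hδ
  filter_upwards [h2] with t ht
  rw [slope_def_field]
  apply div_nonneg
  · have := hm t ht.1 ht.2
    linarith
  · linarith [ht.1]

end Pool.Agent.R328
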