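import Mathlib
import Pool.Agent.R328.PA

/-!
# Second order inequality and the cost of the contraction
-/

set_option autoImplicit false

open Complex Metric Finset Pool.Agent.Y947.DL

namespace Pool.Agent.R328

variable {ι : Type*} [Fintype ι]

lemma second_term (x : ι → ℂ) (c : ι → ℝ) (μ : ℝ) (k : ℕ) :
    0 ≤ ∑ i, ∑ j, (((x i * starRingEnd ℂ (x j)) ^ k / k).re -
      2 * μ * (c i * (if k = 0 then 0 else (x i * starRingEnd ℂ (x j)) ^ k).re) +
      μ ^ 2 * (c i * c j * ((k : ℂ) * (x i * starRingEnd ℂ (x j)) ^ k).re)) := by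
  rcases Nat.eq_zero_or_pos k with hk | hk
  · subst hk
    simp
  have hk0 : (k : ℝ) ≠ 0 := by exact_mod_cast hk.ne'
  have hk1 : (0:ℝ) < k := by exact_mod_cast hk
  have hkc : (k : ℂ) ≠ 0 := by exact_mod_cast hk.ne'
  have e0 : ∀ i j, (((x i * starRingEnd ℂ (x j)) ^ k / k).re -
      2 * μ * (c i * (if k = 0 then 0 else (x i * starRingEnd ℂ (x j)) ^ k).re) +
      μ ^ 2 * (c i * c j * ((k : ℂ) * (x i * starRingEnd ℂ (x j)) ^ k).re)) =
      1 / k * ((1 - μ * k * c i) * (1 - μ * k * c j) * ((x i * starRingEnd ℂ (x j)) ^ k).re) +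
      μ * (c j * ((x j * starRingEnd ℂ (x i)) ^ k).re - c i * ((x i * starRingEnd ℂ (x j)) ^ k).re) := by
    intro i j
    have e1 : ((x j * starRingEnd ℂ (x i)) ^ k).re = ((x i * starRingEnd ℂ (x j)) ^ k).re := by
      have e2 : (x j * starRingEnd ℂ (x i)) ^ k = starRingEnd ℂ ((x i * starRingEnd ℂ (x j)) ^ k) := by
        rw [map_pow, map_mul, Complex.conj_conj, mul_comm]
      rw [e2, Complex.conj_re]
    rw [if_neg hk.ne', e1]
    have e3 : ((x i * starRingEnd ℂ (x j)) ^ k / k).re = ((x i * starRingEnd ℂ (x j)) ^ k).re / k := by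
      rw [← Complex.ofReal_natCast, Complex.div_ofReal_re]
    have e4 : ((k : ℂ) * (x i * starRingEnd ℂ (x j)) ^ k).re = k * ((x i * starRingEnd ℂ (x j)) ^ k).re := by
      rw [← Complex.ofReal_natCast, Complex.re_ofReal_mul]
    rw [e3, e4]
    field_simp
    ring
  simp only [e0]
  have e5 : ∑ i, ∑ j, (1 / (k : ℝ) * ((1 - μ * k * c i) * (1 - μ * k * c j) *
        ((x i * starRingEnd ℂ (x j)) ^ k).re) +
      μ * (c j * ((x j * starRingEnd ℂ (x i)) ^ k).re - c i * ((x i * starRingEnd ℂ (x j)) ^ k).re)) =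
      1 / k * ∑ i, ∑ j, ((1 - μ * k * c i) * (1 - μ * k * c j) * ((x i * starRingEnd ℂ (x j)) ^ k).re) := by
    simp only [Finset.sum_add_distrib, ← Finset.mul_sum, Finset.sum_sub_distrib]
    have e6 : ∑ i, ∑ j, c j * ((x j * starRingEnd ℂ (x i)) ^ k).re =
        ∑ i, c i * ∑ j, ((x i * starRingEnd ℂ (x j)) ^ k).re := by
      rw [Finset.sum_comm]
      refine Finset.sum_congr rfl fun i _ => ?_
      rw [Finset.mul_sum]
    rw [e6]
    ring
  rw [e5]
  apply mul_nonneg (by positivity)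
  have e7 : ∑ i, ∑ j, ((1 - μ * k * c i) * (1 - μ * k * c j) * ((x i * starRingEnd ℂ (x j)) ^ k).re) =
      ‖∑ i, ((1 - μ * k * c i : ℝ) : ℂ) * x i ^ k‖ ^ 2 := by
    have e8 : ((‖∑ i, ((1 - μ * k * c i : ℝ) : ℂ) * x i ^ k‖ ^ 2 : ℝ) : ℂ) =
        ∑ i, ∑ j, (((1 - μ * k * c i) * (1 - μ * k * c j) : ℝ) : ℂ) * (x i * starRingEnd ℂ (x j)) ^ k := by
      rw [← Complex.normSq_eq_norm_sq, ← Complex.mul_conj, map_sum, Finset.sum_mul_sum]
      refine Finset.sum_congr rfl fun i _ => Finset.sum_congr rfl fun j _ => ?_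
      rw [map_mul, map_pow, Complex.conj_ofReal]
      push_cast
      ring
    have e9 := congrArg Complex.re e8
    rw [Complex.ofReal_re] at e9
    rw [e9, Complex.re_sum]
    refine Finset.sum_congr rfl fun i _ => ?_
    rw [Complex.re_sum]
    refine Finset.sum_congr rfl fun j _ => ?_
    rw [Complex.re_ofReal_mul]
  rw [e7]
  positivity

/-- the second order inequality -/
lemma second {x : ι → ℂ} (hx : ∀ i, ‖x i‖ < 1) (c : ι → ℝ) (μ : ℝ) :
    2 * μ * ∑ i, ∑ j, c i * (x i * starRingEnd ℂ (x j) / (1 - x i * starRingEnd ℂ (x j))).re ≤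
      ∑ i, ∑ j, -Real.log ‖1 - x i * starRingEnd ℂ (x j)‖ +
      μ ^ 2 * ∑ i, ∑ j, c i * c j * (x i * starRingEnd ℂ (x j) / (1 - x i * starRingEnd ℂ (x j)) ^ 2).re := by
  have hz : ∀ i j, ‖x i * starRingEnd ℂ (x j)‖ < 1 := fun i j =>
    norm_mul_conj_lt (hx i) (hx j).le
  have h1 : ∀ i j, HasSum (fun k : ℕ => ((x i * starRingEnd ℂ (x j)) ^ k / k).re)
      (-Real.log ‖1 - x i * starRingEnd ℂ (x j)‖) := by
    intro i j
    have h := Complex.hasSum_re (Complex.hasSum_taylorSeries_neg_log (hz i j))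
    rwa [Complex.neg_re, Complex.log_re] at h
  have h2 : ∀ i j, HasSum (fun k : ℕ => (if k = 0 then 0 else (x i * starRingEnd ℂ (x j)) ^ k).re)
      (x i * starRingEnd ℂ (x j) / (1 - x i * starRingEnd ℂ (x j))).re := by
    intro i j
    apply Complex.hasSum_re
    set z := x i * starRingEnd ℂ (x j) with hzz
    have h := (hasSum_geometric_of_norm_lt_one (hz i j)).mul_left z
    rw [← hzz] at h
    rw [← hasSum_nat_add_iff' 1]
    have e1 : (fun n : ℕ => if n + 1 = 0 then (0:ℂ) else z ^ (n + 1)) = fun n : ℕ => z * z ^ n := by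
      ext n
      rw [if_neg (Nat.succ_ne_zero n), pow_succ]
      ring
    rw [e1, Finset.range_one, Finset.sum_singleton, if_pos rfl, sub_zero, div_eq_mul_inv]
    exact h
  have h3 : ∀ i j, HasSum (fun k : ℕ => ((k : ℂ) * (x i * starRingEnd ℂ (x j)) ^ k).re)
      (x i * starRingEnd ℂ (x j) / (1 - x i * starRingEnd ℂ (x j)) ^ 2).re := by
    intro i j
    apply Complex.hasSum_re
    exact hasSum_coe_mul_geometric_of_norm_lt_one (hz i j)
  have h4 := hasSum_sum fun i (_ : i ∈ Finset.univ) => hasSum_sum fun j (_ : j ∈ Finset.univ) =>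
    (((h1 i j).sub (((h2 i j).mul_left (c i)).mul_left (2 * μ))).add
      (((h3 i j).mul_left (c i * c j)).mul_left (μ ^ 2)))
  have h5 := h4.nonneg (fun k => second_term x c μ k)
  simp only [Finset.sum_add_distrib, Finset.sum_sub_distrib, ← Finset.mul_sum] at h5
  simp only [← Finset.mul_sum]
  linarith

variable {b : ι → ℂ} (hb : ∀ j, ‖b j‖ ≤ 1)

include hb

/-- the total weighted kernel is controlled by the energy -/
lemma weighted {ρ : ι → ℝ} (hρ : ∀ j, 0 < ρ j ∧ ρ j ≤ 1 / 4) (μ : ℝ) :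
    μ * ∑ i, ρ i * (Dd b ρ i - Fintype.card ι) ≤ En b ρ + μ ^ 2 * ∑ i, ρ i * Dd b ρ i := by
  have hρ1 : ∀ j, 0 < ρ j ∧ ρ j ≤ 1 := fun j => ⟨(hρ j).1, by linarith [(hρ j).2]⟩
  set x : ι → ℂ := fun i => ((1 - ρ i : ℝ) : ℂ) * b i with hx
  have hx1 : ∀ i, ‖x i‖ < 1 := by
    intro i
    have h1 := hρ i
    rw [hx]
    simp only
    rw [norm_mul, Complex.norm_real, Real.norm_of_nonneg (by linarith)]
    nlinarith [hb i, norm_nonneg (b i)]
  have hxz : ∀ i j, x i * starRingEnd ℂ (x j) = zz b ρ i j := by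
    intro i j
    simp only [hx, zz]
    rw [map_mul, Complex.conj_ofReal]
    push_cast
    ring
  have h := second hx1 ρ μ
  simp only [hxz] at h
  have e1 : 2 * μ * ∑ i, ∑ j, ρ i * (zz b ρ i j / (1 - zz b ρ i j)).re =
      μ * ∑ i, ρ i * (Dd b ρ i - Fintype.card ι) := by
    rw [mul_comm 2 μ, mul_assoc]
    congr 1
    rw [Finset.mul_sum]
    refine Finset.sum_congr rfl fun i _ => ?_
    rw [← Finset.mul_sum, ← mul_assoc, mul_comm 2 (ρ i), mul_assoc]
    congr 1
    unfold Dd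
    have e2 : (Fintype.card ι : ℝ) = ∑ j : ι, (1:ℝ) := by simp
    rw [e2, ← Finset.sum_sub_distrib, Finset.mul_sum]
    refine Finset.sum_congr rfl fun j _ => ?_
    rw [PK_eq (norm_zz_lt hb hρ1 i j)]
    ring
  rw [e1] at h
  have e2 : ∑ i, ∑ j, -Real.log ‖1 - zz b ρ i j‖ = En b ρ := rfl
  rw [e2] at h
  refine h.trans ?_
  apply add_le_add le_rfl
  apply mul_le_mul_of_nonneg_left _ (by positivity)
  apply Finset.sum_le_sum
  intro i _
  unfold Dd
  rw [Finset.mul_sum]
  apply Finset.sum_le_sum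
  intro j _
  rw [mul_assoc]
  apply mul_le_mul_of_nonneg_left _ (hρ i).1.le
  have hz := norm_zz_lt hb hρ1 i j
  have hz' := norm_zz hb hρ1 i j
  set z := zz b ρ i j with hzdef
  have hn0 := norm_nonneg z
  have hd : 0 < ‖1 - z‖ := norm_pos_iff.mpr (one_sub_ne hz)
  have h1 : (z / (1 - z) ^ 2).re ≤ 1 / ‖1 - z‖ ^ 2 := by
    refine (Complex.re_le_norm _).trans ?_
    rw [norm_div, norm_pow]
    apply div_le_div_of_nonneg_right hz.le (by positivity)
  have h2 : ρ j ≤ 1 - ‖z‖ ^ 2 := by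
    have h3 : ‖z‖ ≤ 1 - ρ j := by
      refine hz'.trans ?_
      have := hρ i
      have := hρ j
      nlinarith
    have := hρ j
    nlinarith
  calc ρ j * (z / (1 - z) ^ 2).re ≤ ρ j * (1 / ‖1 - z‖ ^ 2) :=
        mul_le_mul_of_nonneg_left h1 (hρ j).1.le
    _ = ρ j / ‖1 - z‖ ^ 2 := by ring
    _ ≤ (1 - ‖z‖ ^ 2) / ‖1 - z‖ ^ 2 := by
      apply div_le_div_of_nonneg_right h2 (by positivity)
    _ = PK z := rfl

/-- continuity of the energy -/
lemma En_cont {l u : ℝ} (hl : 0 < l) (hu : u ≤ 1) :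
    ContinuousOn (En b) (Set.Icc (fun _ => l) (fun _ => u)) := by
  unfold En
  apply continuousOn_finsetSum
  intro i _
  apply continuousOn_finsetSum
  intro j _
  apply ContinuousOn.neg
  apply ContinuousOn.log
  · apply Continuous.continuousOn
    unfold zz
    fun_prop
  · intro ρ hρ
    have hρ1 : ∀ j, 0 < ρ j ∧ ρ j ≤ 1 := fun j => ⟨lt_of_lt_of_le hl (hρ.1 j), (hρ.2 j).trans hu⟩
    exact norm_ne_zero_iff.mpr (one_sub_ne (norm_zz_lt hb hρ1 i j))

/-- the variational choice of the contraction -/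
theorem choice (hn : 0 < Fintype.card ι) {A : ℝ} (hA : 10 ≤ A) :
    ∃ ρ : ι → ℝ, (∀ j, 1 / (4 * (Fintype.card ι : ℝ)) ≤ ρ j ∧ 0 < ρ j ∧ ρ j ≤ 1 / 4) ∧
      (∀ j, Dd b ρ j ≤ (A + 1) * Fintype.card ι) ∧
      A * (Fintype.card ι * ∑ j, ρ j) ≤ 9 * En b ρ + Fintype.card ι * A / 2 := by
  classical
  set n : ℝ := (Fintype.card ι : ℝ) with hndef
  have hn1 : 1 ≤ n := by rw [hndef]; exact_mod_cast hn
  have hn0 : 0 < n := by linarith
  set l : ℝ := 1 / (4 * n) with hl
  have hl0 : 0 < l := by positivity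
  have hl4 : l ≤ 1 / 4 := by
    rw [hl]; apply one_div_le_one_div_of_le (by norm_num); linarith
  have hnl : n * l = 1 / 4 := by rw [hl]; field_simp
  set box : Set (ι → ℝ) := Set.Icc (fun _ => l) (fun _ => 1 / 4) with hbox
  have hne : box.Nonempty := ⟨fun _ => l, ⟨fun _ => le_refl _, fun _ => hl4⟩⟩
  set J : (ι → ℝ) → ℝ := fun ρ => En b ρ + A * n * ∑ j, ρ j with hJ
  have hJc : ContinuousOn J box := by
    apply ContinuousOn.add (En_cont hb hl0 (by norm_num))
    apply Continuous.continuousOn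
    fun_prop
  obtain ⟨ρ, hρbox, hmin⟩ := isCompact_Icc.exists_isMinOn hne hJc
  have hρ : ∀ j, 0 < ρ j ∧ ρ j ≤ 1 / 4 := fun j => ⟨lt_of_lt_of_le hl0 (hρbox.1 j), hρbox.2 j⟩
  have hρ1 : ∀ j, 0 < ρ j ∧ ρ j ≤ 1 := fun j => ⟨(hρ j).1, by linarith [(hρ j).2]⟩
  -- derivative of `J` in the direction of a coordinate
  have hder : ∀ i (s : ℝ), HasDerivAt (fun t : ℝ => J (fun k => ρ k + t * (if k = i then s else 0)))
      (-(s / (1 - ρ i) * (Dd b ρ i - n)) + A * n * s) 0 := by
    intro i s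
    have h1 := En_deriv hb hρ (fun k => if k = i then s else 0)
    have h2 : HasDerivAt (fun t : ℝ => A * n * ∑ k, (ρ k + t * (if k = i then s else 0))) (A * n * s) 0 := by
      have h3 : ∀ t : ℝ, A * n * ∑ k, (ρ k + t * (if k = i then s else 0)) = A * n * ∑ k, ρ k + (A * n * s) * t := by
        intro t
        rw [Finset.sum_add_distrib, ← Finset.mul_sum, Finset.sum_ite_eq' Finset.univ i (fun _ => s),
          if_pos (Finset.mem_univ i)]
        ring
      simp only [h3]
      simpa using ((hasDerivAt_id (0:ℝ)).const_mul (A * n * s)).const_add (A * n * ∑ k, ρ k)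
    have h4 := h1.add h2
    have e1 : -∑ k, (if k = i then s else 0) / (1 - ρ k) * (Dd b ρ k - (Fintype.card ι : ℝ)) =
        -(s / (1 - ρ i) * (Dd b ρ i - n)) := by
      rw [Finset.sum_eq_single i]
      · rw [if_pos rfl]
      · intro k _ hk
        rw [if_neg hk, zero_div, zero_mul]
      · intro h; exact absurd (Finset.mem_univ i) h
    rw [e1] at h4
    exact h4
  have h0 : ∀ i (s : ℝ), J (fun k => ρ k + 0 * (if k = i then s else 0)) = J ρ := by
    intro i s
    congr 1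
    ext k
    ring
  -- first order conditions
  have hup : ∀ i, ρ i < 1 / 4 → Dd b ρ i - n ≤ A * n * (1 - ρ i) := by
    intro i hi
    have h1 := deriv_nonneg (δ := 1 / 4 - ρ i) (by linarith) (hder i 1) (by
      intro t ht0 ht1
      rw [h0]
      apply hmin
      constructor
      · intro k
        have h2 := hρbox.1 k
        simp only at h2 ⊢
        split_ifs <;> linarith
      · intro k
        have h2 := hρbox.2 k
        simp only at h2 ⊢
        split_ifs with hk
        · rw [hk]; linarith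
        · linarith)
    have h2 : 0 < 1 - ρ i := by linarith
    have h3 : 1 / (1 - ρ i) * (Dd b ρ i - n) ≤ A * n := by linarith
    rw [one_div, ← div_eq_inv_mul, div_le_iff₀ h2] at h3
    exact h3
  have hdown : ∀ i, l < ρ i → A * n * (1 - ρ i) ≤ Dd b ρ i - n := by
    intro i hi
    have h1 := deriv_nonneg (δ := ρ i - l) (by linarith) (hder i (-1)) (by
      intro t ht0 ht1
      rw [h0]
      apply hmin
      constructor
      · intro k
        have h2 := hρbox.1 k
        simp only at h2 ⊢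
        split_ifs with hk
        · rw [hk]; linarith
        · linarith
      · intro k
        have h2 := hρbox.2 k
        simp only at h2 ⊢
        split_ifs <;> linarith)
    have h2 : 0 < 1 - ρ i := by linarith [(hρ i).2]
    have h3 : A * n ≤ 1 / (1 - ρ i) * (Dd b ρ i - n) := by
      have e : -1 / (1 - ρ i) * (Dd b ρ i - n) = -(1 / (1 - ρ i) * (Dd b ρ i - n)) := by ring
      rw [e] at h1
      linarith
    rw [one_div, ← div_eq_inv_mul, le_div_iff₀ h2] at h3
    exact h3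
  have hDn : ∀ i, 0 ≤ Dd b ρ i := fun i =>
    Finset.sum_nonneg fun j _ => PK_nonneg (norm_zz_lt hb hρ1 i j).le
  have hDA : ∀ i, Dd b ρ i ≤ (A + 1) * n := by
    intro i
    rcases lt_or_eq_of_le (hρ i).2 with h | h
    · have h1 := hup i h
      have h2 : A * n * (1 - ρ i) ≤ A * n := by
        have h3 : 0 ≤ A * n := by positivity
        nlinarith [(hρ i).1]
      linarith
    · have h1 : ∀ j ∈ (Finset.univ : Finset ι), PK (zz b ρ i j) ≤ 7 := by
        intro j _
        have h2 := norm_zz hb hρ1 i j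
        have h3 : ‖zz b ρ i j‖ ≤ 3 / 4 := by
          refine h2.trans ?_
          rw [h]
          have := hρ j
          nlinarith
        refine (PK_le h3 (by norm_num)).trans ?_
        norm_num
      have h2 := Finset.sum_le_sum h1
      rw [Finset.sum_const, Finset.card_univ, nsmul_eq_mul] at h2
      have h3 : Dd b ρ i ≤ n * 7 := h2
      nlinarith
  refine ⟨ρ, fun j => ⟨hρbox.1 j, hρ j⟩, hDA, ?_⟩
  -- the cost
  have hcost : ∀ i ∈ (Finset.univ : Finset ι), 3 / 4 * A * (n * ρ i) ≤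
      ρ i * (Dd b ρ i - n) + (3 * A / 16 + 1 / 4) := by
    intro i _
    rcases lt_or_eq_of_le (hρbox.1 i) with h | h
    · have h1 := hdown i h
      have h2 : ρ i * (A * n * (1 - ρ i)) ≤ ρ i * (Dd b ρ i - n) :=
        mul_le_mul_of_nonneg_left h1 (hρ i).1.le
      have h3 : 3 / 4 * A * (n * ρ i) ≤ ρ i * (A * n * (1 - ρ i)) := by
        have h4 : 0 ≤ A * n * ρ i := by
          have := (hρ i).1
          positivity
        nlinarith [(hρ i).2]
      linarith
    · have h1 : l = ρ i := h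
      rw [← h1]
      have h2 : 3 / 4 * A * (n * l) = 3 * A / 16 := by rw [hnl]; ring
      have h3 : l * (Dd b ρ i - n) = l * Dd b ρ i - n * l := by ring
      rw [h2, h3, hnl]
      have h4 : 0 ≤ l * Dd b ρ i := mul_nonneg hl0.le (hDn i)
      linarith
  have hsum := Finset.sum_le_sum hcost
  rw [Finset.sum_add_distrib, Finset.sum_const, Finset.card_univ, nsmul_eq_mul, ← Finset.mul_sum,
    ← Finset.mul_sum, ← hndef] at hsum
  have hw := weighted hb hρ (1 / 4)
  rw [← hndef] at hw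
  have hSD : ∑ i, ρ i * Dd b ρ i ≤ (A + 1) * (n * ∑ i, ρ i) := by
    rw [Finset.mul_sum, Finset.mul_sum]
    apply Finset.sum_le_sum
    intro i _
    have := mul_le_mul_of_nonneg_left (hDA i) (hρ i).1.le
    linarith
  set S := n * ∑ i, ρ i with hS
  have hS0 : 0 ≤ S := mul_nonneg hn0.le (Finset.sum_nonneg fun i _ => (hρ i).1.le)
  set T := ∑ i, ρ i * (Dd b ρ i - n) with hT
  have h1 : T ≤ 4 * En b ρ + (A + 1) * S / 4 := by
    nlinarith
  have h2 : 3 / 4 * A * S ≤ 4 * En b ρ + (A + 1) * S / 4 + n * (3 * A / 16 + 1 / 4) := by linarith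
  have h3 : 19 / 40 * (A * S) ≤ 4 * En b ρ + n * (3 * A / 16 + 1 / 4) := by
    nlinarith [mul_nonneg (by linarith : (0:ℝ) ≤ A - 10) hS0]
  have hE0 : 0 ≤ En b ρ ∨ En b ρ < 0 := le_or_gt 0 (En b ρ)
  have h4 : n * (3 * A / 16 + 1 / 4) ≤ n * (17 / 80 * A) := by
    apply mul_le_mul_of_nonneg_left _ hn0.le
    linarith
  have hE : 0 ≤ En b ρ := by
    have h5 := weighted hb hρ 0
    simpa using h5
  have h5 : 0 ≤ n * A := by positivity
  linarith

end Pool.Agent.R328
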