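import Mathlib
import Pool.Agent.R328.PB
import Pool.Agent.Y947.DP.Dom

/-!
# Domination of the potential of a family by that of a second family
-/

set_option autoImplicit false

open Complex Metric Finset Pool.Agent.Y947.DL Pool.Agent.Y947.DP

namespace Pool.Agent.R328

section kernel

variable {ι : Type*} [Fintype ι]

lemma norm_one_sub_conj {ζ x : ℂ} (hζ : ‖ζ‖ = 1) : ‖1 - ζ * starRingEnd ℂ x‖ = ‖ζ - x‖ := by
  have h1 : ζ * starRingEnd ℂ ζ = 1 := by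
    rw [Complex.mul_conj, Complex.normSq_eq_norm_sq, hζ]; norm_num
  have h2 : 1 - ζ * starRingEnd ℂ x = ζ * starRingEnd ℂ (ζ - x) := by
    rw [map_sub, mul_sub, h1]
  rw [h2, norm_mul, hζ, one_mul, RCLike.norm_conj]

/-- sums of kernels at boundary points -/
lemma kernel_sum [Nonempty ι] {x : ι → ℂ} (hx : ∀ i, ‖x i‖ < 1) {D : ℝ}
    (hD : ∀ i, ∑ j, PK (x i * starRingEnd ℂ (x j)) ≤ D) {ζ : ℂ} (hζ : ‖ζ‖ = 1) :
    ∑ j, PK (ζ * starRingEnd ℂ (x j)) ≤ 4 * D := by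
  obtain ⟨i, -, hi⟩ := Finset.exists_min_image Finset.univ (fun i => ‖ζ - x i‖) Finset.univ_nonempty
  have h1 : ∀ j ∈ (Finset.univ : Finset ι), PK (ζ * starRingEnd ℂ (x j)) ≤
      4 * PK (x i * starRingEnd ℂ (x j)) := by
    intro j hj
    have hij := hi j hj
    have hn1 : ‖ζ * starRingEnd ℂ (x j)‖ = ‖x j‖ := by rw [norm_mul, hζ, one_mul, RCLike.norm_conj]
    have hzj : ‖x i * starRingEnd ℂ (x j)‖ < 1 := norm_mul_conj_lt (hx i) (hx j).le
    have hd1 : 0 < ‖1 - ζ * starRingEnd ℂ (x j)‖ :=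
      norm_pos_iff.mpr (one_sub_ne (by rw [hn1]; exact hx j))
    have hd2 : 0 < ‖1 - x i * starRingEnd ℂ (x j)‖ := norm_pos_iff.mpr (one_sub_ne hzj)
    have h2 : ‖1 - x i * starRingEnd ℂ (x j)‖ ≤ 2 * ‖1 - ζ * starRingEnd ℂ (x j)‖ := by
      have e : 1 - x i * starRingEnd ℂ (x j) = (1 - ζ * starRingEnd ℂ (x j)) +
          (ζ - x i) * starRingEnd ℂ (x j) := by ring
      rw [e]
      refine (norm_add_le _ _).trans ?_
      rw [norm_mul, RCLike.norm_conj, norm_one_sub_conj hζ]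
      have h3 : ‖ζ - x i‖ * ‖x j‖ ≤ ‖ζ - x j‖ * 1 :=
        mul_le_mul hij (hx j).le (norm_nonneg _) (norm_nonneg _)
      linarith
    have h3 : ‖1 - x i * starRingEnd ℂ (x j)‖ ^ 2 ≤ 4 * ‖1 - ζ * starRingEnd ℂ (x j)‖ ^ 2 := by
      have := pow_le_pow_left₀ hd2.le h2 2
      nlinarith
    have h4 : 1 - ‖x j‖ ^ 2 ≤ 1 - ‖x i * starRingEnd ℂ (x j)‖ ^ 2 := by
      have h5 : ‖x i * starRingEnd ℂ (x j)‖ ≤ ‖x j‖ := by
        rw [norm_mul, RCLike.norm_conj]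
        nlinarith [hx i, norm_nonneg (x j)]
      have := pow_le_pow_left₀ (norm_nonneg _) h5 2
      linarith
    unfold PK
    rw [hn1, ← mul_div_assoc, div_le_div_iff₀ (by positivity) (by positivity)]
    have h6 : 0 ≤ 1 - ‖x j‖ ^ 2 := by nlinarith [hx j, norm_nonneg (x j)]
    calc (1 - ‖x j‖ ^ 2) * ‖1 - x i * starRingEnd ℂ (x j)‖ ^ 2
        ≤ (1 - ‖x j‖ ^ 2) * (4 * ‖1 - ζ * starRingEnd ℂ (x j)‖ ^ 2) :=
          mul_le_mul_of_nonneg_left h3 h6
      _ ≤ (1 - ‖x i * starRingEnd ℂ (x j)‖ ^ 2) * (4 * ‖1 - ζ * starRingEnd ℂ (x j)‖ ^ 2) :=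
          mul_le_mul_of_nonneg_right h4 (by positivity)
      _ = _ := by ring
  calc ∑ j, PK (ζ * starRingEnd ℂ (x j)) ≤ ∑ j, 4 * PK (x i * starRingEnd ℂ (x j)) :=
        Finset.sum_le_sum h1
    _ = 4 * ∑ j, PK (x i * starRingEnd ℂ (x j)) := by rw [Finset.mul_sum]
    _ ≤ 4 * D := by linarith [hD i]

/-- the Poisson kernel in terms of `PK` -/
lemma ker_eq {R : ℝ} (hR : 0 < R) {x ζ : ℂ} (hζ : ζ ∈ sphere (0:ℂ) |R|) :
    (Complex.re ∘ herglotzRieszKernel 0 ((R : ℂ) * x)) ζ = PK (ζ / R * starRingEnd ℂ x) := by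
  rw [← poissonKernel_eq_re_herglotzRieszKernel, poissonKernel_def]
  rw [mem_sphere_zero_iff_norm, abs_of_pos hR] at hζ
  have hRc : (R : ℂ) ≠ 0 := by exact_mod_cast hR.ne'
  have h1 : ‖ζ / R‖ = 1 := by
    rw [norm_div, Complex.norm_real, Real.norm_of_nonneg hR.le, hζ, div_self hR.ne']
  unfold PK
  rw [norm_one_sub_conj h1, norm_mul, h1, one_mul, RCLike.norm_conj]
  have h2 : ζ - 0 - ((R : ℂ) * x - 0) = R * (ζ / R - x) := by
    field_simp
    ring
  rw [h2, sub_zero, sub_zero, norm_mul, norm_mul, Complex.norm_real, Real.norm_of_nonneg hR.le, hζ]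
  have hR2 : (R:ℝ) ^ 2 ≠ 0 := by positivity
  rw [mul_pow, mul_pow]
  have e : R ^ 2 - R ^ 2 * ‖x‖ ^ 2 = R ^ 2 * (1 - ‖x‖ ^ 2) := by ring
  rw [e, mul_div_mul_left _ _ hR2]

/-- sum of Poisson integrals over the points -/
lemma PI_sum_le [Nonempty ι] {x : ι → ℂ} (hx : ∀ i, ‖x i‖ < 1) {D : ℝ}
    (hD : ∀ i, ∑ j, PK (x i * starRingEnd ℂ (x j)) ≤ D) {R : ℝ} (hR : 0 < R) {φ : ℂ → ℝ}
    (hφ : CS R φ) (hφ0 : ∀ ζ ∈ sphere (0:ℂ) |R|, 0 ≤ φ ζ) :
    ∑ j, PI R φ ((R : ℂ) * x j) ≤ 4 * D * Real.circleAverage φ 0 R := by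
  have hw : ∀ j, (R : ℂ) * x j ∈ ball (0:ℂ) R := by
    intro j
    rw [mem_ball_zero_iff, norm_mul, Complex.norm_real, Real.norm_of_nonneg hR.le]
    nlinarith [hx j]
  unfold PI
  rw [← Real.circleAverage_sum (fun j _ => (hφ.ker (hw j)).ci)]
  have e : 4 * D * Real.circleAverage φ 0 R = Real.circleAverage ((4 * D) • φ) 0 R := by
    rw [Real.circleAverage_smul]; rfl
  rw [e]
  apply Real.circleAverage_mono
  · apply CircleIntegrable.sum
    intro j _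
    exact (hφ.ker (hw j)).ci
  · exact ContinuousOn.circleIntegrable' (continuousOn_const.smul hφ)
  · intro ζ hζ
    have h1 : ‖ζ / R‖ = 1 := by
      rw [mem_sphere_zero_iff_norm, abs_of_pos hR] at hζ
      rw [norm_div, Complex.norm_real, Real.norm_of_nonneg hR.le, hζ, div_self hR.ne']
    have h2 := kernel_sum hx hD h1
    simp only [Finset.sum_apply, Pi.smul_apply, smul_eq_mul, Pi.mul_apply]
    rw [← Finset.sum_mul]
    apply mul_le_mul_of_nonneg_right _ (hφ0 ζ hζ)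
    simp only [ker_eq hR hζ]
    exact h2

end kernel

section dom

variable {ι κ : Type*} [Fintype ι] [Fintype κ]

/-- the product -/
noncomputable def Pr (b : ι → ℂ) (x : ℂ) : ℂ := ∏ j, (1 - x * starRingEnd ℂ (b j))

lemma Pr_cont (b : ι → ℂ) : Continuous (Pr b) := by
  unfold Pr
  fun_prop

lemma Pr_ne {b : ι → ℂ} (hb : ∀ j, ‖b j‖ ≤ 1) {x : ℂ} (hx : ‖x‖ < 1) : Pr b x ≠ 0 := by
  unfold Pr
  rw [Finset.prod_ne_zero_iff]
  intro j _
  exact one_sub_ne (norm_mul_conj_lt hx (hb j))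

lemma log_Pr {b : ι → ℂ} (hb : ∀ j, ‖b j‖ ≤ 1) {x : ℂ} (hx : ‖x‖ < 1) :
    Real.log ‖Pr b x‖ = -HH 0 b x := by
  unfold Pr HH
  rw [norm_prod, Real.log_prod]
  · ring
  · intro j _
    exact norm_ne_zero_iff.mpr (one_sub_ne (norm_mul_conj_lt hx (hb j)))

/-- the logarithm of the maximum, through potentials -/
noncomputable def mm (t : ℕ) (b : ι → ℂ) (g : κ → ℂ) (x : ℂ) : ℝ :=
  max (-((t : ℝ) * HH 0 b x)) (-HH 0 g x)

/-- the logarithm of the maximum -/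
noncomputable def Mx (t : ℕ) (b : ι → ℂ) (g : κ → ℂ) (x : ℂ) : ℝ :=
  Real.log (max (‖Pr b x‖ ^ t) ‖Pr g x‖)

lemma log_max {a b : ℝ} (ha : 0 < a) (hb : 0 < b) : Real.log (max a b) = max (Real.log a) (Real.log b) := by
  rcases le_total a b with h | h
  · rw [max_eq_right h, max_eq_right (Real.log_le_log ha h)]
  · rw [max_eq_left h, max_eq_left (Real.log_le_log hb h)]

variable {b : ι → ℂ} (hb : ∀ j, ‖b j‖ ≤ 1) {g : κ → ℂ} (hg : ∀ j, ‖g j‖ ≤ 1) (t : ℕ)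

include hb hg

lemma mm_eq {x : ℂ} (hx : ‖x‖ < 1) : mm t b g x = Mx t b g x := by
  unfold mm Mx
  have h1 : 0 < ‖Pr b x‖ := norm_pos_iff.mpr (Pr_ne hb hx)
  have h2 : 0 < ‖Pr g x‖ := norm_pos_iff.mpr (Pr_ne hg hx)
  rw [log_max (by positivity) h2, Real.log_pow, log_Pr hb hx, log_Pr hg hx]
  congr 1
  ring

lemma mm_CS {R : ℝ} (hR0 : 0 < R) (hR1 : R < 1) : CS R (mm t b g) :=
  ContinuousOn.sup ((continuousOn_const.mul (HH_CS hb hR0 hR1)).neg) (HH_CS hg hR0 hR1).neg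

omit hg in
lemma PI_tHH {R : ℝ} (hR0 : 0 < R) (hR1 : R < 1) {w : ℂ} (hw : w ∈ ball (0:ℂ) R) :
    PI R (fun z => -((t : ℝ) * HH 0 b z)) w = -((t : ℝ) * HH 0 b w) := by
  have h1 := PI_mul_left (R := R) (w := w) (φ := fun z => -HH 0 b z) (t : ℝ)
  rw [PI_HH hb hR0 hR1 hw] at h1
  have e : (fun z => (t : ℝ) * -HH 0 b z) = (fun z => -((t : ℝ) * HH 0 b z)) := by
    ext z; ring
  rw [e] at h1
  rw [h1]; ring

lemma mm_sub {r : ℝ} (hr0 : 0 < r) (hr1 : r < 1) {w : ℂ} (hw : w ∈ ball (0:ℂ) r) :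
    mm t b g w ≤ PI r (mm t b g) w := by
  have hc := mm_CS hb hg t hr0 hr1
  apply max_le
  · rw [← PI_tHH hb t hr0 hr1 hw]
    exact PI_mono ((continuousOn_const.mul (HH_CS hb hr0 hr1)).neg) hc hw (fun x _ => le_max_left _ _)
  · rw [← PI_HH hg hr0 hr1 hw]
    exact PI_mono (HH_CS hg hr0 hr1).neg hc hw (fun x _ => le_max_right _ _)

lemma avg_mm_mono {R r : ℝ} (hR0 : 0 < R) (hRr : R < r) (hr1 : r < 1) :
    Real.circleAverage (mm t b g) 0 R ≤ Real.circleAverage (mm t b g) 0 r := by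
  have hr0 : 0 < r := hR0.trans hRr
  have hsub : ∀ ζ ∈ sphere (0:ℂ) |R|, ζ ∈ ball (0:ℂ) r := by
    intro ζ hζ
    rw [mem_sphere_zero_iff_norm, abs_of_pos hR0] at hζ
    rw [mem_ball_zero_iff, hζ]; exact hRr
  have hc := mm_CS hb hg t hr0 hr1
  have hd : DiffContOnCl ℂ (CP r (mm t b g)) (ball 0 |R|) := by
    apply DifferentiableOn.diffContOnCl
    rw [abs_of_pos hR0, closure_ball _ hR0.ne']
    exact (CP_diff hc).mono (closedBall_subset_ball hRr)
  have hdc : ContinuousOn (CP r (mm t b g)) (sphere 0 |R|) := by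
    apply hd.continuousOn.mono
    rw [abs_of_pos hR0, closure_ball _ hR0.ne']
    exact sphere_subset_closedBall
  have h1 := hd.circleAverage
  have h2 := Complex.reCLM.circleAverage_comp_comm hdc.circleIntegrable'
  rw [h1, Complex.reCLM_apply, CP_re hc (mem_ball_self hr0), PI_zero hr0] at h2
  rw [← h2]
  apply Real.circleAverage_mono (mm_CS hb hg t hR0 (hRr.trans hr1)).ci
  · exact ContinuousOn.circleIntegrable' (Complex.continuous_re.comp_continuousOn hdc)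
  · intro ζ hζ
    have hζ' := hsub ζ hζ
    have h3 : (⇑Complex.reCLM ∘ CP r (mm t b g)) ζ = PI r (mm t b g) ζ := CP_re hc hζ'
    rw [h3]
    exact mm_sub hb hg t hr0 hr1 hζ'

omit hg in
/-- the maximum does not vanish on the closed disc -/
lemma max_pos (hbg : ∀ j k, b j * starRingEnd ℂ (g k) ≠ 1) {x : ℂ} (hx : x ∈ closedBall (0:ℂ) 1) :
    0 < max (‖Pr b x‖ ^ t) ‖Pr g x‖ := by
  by_contra hc
  push Not at hc
  have h1 : ‖Pr b x‖ ^ t ≤ 0 := (le_max_left _ _).trans hc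
  have h2 : ‖Pr g x‖ ≤ 0 := (le_max_right _ _).trans hc
  have h3 : Pr b x = 0 := by
    have h4 : ‖Pr b x‖ ^ t = 0 := le_antisymm h1 (by positivity)
    exact norm_eq_zero.mp (eq_zero_of_pow_eq_zero h4)
  have h4 : Pr g x = 0 := norm_le_zero_iff.mp h2
  obtain ⟨j, -, hj⟩ := Finset.prod_eq_zero_iff.mp h3
  obtain ⟨k, -, hk⟩ := Finset.prod_eq_zero_iff.mp h4
  have hxj : x * starRingEnd ℂ (b j) = 1 := (sub_eq_zero.mp hj).symm
  have hxk : x * starRingEnd ℂ (g k) = 1 := (sub_eq_zero.mp hk).symm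
  rw [mem_closedBall_zero_iff] at hx
  have n1 : ‖x‖ * ‖b j‖ = 1 := by
    have := congrArg norm hxj
    rwa [norm_mul, RCLike.norm_conj, norm_one] at this
  have hx1 : ‖x‖ = 1 := by
    have h5 := hb j
    nlinarith [norm_nonneg x, norm_nonneg (b j)]
  have hbx : b j = x := by
    have h6 : ‖x - b j‖ = 0 := by
      rw [← norm_one_sub_conj hx1, hxj, sub_self, norm_zero]
    exact (sub_eq_zero.mp (norm_eq_zero.mp h6)).symm
  apply hbg j k
  rw [hbx]
  exact hxk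

lemma avg_mm_le_one (hbg : ∀ j k, b j * starRingEnd ℂ (g k) ≠ 1) {R : ℝ} (hR0 : 0 < R) (hR1 : R < 1) :
    Real.circleAverage (mm t b g) 0 R ≤ Real.circleAverage (Mx t b g) 0 1 := by
  -- lower bound for the maximum
  have hN : Continuous (fun x => max (‖Pr b x‖ ^ t) ‖Pr g x‖) :=
    ((Pr_cont b).norm.pow t).max (Pr_cont g).norm
  obtain ⟨x0, hx0, hmin⟩ := (isCompact_closedBall (0:ℂ) 1).exists_isMinOn
    ⟨0, mem_closedBall_self (by norm_num)⟩ hN.continuousOn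
  set δ := max (‖Pr b x0‖ ^ t) ‖Pr g x0‖ with hδ
  have hδ0 : 0 < δ := max_pos hb t hbg hx0
  set F : ℂ → ℝ := fun x => Real.log (max δ (max (‖Pr b x‖ ^ t) ‖Pr g x‖)) with hF
  have hFc : Continuous F := by
    rw [continuous_iff_continuousAt]
    intro x
    apply ContinuousAt.log
    · exact (continuous_const.max hN).continuousAt
    · exact (lt_of_lt_of_le hδ0 (le_max_left _ _)).ne'
  have hFM : ∀ x ∈ closedBall (0:ℂ) 1, F x = Mx t b g x := by
    intro x hx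
    have h1 : δ ≤ max (‖Pr b x‖ ^ t) ‖Pr g x‖ := hmin hx
    simp only [hF, Mx]
    rw [max_eq_right h1]
  have hcont : Continuous (Real.circleAverage F 0) := Real.Continuous.circleAverage hFc
  have e1 : Real.circleAverage (Mx t b g) 0 1 = Real.circleAverage F 0 1 := by
    apply Real.circleAverage_congr_sphere
    intro x hx
    rw [abs_one] at hx
    exact (hFM x (sphere_subset_closedBall hx)).symm
  rw [e1]
  have h1 : Filter.Tendsto (Real.circleAverage F 0) (nhdsWithin 1 (Set.Iio 1))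
      (nhds (Real.circleAverage F 0 1)) := hcont.continuousAt.tendsto.mono_left nhdsWithin_le_nhds
  apply ge_of_tendsto h1
  have h2 : Set.Ioo R 1 ∈ nhdsWithin (1:ℝ) (Set.Iio 1) := Ioo_mem_nhdsLT hR1
  filter_upwards [h2] with r hr
  refine (avg_mm_mono hb hg t hR0 hr.1 hr.2).trans (le_of_eq ?_)
  apply Real.circleAverage_congr_sphere
  intro x hx
  rw [mem_sphere_zero_iff_norm, abs_of_pos (hR0.trans hr.1)] at hx
  have hx1 : ‖x‖ < 1 := by rw [hx]; exact hr.2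
  rw [mm_eq hb hg t hx1, hFM x (mem_closedBall_zero_iff.mpr hx1.le)]

/-- the boundary function -/
noncomputable def ph (t : ℕ) (b : ι → ℂ) (g : κ → ℂ) (x : ℂ) : ℝ :=
  max 0 ((t : ℝ) * HH 0 b x - HH 0 g x)

lemma ph_CS {R : ℝ} (hR0 : 0 < R) (hR1 : R < 1) : CS R (ph t b g) :=
  ContinuousOn.sup continuousOn_const ((continuousOn_const.mul (HH_CS hb hR0 hR1)).sub (HH_CS hg hR0 hR1))

lemma ph_dom {R : ℝ} (hR0 : 0 < R) (hR1 : R < 1) {w : ℂ} (hw : w ∈ ball (0:ℂ) R) :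
    (t : ℝ) * HH 0 b w - HH 0 g w ≤ PI R (ph t b g) w := by
  have hF : DiffContOnCl ℂ (fun z => (t : ℂ) * hh 0 b z - hh 0 g z) (ball 0 R) := by
    apply DifferentiableOn.diffContOnCl
    rw [closure_ball _ hR0.ne']
    apply (((hh_diff 0 hb).const_mul (t : ℂ)).sub (hh_diff 0 hg)).mono
    exact closedBall_subset_ball hR1
  have h := PI_re hF hw
  have e : ∀ z, ((t : ℂ) * hh 0 b z - hh 0 g z).re = (t : ℝ) * HH 0 b z - HH 0 g z := by
    intro z
    rw [Complex.sub_re, ← Complex.ofReal_natCast, Complex.re_ofReal_mul, hh_re, hh_re]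
  simp only [e] at h
  rw [← h]
  apply PI_mono _ (ph_CS hb hg t hR0 hR1) hw (fun x _ => le_max_right _ _)
  exact (continuousOn_const.mul (HH_CS hb hR0 hR1)).sub (HH_CS hg hR0 hR1)

lemma avg_ph (hbg : ∀ j k, b j * starRingEnd ℂ (g k) ≠ 1) {R : ℝ} (hR0 : 0 < R) (hR1 : R < 1) :
    Real.circleAverage (ph t b g) 0 R ≤ Real.circleAverage (Mx t b g) 0 1 := by
  refine le_trans (le_of_eq ?_) (avg_mm_le_one hb hg t hbg hR0 hR1)
  have h1 : ph t b g = fun x => mm t b g x + (t : ℝ) * HH 0 b x := by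
    ext x
    unfold ph mm
    rw [← max_add_add_right]
    congr 1 <;> ring
  have hU : CS R (fun x => (t : ℝ) * HH 0 b x) := continuousOn_const.mul (HH_CS hb hR0 hR1)
  rw [h1, Real.circleAverage_fun_add (mm_CS hb hg t hR0 hR1).ci hU.ci]
  have h2 : Real.circleAverage (fun x => (t : ℝ) * HH 0 b x) 0 R = 0 := by
    have h3 := PI_tHH hb t hR0 hR1 (mem_ball_self hR0)
    rw [PI_zero hR0] at h3
    have h4 : HH 0 b 0 = 0 := by unfold HH; simp
    rw [h4, mul_zero, neg_zero] at h3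
    have h5 : Real.circleAverage (fun x => (t : ℝ) * HH 0 b x) 0 R =
        -Real.circleAverage (fun x => -((t : ℝ) * HH 0 b x)) 0 R := by
      have h6 := Real.circleAverage_fun_smul (a := (-1 : ℝ)) (f := fun x => (t : ℝ) * HH 0 b x)
        (c := 0) (R := R)
      simp only [smul_eq_mul, neg_one_mul] at h6
      rw [h6, neg_neg]
    rw [h5, h3, neg_zero]
  rw [h2, add_zero]

end dom

end Pool.Agent.R328
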