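import Mathlib
import Pool.Agent.R328.PC

/-!
# Contractions of bounded energy from a companion family
-/

set_option autoImplicit false

open Complex Metric Finset Pool.Agent.Y947.DL Pool.Agent.Y947.DP

namespace Pool.Agent.R328

lemma log_mono1 {s : ℝ} (hs : 0 ≤ s) (hs' : s < 1) {w : ℂ} (hw : ‖w‖ ≤ 1) (hw1 : w ≠ 1) :
    Real.log ‖1 - w‖ ≤ Real.log ‖1 - (s : ℂ) * w‖ + (1 - s) := by
  have hlt : ‖(s : ℂ) * w‖ < 1 := by
    rw [norm_mul, Complex.norm_real, Real.norm_of_nonneg hs]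
    nlinarith [norm_nonneg w]
  have h0 : 0 < ‖1 - (s : ℂ) * w‖ := norm_pos_iff.mpr (one_sub_ne hlt)
  have h0' : 0 < ‖1 - w‖ := norm_pos_iff.mpr (sub_ne_zero.mpr (Ne.symm hw1))
  have h1 := mono_aux hs hs'.le le_rfl hw
  rw [Complex.ofReal_one, one_mul] at h1
  have h2 : ‖1 - w‖ ≤ (1 + 1) / (1 + s) * ‖1 - (s : ℂ) * w‖ := by
    rw [div_mul_eq_mul_div, le_div_iff₀ (by linarith)]
    linarith
  have h3 : Real.log ((1 + 1) / (1 + s)) ≤ 1 - s := by
    have h4 := Real.log_le_sub_one_of_pos (show (0:ℝ) < (1 + 1) / (1 + s) by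
      apply div_pos <;> linarith)
    refine h4.trans ?_
    rw [div_sub_one (by linarith), div_le_iff₀ (by linarith)]
    nlinarith
  have h5 := Real.log_le_log h0' h2
  rw [Real.log_mul (div_pos (by linarith) (by linarith)).ne' h0.ne'] at h5
  linarith

variable {ι κ : Type*} [Fintype ι] [Fintype κ]

variable {b : ι → ℂ} (hb : ∀ j, ‖b j‖ ≤ 1) {g : κ → ℂ} (hg : ∀ j, ‖g j‖ ≤ 1)

include hb

lemma sum_HHg (hg : ∀ j, ‖g j‖ ≤ 1) (hbg : ∀ j k, b j * starRingEnd ℂ (g k) ≠ 1) {ρ : ι → ℝ}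
    (hρ : ∀ j, 0 < ρ j ∧ ρ j ≤ 1 / 4) {R : ℝ} (hR0 : 0 < R) (hR1 : R < 1) :
    ∑ j, HH 0 g ((R : ℂ) * (((1 - ρ j : ℝ) : ℂ) * b j)) ≤
      ∑ j, ∑ k, -Real.log ‖1 - b j * starRingEnd ℂ (g k)‖ + Fintype.card κ * ∑ j, ρ j +
        Fintype.card κ * (Fintype.card ι * (1 - R)) := by
  have h1 : ∀ j ∈ (Finset.univ : Finset ι), HH 0 g ((R : ℂ) * (((1 - ρ j : ℝ) : ℂ) * b j)) ≤
      ∑ k, -Real.log ‖1 - b j * starRingEnd ℂ (g k)‖ + Fintype.card κ * ρ j +
        Fintype.card κ * (1 - R) := by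
    intro j _
    have hj := hρ j
    have h2 : ∀ k ∈ (Finset.univ : Finset κ),
        -Real.log ‖1 - (R : ℂ) * (((1 - ρ j : ℝ) : ℂ) * b j) * starRingEnd ℂ (g k)‖ ≤
          -Real.log ‖1 - b j * starRingEnd ℂ (g k)‖ + (ρ j + (1 - R)) := by
      intro k _
      have h3 := log_mono1 (s := R * (1 - ρ j)) (mul_nonneg hR0.le (by linarith)) (by nlinarith)
        (w := b j * starRingEnd ℂ (g k)) (by
          rw [norm_mul, RCLike.norm_conj]
          exact mul_le_one₀ (hb j) (norm_nonneg _) (hg k)) (hbg j k)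
      have e : (R : ℂ) * (((1 - ρ j : ℝ) : ℂ) * b j) * starRingEnd ℂ (g k) =
          ((R * (1 - ρ j) : ℝ) : ℂ) * (b j * starRingEnd ℂ (g k)) := by push_cast; ring
      rw [e]
      nlinarith
    have h3 := Finset.sum_le_sum h2
    rw [Finset.sum_add_distrib, Finset.sum_const, Finset.card_univ, nsmul_eq_mul] at h3
    have e2 : HH 0 g ((R : ℂ) * (((1 - ρ j : ℝ) : ℂ) * b j)) =
        ∑ k, -Real.log ‖1 - (R : ℂ) * (((1 - ρ j : ℝ) : ℂ) * b j) * starRingEnd ℂ (g k)‖ := by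
      unfold HH
      rw [Finset.sum_neg_distrib]; ring
    rw [e2]
    linarith
  have h2 := Finset.sum_le_sum h1
  rw [Finset.sum_add_distrib, Finset.sum_add_distrib, Finset.sum_const, Finset.card_univ,
    nsmul_eq_mul, ← Finset.mul_sum] at h2
  linarith

lemma En_le_HH {ρ : ι → ℝ} (hρ : ∀ j, 0 < ρ j ∧ ρ j ≤ 1 / 4) {R : ℝ} (hR1 : R < 1)
    (hR : ∀ j, 1 - ρ j ≤ R) :
    En b ρ ≤ ∑ j, HH 0 b ((R : ℂ) * (((1 - ρ j : ℝ) : ℂ) * b j)) + Fintype.card ι * ∑ j, ρ j := by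
  have h1 : ∀ i ∈ (Finset.univ : Finset ι), ∑ j, -Real.log ‖1 - zz b ρ i j‖ ≤
      HH 0 b ((R : ℂ) * (((1 - ρ i : ℝ) : ℂ) * b i)) + ∑ j, ρ j := by
    intro i _
    have e2 : HH 0 b ((R : ℂ) * (((1 - ρ i : ℝ) : ℂ) * b i)) =
        ∑ k, -Real.log ‖1 - (R : ℂ) * (((1 - ρ i : ℝ) : ℂ) * b i) * starRingEnd ℂ (b k)‖ := by
      unfold HH
      rw [Finset.sum_neg_distrib]; ring
    rw [e2, ← Finset.sum_add_distrib]
    apply Finset.sum_le_sum
    intro j _
    have hi := hρ i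
    have hj := hρ j
    have hRj := hR j
    have h3 := log_mono (s := (1 - ρ i) * (1 - ρ j)) (s' := R * (1 - ρ i))
      (mul_nonneg (by linarith) (by linarith)) (by nlinarith) (by nlinarith)
      (w := b i * starRingEnd ℂ (b j)) (norm_bb hb i j)
    have e : (R : ℂ) * (((1 - ρ i : ℝ) : ℂ) * b i) * starRingEnd ℂ (b j) =
        ((R * (1 - ρ i) : ℝ) : ℂ) * (b i * starRingEnd ℂ (b j)) := by push_cast; ring
    rw [e]
    have h4 : R * (1 - ρ i) - (1 - ρ i) * (1 - ρ j) ≤ ρ j := by nlinarith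
    unfold zz
    linarith
  have h2 := Finset.sum_le_sum h1
  rw [Finset.sum_add_distrib, Finset.sum_const, Finset.card_univ, nsmul_eq_mul] at h2
  exact h2

/-- energy of the scaled contraction -/
lemma En_scale {ρ : ι → ℝ} (hρ : ∀ j, 0 < ρ j ∧ ρ j ≤ 1 / 4) {q : ℝ} (hq0 : 0 < q) (hq1 : q ≤ 1) :
    En b (fun j => q * ρ j) ≤ En b ρ + (14 + 8 * Real.log (1 / q)) * ∑ i, ρ i * Dd b ρ i +
      Fintype.card ι * ∑ j, ρ j := by
  have hρ1 : ∀ j, 0 < ρ j ∧ ρ j ≤ 1 := fun j => ⟨(hρ j).1, by linarith [(hρ j).2]⟩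
  have hlog : 0 ≤ Real.log (1 / q) := Real.log_nonneg (by rw [le_div_iff₀ hq0]; linarith)
  have h1 : ∀ i j, -Real.log ‖1 - zz b (fun j => q * ρ j) i j‖ ≤ -Real.log ‖1 - zz b ρ i j‖ +
      (7 + 4 * Real.log (1 / q)) * (ρ i * PK (zz b ρ i j) + ρ j * PK (zz b ρ j i)) + ρ j := by
    intro i j
    have hi := hρ i
    have hj := hρ j
    set w := b i * starRingEnd ℂ (b j) with hw
    have hw1 : ‖w‖ ≤ 1 := norm_bb hb i j
    set r := ρ i + ρ j - ρ i * ρ j with hr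
    have hr0 : 0 < r := by rw [hr]; nlinarith
    have hr2 : r ≤ 1 / 2 := by rw [hr]; nlinarith
    have hqr : q * r ≤ 1 := by nlinarith
    have h2 := log_ratio_le hq0 hq1 hr0 hr2 rfl rfl hw1
    have hs1 : (1 - q * ρ i) * (1 - q * ρ j) ≤ 1 - q * r := by
      rw [hr]
      have : q * q * (ρ i * ρ j) ≤ q * (ρ i * ρ j) := by
        apply mul_le_mul_of_nonneg_right _ (mul_nonneg hi.1.le hj.1.le)
        nlinarith
      nlinarith
    have hqi : q * ρ i ≤ 1 / 4 := by nlinarith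
    have hqj : q * ρ j ≤ 1 / 4 := by nlinarith
    have h3 := log_mono (s := (1 - q * ρ i) * (1 - q * ρ j)) (s' := 1 - q * r)
      (mul_nonneg (by linarith) (by linarith)) hs1 (by nlinarith) hw1
    have e1 : (((1 - r : ℝ)) : ℂ) * w = zz b ρ i j := by
      unfold zz
      rw [← hw]
      congr 2
      rw [hr]; ring
    have e2 : PK (zz b ρ j i) = PK (zz b ρ i j) := by rw [zz_conj, PK_conj]
    rw [e1] at h2
    have h4 : (1 - ‖zz b ρ i j‖ ^ 2) / ‖1 - zz b ρ i j‖ ^ 2 = PK (zz b ρ i j) := rfl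
    rw [h4] at h2
    have hP : 0 ≤ PK (zz b ρ i j) := PK_nonneg (norm_zz_lt hb hρ1 i j).le
    have h5 : 1 - q * r - (1 - q * ρ i) * (1 - q * ρ j) ≤ ρ j := by
      have h6 : 1 - q * r - (1 - q * ρ i) * (1 - q * ρ j) = q * (1 - q) * (ρ i * ρ j) := by
        rw [hr]; ring
      rw [h6]
      have h7 : q * (1 - q) ≤ 1 := by nlinarith
      have h8 : ρ i * ρ j ≤ ρ j := by nlinarith
      have h9 : 0 ≤ ρ i * ρ j := mul_nonneg hi.1.le hj.1.le
      nlinarith
    have h6 : r * PK (zz b ρ i j) * (7 + 4 * Real.log (1 / q)) ≤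
        (7 + 4 * Real.log (1 / q)) * (ρ i * PK (zz b ρ i j) + ρ j * PK (zz b ρ j i)) := by
      rw [e2, mul_comm]
      apply mul_le_mul_of_nonneg_left _ (by linarith)
      rw [← add_mul]
      apply mul_le_mul_of_nonneg_right _ hP
      rw [hr]
      nlinarith
    have e3 : zz b (fun j => q * ρ j) i j = (((1 - q * ρ i) * (1 - q * ρ j) : ℝ) : ℂ) * w := rfl
    rw [e3]
    linarith
  have h2 := Finset.sum_le_sum fun i (_ : i ∈ Finset.univ) =>
    Finset.sum_le_sum fun j (_ : j ∈ (Finset.univ : Finset ι)) => h1 i j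
  have e1 : ∑ i, ∑ j, (-Real.log ‖1 - zz b ρ i j‖ +
      (7 + 4 * Real.log (1 / q)) * (ρ i * PK (zz b ρ i j) + ρ j * PK (zz b ρ j i)) + ρ j) =
      En b ρ + (14 + 8 * Real.log (1 / q)) * ∑ i, ρ i * Dd b ρ i + Fintype.card ι * ∑ j, ρ j := by
    simp only [Finset.sum_add_distrib, ← Finset.mul_sum]
    have e2 : ∑ i, ∑ j, ρ j * PK (zz b ρ j i) = ∑ i, ρ i * Dd b ρ i := by
      rw [Finset.sum_comm]
      refine Finset.sum_congr rfl fun i _ => ?_
      unfold Dd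
      rw [Finset.mul_sum]
    have e3 : ∑ i, ρ i * ∑ j, PK (zz b ρ i j) = ∑ i, ρ i * Dd b ρ i := rfl
    rw [e2, e3, Finset.sum_const, Finset.card_univ, nsmul_eq_mul]
    unfold En
    ring
  rw [e1] at h2
  exact h2

/-- contractions of bounded energy from a companion family -/
theorem core (hg : ∀ j, ‖g j‖ ≤ 1) (hbg : ∀ j k, b j * starRingEnd ℂ (g k) ≠ 1)
    (hn : 0 < Fintype.card ι) {t : ℕ} (ht : 0 < t) {K E θ : ℝ} (hE : 0 ≤ E)
    (hθ : (Fintype.card κ : ℝ) = θ * (t * Fintype.card ι))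
    (hK : Real.circleAverage (Mx t b g) 0 1 ≤ t * K)
    (hEE : ∑ j, ∑ k, -Real.log ‖1 - b j * starRingEnd ℂ (g k)‖ ≤ t * Fintype.card ι * E) :
    ∃ ρ : ι → ℝ, (∀ j, 0 < ρ j ∧ ρ j ≤ 1 / 4) ∧ ∑ j, ρ j ≤ 70 * ((1 + θ) * (1 + K) + E) ∧
      ∀ q : ℝ, 0 < q → q ≤ 1 → En b (fun j => q * ρ j) ≤
        Fintype.card ι * (21100 * ((1 + θ) * (1 + K) + E) * (1 + Real.log (1 / q))) := by
  classical
  set n : ℝ := (Fintype.card ι : ℝ) with hndef
  have hn1 : 1 ≤ n := by rw [hndef]; exact_mod_cast hn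
  have hn0 : 0 < n := by linarith
  have ht1 : (1:ℝ) ≤ t := by exact_mod_cast ht
  have ht0 : (0:ℝ) < t := by linarith
  have hne : Nonempty ι := Fintype.card_pos_iff.mp hn
  have hθ0 : 0 ≤ θ := by
    by_contra hc
    push Not at hc
    have h1 : (0:ℝ) ≤ Fintype.card κ := Nat.cast_nonneg _
    have h2 : θ * (t * n) < 0 := mul_neg_of_neg_of_pos hc (by positivity)
    linarith
  set A : ℝ := 20 * (1 + θ) with hA
  have hA10 : 10 ≤ A := by rw [hA]; linarith
  obtain ⟨ρ, hρ, hD, hcost⟩ := choice hb hn hA10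
  have hρ' : ∀ j, 0 < ρ j ∧ ρ j ≤ 1 / 4 := fun j => (hρ j).2
  have hρ1 : ∀ j, 0 < ρ j ∧ ρ j ≤ 1 := fun j => ⟨(hρ' j).1, by linarith [(hρ' j).2]⟩
  rw [← hndef] at hρ hD hcost
  set S := n * ∑ j, ρ j with hS
  have hsum0 : 0 ≤ ∑ j, ρ j := Finset.sum_nonneg fun j _ => (hρ' j).1.le
  have hS0 : 0 ≤ S := mul_nonneg hn0.le hsum0
  set h : ℝ := 1 / (16 * n) with hh
  have hh0 : 0 < h := by positivity
  have hh16 : h ≤ 1 / 16 := by
    rw [hh]; apply one_div_le_one_div_of_le (by norm_num); linarith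
  have hnh : n * h = 1 / 16 := by rw [hh]; field_simp
  set R : ℝ := 1 - h with hR
  have hR0 : 0 < R := by linarith
  have hR1 : R < 1 := by linarith
  have hRρ : ∀ j, 1 - ρ j ≤ R := by
    intro j
    have h1 := (hρ j).1
    have h2 : 1 / (4 * n) = 4 * h := by rw [hh]; field_simp; norm_num
    rw [h2] at h1
    linarith
  set x : ι → ℂ := fun i => ((1 - ρ i : ℝ) : ℂ) * b i with hx
  have hx1 : ∀ i, ‖x i‖ < 1 := by
    intro i
    have h1 := hρ' i
    simp only [hx]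
    rw [norm_mul, Complex.norm_real, Real.norm_of_nonneg (by linarith)]
    nlinarith [hb i, norm_nonneg (b i)]
  have hxz : ∀ i j, x i * starRingEnd ℂ (x j) = zz b ρ i j := by
    intro i j
    simp only [hx, zz]
    rw [map_mul, Complex.conj_ofReal]
    push_cast
    ring
  have hDx : ∀ i, ∑ j, PK (x i * starRingEnd ℂ (x j)) ≤ (A + 1) * n := by
    intro i
    simp only [hxz]
    exact hD i
  have hsum1 := PI_sum_le hx1 hDx hR0 (ph_CS hb hg t hR0 hR1) (fun ζ _ => le_max_left _ _)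
  have hav := avg_ph hb hg t hbg hR0 hR1
  have hav0 : 0 ≤ Real.circleAverage (ph t b g) 0 R := by
    apply Real.circleAverage_nonneg_of_nonneg
    intro ζ _
    exact le_max_left _ _
  have hK0 : 0 ≤ K := by
    have h1 : 0 ≤ (t : ℝ) * K := by linarith
    by_contra hc
    push Not at hc
    have := mul_neg_of_pos_of_neg ht0 hc
    linarith
  have hdom : (t : ℝ) * ∑ j, HH 0 b ((R : ℂ) * x j) ≤
      ∑ j, HH 0 g ((R : ℂ) * x j) + ∑ j, PI R (ph t b g) ((R : ℂ) * x j) := by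
    rw [Finset.mul_sum, ← Finset.sum_add_distrib]
    apply Finset.sum_le_sum
    intro j _
    have hw : (R : ℂ) * x j ∈ ball (0:ℂ) R := by
      rw [mem_ball_zero_iff, norm_mul, Complex.norm_real, Real.norm_of_nonneg hR0.le]
      nlinarith [hx1 j]
    have h1 := ph_dom hb hg t hR0 hR1 hw
    linarith
  have hEn := En_le_HH hb hρ' hR1 hRρ
  have hHg := sum_HHg hb hg hbg hρ' hR0 hR1
  rw [← hndef] at hEn hHg
  have h1R : 1 - R = h := by rw [hR]; ring
  rw [h1R, hnh] at hHg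
  have hκS : (Fintype.card κ : ℝ) * ∑ j, ρ j = θ * t * S := by rw [hθ, hS]; ring
  rw [hκS] at hHg
  rw [hθ] at hHg
  -- the chain
  have c1 : (t : ℝ) * En b ρ ≤ t * (n * E + θ * S + θ * n / 16 + 4 * (A + 1) * n * K + S) := by
    have h1 : (t : ℝ) * En b ρ ≤ t * (∑ j, HH 0 b ((R : ℂ) * x j) + S) :=
      mul_le_mul_of_nonneg_left hEn ht0.le
    have h2 : 4 * ((A + 1) * n) * Real.circleAverage (ph t b g) 0 R ≤ 4 * ((A + 1) * n) * (t * K) := by
      apply mul_le_mul_of_nonneg_left (hav.trans hK)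
      have : 0 ≤ A + 1 := by linarith
      positivity
    have h3 : ∑ j, HH 0 g ((R : ℂ) * x j) ≤ t * n * E + θ * t * S + θ * (t * n) * (1 / 16) :=
      hHg.trans (by linarith)
    calc (t : ℝ) * En b ρ ≤ t * ∑ j, HH 0 b ((R : ℂ) * x j) + t * S := by linarith
      _ ≤ (t * n * E + θ * t * S + θ * (t * n) * (1 / 16)) + 4 * ((A + 1) * n) * (t * K) + t * S := by
        linarith
      _ = _ := by ring
  have c2 : En b ρ ≤ n * E + θ * S + θ * n / 16 + 4 * (A + 1) * n * K + S :=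
    le_of_mul_le_mul_left c1 ht0
  set W := (1 + θ) * (1 + K) + E with hW
  have hnK : 0 ≤ n * K := by positivity
  have hnθ : 0 ≤ n * θ := by positivity
  have hnθK : 0 ≤ n * (θ * K) := by positivity
  have hnE : 0 ≤ n * E := by positivity
  have hnW : n * W = n + n * θ + n * K + n * (θ * K) + n * E := by rw [hW]; ring
  have c3 : (1 + θ) * S ≤ 9 / 20 * En b ρ + n * (1 + θ) / 2 := by
    rw [hA] at hcost
    linarith
  have c4 : 4 * (A + 1) * n * K = 84 * (n * K) + 80 * (n * (θ * K)) := by rw [hA]; ring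
  have c5 : En b ρ ≤ 155 * (n * W) := by
    rw [c4] at c2
    rw [hnW]
    linarith
  have c6 : (1 + θ) * S ≤ 71 * (n * W) := by
    rw [hnW]
    rw [hnW] at c5
    linarith
  have c7 : (1 + θ) * ∑ j, ρ j ≤ 71 * W := by
    have h1 : n * ((1 + θ) * ∑ j, ρ j) ≤ n * (71 * W) := by
      calc n * ((1 + θ) * ∑ j, ρ j) = (1 + θ) * S := by rw [hS]; ring
        _ ≤ _ := by linarith
    exact le_of_mul_le_mul_left h1 hn0
  refine ⟨ρ, hρ', ?_, ?_⟩
  · have h2 : En b ρ ≤ 153 * (n * W) := by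
      rw [c4] at c2
      rw [hnW]
      linarith
    have h3 : (1 + θ) * S ≤ 70 * (n * W) := by
      rw [hnW]
      rw [hnW] at h2
      linarith
    have h4 : S ≤ 70 * (n * W) := by
      have : 0 ≤ θ * S := mul_nonneg hθ0 hS0
      linarith
    have h5 : n * ∑ j, ρ j ≤ n * (70 * W) := by rw [← hS]; linarith
    exact le_of_mul_le_mul_left h5 hn0
  · intro q hq0 hq1
    have hlog : 0 ≤ Real.log (1 / q) := Real.log_nonneg (by rw [le_div_iff₀ hq0]; linarith)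
    have h1 := En_scale hb hρ' hq0 hq1
    rw [← hndef, ← hS] at h1
    have hSD : ∑ i, ρ i * Dd b ρ i ≤ (A + 1) * S := by
      rw [hS, Finset.mul_sum, Finset.mul_sum]
      apply Finset.sum_le_sum
      intro i _
      have := mul_le_mul_of_nonneg_left (hD i) (hρ' i).1.le
      linarith
    have hA1 : (A + 1) * S ≤ 21 * ((1 + θ) * S) := by
      have h2 : 0 ≤ θ * S := mul_nonneg hθ0 hS0
      rw [hA]
      linarith
    have h3 : ∑ i, ρ i * Dd b ρ i ≤ 1491 * (n * W) := by linarith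
    have h4 : (14 + 8 * Real.log (1 / q)) * ∑ i, ρ i * Dd b ρ i ≤
        (14 + 8 * Real.log (1 / q)) * (1491 * (n * W)) := mul_le_mul_of_nonneg_left h3 (by linarith)
    have h5 : S ≤ 71 * (n * W) := by
      have : 0 ≤ θ * S := mul_nonneg hθ0 hS0
      linarith
    have hnW0 : 0 ≤ n * W := by
      rw [hnW]; linarith
    have h6 : 0 ≤ n * W * Real.log (1 / q) := mul_nonneg hnW0 hlog
    calc En b (fun j => q * ρ j) ≤ 155 * (n * W) + (14 + 8 * Real.log (1 / q)) * (1491 * (n * W)) +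
          71 * (n * W) := by linarith
      _ = 21100 * (n * W) + 11928 * (n * W * Real.log (1 / q)) := by ring
      _ ≤ 21100 * (n * W) + 21100 * (n * W * Real.log (1 / q)) := by linarith
      _ = n * (21100 * W * (1 + Real.log (1 / q))) := by ring

end Pool.Agent.R328
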