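import Mathlib
import Pool.Agent.R328.PD
import Pool.Agent.Y947.DP.Fin

/-!
# Companion polynomials with complex roots
-/

set_option autoImplicit false

open Finset Polynomial Module Metric Pool.Agent.H388SL Pool.Agent.Y947.DL Pool.Agent.Y947.DM
  Pool.Agent.Y947.DP

namespace Pool.Agent.R328

/-- comparison of averages, up to a countable set -/
lemma circleAverage_mono_off {φ ψ : ℂ → ℝ} (hφ : CircleIntegrable φ 0 1) (hψ : CircleIntegrable ψ 0 1)
    {Z : Set ℂ} (hZ : Z.Countable) (h : ∀ z ∈ sphere (0:ℂ) 1, z ∉ Z → φ z ≤ ψ z) :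
    Real.circleAverage φ 0 1 ≤ Real.circleAverage ψ 0 1 := by
  unfold Real.circleAverage
  apply smul_le_smul_of_nonneg_left _ (by positivity)
  apply intervalIntegral.integral_mono_ae (by positivity) hφ hψ
  have h1 : (circleMap 0 1 ⁻¹' Z).Countable := hZ.preimage_circleMap 0 one_ne_zero
  have h2 := h1.ae_notMem MeasureTheory.volume
  filter_upwards [h2] with θ hθ
  exact h _ (circleMap_mem_sphere 0 (by norm_num) θ) hθ

/-- averages of `φ (z ^ q)` -/
lemma circleAverage_pow' {φ : ℂ → ℝ} (hφ : ContinuousOn φ (sphere (0:ℂ) 1)) {q : ℕ} (hq : 0 < q) :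
    Real.circleAverage (fun z => φ (z ^ q)) 0 1 = Real.circleAverage φ 0 1 := by
  unfold Real.circleAverage
  congr 1
  have hq0 : (q : ℝ) ≠ 0 := by exact_mod_cast hq.ne'
  have h1 : ∀ θ : ℝ, φ (circleMap 0 1 θ ^ q) = (fun u => φ (circleMap 0 1 u)) (q * θ) := by
    intro θ
    dsimp only
    congr 1
    simp only [circleMap_zero, Complex.ofReal_one, one_mul, Complex.ofReal_mul, Complex.ofReal_natCast]
    rw [← Complex.exp_nat_mul]
    congr 1
    ring
  have h0 : ∫ θ in (0:ℝ)..2 * Real.pi, φ (circleMap 0 1 θ ^ q) =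
      ∫ θ in (0:ℝ)..2 * Real.pi, (fun u => φ (circleMap 0 1 u)) (q * θ) :=
    intervalIntegral.integral_congr fun θ _ => h1 θ
  rw [h0, intervalIntegral.integral_comp_mul_left (fun u => φ (circleMap 0 1 u)) hq0, mul_zero]
  have hper : Function.Periodic (fun u : ℝ => φ (circleMap 0 1 u)) (2 * Real.pi) := fun x => by
    dsimp only
    rw [periodic_circleMap 0 1 x]
  have hcont : Continuous (fun u : ℝ => φ (circleMap 0 1 u)) :=
    hφ.comp_continuous (continuous_circleMap 0 1) (fun u => circleMap_mem_sphere 0 (by norm_num) u)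
  have h2 := hper.intervalIntegral_add_zsmul_eq (q : ℤ) 0 (fun a b => hcont.intervalIntegrable a b)
  simp only [zero_add, natCast_zsmul, nsmul_eq_mul] at h2
  rw [h2, smul_eq_mul]
  field_simp

/-- averages are invariant under rotations -/
lemma circleAverage_rot {φ : ℂ → ℝ} {ζ : ℂ} (hζ : ‖ζ‖ = 1) :
    Real.circleAverage (fun z => φ (ζ * z)) 0 1 = Real.circleAverage φ 0 1 := by
  rw [Real.circleAverage_eq_integral_add (f := φ) (Complex.arg ζ)]
  unfold Real.circleAverage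
  congr 1
  apply intervalIntegral.integral_congr
  intro θ _
  dsimp only
  congr 1
  have h1 : ζ = Complex.exp (Complex.arg ζ * Complex.I) := by
    have := Complex.norm_mul_exp_arg_mul_I ζ
    rw [hζ, Complex.ofReal_one, one_mul] at this
    exact this.symm
  simp only [circleMap_zero, Complex.ofReal_one, one_mul, Complex.ofReal_add]
  nth_rewrite 1 [h1]
  rw [← Complex.exp_add]
  congr 1
  ring

/-- value of a companion polynomial -/
noncomputable def GV {m : ℕ} (c : ℂ) (γ : Fin m → ℂ) (z : ℂ) : ℂ := c * ∏ k, (z - γ k)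

lemma GV_cont {m : ℕ} (c : ℂ) (γ : Fin m → ℂ) : Continuous (GV c γ) := by
  unfold GV
  fun_prop

lemma aeval_cont (f : ℤ[X]) : Continuous (fun z : ℂ => aeval z f) := by
  simp only [Polynomial.aeval_def]
  exact Polynomial.continuous_eval₂ f _

/-- the logarithm of the maximum -/
noncomputable def LM {m : ℕ} (f : ℤ[X]) (t : ℕ) (c : ℂ) (γ : Fin m → ℂ) (z : ℂ) : ℝ :=
  Real.log (max (‖aeval z f‖ ^ t) ‖GV c γ z‖)

/-- no common zeros -/
def NC {m : ℕ} (f : ℤ[X]) (c : ℂ) (γ : Fin m → ℂ) : Prop :=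
  1 ≤ ‖c‖ ^ f.natDegree * ∏ k, ‖aeval (γ k) f‖

lemma NC.pos {m : ℕ} {f : ℤ[X]} {c : ℂ} {γ : Fin m → ℂ} (h : NC f c γ) (hc : 1 ≤ ‖c‖ * ∏ k, max 1 ‖γ k‖)
    (t : ℕ) (z : ℂ) : 0 < max (‖aeval z f‖ ^ t) ‖GV c γ z‖ := by
  by_contra hcon
  push Not at hcon
  have h1 : ‖aeval z f‖ ^ t ≤ 0 := (le_max_left _ _).trans hcon
  have h2 : ‖GV c γ z‖ ≤ 0 := (le_max_right _ _).trans hcon
  have h3 : aeval z f = 0 := by
    have h4 : ‖aeval z f‖ ^ t = 0 := le_antisymm h1 (by positivity)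
    exact norm_eq_zero.mp (eq_zero_of_pow_eq_zero h4)
  have h4 : GV c γ z = 0 := norm_le_zero_iff.mp h2
  have hc0 : c ≠ 0 := by
    rintro rfl
    rw [norm_zero, zero_mul] at hc
    linarith
  unfold GV at h4
  rcases mul_eq_zero.mp h4 with h5 | h5
  · exact hc0 h5
  obtain ⟨k, -, hk⟩ := Finset.prod_eq_zero_iff.mp h5
  have hzk : z = γ k := sub_eq_zero.mp hk
  unfold NC at h
  rw [Finset.prod_eq_zero (Finset.mem_univ k) (by rw [← hzk, h3, norm_zero]), mul_zero] at h
  linarith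

lemma LM_cont {m : ℕ} {f : ℤ[X]} {c : ℂ} {γ : Fin m → ℂ} (h : NC f c γ)
    (hc : 1 ≤ ‖c‖ * ∏ k, max 1 ‖γ k‖) (t : ℕ) : Continuous (LM f t c γ) := by
  unfold LM
  rw [continuous_iff_continuousAt]
  intro z
  apply ContinuousAt.log
  · exact ((((aeval_cont f).norm.pow t).max (GV_cont c γ).norm)).continuousAt
  · exact (h.pos hc t z).ne'

lemma GV_eval {m : ℕ} (c : ℂ) (γ : Fin m → ℂ) (z : ℂ) :
    (C c * ∏ k, (X - C (γ k))).eval z = GV c γ z := by
  unfold GV
  rw [Polynomial.eval_mul, Polynomial.eval_C, Polynomial.eval_prod]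
  simp

/-- the mean of `log |G|` -/
lemma avg_log_GV {m : ℕ} {c : ℂ} (hc0 : c ≠ 0) (γ : Fin m → ℂ) :
    Real.circleAverage (fun z => Real.log ‖GV c γ z‖) 0 1 = Real.log ‖c‖ + ∑ k, Real.log (max 1 ‖γ k‖) := by
  have h1 : Real.circleAverage (fun z => Real.log ‖GV c γ z‖) 0 1 =
      (C c * ∏ k, (X - C (γ k))).logMahlerMeasure := by
    rw [logMahlerMeasure_def]
    simp only [GV_eval]
  have hp0 : (∏ k, (X - C (γ k)) : ℂ[X]) ≠ 0 := by
    rw [Finset.prod_ne_zero_iff]
    intro k _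
    exact X_sub_C_ne_zero _
  rw [h1, logMahlerMeasure_C_mul hc0 hp0, logMahlerMeasure_eq_log_MahlerMeasure]
  have h2 : (∏ k, (X - C (γ k)) : ℂ[X]).mahlerMeasure = ∏ k, max 1 ‖γ k‖ := by
    rw [Finset.prod_eq_multiset_prod, prod_mahlerMeasure_eq_mahlerMeasure_prod, Multiset.map_map,
      Finset.prod_eq_multiset_prod]
    congr 1
    refine Multiset.map_congr rfl fun τ _ => ?_
    rw [Function.comp_apply, mahlerMeasure_X_sub_C]
  rw [h2, Real.log_prod]
  intro k _
  have : (0:ℝ) < max 1 ‖γ k‖ := lt_of_lt_of_le one_pos (le_max_left _ _)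
  exact this.ne'

/-- the mean of the logarithm of the maximum dominates the mean of `log |G|` -/
lemma avg_GV_le {m : ℕ} {f : ℤ[X]} {c : ℂ} {γ : Fin m → ℂ} (h : NC f c γ)
    (hc : 1 ≤ ‖c‖ * ∏ k, max 1 ‖γ k‖) (t : ℕ) :
    Real.log ‖c‖ + ∑ k, Real.log (max 1 ‖γ k‖) ≤ Real.circleAverage (LM f t c γ) 0 1 := by
  have hc0 : c ≠ 0 := by
    rintro rfl
    rw [norm_zero, zero_mul] at hc
    linarith
  rw [← avg_log_GV hc0 γ]
  apply circleAverage_mono_off (Z := Set.range γ) _ _ (Set.countable_range γ)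
  · intro z _ hz
    apply Real.log_le_log
    · rw [norm_pos_iff]
      unfold GV
      apply mul_ne_zero hc0
      rw [Finset.prod_ne_zero_iff]
      intro k _
      apply sub_ne_zero.mpr
      rintro rfl
      exact hz ⟨k, rfl⟩
    · exact le_max_right _ _
  · apply MeromorphicOn.circleIntegrable_log_norm
    intro z _
    have hd : Differentiable ℂ (GV c γ) := by
      unfold GV
      fun_prop
    exact (hd.analyticAt z).meromorphicAt
  · exact ContinuousOn.circleIntegrable' (LM_cont h hc t).continuousOn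

end Pool.Agent.R328
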