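import Mathlib
import Pool.Agent.R328.PE

/-!
# The bound in terms of the height of a pair
-/

set_option autoImplicit false

open Finset Polynomial Module Metric Pool.Agent.H388SL Pool.Agent.Y947.DL Pool.Agent.Y947.DM
  Pool.Agent.Y947.DP

namespace Pool.Agent.R328

/-- the property of the constant provided by the optimisation over the primes -/
def FM (c : ℝ) : Prop := ∀ (K : Type) [Field K] [NumberField K] (α : K), IsIntegral ℤ α →
    α ≠ 0 → (∀ n : ℕ, 0 < n → α ^ n ≠ 1) → CInj α → (∏ σ : K →ₐ[ℚ] ℂ, ‖σ α‖ = 1) →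
    (∀ p : ℕ, p.Prime → p ≠ 2 → Good α p) →
    ∀ B : ℝ, 1 ≤ B →
    (lam α ≤ 1 → ∀ κ : ℝ, 0 < κ → κ ≤ 1 → ∃ ε : (K →ₐ[ℚ] ℂ) → ℝ, (∀ σ, 0 < ε σ ∧ ε σ ≤ 1 / 2) ∧
      ∑ σ, ε σ ≤ κ * (63000000 * B) ∧
      EE α ε 1 1 ≤ finrank ℚ K * (2 * 10 ^ 9 * B * (1 + Real.log (1 / κ)))) →
    c / B ^ 3 ≤ lam α

lemma EE_eq_En {K : Type} [Field K] [NumberField K] (α : K) (ε : (K →ₐ[ℚ] ℂ) → ℝ) :
    EE α ε 1 1 = En (fun σ : K →ₐ[ℚ] ℂ => H388SL.refl (σ α)) ε := by
  unfold EE En zz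
  refine Finset.sum_congr rfl fun σ _ => Finset.sum_congr rfl fun τ _ => ?_
  rw [ww_mul α ε σ τ one_ne_zero one_ne_zero, pow_one, pow_one, pow_one]

section Rep

variable {p : ℤ[X]} {K : Type} [Field K] [NumberField K] {α : K}

lemma norm_aeval_factor (h : Rep p K α) {z : ℂ} (hz : ‖z‖ = 1) :
    ‖aeval z p‖ = ‖Pr (fun σ : K →ₐ[ℚ] ℂ => H388SL.refl (σ α)) z‖ * ∏ σ : K →ₐ[ℚ] ℂ, max 1 ‖σ α‖ := by
  rw [h.aeval_eq, norm_prod, Pr, norm_prod, ← Finset.prod_mul_distrib]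
  refine Finset.prod_congr rfl fun σ _ => ?_
  rw [unit_factor hz]

lemma norm_GV_factor {m : ℕ} (c : ℂ) (γ : Fin m → ℂ) {z : ℂ} (hz : ‖z‖ = 1) :
    ‖GV c γ z‖ = ‖Pr (fun k => H388SL.refl (γ k)) z‖ * (‖c‖ * ∏ k, max 1 ‖γ k‖) := by
  rw [GV, norm_mul, norm_prod, Pr, norm_prod, mul_left_comm, ← Finset.prod_mul_distrib]
  congr 1
  refine Finset.prod_congr rfl fun σ _ => ?_
  rw [unit_factor hz]

/-- the norm of the value of the companion -/
lemma prod_GV (h : Rep p K α) {m : ℕ} (c : ℂ) (γ : Fin m → ℂ) :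
    ∏ σ : K →ₐ[ℚ] ℂ, ‖GV c γ (σ α)‖ = ‖c‖ ^ p.natDegree * ∏ k, ‖aeval (γ k) p‖ := by
  unfold GV
  simp only [norm_mul, norm_prod]
  rw [Finset.prod_mul_distrib, Finset.prod_const, Finset.card_univ, AlgHom.card ℚ K ℂ, h.fin,
    Finset.prod_comm]
  congr 1
  refine Finset.prod_congr rfl fun k _ => ?_
  rw [h.aeval_eq, norm_prod]
  refine Finset.prod_congr rfl fun σ _ => ?_
  rw [norm_sub_rev]

/-- the bound for a represented polynomial -/
lemma rep_pair {c : ℝ} (hc : FM c) (h : Rep p K α) (hc0 : |p.coeff 0| = 1) (hM : 1 < MM p)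
    (hgood : ∀ q : ℕ, q.Prime → q ≠ 2 → Good α q) {m t : ℕ} (ht : 0 < t) {c0 : ℂ} {γ : Fin m → ℂ}
    (hMG : 1 ≤ ‖c0‖ * ∏ k, max 1 ‖γ k‖) (hNC : NC p c0 γ) {B : ℝ} (hB0 : 0 ≤ B)
    (hB : Real.circleAverage (LM p t c0 γ) 0 1 ≤ t * B) :
    c / ((1 + m / (t * p.natDegree)) * (1 + B)) ^ 3 ≤ Real.log (MM p) := by
  have hn : 0 < finrank ℚ K := finrank_pos
  have hn1 : (1:ℝ) ≤ finrank ℚ K := by exact_mod_cast hn
  have hn0 : (0:ℝ) < finrank ℚ K := by linarith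
  have ht1 : (1:ℝ) ≤ t := by exact_mod_cast ht
  have ht0 : (0:ℝ) < t := by linarith
  have hcard : Fintype.card (K →ₐ[ℚ] ℂ) = finrank ℚ K := AlgHom.card ℚ K ℂ
  have hc00 : c0 ≠ 0 := by
    rintro rfl
    rw [norm_zero, zero_mul] at hMG
    linarith
  rw [h.log_MM, ← h.fin]
  set θ : ℝ := (m : ℝ) / (t * finrank ℚ K) with hθ
  have hθ0 : 0 ≤ θ := by rw [hθ]; positivity
  have hθm : (m : ℝ) = θ * (t * finrank ℚ K) := by
    rw [hθ]; field_simp
  apply hc K α h.isInt (h.ne_zero hc0) (h.not_root hM) h.inj (h.prod_norm hc0) hgood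
    ((1 + θ) * (1 + B)) (by nlinarith)
  intro hlam q hq0 hq1
  set b : (K →ₐ[ℚ] ℂ) → ℂ := fun σ => H388SL.refl (σ α) with hbdef
  set g : Fin m → ℂ := fun k => H388SL.refl (γ k) with hgdef
  have hb : ∀ σ, ‖b σ‖ ≤ 1 := fun σ => norm_refl_le _
  have hg : ∀ k, ‖g k‖ ≤ 1 := fun k => norm_refl_le _
  -- values at the conjugates
  have hprod := prod_GV h c0 γ
  have hprod1 : 1 ≤ ∏ σ : K →ₐ[ℚ] ℂ, ‖GV c0 γ (σ α)‖ := by rw [hprod]; exact hNC
  have hGVne : ∀ σ : K →ₐ[ℚ] ℂ, GV c0 γ (σ α) ≠ 0 := by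
    intro σ h0
    rw [Finset.prod_eq_zero (Finset.mem_univ σ) (by rw [h0, norm_zero])] at hprod1
    linarith
  have hne : ∀ (σ : K →ₐ[ℚ] ℂ) k, σ α ≠ γ k := by
    intro σ k hk
    apply hGVne σ
    unfold GV
    rw [Finset.prod_eq_zero (Finset.mem_univ k) (sub_eq_zero.mpr hk), mul_zero]
  have hbg : ∀ σ k, b σ * starRingEnd ℂ (g k) ≠ 1 := by
    intro σ k hk
    have h1 := pair_le (σ α) (γ k)
    have h2 : 1 - b σ * starRingEnd ℂ (g k) = 0 := by rw [hk, sub_self]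
    simp only [hbdef, hgdef] at h2
    rw [h2, norm_zero, mul_zero] at h1
    exact hne σ k (sub_eq_zero.mp (norm_le_zero_iff.mp h1))
  -- the mean
  have hmax : ∀ z ∈ sphere (0:ℂ) 1, 0 < max (‖Pr b z‖ ^ t) ‖Pr g z‖ := fun z hz =>
    max_pos hb t hbg (sphere_subset_closedBall hz)
  have hK : Real.circleAverage (Mx t b g) 0 1 ≤ t * B := by
    refine le_trans ?_ hB
    apply Real.circleAverage_mono
    · apply ContinuousOn.circleIntegrable'
      apply ContinuousOn.log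
      · exact (((Pr_cont b).norm.pow t).max (Pr_cont g).norm).continuousOn
      · intro z hz
        rw [abs_one] at hz
        exact (hmax z hz).ne'
    · exact ContinuousOn.circleIntegrable' (LM_cont hNC hMG t).continuousOn
    · intro z hz
      rw [abs_one] at hz
      apply Real.log_le_log (hmax z hz)
      rw [mem_sphere_zero_iff_norm] at hz
      apply max_le_max
      · apply pow_le_pow_left₀ (norm_nonneg _)
        rw [norm_aeval_factor h hz]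
        apply le_mul_of_one_le_right (norm_nonneg _)
        calc (1:ℝ) = ∏ σ : K →ₐ[ℚ] ℂ, (1:ℝ) := by simp
          _ ≤ ∏ σ : K →ₐ[ℚ] ℂ, max 1 ‖σ α‖ :=
            Finset.prod_le_prod (fun _ _ => zero_le_one) (fun σ _ => le_max_left _ _)
      · rw [norm_GV_factor c0 γ hz]
        exact le_mul_of_one_le_right (norm_nonneg _) hMG
  -- the mutual energy
  have hmG := avg_GV_le hNC hMG t
  have hEE : ∑ σ, ∑ k, -Real.log ‖1 - b σ * starRingEnd ℂ (g k)‖ ≤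
      t * Fintype.card (K →ₐ[ℚ] ℂ) * (B + θ) := by
    have h1 : ∀ σ ∈ (Finset.univ : Finset (K →ₐ[ℚ] ℂ)), ∑ k, -Real.log ‖1 - b σ * starRingEnd ℂ (g k)‖ ≤
        -Real.log ‖GV c0 γ (σ α)‖ + (m * Real.log (max 1 ‖σ α‖) +
          (Real.log ‖c0‖ + ∑ k, Real.log (max 1 ‖γ k‖))) := by
      intro σ _
      have h2 : ∀ k ∈ (Finset.univ : Finset (Fin m)), -Real.log ‖1 - b σ * starRingEnd ℂ (g k)‖ ≤
          -Real.log ‖σ α - γ k‖ + (Real.log (max 1 ‖σ α‖) + Real.log (max 1 ‖γ k‖)) := by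
        intro k _
        have h3 := pair_le (σ α) (γ k)
        have h4 : 0 < ‖σ α - γ k‖ := norm_pos_iff.mpr (sub_ne_zero.mpr (hne σ k))
        have h5 := Real.log_le_log h4 h3
        have m1 : (0:ℝ) < max 1 ‖σ α‖ := lt_of_lt_of_le one_pos (le_max_left _ _)
        have m2 : (0:ℝ) < max 1 ‖γ k‖ := lt_of_lt_of_le one_pos (le_max_left _ _)
        have m3 : 0 < ‖1 - b σ * starRingEnd ℂ (g k)‖ :=
          norm_pos_iff.mpr (sub_ne_zero.mpr (Ne.symm (hbg σ k)))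
        rw [Real.log_mul (by positivity) m3.ne', Real.log_mul m1.ne' m2.ne'] at h5
        linarith
      have h3 := Finset.sum_le_sum h2
      rw [Finset.sum_add_distrib, Finset.sum_add_distrib, Finset.sum_const, Finset.card_univ,
        Fintype.card_fin, nsmul_eq_mul] at h3
      simp only [Finset.sum_neg_distrib] at h3 ⊢
      have h4 : Real.log ‖GV c0 γ (σ α)‖ = Real.log ‖c0‖ + ∑ k, Real.log ‖σ α - γ k‖ := by
        unfold GV
        rw [norm_mul, norm_prod, Real.log_mul (norm_ne_zero_iff.mpr hc00)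
          (Finset.prod_ne_zero_iff.mpr fun k _ => norm_ne_zero_iff.mpr (sub_ne_zero.mpr (hne σ k))),
          Real.log_prod (fun k _ => norm_ne_zero_iff.mpr (sub_ne_zero.mpr (hne σ k)))]
      rw [h4]
      linarith
    have h2 := Finset.sum_le_sum h1
    rw [Finset.sum_add_distrib, Finset.sum_add_distrib, Finset.sum_const, Finset.card_univ,
      nsmul_eq_mul, ← Finset.mul_sum, Finset.sum_neg_distrib, hcard] at h2
    rw [hcard]
    have h3 : 0 ≤ ∑ σ : K →ₐ[ℚ] ℂ, Real.log ‖GV c0 γ (σ α)‖ := by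
      rw [← Real.log_prod (fun σ _ => norm_ne_zero_iff.mpr (hGVne σ))]
      exact Real.log_nonneg hprod1
    have h4 : ∑ σ : K →ₐ[ℚ] ℂ, Real.log (max 1 ‖σ α‖) = lam α := rfl
    rw [h4] at h2
    have h5 : (m : ℝ) * lam α ≤ m := by
      have : (0:ℝ) ≤ m := Nat.cast_nonneg _
      nlinarith
    have h6 : (finrank ℚ K : ℝ) * (Real.log ‖c0‖ + ∑ k, Real.log (max 1 ‖γ k‖)) ≤
        finrank ℚ K * (t * B) := mul_le_mul_of_nonneg_left (hmG.trans hB) hn0.le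
    have e1 : (t:ℝ) * finrank ℚ K * (B + θ) = finrank ℚ K * (t * B) + θ * (t * finrank ℚ K) := by ring
    rw [e1, ← hθm]
    linarith
  obtain ⟨ρ, hρ, hsum, hen⟩ := core hb hg hbg (by rw [hcard]; exact hn) ht (K := B) (E := B + θ) (θ := θ)
    (by linarith) (by rw [Fintype.card_fin, hcard]; exact hθm) hK hEE
  have hW : (1 + θ) * (1 + B) + (B + θ) ≤ 2 * ((1 + θ) * (1 + B)) := by
    have : 0 ≤ θ * B := mul_nonneg hθ0 hB0
    nlinarith
  have hW0 : 0 ≤ (1 + θ) * (1 + B) := by positivity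
  have hlogq : 0 ≤ Real.log (1 / q) := Real.log_nonneg (by rw [le_div_iff₀ hq0]; linarith)
  refine ⟨fun σ => q * ρ σ, ?_, ?_, ?_⟩
  · intro σ
    refine ⟨mul_pos hq0 (hρ σ).1, ?_⟩
    have := hρ σ
    nlinarith
  · rw [← Finset.mul_sum]
    apply mul_le_mul_of_nonneg_left _ hq0.le
    linarith
  · rw [EE_eq_En]
    refine (hen q hq0 hq1).trans ?_
    rw [hcard]
    apply mul_le_mul_of_nonneg_left _ hn0.le
    apply mul_le_mul_of_nonneg_right _ (by linarith)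
    nlinarith

end Rep

end Pool.Agent.R328
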