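import Mathlib
import Pool.Agent.R328.PF

/-!
# Reduction to polynomials that are not polynomials in a power
-/

set_option autoImplicit false

open Finset Polynomial Module Metric Pool.Agent.H388SL Pool.Agent.Y947.DL Pool.Agent.Y947.DM
  Pool.Agent.Y947.DP

namespace Pool.Agent.R328

lemma max_one_pow {x : ℝ} (hx : 0 ≤ x) (q : ℕ) : max 1 (x ^ q) = (max 1 x) ^ q := by
  rcases le_total x 1 with h | h
  · rw [max_eq_left h, one_pow, max_eq_left (pow_le_one₀ hx h)]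
  · rw [max_eq_right h, max_eq_right (one_le_pow₀ h)]

lemma MG_pow {m : ℕ} {c : ℂ} {γ : Fin m → ℂ} (h : 1 ≤ ‖c‖ * ∏ k, max 1 ‖γ k‖) (q : ℕ) :
    1 ≤ ‖c ^ q‖ * ∏ k, max 1 ‖γ k ^ q‖ := by
  have e : ‖c ^ q‖ * ∏ k, max 1 ‖γ k ^ q‖ = (‖c‖ * ∏ k, max 1 ‖γ k‖) ^ q := by
    rw [mul_pow, norm_pow, ← Finset.prod_pow]
    congr 1
    refine Finset.prod_congr rfl fun k _ => ?_
    rw [norm_pow, max_one_pow (norm_nonneg _)]
  rw [e]
  exact one_le_pow₀ h

lemma NC_pow {m : ℕ} {g : ℤ[X]} {c : ℂ} {γ : Fin m → ℂ} {q : ℕ} (h : NC (expand ℤ q g) c γ) :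
    NC g (c ^ q) (fun k => γ k ^ q) := by
  unfold NC at h ⊢
  simp only [expand_aeval] at h
  rw [natDegree_expand, mul_comm g.natDegree q, pow_mul] at h
  rw [norm_pow]
  exact h

lemma max_prod_le {s : Finset ℂ} {a b : ℂ → ℝ} (ha : ∀ ζ ∈ s, 0 ≤ a ζ) (hb : ∀ ζ ∈ s, 0 ≤ b ζ) :
    max (∏ ζ ∈ s, a ζ) (∏ ζ ∈ s, b ζ) ≤ ∏ ζ ∈ s, max (a ζ) (b ζ) := by
  apply max_le
  · exact Finset.prod_le_prod ha fun ζ _ => le_max_left _ _
  · exact Finset.prod_le_prod hb fun ζ _ => le_max_right _ _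

lemma GV_pow {m : ℕ} (c : ℂ) (γ : Fin m → ℂ) {q : ℕ} (hq : 0 < q) (z : ℂ) :
    ‖GV (c ^ q) (fun k => γ k ^ q) (z ^ q)‖ = ∏ ζ ∈ nthRootsFinset q (1:ℂ), ‖GV c γ (ζ * z)‖ := by
  have hcard : (nthRootsFinset q (1:ℂ)).card = q := card_grid hq
  unfold GV
  simp only [norm_mul, norm_prod]
  rw [Finset.prod_mul_distrib, Finset.prod_const, hcard, norm_pow, Finset.prod_comm]
  congr 1
  refine Finset.prod_congr rfl fun k _ => ?_
  have h1 := (Complex.isPrimitiveRoot_exp q hq.ne').pow_sub_pow_eq_prod_sub_mul (γ k) z hq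
  rw [norm_sub_rev, h1, norm_prod]
  refine Finset.prod_congr rfl fun ζ _ => ?_
  rw [norm_sub_rev]

lemma LM_pow {m : ℕ} {g : ℤ[X]} {c : ℂ} {γ : Fin m → ℂ} {q : ℕ} (hq : 0 < q)
    (hNC : NC (expand ℤ q g) c γ) (hMG : 1 ≤ ‖c‖ * ∏ k, max 1 ‖γ k‖) (t : ℕ) (z : ℂ) :
    LM g (q * t) (c ^ q) (fun k => γ k ^ q) (z ^ q) ≤
      ∑ ζ ∈ nthRootsFinset q (1:ℂ), LM (expand ℤ q g) t c γ (ζ * z) := by
  have hcard : (nthRootsFinset q (1:ℂ)).card = q := card_grid hq
  unfold LM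
  rw [← Real.log_prod (fun ζ _ => (hNC.pos hMG t (ζ * z)).ne')]
  apply Real.log_le_log ((NC_pow hNC).pos (MG_pow hMG q) (q * t) (z ^ q))
  rw [GV_pow c γ hq z]
  have e1 : ‖aeval (z ^ q) g‖ ^ (q * t) =
      ∏ ζ ∈ nthRootsFinset q (1:ℂ), ‖aeval (ζ * z) (expand ℤ q g)‖ ^ t := by
    have h1 : ∀ ζ ∈ nthRootsFinset q (1:ℂ), ‖aeval (ζ * z) (expand ℤ q g)‖ ^ t =
        ‖aeval (z ^ q) g‖ ^ t := by
      intro ζ hζ
      rw [mem_nthRootsFinset hq] at hζ
      rw [expand_aeval, mul_pow, hζ, one_mul]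
    rw [Finset.prod_congr rfl h1, Finset.prod_const, hcard, ← pow_mul, mul_comm]
  rw [e1]
  exact max_prod_le (fun ζ _ => by positivity) (fun ζ _ => norm_nonneg _)

lemma avg_LM_pow {m : ℕ} {g : ℤ[X]} {c : ℂ} {γ : Fin m → ℂ} {q : ℕ} (hq : 0 < q)
    (hNC : NC (expand ℤ q g) c γ) (hMG : 1 ≤ ‖c‖ * ∏ k, max 1 ‖γ k‖) (t : ℕ) :
    Real.circleAverage (LM g (q * t) (c ^ q) (fun k => γ k ^ q)) 0 1 ≤
      q * Real.circleAverage (LM (expand ℤ q g) t c γ) 0 1 := by
  have hcard : (nthRootsFinset q (1:ℂ)).card = q := card_grid hq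
  have hc1 := LM_cont (NC_pow hNC) (MG_pow hMG q) (q * t)
  have hc2 := LM_cont hNC hMG t
  rw [← circleAverage_pow' hc1.continuousOn hq]
  have h1 : Real.circleAverage (fun z => LM g (q * t) (c ^ q) (fun k => γ k ^ q) (z ^ q)) 0 1 ≤
      Real.circleAverage (fun z => ∑ ζ ∈ nthRootsFinset q (1:ℂ), LM (expand ℤ q g) t c γ (ζ * z)) 0 1 := by
    apply Real.circleAverage_mono
    · apply ContinuousOn.circleIntegrable'
      exact (hc1.comp (continuous_pow q)).continuousOn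
    · apply ContinuousOn.circleIntegrable'
      apply Continuous.continuousOn
      apply continuous_finsetSum
      intro ζ _
      exact hc2.comp (continuous_const.mul continuous_id)
    · intro z _
      exact LM_pow hq hNC hMG t z
  refine h1.trans (le_of_eq ?_)
  rw [Real.circleAverage_fun_sum]
  · have h2 : ∀ ζ ∈ nthRootsFinset q (1:ℂ),
        Real.circleAverage (fun z => LM (expand ℤ q g) t c γ (ζ * z)) 0 1 =
        Real.circleAverage (LM (expand ℤ q g) t c γ) 0 1 := fun ζ hζ =>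
      circleAverage_rot (norm_of_mem_grid hq hζ)
    rw [Finset.sum_congr rfl h2, Finset.sum_const, hcard, nsmul_eq_mul]
  · intro ζ _
    apply ContinuousOn.circleIntegrable'
    exact (hc2.comp (continuous_const.mul continuous_id)).continuousOn

/-- monic units -/
theorem pair_monic : ∃ c : ℝ, 0 < c ∧ ∀ f : ℤ[X], Irreducible f → f.Monic → |f.coeff 0| = 1 →
    1 < MM f → ∀ (m t : ℕ), 0 < t → ∀ (c0 : ℂ) (γ : Fin m → ℂ), 1 ≤ ‖c0‖ * ∏ k, max 1 ‖γ k‖ →
    NC f c0 γ → ∀ B : ℝ, 0 ≤ B → Real.circleAverage (LM f t c0 γ) 0 1 ≤ t * B →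
    c / ((1 + m / (t * f.natDegree)) * (1 + B)) ^ 3 ≤ Real.log (MM f) := by
  obtain ⟨c, hc0, hcm⟩ := field_main3
  refine ⟨c, hc0, ?_⟩
  have ind : ∀ n : ℕ, ∀ f : ℤ[X], f.natDegree = n → Irreducible f → f.Monic → |f.coeff 0| = 1 →
      1 < MM f → ∀ (m t : ℕ), 0 < t → ∀ (c0 : ℂ) (γ : Fin m → ℂ), 1 ≤ ‖c0‖ * ∏ k, max 1 ‖γ k‖ →
      NC f c0 γ → ∀ B : ℝ, 0 ≤ B → Real.circleAverage (LM f t c0 γ) 0 1 ≤ t * B →
      c / ((1 + m / (t * f.natDegree)) * (1 + B)) ^ 3 ≤ Real.log (MM f) := by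
    intro n
    induction n using Nat.strong_induction_on with
    | _ n ih =>
      intro f hfn hf hm hf0 hM m t ht c0 γ hMG hNC B hB0 hB
      by_cases hexp : ∃ q : ℕ, q.Prime ∧ ∃ g : ℤ[X], f = expand ℤ q g
      · obtain ⟨q, hq, g, hg⟩ := hexp
        subst hg
        have hgirr : Irreducible g := of_irreducible_expand hq.ne_zero hf
        have hgm : g.Monic := by
          have h1 := hm
          rw [Monic, leadingCoeff_expand hq.pos] at h1
          exact h1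
        have hMM : MM (expand ℤ q g) = MM g := MM_expand hq.pos g
        have hg0 : |g.coeff 0| = 1 := by
          rw [coeff_expand hq.pos, if_pos (dvd_zero q), Nat.zero_div] at hf0
          exact hf0
        have hg1 : g.natDegree ≠ 0 := natDegree_ne (by rw [← hMM]; exact hM) hgm
        have hgd : g.natDegree < n := by
          rw [← hfn, natDegree_expand]
          have := hq.two_le
          have h2 : 0 < g.natDegree := Nat.pos_of_ne_zero hg1
          nlinarith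
        have h1 := ih g.natDegree hgd g rfl hgirr hgm hg0 (by rw [← hMM]; exact hM) m (q * t)
          (Nat.mul_pos hq.pos ht) (c0 ^ q) (fun k => γ k ^ q) (MG_pow hMG q) (NC_pow hNC) B hB0 (by
            refine (avg_LM_pow hq.pos hNC hMG t).trans ?_
            push_cast
            rw [mul_assoc]
            exact mul_le_mul_of_nonneg_left hB (Nat.cast_nonneg _))
        rw [hMM, natDegree_expand]
        have e : ((q * t : ℕ) : ℝ) * (g.natDegree : ℝ) = (t : ℝ) * ((g.natDegree * q : ℕ) : ℝ) := by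
          push_cast; ring
        rw [e] at h1
        exact h1
      · push Not at hexp
        obtain ⟨z, hz⟩ := exists_zero hM hm
        obtain ⟨hNF, hrep⟩ := exists_rep f hf hm z hz
        apply rep_pair (K := IntermediateField.adjoin ℚ {z})
          (α := IntermediateField.AdjoinSimple.gen ℚ z) hcm hrep hf0 hM _ ht hMG hNC hB0 hB
        intro q hq hq2
        exact good_of_witness (hrep.ne_zero hf0) hrep.inj hq hq2 (hrep.witness hq (hexp q hq))
  intro f hf hm hf0 hM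
  exact ind _ f rfl hf hm hf0 hM

end Pool.Agent.R328
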