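import Mathlib
import Pool.Agent.R328.PG

/-!
# The bound in terms of the height of a pair of integer polynomials
-/

set_option autoImplicit false

open Finset Polynomial Module Metric Pool.Agent.H388SL Pool.Agent.Y947.DL Pool.Agent.Y947.DM
  Pool.Agent.Y947.DP

namespace Pool.Agent.R328

/-- the logarithm of the maximum of `|f|^t` and `|G|` -/
noncomputable def PM (f G : ℤ[X]) (t : ℕ) (z : ℂ) : ℝ :=
  Real.log (max (‖aeval z f‖ ^ t) ‖aeval z G‖)

lemma exists_roots (G : ℤ[X]) : ∃ γ : Fin G.natDegree → ℂ,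
    ∀ z : ℂ, aeval z G = GV ((G.leadingCoeff : ℤ) : ℂ) γ z := by
  set P := G.map (Int.castRingHom ℂ) with hP
  have hinj : Function.Injective (Int.castRingHom ℂ) := (Int.castRingHom ℂ).injective_int
  have hd : P.natDegree = G.natDegree := natDegree_map_eq_of_injective hinj G
  have hlc : P.leadingCoeff = ((G.leadingCoeff : ℤ) : ℂ) := by
    rw [hP, leadingCoeff_map_of_injective hinj]; rfl
  have hs : P.Splits := IsAlgClosed.splits _
  have hcard : P.roots.card = G.natDegree := by
    rw [← hd]; exact (hs.natDegree_eq_card_roots).symm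
  obtain ⟨l, hl⟩ := Quot.exists_rep P.roots
  have hl' : (l : Multiset ℂ) = P.roots := hl
  have hlen : l.length = G.natDegree := by
    rw [← hcard, ← hl', Multiset.coe_card]
  refine ⟨fun k => l.get (k.cast hlen.symm), ?_⟩
  intro z
  have h1 : aeval z G = P.eval z := by
    rw [Polynomial.aeval_def, hP, Polynomial.eval_map]; rfl
  have h2 := hs.eq_prod_roots
  rw [h1, h2, Polynomial.eval_mul, Polynomial.eval_C, hlc, ← hl', Multiset.map_coe, Multiset.prod_coe,
    Polynomial.eval_list_prod, List.map_map]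
  unfold GV
  congr 1
  have h3 : (l.map ((Polynomial.eval z) ∘ fun a => X - C a)) = l.map (fun a => z - a) := by
    apply List.map_congr_left
    intro a _
    simp
  rw [h3, ← Fin.prod_ofFn]
  congr 1
  apply List.ext_getElem
  · simp [hlen]
  · intro i h4 h5
    simp

lemma PM_nonneg {f : ℤ[X]} (hf : f ≠ 0) (hM : 1 ≤ MM f) (G : ℤ[X]) (t : ℕ) :
    0 ≤ Real.circleAverage (PM f G t) 0 1 := by
  by_cases hI : CircleIntegrable (PM f G t) 0 1
  · have hinj : Function.Injective (Int.castRingHom ℂ) := (Int.castRingHom ℂ).injective_int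
    set P := f.map (Int.castRingHom ℂ) with hP
    have hP0 : P ≠ 0 := (Polynomial.map_ne_zero_iff hinj).mpr hf
    have h1 : ∀ z : ℂ, aeval z f = P.eval z := fun z => by
      rw [Polynomial.aeval_def, hP, Polynomial.eval_map]; rfl
    have hd : Differentiable ℂ (fun z : ℂ => aeval z f) := by
      have : (fun z : ℂ => aeval z f) = fun z => P.eval z := by
        ext z; exact h1 z
      rw [this]
      exact P.differentiable
    have hL : CircleIntegrable (fun z => Real.log ‖aeval z f‖) 0 1 := by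
      apply MeromorphicOn.circleIntegrable_log_norm
      intro z _
      exact (hd.analyticAt z).meromorphicAt
    have h2 : Real.circleAverage (fun z => (t : ℝ) * Real.log ‖aeval z f‖) 0 1 ≤
        Real.circleAverage (PM f G t) 0 1 := by
      apply circleAverage_mono_off (Z := {z | P.IsRoot z}) _ hI (P.finite_setOfPred_isRoot hP0).countable
      · intro z _ hz
        unfold PM
        rw [← Real.log_pow]
        apply Real.log_le_log
        · apply pow_pos
          rw [norm_pos_iff, h1]
          exact hz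
        · exact le_max_left _ _
      · exact hL.const_mul (t:ℝ)
    refine le_trans ?_ h2
    have h3 := Real.circleAverage_fun_smul (a := (t : ℝ)) (f := fun z => Real.log ‖aeval z f‖)
      (c := 0) (R := 1)
    simp only [smul_eq_mul] at h3
    rw [h3]
    apply mul_nonneg (Nat.cast_nonneg _)
    have h4 : Real.circleAverage (fun z => Real.log ‖aeval z f‖) 0 1 = Real.log (MM f) := by
      rw [MM, ← hP, ← logMahlerMeasure_eq_log_MahlerMeasure, logMahlerMeasure_def]
      simp only [h1]
    rw [h4]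
    exact Real.log_nonneg hM
  · unfold Real.circleAverage
    rw [intervalIntegral.integral_undef hI, smul_zero]

/-- monic units and integer companions -/
theorem pair_monic_int {c : ℝ} (hc : ∀ f : ℤ[X], Irreducible f → f.Monic → |f.coeff 0| = 1 →
    1 < MM f → ∀ (m t : ℕ), 0 < t → ∀ (c0 : ℂ) (γ : Fin m → ℂ), 1 ≤ ‖c0‖ * ∏ k, max 1 ‖γ k‖ →
    NC f c0 γ → ∀ B : ℝ, 0 ≤ B → Real.circleAverage (LM f t c0 γ) 0 1 ≤ t * B →
    c / ((1 + m / (t * f.natDegree)) * (1 + B)) ^ 3 ≤ Real.log (MM f))
    {f G : ℤ[X]} {t : ℕ} (ht : 0 < t) (hf : Irreducible f) (hm : f.Monic) (hf0 : |f.coeff 0| = 1)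
    (hM : 1 < MM f) (hG : ¬ f ∣ G) :
    c / ((1 + G.natDegree / (t * f.natDegree)) *
      (1 + Real.circleAverage (PM f G t) 0 1 / t)) ^ 3 ≤ Real.log (MM f) := by
  have hG0 : G ≠ 0 := by
    rintro rfl
    exact hG (dvd_zero f)
  have ht0 : (0:ℝ) < t := by exact_mod_cast ht
  obtain ⟨γ, hγ⟩ := exists_roots G
  have hlc : 1 ≤ ‖((G.leadingCoeff : ℤ) : ℂ)‖ := by
    rw [Complex.norm_intCast]
    exact_mod_cast Int.one_le_abs (leadingCoeff_ne_zero.mpr hG0)
  have hprod1 : (1:ℝ) ≤ ∏ k, max 1 ‖γ k‖ := by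
    calc (1:ℝ) = ∏ k : Fin G.natDegree, (1:ℝ) := by simp
      _ ≤ ∏ k, max 1 ‖γ k‖ :=
        Finset.prod_le_prod (fun _ _ => zero_le_one) (fun σ _ => le_max_left _ _)
  have hMG : 1 ≤ ‖((G.leadingCoeff : ℤ) : ℂ)‖ * ∏ k, max 1 ‖γ k‖ := one_le_mul_of_one_le_of_one_le hlc hprod1
  have hNC : NC f ((G.leadingCoeff : ℤ) : ℂ) γ := by
    obtain ⟨z, hz⟩ := exists_zero hM hm
    obtain ⟨hNF, hrep⟩ := exists_rep f hf hm z hz
    unfold NC
    rw [← prod_GV hrep]
    simp only [← hγ, ← map_aevalZ]
    apply one_le_prod_norm (isIntegral_aevalZ hrep.isInt _)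
    intro h0
    apply hG
    rw [← hrep.minp]
    exact minpoly.isIntegrallyClosed_dvd hrep.isInt h0
  have e : LM f t ((G.leadingCoeff : ℤ) : ℂ) γ = PM f G t := by
    ext z
    unfold LM PM
    rw [hγ z]
  have h1 := PM_nonneg hf.ne_zero hM.le G t
  apply hc f hf hm hf0 hM G.natDegree t ht _ γ hMG hNC
  · positivity
  · rw [e]
    field_simp
    exact le_refl _

/-- the general irreducible case -/
theorem pair_main : ∃ c : ℝ, 0 < c ∧ ∀ (f G : ℤ[X]) (t : ℕ), 0 < t → Irreducible f → ¬ f ∣ G →
    1 < MM f → c / ((1 + G.natDegree / (t * f.natDegree)) *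
      (1 + Real.circleAverage (PM f G t) 0 1 / t)) ^ 3 ≤ Real.log (MM f) := by
  obtain ⟨c1, hc1, hc⟩ := pair_monic
  have hlog2 : 0 < Real.log 2 := Real.log_pos (by norm_num)
  set c := min c1 (Real.log 2) with hcdef
  have hc0 : 0 < c := lt_min (by positivity) hlog2
  refine ⟨c, hc0, ?_⟩
  intro f G t ht hf hG hM
  have ht0 : (0:ℝ) < t := by exact_mod_cast ht
  have hA := PM_nonneg hf.ne_zero hM.le G t
  set W : ℝ := (1 + G.natDegree / (t * f.natDegree)) * (1 + Real.circleAverage (PM f G t) 0 1 / t) with hW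
  have hW1 : 1 ≤ W := by
    rw [hW]
    apply one_le_mul_of_one_le_of_one_le
    · have : (0:ℝ) ≤ (G.natDegree : ℝ) / (t * f.natDegree) := by positivity
      linarith
    · have : 0 ≤ Real.circleAverage (PM f G t) 0 1 / t := by positivity
      linarith
  have hcmp : c / W ^ 3 ≤ c1 / W ^ 3 :=
    div_le_div_of_nonneg_right (min_le_left _ _) (by positivity)
  by_cases hbig : 2 ≤ MM f
  · have h1 : c ≤ Real.log 2 := min_le_right _ _
    have h2 : Real.log 2 ≤ Real.log (MM f) := Real.log_le_log (by norm_num) hbig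
    have h3 : c / W ^ 3 ≤ c := by
      apply div_le_self hc0.le
      exact one_le_pow₀ hW1
    linarith
  push Not at hbig
  have hf0 : f ≠ 0 := hf.ne_zero
  have hlc : |f.leadingCoeff| = 1 := by
    have h1 : 1 ≤ |f.leadingCoeff| := Int.one_le_abs (leadingCoeff_ne_zero.mpr hf0)
    have h3 := leadingCoeff_le_MM f
    by_contra hne
    have h2 : 2 ≤ |f.leadingCoeff| := by omega
    have h4 : (2:ℝ) ≤ |(f.leadingCoeff : ℝ)| := by exact_mod_cast h2
    linarith
  have hcc : |f.coeff 0| = 1 := by
    have h0 : f.coeff 0 ≠ 0 := by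
      intro h
      have hdvd : (X : ℤ[X]) ∣ f := X_dvd_iff.mpr h
      obtain ⟨g, hg⟩ := hdvd
      rcases hf.isUnit_or_isUnit hg with h1 | h1
      · exact Polynomial.not_isUnit_X h1
      · have h2 : MM f = 1 := by
          rw [hg, MM_mul]
          obtain ⟨r, hr, hrg⟩ := Polynomial.isUnit_iff.mp h1
          have h3 : MM (X : ℤ[X]) = 1 := by
            rw [MM, Polynomial.map_X]
            have := mahlerMeasure_X_sub_C 0
            simpa using this
          have h4 : MM g = 1 := by
            rw [← hrg, MM, Polynomial.map_C, mahlerMeasure_const, eq_intCast, Complex.norm_intCast]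
            rcases Int.isUnit_iff.mp hr with h5 | h5 <;> simp [h5]
          rw [h3, h4, one_mul]
        linarith
    have h1 : 1 ≤ |f.coeff 0| := Int.one_le_abs h0
    have h3 := coeff_zero_le_MM f
    by_contra hne
    have h2 : 2 ≤ |f.coeff 0| := by omega
    have h4 : (2:ℝ) ≤ |(f.coeff 0 : ℝ)| := by exact_mod_cast h2
    linarith
  rcases (abs_eq (by norm_num : (0:ℤ) ≤ 1)).mp hlc with h | h
  · exact hcmp.trans (pair_monic_int hc ht hf h hcc hM hG)
  · have h1 := pair_monic_int hc ht (f := -f) (G := G) (by simpa using (irreducible_units_mul (-1 : ℤ[X]ˣ)).mpr hf)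
      (by rw [Monic, leadingCoeff_neg, h]; norm_num) (by rw [coeff_neg, abs_neg]; exact hcc)
      (by rw [MM_neg]; exact hM) (by rw [neg_dvd]; exact hG)
    have e : PM (-f) G t = PM f G t := by
      ext z
      unfold PM
      rw [map_neg, norm_neg]
    rw [MM_neg, e, natDegree_neg] at h1
    exact hcmp.trans h1

end Pool.Agent.R328
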