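import Mathlib
import Pool.Agent.R328.PH
import Pool.Agent.Y820.LB.Classes

/-!
# Explicit bounds for classes with a dominated companion
-/

set_option autoImplicit false

open Polynomial MeasureTheory Pool.Agent.H388SL

namespace Pool.Agent.R328

open Pool.Agent.Y820.LB Pool.Agent.H261R2.CM

lemma aeval_eq_toC (f : ℤ[X]) (z : ℂ) : aeval z f = (toC f).eval z := by
  rw [Polynomial.aeval_def, toC, Polynomial.eval_map]
  rfl

lemma avg_PM_eq (f G : ℤ[X]) : Real.circleAverage (PM f G 1) 0 1 = mx1 f G := by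
  rw [D_circleAverage]
  unfold mx1 PM ev1
  simp only [aeval_eq_toC, pow_one]

/-- the bound for an irreducible polynomial with a dominated companion of smaller degree -/
theorem dominated : ∃ c : ℝ, 0 < c ∧ ∀ (f G : ℤ[X]) (F : ℝ → ℂ) (k : ℝ), 0 ≤ k → Irreducible f → ¬ f ∣ G →
    G.natDegree ≤ f.natDegree → Dom (fun t => ‖F t‖) k → (∀ᵐ t : ℝ, ev1 G t = ev1 f t * F t) →
    1 < m1 f → c / (1 + k) ^ 3 ≤ Real.log (m1 f) := by
  obtain ⟨c1, hc1, h⟩ := pair_main
  have hlog2 : 0 < Real.log 2 := Real.log_pos (by norm_num)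
  set c := min (c1 / 64) (Real.log 2) with hc
  have hc0 : 0 < c := lt_min (by positivity) hlog2
  refine ⟨c, hc0, ?_⟩
  intro f G F k hk hf hG hdeg hD hF hM
  by_cases hbig : 2 ≤ m1 f
  · have h1 : c ≤ Real.log 2 := min_le_right _ _
    have h2 : Real.log 2 ≤ Real.log (m1 f) := Real.log_le_log (by norm_num) hbig
    have h3 : c / (1 + k) ^ 3 ≤ c := by
      apply div_le_self hc0.le
      exact one_le_pow₀ (by linarith)
    linarith
  push Not at hbig
  have h1 := h f G 1 one_pos hf hG hM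
  rw [avg_PM_eq] at h1
  have h2 := mx1_le f G hf.ne_zero F k hD hF
  have h3 : Real.log (m1 f) ≤ Real.log 2 := Real.log_le_log (by linarith) hbig.le
  have h4 := Real.log_two_lt_d9
  have h5 : mx1 f G ≤ 1 + k := by linarith
  have h6 : 0 ≤ mx1 f G := by
    have := PM_nonneg hf.ne_zero hM.le G 1
    rwa [avg_PM_eq] at this
  have h7 : (G.natDegree : ℝ) / (((1 : ℕ) : ℝ) * f.natDegree) ≤ 1 := by
    rw [Nat.cast_one, one_mul]
    apply div_le_one_of_le₀ _ (Nat.cast_nonneg _)
    exact_mod_cast hdeg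
  have h8 : (0:ℝ) ≤ (G.natDegree : ℝ) / (((1 : ℕ) : ℝ) * f.natDegree) := by positivity
  have h9 : (1 + (G.natDegree : ℝ) / (((1 : ℕ) : ℝ) * f.natDegree)) *
      (1 + mx1 f G / ((1 : ℕ) : ℝ)) ≤ 4 * (1 + k) := by
    have e : mx1 f G / ((1 : ℕ) : ℝ) = mx1 f G := by rw [Nat.cast_one, div_one]
    rw [e]
    calc (1 + (G.natDegree : ℝ) / (((1 : ℕ) : ℝ) * f.natDegree)) * (1 + mx1 f G)
        ≤ 2 * (2 * (1 + k)) := by
          apply mul_le_mul <;> linarith
      _ = 4 * (1 + k) := by ring
  have h10 : 0 < (1 + (G.natDegree : ℝ) / (((1 : ℕ) : ℝ) * f.natDegree)) *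
      (1 + mx1 f G / ((1 : ℕ) : ℝ)) := by
    have e : mx1 f G / ((1 : ℕ) : ℝ) = mx1 f G := by rw [Nat.cast_one, div_one]
    rw [e]
    apply mul_pos <;> linarith
  refine le_trans ?_ h1
  calc c / (1 + k) ^ 3 ≤ (c1 / 64) / (1 + k) ^ 3 :=
        div_le_div_of_nonneg_right (min_le_left _ _) (by positivity)
    _ = c1 / (4 * (1 + k)) ^ 3 := by rw [mul_pow, div_div]; norm_num
    _ ≤ _ := by
      apply div_le_div_of_nonneg_left hc1.le (by positivity)
      exact pow_le_pow_left₀ h10.le h9 3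

/-- **Sums of residues.** -/
theorem residues : ∃ c : ℝ, 0 < c ∧ ∀ (f Q : ℤ[X]) (L : ℝ), Irreducible f → Q ≠ 0 → Q.degree < f.degree →
    ∑ a ∈ (toC f).roots.toFinset, ‖(toC Q).eval a‖ / ‖(derivative (toC f)).eval a‖ ≤ L →
    1 < m1 f → c / (1 + Real.log (1 + L)) ^ 3 ≤ Real.log (m1 f) := by
  obtain ⟨c, hc, h⟩ := dominated
  refine ⟨c / 8 ^ 3, by positivity, ?_⟩
  intro f Q L hf hQ hdeg hL hM
  have hL0 : 0 ≤ L := le_trans (Finset.sum_nonneg fun _ _ => by positivity) hL
  have hlog : 0 ≤ Real.log (1 + L) := Real.log_nonneg (by linarith)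
  have hnd : (toC f).roots.Nodup := by
    have hsep : (f.map (Int.castRingHom ℚ)).Separable := by
      have hdf : f.natDegree ≠ 0 := by
        intro h0
        have h1 := hdeg
        rw [degree_eq_natDegree hf.ne_zero, h0] at h1
        exact hQ (degree_eq_bot.mp (Nat.WithBot.lt_zero_iff.mp h1))
      have hprim : f.IsPrimitive := hf.isPrimitive hdf
      have hirr : Irreducible (f.map (Int.castRingHom ℚ)) :=
        (Polynomial.IsPrimitive.Int.irreducible_iff_irreducible_map_cast hprim).mp hf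
      exact hirr.separable
    have e : toC f = (f.map (Int.castRingHom ℚ)).map (algebraMap ℚ ℂ) := by
      rw [toC, Polynomial.map_map]
      congr 1
    rw [e]
    exact nodup_roots hsep.map
  have hndvd : ¬ f ∣ Q := by
    intro hd
    have := degree_le_of_dvd hd hQ
    exact absurd hdeg (not_lt.mpr this)
  have hn : Q.natDegree < f.natDegree := natDegree_lt_natDegree hQ hdeg
  have hdegC : (toC Q).degree < (toC f).degree := by
    rw [toC, toC, degree_map_eq_of_injective (RingHom.injective_int _),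
      degree_map_eq_of_injective (RingHom.injective_int _)]
    exact hdeg
  set k := 8 * (Real.log 2 + Real.log (1 + L)) with hk
  have hlog2 : 0 < Real.log 2 := Real.log_pos (by norm_num)
  have hlog2' := Real.log_two_lt_d9
  have hk0 : 0 ≤ k := by positivity
  have hsum : ∑ j : (toC f).roots.toFinset, ‖(toC Q).eval (j : ℂ) / (derivative (toC f)).eval (j : ℂ)‖ ≤ L := by
    simp only [norm_div]
    rw [Finset.sum_coe_sort (toC f).roots.toFinset
      (fun a => ‖(toC Q).eval a‖ / ‖(derivative (toC f)).eval a‖)]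
    exact hL
  have hD := dom_frac (fun j : (toC f).roots.toFinset => (j : ℂ))
    (fun j => (toC Q).eval (j : ℂ) / (derivative (toC f)).eval (j : ℂ)) L hsum
  have h1 := h f Q (fun t => ∑ j : (toC f).roots.toFinset,
    ((toC Q).eval (j : ℂ) / (derivative (toC f)).eval (j : ℂ)) / (ez t - (j : ℂ))) k hk0 hf hndvd hn.le hD (by
      filter_upwards [D_ae_ne f hf.ne_zero] with t ht
      unfold ev1 at ht ⊢
      rw [frac_eq (toC f) (toC Q) hnd hdegC (ez t) ht]
      congr 1
      rw [Finset.sum_coe_sort (toC f).roots.toFinset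
        (fun a => ((toC Q).eval a / (derivative (toC f)).eval a) / (ez t - a))]) hM
  refine le_trans ?_ h1
  rw [div_div, ← mul_pow]
  apply div_le_div_of_nonneg_left hc.le (by positivity)
  apply pow_le_pow_left₀ (by linarith)
  rw [hk]
  linarith

end Pool.Agent.R328
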