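import Mathlib
import Pool.Agent.R328.QA

/-!
# Explicit bounds for integer matrices with an adapted inner product
-/

set_option autoImplicit false

open Polynomial MeasureTheory Pool.Agent.H388SL

namespace Pool.Agent.R328

open Pool.Agent.Y820.LB Pool.Agent.H261R2.CM

variable {n : ℕ}

lemma minor_natDegree_le (A : Matrix (Fin n) (Fin n) ℤ) (i : Fin n) :
    (minor X 0 A i) ≠ 0 ∧ (minor X 0 A i).natDegree < n := minor_one A i

/-- **Matrices with adapted inner products.** -/
theorem adapted : ∃ c : ℝ, 0 < c ∧ ∀ (n : ℕ) (A : Matrix (Fin n) (Fin n) ℤ)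
    (S T B E : Matrix (Fin n) (Fin n) ℂ) (L : ℝ), Ad A S T B E L → Irreducible A.charpoly →
    1 < m1 A.charpoly → c / (1 + Real.log (1 + L)) ^ 3 ≤ Real.log (m1 A.charpoly) := by
  obtain ⟨c, hc, h⟩ := dominated
  refine ⟨c / 8 ^ 3, by positivity, ?_⟩
  intro n A S T B E L hA hirr hM
  have hn : n ≠ 0 := by
    rintro rfl
    apply hirr.not_isUnit
    have h2 : A.charpoly = 1 := by
      unfold Matrix.charpoly
      exact Matrix.det_fin_zero
    rw [h2]
    exact isUnit_one
  set i : Fin n := ⟨0, Nat.pos_of_ne_zero hn⟩ with hi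
  obtain ⟨F, hF1, hF2⟩ := hA.pair i
  have hL0 : 0 ≤ L := le_trans (mul_nonneg (norm_nonneg _) (norm_nonneg _)) hA.cond
  have hlog : 0 ≤ Real.log (1 + L) := Real.log_nonneg (by linarith)
  obtain ⟨h3, h4⟩ := minor_one A i
  have hdeg : A.charpoly.natDegree = n := by
    rw [Matrix.charpoly_natDegree_eq_dim, Fintype.card_fin]
  have hndvd : ¬ A.charpoly ∣ minor X 0 A i := by
    intro hd
    have := natDegree_le_of_dvd hd h3
    omega
  set k := 8 * (Real.log 2 + Real.log (1 + L)) with hk
  have hlog2 : 0 < Real.log 2 := Real.log_pos (by norm_num)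
  have hlog2' := Real.log_two_lt_d9
  have h1 := h A.charpoly (minor X 0 A i) F k (by positivity) hirr hndvd (by omega) hF1 hF2 hM
  refine le_trans ?_ h1
  rw [div_div, ← mul_pow]
  apply div_le_div_of_nonneg_left hc.le (by positivity)
  apply pow_le_pow_left₀ (by positivity)
  rw [hk]
  linarith

end Pool.Agent.R328
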