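import Mathlib
import Pool.Agent.R328.QA
import Pool.Agent.Y820.LB.Lor4

/-!
# Explicit bounds for isometries of Lorentzian lattices: polynomials in the isometry
-/

set_option autoImplicit false

open Polynomial MeasureTheory

namespace Pool.Agent.R328

open Pool.Agent.Y820.LB Pool.Agent.H261R2.CM
open Pool.Agent.W242.IM (ae_eval_ne)

noncomputable section

/-- affine functions of dominated functions -/
lemma dom_affine {H H' : ℝ → ℝ} {k c1 c2 : ℝ} (h : Dom H k) (h1 : 1 ≤ c1) (h2 : 0 ≤ c2)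
    (h' : ∀ᵐ t : ℝ, 0 ≤ H' t ∧ H' t ≤ c1 * H t + c2) :
    Dom H' (k + (Real.log c1 + Real.log (1 + c2))) := by
  obtain ⟨g, hg1, hg2, hg3⟩ := h
  refine ⟨fun t => g t + (Real.log c1 + Real.log (1 + c2)), hg1.add (by simp), ?_, ?_⟩
  · filter_upwards [hg2, h'] with t h4 h5
    refine ⟨h5.1, ?_⟩
    have h6 : 1 + H' t ≤ (1 + H t) * (c1 * (1 + c2)) := by
      have h7 : 0 ≤ H t := h4.1
      have h8 : 0 ≤ c1 * H t := by positivity
      have h9 : 0 ≤ c2 * (c1 * H t) := by positivity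
      have h10 : 0 ≤ (c1 - 1) * c2 := mul_nonneg (by linarith) h2
      nlinarith [h5.2]
    have h7 : Real.log (1 + H' t) ≤ Real.log ((1 + H t) * (c1 * (1 + c2))) :=
      Real.log_le_log (by linarith [h5.1]) h6
    rw [Real.log_mul (by linarith [h4.1]) (by positivity), Real.log_mul (by linarith) (by linarith)] at h7
    linarith [h4.2]
  · rw [intervalIntegral.integral_add hg1 (by simp)]
    simp
    linarith

section mat

variable {n : ℕ}

/-- the divided difference `(p(z) - p(A)) / (z - A)` -/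
def KM (A : Matrix (Fin n) (Fin n) ℂ) (p : ℂ[X]) (z : ℂ) : Matrix (Fin n) (Fin n) ℂ :=
  ∑ i ∈ Finset.range (p.natDegree + 1), ∑ j ∈ Finset.range i, (p.coeff i * z ^ j) • A ^ (i - 1 - j)

lemma KM_mul (A : Matrix (Fin n) (Fin n) ℂ) (p : ℂ[X]) (z : ℂ) :
    KM A p z * (z • (1 : Matrix (Fin n) (Fin n) ℂ) - A) =
      p.eval z • (1 : Matrix (Fin n) (Fin n) ℂ) - aeval A p := by
  have h1 : ∀ i : ℕ, (∑ j ∈ Finset.range i, (z ^ j) • A ^ (i - 1 - j)) *
      (z • (1 : Matrix (Fin n) (Fin n) ℂ) - A) = z ^ i • (1 : Matrix (Fin n) (Fin n) ℂ) - A ^ i := by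
    intro i
    have h2 : Commute (z • (1 : Matrix (Fin n) (Fin n) ℂ)) A := by
      rw [Algebra.smul_def, mul_one]
      exact Algebra.commutes z A
    have h3 := h2.geom_sum₂_mul i
    rw [_root_.smul_pow, one_pow] at h3
    rw [← h3]
    congr 1
    refine Finset.sum_congr rfl fun j _ => ?_
    rw [_root_.smul_pow, one_pow, Matrix.smul_mul, one_mul]
  unfold KM
  rw [Finset.sum_mul, eval_eq_sum_range, aeval_eq_sum_range, Finset.sum_smul, ← Finset.sum_sub_distrib]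
  refine Finset.sum_congr rfl fun i _ => ?_
  have h4 : ∑ j ∈ Finset.range i, (p.coeff i * z ^ j) • A ^ (i - 1 - j) =
      p.coeff i • ∑ j ∈ Finset.range i, (z ^ j) • A ^ (i - 1 - j) := by
    rw [Finset.smul_sum]
    refine Finset.sum_congr rfl fun j _ => ?_
    rw [smul_smul]
  rw [h4, Matrix.smul_mul, h1, smul_sub, smul_smul]

lemma KM_inv (A : Matrix (Fin n) (Fin n) ℂ) (p : ℂ[X]) (z : ℂ)
    (hz : (z • (1 : Matrix (Fin n) (Fin n) ℂ) - A).det ≠ 0) :
    KM A p z = p.eval z • (z • (1 : Matrix (Fin n) (Fin n) ℂ) - A)⁻¹ -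
      aeval A p * (z • (1 : Matrix (Fin n) (Fin n) ℂ) - A)⁻¹ := by
  have hu : IsUnit (z • (1 : Matrix (Fin n) (Fin n) ℂ) - A).det := isUnit_iff_ne_zero.mpr hz
  have h1 := congrArg (fun M => M * (z • (1 : Matrix (Fin n) (Fin n) ℂ) - A)⁻¹) (KM_mul A p z)
  rw [Matrix.mul_assoc, Matrix.mul_nonsing_inv _ hu, Matrix.mul_one, sub_mul, Matrix.smul_mul,
    Matrix.one_mul] at h1
  exact h1

lemma comm_inv (A B : Matrix (Fin n) (Fin n) ℂ) (z : ℂ) (h : Commute B A)
    (hz : (z • (1 : Matrix (Fin n) (Fin n) ℂ) - A).det ≠ 0) :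
    B * (z • (1 : Matrix (Fin n) (Fin n) ℂ) - A)⁻¹ = (z • (1 : Matrix (Fin n) (Fin n) ℂ) - A)⁻¹ * B := by
  have hu : IsUnit (z • (1 : Matrix (Fin n) (Fin n) ℂ) - A).det := isUnit_iff_ne_zero.mpr hz
  set M := z • (1 : Matrix (Fin n) (Fin n) ℂ) - A with hM
  have h1 : B * M = M * B := by
    rw [hM, mul_sub, sub_mul, Matrix.mul_smul, Matrix.smul_mul, Matrix.mul_one, Matrix.one_mul, h.eq]
  calc B * M⁻¹ = M⁻¹ * M * (B * M⁻¹) := by rw [Matrix.nonsing_inv_mul _ hu, Matrix.one_mul]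
    _ = M⁻¹ * (M * B) * M⁻¹ := by simp only [Matrix.mul_assoc]
    _ = M⁻¹ * (B * M) * M⁻¹ := by rw [h1]
    _ = M⁻¹ * B * (M * M⁻¹) := by simp only [Matrix.mul_assoc]
    _ = M⁻¹ * B := by rw [Matrix.mul_nonsing_inv _ hu, Matrix.mul_one]

/-- the numerator polynomial over the integers -/
def NQ (G A : Matrix (Fin n) (Fin n) ℤ) (p : ℤ[X]) (v w : Fin n → ℤ) : ℤ[X] :=
  ∑ i ∈ Finset.range (p.natDegree + 1), ∑ j ∈ Finset.range i,
    C (p.coeff i * (v ⬝ᵥ G.mulVec ((A ^ (i - 1 - j)).mulVec w))) * X ^ j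

lemma NQ_degree (G A : Matrix (Fin n) (Fin n) ℤ) (p : ℤ[X]) (v w : Fin n → ℤ) (hp : 0 < p.natDegree) :
    (NQ G A p v w).natDegree < p.natDegree := by
  have h : (NQ G A p v w).natDegree ≤ p.natDegree - 1 := by
    unfold NQ
    refine natDegree_sum_le_of_forall_le _ _ fun i hi => ?_
    refine natDegree_sum_le_of_forall_le _ _ fun j hj => ?_
    refine (natDegree_C_mul_X_pow_le _ _).trans ?_
    rw [Finset.mem_range] at hi hj
    omega
  omega

/-- complexification of integral vectors -/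
def cv (v : Fin n → ℤ) : Fin n → ℂ := fun i => (v i : ℂ)

lemma cv_mulVec (A : Matrix (Fin n) (Fin n) ℤ) (v : Fin n → ℤ) :
    cv (A.mulVec v) = (A.map (Int.castRingHom ℂ)).mulVec (cv v) := by
  ext i
  simp [cv, Matrix.mulVec, dotProduct]

lemma bf_cv (G : Matrix (Fin n) (Fin n) ℤ) (v w : Fin n → ℤ) :
    bf (G.map (Int.castRingHom ℂ)) (cv v) (cv w) = ((v ⬝ᵥ G.mulVec w : ℤ) : ℂ) := by
  unfold bf
  rw [← cv_mulVec]
  simp [cv, dotProduct]

lemma cv_pow (A : Matrix (Fin n) (Fin n) ℤ) (k : ℕ) (v : Fin n → ℤ) :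
    cv ((A ^ k).mulVec v) = ((A.map (Int.castRingHom ℂ)) ^ k).mulVec (cv v) := by
  rw [cv_mulVec]
  congr 1
  exact Matrix.map_pow A (Int.castRingHom ℂ) k

lemma bf_sum_right {ι : Type*} (G : Matrix (Fin n) (Fin n) ℂ) (v : Fin n → ℂ) (s : Finset ι)
    (g : ι → Fin n → ℂ) : bf G v (∑ i ∈ s, g i) = ∑ i ∈ s, bf G v (g i) := by
  unfold bf
  rw [Matrix.mulVec_sum, dotProduct_sum]

lemma NQ_eval (G A : Matrix (Fin n) (Fin n) ℤ) (p : ℤ[X]) (v w : Fin n → ℤ) (z : ℂ) :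
    (toC (NQ G A p v w)).eval z = bf (G.map (Int.castRingHom ℂ)) (cv v)
      ((KM (A.map (Int.castRingHom ℂ)) (toC p) z).mulVec (cv w)) := by
  have hdeg : (toC p).natDegree = p.natDegree :=
    natDegree_map_eq_of_injective (RingHom.injective_int _) p
  unfold KM NQ
  rw [hdeg]
  simp only [Matrix.sum_mulVec, bf_sum_right, Matrix.smul_mulVec, bf_smul_right]
  unfold toC
  simp only [Polynomial.map_sum, Polynomial.map_mul, Polynomial.map_pow, map_C, map_X, eval_finsetSum,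
    eval_mul, eval_C, eval_pow, eval_X, coeff_map]
  refine Finset.sum_congr rfl fun i _ => Finset.sum_congr rfl fun j _ => ?_
  rw [← cv_pow, bf_cv]
  simp only [eq_intCast]
  push_cast
  ring

end mat

end

end Pool.Agent.R328
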