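import Mathlib
import Pool.Agent.R328.SA

/-!
# Explicit bounds for isometries of Lorentzian lattices
-/

set_option autoImplicit false

open Polynomial MeasureTheory

namespace Pool.Agent.R328

open Pool.Agent.Y820.LB Pool.Agent.H261R2.CM
open Pool.Agent.W242.IM (ae_eval_ne)

noncomputable section

section lz

variable {n : ℕ} {G A : Matrix (Fin n) (Fin n) ℂ} {e f : Fin n → ℂ} {l : ℝ}

lemma lz_pow_iso (h : Lz G A e f l) (k : ℕ) (x y : Fin n → ℂ) :
    bf G ((A ^ k).mulVec x) ((A ^ k).mulVec y) = bf G x y := by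
  induction k with
  | zero => simp
  | succ k ih =>
    rw [pow_succ', ← Matrix.mulVec_mulVec, ← Matrix.mulVec_mulVec, h.bfA, ih]

lemma lz_pow_mem (h : Lz G A e f l) (k : ℕ) {x : Fin n → ℂ} (hx : x ∈ WW G e f) :
    (A ^ k).mulVec x ∈ WW G e f := by
  induction k with
  | zero => simpa using hx
  | succ k ih =>
    rw [pow_succ', ← Matrix.mulVec_mulVec]
    exact h.A_mem _ ih

lemma lz_star (h : Lz G A e f l) (x : Fin n → ℂ) : star (A.mulVec x) = A.mulVec (star x) := by
  have hA' : ∀ i j, (starRingEnd ℂ) (A i j) = A i j := fun i j => congrFun (congrFun h.realA i) j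
  ext i
  simp only [Pi.star_apply, Matrix.mulVec, dotProduct, star_sum, star_mul']
  refine Finset.sum_congr rfl fun j _ => ?_
  congr 1
  exact hA' i j

lemma lz_pow_star (h : Lz G A e f l) (k : ℕ) (x : Fin n → ℂ) :
    star ((A ^ k).mulVec x) = (A ^ k).mulVec (star x) := by
  induction k with
  | zero => simp
  | succ k ih =>
    rw [pow_succ', ← Matrix.mulVec_mulVec, ← Matrix.mulVec_mulVec, lz_star h, ih]

lemma eigen_pow {x : Fin n → ℂ} {μ : ℂ} (hx : A.mulVec x = μ • x) (k : ℕ) :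
    (A ^ k).mulVec x = μ ^ k • x := by
  induction k with
  | zero => simp
  | succ k ih =>
    rw [pow_succ', ← Matrix.mulVec_mulVec, ih, Matrix.mulVec_smul, hx, smul_smul, pow_succ]

/-- the pairings on the positive definite part -/
lemma lz_cs (h : Lz G A e f l) (w : Fin n → ℂ) (hw : w ∈ WW G e f) (hws : star w = w) (V : ℝ)
    (hV : bf G w w = V) (k : ℕ) : ‖bf G w ((A ^ k).mulVec w)‖ ≤ V := by
  set y := (A ^ k).mulVec w with hy
  have hyW : y ∈ WW G e f := lz_pow_mem h k hw
  have hys : star y = y := by rw [hy, lz_pow_star h, hws]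
  have hyy : bf G y y = V := by rw [hy, lz_pow_iso h, hV]
  set s := bf G w y with hs
  have hsr : star s = s := by rw [hs, bf_star G h.realG, hws, hys]
  have hs' : s = (s.re : ℂ) := (Complex.conj_eq_iff_re.mp hsr).symm
  have hyw : bf G y w = s := bf_comm G h.symm y w
  have h1 := h.posData.nonneg (w + y) ((WW G e f).add_mem hw hyW)
  have h2 := h.posData.nonneg (w - y) ((WW G e f).sub_mem hw hyW)
  rw [star_add, hws, hys, bf_add_left, bf_add_right, bf_add_right, hV, hyy, hyw, ← hs] at h1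
  rw [star_sub, hws, hys, bf_sub_left, bf_sub_right, bf_sub_right, hV, hyy, hyw, ← hs] at h2
  rw [hs'] at h1 h2
  rw [hs', Complex.norm_real, Real.norm_eq_abs, abs_le]
  simp only [Complex.add_re, Complex.sub_re, Complex.ofReal_re] at h1 h2
  constructor <;> linarith

/-- growth of the pairings of the orbit of a vector -/
lemma lz_growth (h : Lz G A e f l) (v : Fin n → ℂ) (hvs : star v = v) (q r : ℝ)
    (hq : bf G v v = q) (hr : rho G e f v = r) (k : ℕ) :
    ‖bf G v ((A ^ k).mulVec v)‖ ≤ 2 * |r| * l ^ k + (q - 2 * r) := by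
  have hl := h.one_lt
  set w := Pool.Agent.Y820.LB.comp G e f v with hw
  have hwW : w ∈ WW G e f := h.P_mem v
  have hww : bf G w w = ((q - 2 * r : ℝ) : ℂ) := by
    rw [hw, h.comp_norm, hq, hr]
    push_cast
    ring
  have hws : star w = w := by
    rw [hw]
    unfold Pool.Agent.Y820.LB.comp
    rw [star_sub, star_sub, star_smul, star_smul, hvs, h.reale, h.realf, star_div₀, star_div₀,
      bf_star G h.realG, bf_star G h.realG, bf_star G h.realG, hvs, h.reale, h.realf]
  have hcs := lz_cs h w hwW hws _ hww k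
  set α := bf G f v / bf G e f with hα
  set β := bf G e v / bf G e f with hβ
  have hv : v = α • e + β • f + w := by
    rw [hw]
    unfold Pool.Agent.Y820.LB.comp
    rw [← hα, ← hβ]
    abel
  have hAw : bf G v ((A ^ k).mulVec w) = bf G w ((A ^ k).mulVec w) :=
    (bf_comp_left G e f v _ (lz_pow_mem h k hwW)).symm
  have h1 : (A ^ k).mulVec v = (α * (l : ℂ) ^ k) • e + (β * ((l : ℂ)⁻¹) ^ k) • f + (A ^ k).mulVec w := by
    conv_lhs => rw [hv]
    rw [Matrix.mulVec_add, Matrix.mulVec_add, Matrix.mulVec_smul, Matrix.mulVec_smul, eigen_pow h.ev,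
      eigen_pow h.ev', smul_smul, smul_smul]
  have h2 : bf G v ((A ^ k).mulVec v) = (l : ℂ) ^ k * r + ((l : ℂ)⁻¹) ^ k * r +
      bf G w ((A ^ k).mulVec w) := by
    rw [h1, bf_add_right, bf_add_right, bf_smul_right, bf_smul_right, hAw, ← hr]
    unfold rho
    rw [bf_comm G h.symm v e, bf_comm G h.symm v f, hα, hβ]
    ring
  rw [h2]
  refine (norm_add_le _ _).trans (add_le_add ?_ hcs)
  refine (norm_add_le _ _).trans ?_
  rw [norm_mul, norm_mul, norm_pow, norm_pow, norm_inv, Complex.norm_real, Complex.norm_real,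
    Real.norm_of_nonneg (by linarith), Real.norm_eq_abs]
  have h3 : (l⁻¹) ^ k ≤ l ^ k := by
    apply pow_le_pow_left₀ (by positivity)
    exact (inv_le_one_of_one_le₀ hl.le).trans hl.le
  have h4 := mul_le_mul_of_nonneg_right h3 (abs_nonneg r)
  linarith

end lz

lemma map_aeval' {n : ℕ} (A : Matrix (Fin n) (Fin n) ℤ) (h : ℤ[X]) :
    (aeval A h).map (Int.castRingHom ℂ) = aeval (A.map (Int.castRingHom ℂ)) (toC h) := by
  have h1 := hom_eval₂ h (algebraMap ℤ (Matrix (Fin n) (Fin n) ℤ)) (Int.castRingHom ℂ).mapMatrix A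
  have h2 : ((Int.castRingHom ℂ).mapMatrix : Matrix (Fin n) (Fin n) ℤ →+* Matrix (Fin n) (Fin n) ℂ).comp
      (algebraMap ℤ (Matrix (Fin n) (Fin n) ℤ)) =
      (algebraMap ℂ (Matrix (Fin n) (Fin n) ℂ)).comp (Int.castRingHom ℂ) := RingHom.ext_int _ _
  rw [h2] at h1
  rw [aeval_def, aeval_def, toC, eval₂_map]
  exact h1

/-- the sum of the absolute values of the coefficients -/
def len (h : ℤ[X]) : ℝ := ∑ i ∈ Finset.range (h.natDegree + 1), |(h.coeff i : ℝ)|

lemma one_le_len {h : ℤ[X]} (hh : h ≠ 0) : 1 ≤ len h := by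
  have h1 : |((h.coeff h.natDegree : ℤ) : ℝ)| ≤ len h := by
    unfold len
    exact Finset.single_le_sum (f := fun i => |((h.coeff i : ℤ) : ℝ)|) (fun i _ => abs_nonneg _)
      (Finset.mem_range.mpr (Nat.lt_succ_self _))
  refine le_trans ?_ h1
  have h2 : h.coeff h.natDegree ≠ 0 := by
    rw [coeff_natDegree]; exact leadingCoeff_ne_zero.mpr hh
  exact_mod_cast Int.one_le_abs h2

lemma toC_natDegree (h : ℤ[X]) : (toC h).natDegree = h.natDegree :=
  natDegree_map_eq_of_injective (RingHom.injective_int _) h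

lemma toC_coeff (h : ℤ[X]) (i : ℕ) : (toC h).coeff i = ((h.coeff i : ℤ) : ℂ) := by
  unfold toC
  rw [coeff_map]; rfl

lemma norm_eval_le_len (h : ℤ[X]) {z : ℂ} (hz : ‖z‖ = 1) : ‖(toC h).eval z‖ ≤ len h := by
  rw [eval_eq_sum_range, toC_natDegree]
  refine (norm_sum_le _ _).trans (Finset.sum_le_sum fun i _ => ?_)
  rw [norm_mul, norm_pow, hz, one_pow, mul_one, toC_coeff, Complex.norm_intCast]

/-- the bound for the divided difference -/
lemma norm_KM_le {n : ℕ} (G A : Matrix (Fin n) (Fin n) ℂ) (v w : Fin n → ℂ) (h : ℤ[X]) {P : ℝ}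
    (hP : ∀ k < h.natDegree, ‖bf G v ((A ^ k).mulVec w)‖ ≤ P) {z : ℂ} (hz : ‖z‖ = 1) :
    ‖bf G v ((KM A (toC h) z).mulVec w)‖ ≤ len h * (h.natDegree * P) := by
  unfold KM
  rw [toC_natDegree]
  simp only [Matrix.sum_mulVec, bf_sum_right, Matrix.smul_mulVec, bf_smul_right]
  unfold len
  rw [Finset.sum_mul]
  refine (norm_sum_le _ _).trans (Finset.sum_le_sum fun i hi => ?_)
  have hi' : i ≤ h.natDegree := by rw [Finset.mem_range] at hi; omega
  have h1 : ‖∑ j ∈ Finset.range i, (toC h).coeff i * z ^ j * bf G v ((A ^ (i - 1 - j)).mulVec w)‖ ≤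
      ∑ j ∈ Finset.range i, |((h.coeff i : ℤ) : ℝ)| * P := by
    refine (norm_sum_le _ _).trans (Finset.sum_le_sum fun j hj => ?_)
    rw [Finset.mem_range] at hj
    rw [norm_mul, norm_mul, norm_pow, hz, one_pow, mul_one, toC_coeff, Complex.norm_intCast]
    exact mul_le_mul_of_nonneg_left (hP _ (by omega)) (abs_nonneg _)
  refine h1.trans ?_
  rw [Finset.sum_const, Finset.card_range, nsmul_eq_mul]
  rcases Nat.eq_zero_or_pos i with h0 | h0
  · subst h0
    simp only [Nat.cast_zero, zero_mul]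
    rcases Nat.eq_zero_or_pos h.natDegree with h2 | h2
    · rw [h2]; simp
    · have := (norm_nonneg _).trans (hP 0 h2)
      positivity
  · have hP0 : 0 ≤ P := (norm_nonneg _).trans (hP 0 (by omega))
    have h2 : (i : ℝ) ≤ h.natDegree := by exact_mod_cast hi'
    have h3 : 0 ≤ |((h.coeff i : ℤ) : ℝ)| * P := by positivity
    calc (i : ℝ) * (|((h.coeff i : ℤ) : ℝ)| * P) ≤ h.natDegree * (|((h.coeff i : ℤ) : ℝ)| * P) :=
          mul_le_mul_of_nonneg_right h2 h3
      _ = _ := by ring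

end

end Pool.Agent.R328
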