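import Mathlib
import Pool.Agent.R328.SB

/-!
# Explicit bounds for isometries of Lorentzian lattices: the main theorem
-/

set_option autoImplicit false

open Polynomial MeasureTheory

namespace Pool.Agent.R328

open Pool.Agent.Y820.LB Pool.Agent.H261R2.CM
open Pool.Agent.W242.IM (ae_eval_ne)

noncomputable section

/-- the estimate of the constants -/
lemma const_le {L H D l y : ℝ} (hL : 0 ≤ L) (hH : 1 ≤ H) (hD : 0 ≤ D) (hl : 0 ≤ y)
    (hly : l = Real.exp y) :
    8 * (Real.log 2 + Real.log (1 + 2 * L)) + (Real.log 2 + Real.log (1 + 3 * L)) +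
      (Real.log H + Real.log (1 + H * (D * (5 * L * l)))) ≤
      31 * (1 + Real.log (1 + L) + Real.log H + Real.log (1 + D) + y) := by
  have h2 := Real.log_two_lt_d9
  have hx : 0 ≤ Real.log (1 + L) := Real.log_nonneg (by linarith)
  have hh : 0 ≤ Real.log H := Real.log_nonneg hH
  have hd : 0 ≤ Real.log (1 + D) := Real.log_nonneg (by linarith)
  have h3 : Real.log 3 ≤ 2 := by
    have := Real.log_le_sub_one_of_pos (show (0:ℝ) < 3 by norm_num)
    linarith
  have h5 : Real.log 5 ≤ 4 := by
    have := Real.log_le_sub_one_of_pos (show (0:ℝ) < 5 by norm_num)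
    linarith
  have a1 : Real.log (1 + 2 * L) ≤ Real.log 2 + Real.log (1 + L) := by
    rw [← Real.log_mul (by norm_num) (by linarith)]
    exact Real.log_le_log (by linarith) (by linarith)
  have a2 : Real.log (1 + 3 * L) ≤ Real.log 3 + Real.log (1 + L) := by
    rw [← Real.log_mul (by norm_num) (by linarith)]
    exact Real.log_le_log (by linarith) (by linarith)
  have hl1 : 1 ≤ l := by rw [hly]; exact Real.one_le_exp hl
  have a3 : Real.log (1 + H * (D * (5 * L * l))) ≤ Real.log H + (Real.log (1 + D) + (Real.log 5 +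
      (Real.log (1 + L) + y))) := by
    have hy : y = Real.log l := by rw [hly, Real.log_exp]
    rw [hy, ← Real.log_mul (by linarith) (by linarith), ← Real.log_mul (by norm_num) (by positivity),
      ← Real.log_mul (by linarith) (by positivity), ← Real.log_mul (by linarith) (by positivity)]
    apply Real.log_le_log (by positivity)
    have b1 : 1 ≤ H * l := one_le_mul_of_one_le_of_one_le hH hl1
    have e : H * ((1 + D) * (5 * ((1 + L) * l))) = H * l * (5 + 5 * L + 5 * D) + H * (D * (5 * L * l)) := by ring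
    rw [e]
    have b2 : 1 ≤ H * l * (5 + 5 * L + 5 * D) := by
      apply one_le_mul_of_one_le_of_one_le b1
      linarith
    linarith
  linarith

/-- **Explicit bound for isometries of Lorentzian lattices.** -/
theorem lorentz_core : ∃ c : ℝ, 0 < c ∧ ∀ (n : ℕ) (G A : Matrix (Fin n) (Fin n) ℤ)
    (e f : Fin n → ℂ) (l : ℝ) (v : Fin n → ℤ) (q r L : ℝ) (m h : ℤ[X]),
    Lz (G.map (Int.castRingHom ℂ)) (A.map (Int.castRingHom ℂ)) e f l →
    bf (G.map (Int.castRingHom ℂ)) (cv v) (cv v) = q → q ≤ L →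
    rho (G.map (Int.castRingHom ℂ)) e f (cv v) = r → r ≠ 0 → |r| ≤ L →
    Irreducible m → m.Monic → (toC m).eval (l : ℂ) = 0 → m ∣ A.charpoly → aeval A (m * h) = 0 →
    (toC h).eval (l : ℂ) ≠ 0 →
    c / (1 + Real.log (1 + L) + Real.log (len h) + Real.log (1 + h.natDegree) +
      h.natDegree * Real.log l) ^ 3 ≤ Real.log l := by
  obtain ⟨c, hc, hdomi⟩ := dominated
  refine ⟨c / 32 ^ 3, by positivity, ?_⟩
  intro n G A e f l v q r L m h hlz hq hqL hr hr0 hrL hmi hmm hml hmdvd hmh hhl
  set Gc := G.map (Int.castRingHom ℂ) with hGc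
  set Ac := A.map (Int.castRingHom ℂ) with hAc
  set vc : Fin n → ℂ := cv v with hvc
  have hl := hlz.one_lt
  have hlogl : 0 < Real.log l := Real.log_pos hl
  have hL0 : 0 ≤ L := le_trans (abs_nonneg _) hrL
  have hm0 : m ≠ 0 := hmm.ne_zero
  have hh0 : h ≠ 0 := by
    rintro rfl
    apply hhl
    simp [toC]
  have hH1 := one_le_len hh0
  have hmd : 0 < m.natDegree := by
    rcases Nat.eq_zero_or_pos m.natDegree with h0 | h0
    · exfalso
      apply hmi.not_isUnit
      rw [hmm.natDegree_eq_zero.mp h0]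
      exact isUnit_one
    · exact h0
  -- the measure of `m`
  have hMch : m1 A.charpoly = l := by
    unfold m1 toC
    rw [← Matrix.charpoly_map]
    exact hlz.mahler
  have hM1 : 1 < m1 m := by
    refine m1_gt_of_root m hm0 l hml ?_
    rw [Complex.norm_real, Real.norm_of_nonneg (by linarith)]
    exact hl
  have hMl : m1 m ≤ l := by
    obtain ⟨g, hg⟩ := hmdvd
    have hg0 : g ≠ 0 := by
      rintro rfl
      rw [mul_zero] at hg
      exact (Matrix.charpoly_monic A).ne_zero hg
    rw [← hMch, hg, m1_mul]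
    exact le_mul_of_one_le_right (by linarith) (one_le_m1 hg0)
  -- the vector
  have hvs : star vc = vc := by
    ext i
    simp [hvc, cv]
  set w := Pool.Agent.Y820.LB.comp Gc e f vc with hw
  have hww : bf Gc w w = ((q - 2 * r : ℝ) : ℂ) := by
    rw [hw, hlz.comp_norm, hq, hr]
    push_cast
    ring
  have hws : star w = w := by
    rw [hw]
    unfold Pool.Agent.Y820.LB.comp
    rw [star_sub, star_sub, star_smul, star_smul, hvs, hlz.reale, hlz.realf, star_div₀, star_div₀,
      bf_star Gc hlz.realG, bf_star Gc hlz.realG, bf_star Gc hlz.realG, hvs, hlz.reale, hlz.realf]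
  have hV := hlz.posData.dom_real hlz.realG hlz.T_real w (hlz.P_mem vc) hws (q - 2 * r) hww
  have hS := dom_frac (ι := Fin 2) ![(l : ℂ), (l : ℂ)⁻¹] ![(r : ℂ), (r : ℂ)] (2 * L) (by
    rw [Fin.sum_univ_two]
    simp only [Matrix.cons_val_zero, Matrix.cons_val_one, Complex.norm_real, Real.norm_eq_abs]
    linarith)
  have hqr : q - 2 * r ≤ 3 * L := by
    have := neg_abs_le r
    linarith
  have hqr0 : 0 ≤ q - 2 * r := by
    have h1 := hlz.posData.nonneg w (hlz.P_mem vc)
    rw [hws, hww] at h1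
    simpa using h1
  have hlog : Real.log (1 + (q - 2 * r)) ≤ Real.log (1 + 3 * L) :=
    Real.log_le_log (by linarith) (by linarith)
  have hdom := (hS.add hV).le (c' := 8 * (Real.log 2 + Real.log (1 + 2 * L)) +
    (Real.log 2 + Real.log (1 + 3 * L))) (by linarith)
  -- the companion
  set hA := aeval Ac (toC h) with hhA
  set R : ℝ → Matrix (Fin n) (Fin n) ℂ :=
    fun τ => (ez τ • (1 : Matrix (Fin n) (Fin n) ℂ) - Ac)⁻¹ with hR
  set F : ℝ → ℂ := fun τ => bf Gc vc ((R τ).mulVec (hA.mulVec vc)) with hF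
  set Q := NQ G A m v ((aeval A h).mulVec v) with hQ
  have hQdeg : Q.natDegree < m.natDegree := NQ_degree G A m v _ hmd
  have hcvh : cv ((aeval A h).mulVec v) = hA.mulVec vc := by
    rw [cv_mulVec, map_aeval']
  have hann : aeval Ac (toC m) * hA = 0 := by
    rw [hhA, ← map_mul, ← toC_mul, ← map_aeval', hmh]
    exact Matrix.map_zero _ (map_zero _)
  have hcommA : ∀ p : ℂ[X], Commute (aeval Ac p) Ac := by
    intro p
    have h1 : Commute p X := mul_comm p X
    have h2 := h1.map (aeval Ac)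
    rwa [aeval_X] at h2
  have hev : ∀ᵐ τ : ℝ, ev1 Q τ = ev1 m τ * F τ := by
    filter_upwards [ae_det_ne Ac] with τ hA'
    unfold ev1
    rw [hQ, NQ_eval, hcvh, KM_inv Ac (toC m) (ez τ) hA', comm_inv Ac _ (ez τ) (hcommA _) hA',
      Matrix.sub_mulVec, Matrix.smul_mulVec, bf_sub_right, bf_smul_right]
    have h1 : ((ez τ • (1 : Matrix (Fin n) (Fin n) ℂ) - Ac)⁻¹ * aeval Ac (toC m)).mulVec
        (hA.mulVec vc) = 0 := by
      rw [Matrix.mulVec_mulVec, Matrix.mul_assoc, hann, Matrix.mul_zero, Matrix.zero_mulVec]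
    rw [h1]
    have h2 : bf Gc vc 0 = 0 := by
      unfold bf
      simp
    rw [h2, sub_zero]
  -- the companion in terms of the resolvent of `v`
  have hFv : ∀ τ : ℝ, (ez τ • (1 : Matrix (Fin n) (Fin n) ℂ) - Ac).det ≠ 0 →
      F τ = (toC h).eval (ez τ) * bf Gc vc ((R τ).mulVec vc) -
        bf Gc vc ((KM Ac (toC h) (ez τ)).mulVec vc) := by
    intro τ hA'
    rw [KM_inv Ac (toC h) (ez τ) hA', comm_inv Ac _ (ez τ) (hcommA _) hA', Matrix.sub_mulVec,
      Matrix.smul_mulVec, bf_sub_right, bf_smul_right, ← Matrix.mulVec_mulVec]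
    simp only [hF, hR]
    ring
  have hP0 : ∀ k < h.natDegree, ‖bf Gc vc ((Ac ^ k).mulVec vc)‖ ≤ 5 * L * l ^ h.natDegree := by
    intro k hk
    refine (lz_growth hlz vc hvs q r hq hr k).trans ?_
    have h1 : l ^ k ≤ l ^ h.natDegree := pow_le_pow_right₀ hl.le hk.le
    have h2 : 1 ≤ l ^ h.natDegree := one_le_pow₀ hl.le
    have h3 : 2 * |r| * l ^ k ≤ 2 * L * l ^ h.natDegree := by
      apply mul_le_mul (by linarith) h1 (by positivity) (by positivity)
    have h4 : q - 2 * r ≤ 3 * L * l ^ h.natDegree := by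
      refine hqr.trans ?_
      exact le_mul_of_one_le_right (by positivity) h2
    linarith
  set c2 : ℝ := len h * (h.natDegree * (5 * L * l ^ h.natDegree)) with hc2
  have hc20 : 0 ≤ c2 := by
    have : 0 ≤ len h := by linarith
    positivity
  have hdomF : Dom (fun τ => ‖F τ‖) (8 * (Real.log 2 + Real.log (1 + 2 * L)) +
      (Real.log 2 + Real.log (1 + 3 * L)) + (Real.log (len h) + Real.log (1 + c2))) := by
    refine dom_affine hdom hH1 hc20 ?_
    filter_upwards [ae_det_ne Ac, ae_det_ne (TT Gc Ac e f)] with τ hA' hT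
    refine ⟨norm_nonneg _, ?_⟩
    rw [hFv τ hA']
    refine (norm_sub_le _ _).trans (add_le_add ?_ (norm_KM_le Gc Ac vc vc h hP0 (D_norm_ez τ)))
    rw [norm_mul]
    refine mul_le_mul (norm_eval_le_len h (D_norm_ez τ)) ?_ (norm_nonneg _) (by linarith)
    simp only [hR]
    rw [hlz.resolvent vc _ (ez_ne τ) hA' hT, hr]
    refine (norm_add_le _ _).trans (add_le_add (le_of_eq ?_) le_rfl)
    rw [Fin.sum_univ_two]
    rfl
  -- not divisible
  have hndvd : ¬ m ∣ Q := by
    intro hd
    have hQ0 : Q = 0 := eq_zero_of_dvd_of_natDegree_lt hd hQdeg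
    have hid : toC h * qc Gc Ac vc = toC (NQ G A h v v) * Ac.charpoly := by
      refine eq_of_ae _ _ ?_
      filter_upwards [ae_det_ne Ac, hev, D_ae_ne m hm0] with τ hA' h1 h2
      have h3 : F τ = 0 := by
        rw [hQ0] at h1
        have h4 : ev1 0 τ = 0 := by simp [ev1, toC]
        rw [h4] at h1
        exact (mul_eq_zero.mp h1.symm).resolve_left h2
      rw [hFv τ hA', sub_eq_zero] at h3
      rw [eval_mul, eval_mul, qc_eval Gc Ac vc _ hA', NQ_eval, charpoly_eval_smul, ← h3]
      simp only [hR]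
      ring
    have h1 := congrArg (fun p => p.eval (l : ℂ)) hid
    simp only [eval_mul] at h1
    rw [hlz.root, mul_zero] at h1
    exact mul_ne_zero hhl (hlz.num_ne vc (by rw [hr]; exact_mod_cast hr0)) h1
  -- conclusion
  set k : ℝ := 8 * (Real.log 2 + Real.log (1 + 2 * L)) +
      (Real.log 2 + Real.log (1 + 3 * L)) + (Real.log (len h) + Real.log (1 + c2)) with hk
  have hlog2 : 0 < Real.log 2 := Real.log_pos (by norm_num)
  have g1 : 0 ≤ Real.log (1 + 2 * L) := Real.log_nonneg (by linarith)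
  have g2 : 0 ≤ Real.log (1 + 3 * L) := Real.log_nonneg (by linarith)
  have g3 : 0 ≤ Real.log (len h) := Real.log_nonneg hH1
  have g4 : 0 ≤ Real.log (1 + c2) := Real.log_nonneg (by linarith)
  have g5 : 0 ≤ Real.log (1 + L) := Real.log_nonneg (by linarith)
  have g6 : 0 ≤ Real.log (1 + (h.natDegree : ℝ)) := Real.log_nonneg (by
    have : (0:ℝ) ≤ h.natDegree := Nat.cast_nonneg _
    linarith)
  have hk0 : 0 ≤ k := by positivity
  have h1 := hdomi m Q F k hk0 hmi hndvd hQdeg.le hdomF hev hM1
  have h2 : Real.log (m1 m) ≤ Real.log l := Real.log_le_log (by linarith) hMl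
  have hk2 : k ≤ 31 * (1 + Real.log (1 + L) + Real.log (len h) + Real.log (1 + h.natDegree) +
      h.natDegree * Real.log l) := by
    have h3 := const_le (L := L) (H := len h) (D := h.natDegree) (l := l ^ h.natDegree)
      (y := h.natDegree * Real.log l) hL0 hH1 (Nat.cast_nonneg _)
      (by positivity) (by
        rw [← Real.log_pow, Real.exp_log (by positivity)])
    exact h3
  refine le_trans ?_ (h1.trans h2)
  rw [div_div, ← mul_pow]
  have h4 : 0 ≤ (h.natDegree : ℝ) * Real.log l := by positivity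
  apply div_le_div_of_nonneg_left hc.le (by positivity)
  apply pow_le_pow_left₀ (by linarith)
  linarith

end

end Pool.Agent.R328
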