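import Mathlib
import Pool.Agent.R328.SC

/-!
# Explicit bounds for isometries of Lorentzian lattices: real form and the cyclotomic part
-/

set_option autoImplicit false

open Polynomial MeasureTheory

namespace Pool.Agent.R328

open Pool.Agent.Y820.LB Pool.Agent.H261R2.CM

noncomputable section

lemma toC_eval_real (p : ℤ[X]) (x : ℝ) : (toC p).eval (x : ℂ) = ((aeval x p : ℝ) : ℂ) := by
  rw [← aeval_eq_toC]
  exact aeval_algebraMap_apply ℂ x p

lemma root_le_m1 (p : ℤ[X]) (hp : p ≠ 0) (z : ℂ) (hz : (toC p).eval z = 0) : ‖z‖ ≤ m1 p := by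
  have h0 : toC p ≠ 0 := D_toC_ne p hp
  have h1 := abs_leadingCoeff_le p hp
  unfold m1
  rw [mahlerMeasure_eq_leadingCoeff_mul_prod_roots]
  have hmem : z ∈ (toC p).roots := (mem_roots h0).mpr hz
  obtain ⟨s, hs⟩ := Multiset.exists_cons_of_mem hmem
  rw [hs, Multiset.map_cons, Multiset.prod_cons]
  have h4 : (1 : ℝ) ≤ (s.map fun a => max 1 ‖a‖).prod := by
    refine Multiset.one_le_prod ?_
    intro x hx
    obtain ⟨y, -, rfl⟩ := Multiset.mem_map.mp hx
    exact le_max_left _ _
  have h5 : ‖z‖ ≤ max 1 ‖z‖ := le_max_right _ _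
  have h6 : (0:ℝ) ≤ max 1 ‖z‖ := le_trans zero_le_one (le_max_left _ _)
  calc ‖z‖ ≤ max 1 ‖z‖ := h5
    _ ≤ max 1 ‖z‖ * (s.map fun a => max 1 ‖a‖).prod := le_mul_of_one_le_right h6 h4
    _ ≤ ‖(toC p).leadingCoeff‖ * (max 1 ‖z‖ * (s.map fun a => max 1 ‖a‖).prod) :=
      le_mul_of_one_le_left (mul_nonneg h6 (by linarith)) h1

lemma len_le (p : ℤ[X]) : len p ≤ 2 ^ p.natDegree * m1 p := by
  unfold len
  have h1 : ∀ i ∈ Finset.range (p.natDegree + 1), |((p.coeff i : ℤ) : ℝ)| ≤
      (p.natDegree.choose i : ℝ) * m1 p := by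
    intro i _
    have h2 := norm_coeff_le_choose_mul_mahlerMeasure i (toC p)
    rw [toC_natDegree, toC_coeff, Complex.norm_intCast] at h2
    exact h2
  refine (Finset.sum_le_sum h1).trans (le_of_eq ?_)
  rw [← Finset.sum_mul]
  congr 1
  have h3 := Nat.sum_range_choose p.natDegree
  exact_mod_cast h3

/-- real form with an arbitrary annihilator of the complement, and the form with the rank of the
complement -/
theorem lorentz_main : ∃ c : ℝ, 0 < c ∧ ∀ (n : ℕ) (G A : Matrix (Fin n) (Fin n) ℤ)
    (e f : Fin n → ℝ) (l : ℝ) (v : Fin n → ℤ) (L : ℝ),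
    G.transpose = G → A.transpose * G * A = G → 1 < l →
    (A.map (Int.castRingHom ℝ)).mulVec e = l • e →
    (A.map (Int.castRingHom ℝ)).mulVec f = l⁻¹ • f →
    (∀ x : Fin n → ℝ, x ≠ 0 → rf G e x = 0 → rf G f x = 0 → 0 < rf G x x) →
    rf G (fun i => (v i : ℝ)) (fun i => (v i : ℝ)) ≤ L →
    rf G e (fun i => (v i : ℝ)) * rf G f (fun i => (v i : ℝ)) ≠ 0 →
    |rf G e (fun i => (v i : ℝ)) * rf G f (fun i => (v i : ℝ))| ≤ L * |rf G e f| →
    (∀ h : ℤ[X], aeval A (minpoly ℤ l * h) = 0 → aeval l h ≠ 0 →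
      c / (1 + Real.log (1 + L) + Real.log (len h) + Real.log (1 + h.natDegree) +
        h.natDegree * Real.log l) ^ 3 ≤ Real.log l) ∧
    c / (1 + Real.log (1 + L) + ((n : ℝ) - (minpoly ℤ l).natDegree)) ^ 3 ≤ Real.log l := by
  obtain ⟨c, hc, hcore⟩ := lorentz_core
  refine ⟨min (c / 27) 1, lt_min (by positivity) one_pos, ?_⟩
  intro n G A e f l v L h1 h2 h3 h4 h5 h7 hq hr0 hrL
  have h6 : rf G e f ≠ 0 := by
    intro h0
    rw [h0, abs_zero, mul_zero] at hrL
    exact hr0 (abs_eq_zero.mp (le_antisymm hrL (abs_nonneg _)))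
  have hlz := lz_of G A e f l h1 h2 h3 h4 h5 h6 h7
  have hv : cv v = fun i => (((v i : ℝ)) : ℂ) := by
    ext i
    unfold cv
    push_cast
    rfl
  set q := rf G (fun i => (v i : ℝ)) (fun i => (v i : ℝ)) with hqdef
  set r := rf G e (fun i => (v i : ℝ)) * rf G f (fun i => (v i : ℝ)) / rf G e f with hrdef
  have e1 : bf (G.map (Int.castRingHom ℂ)) (cv v) (cv v) = q := by rw [hv, bf_ofReal]
  have e2 : rho (G.map (Int.castRingHom ℂ)) (fun i => (e i : ℂ)) (fun i => (f i : ℂ)) (cv v) = r := by
    unfold rho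
    rw [hv, bf_ofReal, bf_ofReal, bf_ofReal, hrdef]
    push_cast
    rfl
  have hrne : r ≠ 0 := div_ne_zero hr0 h6
  have hrle : |r| ≤ L := by
    rw [hrdef, abs_div, div_le_iff₀ (abs_pos.mpr h6)]
    exact hrL
  have hL0 : 0 ≤ L := (abs_nonneg _).trans hrle
  have hlogl : 0 < Real.log l := Real.log_pos h3
  -- the minimal polynomial
  have hroot : aeval l A.charpoly = 0 := by
    have h8 := hlz.root
    have h9 : (A.map (Int.castRingHom ℂ)).charpoly = toC A.charpoly := by
      unfold toC
      rw [← Matrix.charpoly_map]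
    rw [h9, toC_eval_real] at h8
    exact_mod_cast h8
  have hint : IsIntegral ℤ l := by
    refine ⟨A.charpoly, Matrix.charpoly_monic A, ?_⟩
    rw [← aeval_def]; exact hroot
  set m := minpoly ℤ l with hm
  have hmm : m.Monic := minpoly.monic hint
  have hmi : Irreducible m := minpoly.irreducible hint
  have hml : (toC m).eval (l : ℂ) = 0 := by
    rw [toC_eval_real, hm, minpoly.aeval]
    simp
  have hmdvd : m ∣ A.charpoly := minpoly.isIntegrallyClosed_dvd hint hroot
  have hgen : ∀ h : ℤ[X], aeval A (m * h) = 0 → aeval l h ≠ 0 →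
      c / (1 + Real.log (1 + L) + Real.log (len h) + Real.log (1 + h.natDegree) +
        h.natDegree * Real.log l) ^ 3 ≤ Real.log l := by
    intro h hh hhl
    refine hcore n G A _ _ l v q r L m h hlz e1 hq e2 hrne hrle hmi hmm hml hmdvd hh ?_
    rw [toC_eval_real]
    exact_mod_cast hhl
  have hx : 0 ≤ Real.log (1 + L) := Real.log_nonneg (by linarith)
  refine ⟨?_, ?_⟩
  · intro h hh hhl
    refine le_trans ?_ (hgen h hh hhl)
    have hh0 : h ≠ 0 := by
      rintro rfl
      simp at hhl
    have g3 : 0 ≤ Real.log (len h) := Real.log_nonneg (one_le_len hh0)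
    have g4 : (0:ℝ) ≤ h.natDegree := Nat.cast_nonneg _
    have g6 : 0 ≤ Real.log (1 + (h.natDegree : ℝ)) := Real.log_nonneg (by linarith)
    have g7 : 0 ≤ h.natDegree * Real.log l := mul_nonneg g4 hlogl.le
    apply div_le_div_of_nonneg_right _ (by positivity)
    exact (min_le_left _ _).trans (by linarith)
  · obtain ⟨g, hg⟩ := hmdvd
    have hg0 : g ≠ 0 := by
      rintro rfl
      rw [mul_zero] at hg
      exact (Matrix.charpoly_monic A).ne_zero hg
    have hdeg : (g.natDegree : ℝ) = (n : ℝ) - m.natDegree := by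
      have h8 : A.charpoly.natDegree = m.natDegree + g.natDegree := by
        rw [hg, natDegree_mul hmm.ne_zero hg0]
      rw [Matrix.charpoly_natDegree_eq_dim, Fintype.card_fin] at h8
      rw [h8]
      push_cast
      ring
    have hMch : m1 A.charpoly = l := by
      unfold m1 toC
      rw [← Matrix.charpoly_map]
      exact hlz.mahler
    have hMg : m1 g ≤ 1 := by
      have h8 := root_le_m1 m hmm.ne_zero (l : ℂ) hml
      rw [Complex.norm_real, Real.norm_of_nonneg (by linarith)] at h8
      have h9 : m1 m * m1 g = l := by rw [← m1_mul, ← hg, hMch]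
      have h10 := one_le_m1 hg0
      by_contra hcon
      push Not at hcon
      have h11 : l * 1 < m1 m * m1 g := mul_lt_mul' h8 hcon zero_le_one (by linarith)
      linarith
    have hlen : Real.log (len g) ≤ g.natDegree := by
      have h8 : len g ≤ 2 ^ g.natDegree := (len_le g).trans (by
        have : (0:ℝ) < 2 ^ g.natDegree := by positivity
        nlinarith)
      have h9 := Real.log_le_log (lt_of_lt_of_le one_pos (one_le_len hg0)) h8
      rw [Real.log_pow] at h9
      have h10 := Real.log_two_lt_d9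
      have h11 : (0:ℝ) ≤ g.natDegree := Nat.cast_nonneg _
      nlinarith
    have hgl : aeval l g ≠ 0 := by
      intro h0
      have h8 : (toC g).eval (l : ℂ) = 0 := by rw [toC_eval_real, h0]; simp
      have h9 := hlz.char_eq
      have h10 : (A.map (Int.castRingHom ℂ)).charpoly = toC m * toC g := by
        rw [← toC_mul, ← hg]
        unfold toC
        rw [← Matrix.charpoly_map]
      rw [h10] at h9
      have h11 := congrArg (fun p => (derivative p).eval (l : ℂ)) h9
      simp only [derivative_mul, derivative_X_sub_C, eval_add, eval_mul, hml, h8, eval_sub, eval_X,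
        eval_C, sub_self, mul_zero, zero_mul, add_zero, zero_add, one_mul, derivative_pow,
        derivative_X, mul_one, eval_one] at h11
      have h12 : (TT (G.map (Int.castRingHom ℂ)) (A.map (Int.castRingHom ℂ)) (fun i => (e i : ℂ))
          (fun i => (f i : ℂ))).charpoly.eval (l : ℂ) ≠ 0 := by
        refine hlz.T_root _ ?_
        rw [Complex.norm_real, Real.norm_of_nonneg (by linarith)]
        exact h3
      have h13 : (l : ℂ) - (l : ℂ)⁻¹ ≠ 0 := by
        intro h14
        have h15 : l - l⁻¹ = 0 := by exact_mod_cast h14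
        have h16 : l⁻¹ < 1 := inv_lt_one_of_one_lt₀ h3
        linarith
      exact mul_ne_zero h12 h13 h11.symm
    have hann : aeval A (m * g) = 0 := by
      rw [← hg]
      exact Matrix.aeval_self_charpoly A
    have hmain := hgen g hann hgl
    have hD0 : (0:ℝ) ≤ g.natDegree := Nat.cast_nonneg _
    rw [← hdeg]
    by_cases hbig : Real.log l ≤ 1
    · refine le_trans ?_ hmain
      have g3 : 0 ≤ Real.log (len g) := Real.log_nonneg (one_le_len hg0)
      have g6 : 0 ≤ Real.log (1 + (g.natDegree : ℝ)) := Real.log_nonneg (by linarith)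
      have g7 : Real.log (1 + (g.natDegree : ℝ)) ≤ g.natDegree := by
        have := Real.log_le_sub_one_of_pos (show (0:ℝ) < 1 + (g.natDegree : ℝ) by linarith)
        linarith
      have g8 : 0 ≤ g.natDegree * Real.log l := mul_nonneg hD0 hlogl.le
      have g9 : g.natDegree * Real.log l ≤ g.natDegree := by nlinarith
      calc min (c / 27) 1 / (1 + Real.log (1 + L) + (g.natDegree : ℝ)) ^ 3
          ≤ (c / 27) / (1 + Real.log (1 + L) + (g.natDegree : ℝ)) ^ 3 :=
            div_le_div_of_nonneg_right (min_le_left _ _) (by positivity)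
        _ = c / (3 * (1 + Real.log (1 + L) + (g.natDegree : ℝ))) ^ 3 := by
            rw [mul_pow, div_div]; norm_num
        _ ≤ _ := by
            apply div_le_div_of_nonneg_left hc.le (by positivity)
            apply pow_le_pow_left₀ (by positivity)
            linarith
    · push Not at hbig
      have h8 : (1:ℝ) ≤ (1 + Real.log (1 + L) + (g.natDegree : ℝ)) ^ 3 :=
        one_le_pow₀ (by linarith)
      calc min (c / 27) 1 / (1 + Real.log (1 + L) + (g.natDegree : ℝ)) ^ 3
          ≤ 1 / (1 + Real.log (1 + L) + (g.natDegree : ℝ)) ^ 3 :=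
            div_le_div_of_nonneg_right (min_le_right _ _) (by positivity)
        _ ≤ 1 := by
            rw [div_le_one (by positivity)]; exact h8
        _ ≤ Real.log l := hbig.le

end

end Pool.Agent.R328
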