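import Mathlib
import Pool.Agent.R328.QB
import Pool.Agent.Y820.LB.Bridge
import Pool.Agent.TH53.UG6

/-!
# Growth gaps from companions of bounded height
-/

set_option autoImplicit false

open Polynomial MeasureTheory Filter Topology

namespace Pool.Agent.R328

open Pool.Agent.Y820.LB Pool.Agent.H261R2.CM
open scoped TensorProduct commutatorElement

noncomputable section

universe u

/-- the Mahler measure of an algebraic number with a companion of bounded height -/
lemma companion : ∃ c : ℝ, 0 < c ∧ ∀ (x : ℂ), IsIntegral ℤ x → x ≠ 0 → (∀ m > 0, x ^ m ≠ 1) →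
    ∀ (Q : ℤ[X]) (K : ℝ), aeval x Q ≠ 0 → Q.natDegree ≤ (minpoly ℤ x).natDegree →
    Real.circleAverage (fun z : ℂ => Real.log (max ‖aeval z (minpoly ℤ x)‖ ‖aeval z Q‖)) 0 1 ≤ K →
    c / (1 + K) ^ 3 ≤ Real.log (Pool.Agent.W963.GE.MM x) := by
  obtain ⟨c, hc, h⟩ := pair_main
  refine ⟨c / 8, by positivity, ?_⟩
  intro x hx hx0 hroot Q K hQ hdeg hK
  have hirr := minpoly.irreducible hx
  have hM : 1 < Pool.Agent.W963.GE.MM x := Pool.Agent.W963.GE.MM_gt x hx hx0 hroot
  have hM' : 1 < Pool.Agent.H388SL.MM (minpoly ℤ x) := hM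
  have hnd : ¬ minpoly ℤ x ∣ Q := by
    rintro ⟨g, hg⟩
    apply hQ
    rw [hg, map_mul, minpoly.aeval, zero_mul]
  have h1 := h (minpoly ℤ x) Q 1 one_pos hirr hnd hM'
  have e : PM (minpoly ℤ x) Q 1 =
      fun z : ℂ => Real.log (max ‖aeval z (minpoly ℤ x)‖ ‖aeval z Q‖) := by
    ext z
    unfold PM
    rw [pow_one]
  rw [e] at h1
  have h0 := PM_nonneg hirr.ne_zero hM'.le Q 1
  rw [e] at h0
  set B := Real.circleAverage (fun z : ℂ => Real.log (max ‖aeval z (minpoly ℤ x)‖ ‖aeval z Q‖)) 0 1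
    with hB
  have h2 : (Q.natDegree : ℝ) / (((1 : ℕ) : ℝ) * (minpoly ℤ x).natDegree) ≤ 1 := by
    rw [Nat.cast_one, one_mul]
    apply div_le_one_of_le₀ _ (Nat.cast_nonneg _)
    exact_mod_cast hdeg
  have h3 : (0 : ℝ) ≤ (Q.natDegree : ℝ) / (((1 : ℕ) : ℝ) * (minpoly ℤ x).natDegree) := by positivity
  have h4 : (1 + (Q.natDegree : ℝ) / (((1 : ℕ) : ℝ) * (minpoly ℤ x).natDegree)) *
      (1 + B / ((1 : ℕ) : ℝ)) ≤ 2 * (1 + K) := by
    rw [Nat.cast_one, div_one] at *
    exact mul_le_mul (by linarith) (by linarith) (by linarith) (by norm_num)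
  have h5 : 0 < (1 + (Q.natDegree : ℝ) / (((1 : ℕ) : ℝ) * (minpoly ℤ x).natDegree)) *
      (1 + B / ((1 : ℕ) : ℝ)) := by
    apply mul_pos
    · linarith
    · rw [Nat.cast_one, div_one]; linarith
  refine le_trans ?_ h1
  calc c / 8 / (1 + K) ^ 3 = c / (2 * (1 + K)) ^ 3 := by
        rw [mul_pow, div_div]; norm_num
    _ ≤ _ := by
      apply div_le_div_of_nonneg_left hc.le (by positivity)
      exact pow_le_pow_left₀ h5.le h4 3

/-- from the Mahler measure to the growth of digit sums -/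
lemma eta_of_log {x : ℂ} (hx : IsIntegral ℤ x) (hx0 : x ≠ 0) {y : ℝ} (hy0 : 0 ≤ y)
    (hy : y ≤ 1 / 2) (h : y ≤ Real.log (Pool.Agent.W963.GE.MM x)) : y / 3 ≤ H746UG.eta x := by
  have hM : 0 < Pool.Agent.W963.GE.MM x :=
    zero_lt_one.trans_le (Pool.Agent.W963.GE.MM_ge x hx)
  refine le_trans ?_ (Pool.Agent.W963.GE.eta_ge x hx0 hx)
  refine Pool.Agent.TH53.UG.base_exp hM ?_ hy0 (by linarith)
  have h1 : Real.exp (2 * y) ≤ Pool.Agent.W963.GE.MM x ^ 2 := by
    calc Real.exp (2 * y) ≤ Real.exp (Real.log (Pool.Agent.W963.GE.MM x ^ 2)) := by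
          apply Real.exp_le_exp.2
          rw [Real.log_pow]
          push_cast
          linarith
      _ = _ := Real.exp_log (by positivity)
  have h2 : 1 / Pool.Agent.W963.GE.MM x ^ 2 ≤ 1 / (1 + 2 * y + (2 * y) ^ 2 / 2) :=
    one_div_le_one_div_of_le (by positivity)
      ((Real.quadratic_le_exp_of_nonneg (by linarith)).trans h1)
  have h3 : 1 / (1 + 2 * y + (2 * y) ^ 2 / 2) ≤ 1 - y := by
    rw [div_le_iff₀ (by positivity)]
    nlinarith [mul_nonneg hy0 (sub_nonneg.2 hy), mul_nonneg (mul_nonneg hy0 hy0) (sub_nonneg.2 hy)]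
  linarith

/-- the growth gap from a lower bound of the Mahler measures of the eigenvalues -/
theorem gap_of_log {k d : ℕ} (hk : 1 ≤ k) {G : Type u} [Group G] (S : Set G)
    (hfin : S.Finite) (hgen : Subgroup.closure S = ⊤) (H : Subgroup G) (hH0 : H.index ≠ 0)
    (hHd : H.index ≤ d)
    (hnil : Group.IsNilpotent (Pool.Agent.W963.GE.gam H k) ∨ ¬ Group.IsVirtuallyNilpotent
      (H ⧸ ⁅Pool.Agent.W963.GE.gam H k, Pool.Agent.W963.GE.gam H k⁆)) {y : ℝ} (hy0 : 0 ≤ y)
    (hy : y ≤ 1 / 2)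
    (hc : ∀ (t : H) (b : Additive (Abelianization (Pool.Agent.W963.GE.gam H k))) (x : ℂ),
      x ≠ 0 → (∀ n > 0, x ^ n ≠ 1) → IsIntegral ℤ x → IsIntegral ℤ x⁻¹ →
      (∀ p : Polynomial ℤ, (Polynomial.aeval
        (Pool.Agent.TH53.UG.act (Pool.Agent.W963.GE.gam H k) t) p) b = 0 →
        Polynomial.aeval x p = 0) →
      Module.End.HasEigenvalue (LinearMap.baseChange ℂ
        (Pool.Agent.TH53.UG.act (Pool.Agent.W963.GE.gam H k) t) :
        Module.End ℂ (ℂ ⊗[ℤ] (Additive (Abelianization (Pool.Agent.W963.GE.gam H k))))) x →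
      y ≤ Real.log (Pool.Agent.W963.GE.MM x)) :
    Group.IsVirtuallyNilpotent G ∨ y / 12 / (2 ^ k * d) ≤ H746UG.rho S := by
  have hd : 1 ≤ d := by omega
  have hd' : (1 : ℝ) ≤ d := by exact_mod_cast hd
  have h1 := Pool.Agent.TH53.UG.gap_general (c := y / 3) hk S hfin hgen H hH0 hHd hnil (by
    have := Real.log_two_gt_d9
    linarith) (by
    intro hMf t b x hx0 hx hp
    have hxi : IsIntegral ℤ x := Pool.Agent.TH53.UG.integral_of_root _ b hp
    by_cases hi : IsIntegral ℤ x⁻¹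
    · exact eta_of_log hxi hx0 hy0 hy (hc t b x hx0 hx hxi hi hp
        (Pool.Agent.TH53.UG.eig_of_root _ b hp (minpoly.aeval ℤ x)))
    · rw [H746UG.eta_eq_log_two x hx0 (fun h => hi h.2)]
      have := Real.log_two_gt_d9
      linarith)
  rcases h1 with h1 | h1
  · exact Or.inl h1
  · right
    refine le_trans ?_ h1
    rw [div_div, div_div]
    apply div_le_div_of_nonneg_left hy0 (by
      have : (0:ℝ) < 2 * d - 1 := by linarith
      positivity)
    have h2 : (0:ℝ) < 2 ^ k := by positivity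
    rw [pow_succ]
    nlinarith

end

end Pool.Agent.R328
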