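import Pool.Agent.R328.ThetaBig

set_option autoImplicit false

namespace Pool.Agent.R328.Theta

open Pool.Agent.R341.Greedy Pool.Agent.R341.Powers Real

lemma log2_gt : (0.6931471 : ℝ) < log 2 := by have := Real.log_two_gt_d9; linarith
lemma log2_lt : log 2 < (0.6931472 : ℝ) := by have := Real.log_two_lt_d9; linarith

/-- comparison of logarithms through integer powers -/
lemma log_ge_of_pow {x : ℝ} (hx : 0 < x) {a b : ℕ} (hb : 0 < b) (h : (2 : ℝ) ^ a ≤ x ^ b) :
    (a : ℝ) / b * log 2 ≤ log x := by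
  have h1 : (a : ℝ) * log 2 ≤ b * log x := by
    rw [← log_pow, ← log_pow]
    exact log_le_log (by positivity) h
  have hb' : (0 : ℝ) < b := by exact_mod_cast hb
  rw [div_mul_eq_mul_div, div_le_iff₀ hb']
  linarith

lemma log_le_of_pow {x : ℝ} (hx : 0 < x) {a b : ℕ} (hb : 0 < b) (h : x ^ b ≤ (2 : ℝ) ^ a) :
    log x ≤ (a : ℝ) / b * log 2 := by
  have h1 : (b : ℝ) * log x ≤ a * log 2 := by
    rw [← log_pow, ← log_pow]
    exact log_le_log (by positivity) h
  have hb' : (0 : ℝ) < b := by exact_mod_cast hb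
  rw [div_mul_eq_mul_div, le_div_iff₀ hb']
  linarith

lemma log3_gt : (1.0974 : ℝ) < log 3 := by
  have h := log_ge_of_pow (x := 3) (by norm_num) (a := 19) (b := 12) (by norm_num) (by norm_num)
  have := log2_gt
  norm_num at h
  linarith

lemma log5_gt : (1.609 : ℝ) < log 5 := by
  have h := log_ge_of_pow (x := 5) (by norm_num) (a := 65) (b := 28) (by norm_num) (by norm_num)
  have := log2_gt
  norm_num at h
  linarith

/-- Basic facts for `d ≥ 800`. -/
structure Big (d : ℕ) (β : ℝ) : Prop where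
  hd : 800 ≤ d
  hβ1 : 1 < β
  hβ : β ^ d = β ^ (d - 1) + 1
  hβn : β ^ (d - 1) * (β - 1) = 1
  hβ2 : β ≤ 1.00636
  hX : 5.05 ≤ -log (β - 1)
  hlog : ((d : ℝ) - 1) * log β = -log (β - 1)

set_option exponentiation.threshold 3000 in
lemma big_of {d : ℕ} (hd : 800 ≤ d) {β : ℝ} (hβ1 : 1 < β) (hβ : β ^ d = β ^ (d - 1) + 1) :
    Big d β := by
  have hβn : β ^ (d - 1) * (β - 1) = 1 := by
    have : β ^ (d - 1) * β = β ^ d := by rw [← pow_succ, Nat.sub_add_cancel (by omega)]
    linarith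
  have hβ2 : β ≤ 1.00636 := by
    by_contra hcon
    push Not at hcon
    have h1 : (1.00636 : ℝ) ^ 799 ≤ β ^ (d - 1) :=
      (pow_le_pow_left₀ (by norm_num) hcon.le 799).trans
        (pow_le_pow_right₀ hβ1.le (by omega))
    have h2 : (158 : ℝ) < 1.00636 ^ 799 := by norm_num
    nlinarith
  have hx0 : 0 < β - 1 := by linarith
  have hX : 5.05 ≤ -log (β - 1) := by
    rw [← log_inv]
    have h1 : (157.2 : ℝ) ≤ (β - 1)⁻¹ := by
      rw [le_inv_comm₀ (by norm_num) hx0]
      refine le_trans (show β - 1 ≤ 0.00636 by linarith) (by norm_num)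
    have h2 := log_ge_of_pow (x := 157.2) (by norm_num) (a := 729) (b := 100) (by norm_num)
      (by norm_num)
    have h3 := log_le_log (by norm_num) h1
    have := log2_gt
    norm_num at h2
    linarith
  refine ⟨hd, hβ1, hβ, hβn, hβ2, hX, ?_⟩
  have h1 : log (β ^ (d - 1) * (β - 1)) = 0 := by rw [hβn, log_one]
  rw [log_mul (by positivity) hx0.ne', log_pow] at h1
  have : (((d - 1 : ℕ) : ℝ)) = d - 1 := by
    rw [Nat.cast_sub (by omega)]; simp
  rw [this] at h1
  linarith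

/-- `log ρ / log β = τ / X`. -/
lemma Big.ratio {d j : ℕ} {β ρ φ : ℝ} (H : Big d β) (h : Root d j β ρ φ) :
    log ρ / log β = -log ‖zz ρ φ - 1‖ / -log (β - 1) := by
  have hd' : (800 : ℝ) ≤ d := by exact_mod_cast H.hd
  have hρ0 : 0 < ρ := by linarith [h.one_lt]
  have hn0 : 0 < ‖zz ρ φ - 1‖ := by
    by_contra hcon
    have h1 : ‖zz ρ φ - 1‖ = 0 := le_antisymm (not_lt.1 hcon) (norm_nonneg _)
    have := h.prod
    rw [h1, mul_zero] at this
    exact zero_ne_one this
  have h1 : log (ρ ^ (d - 1) * ‖zz ρ φ - 1‖) = 0 := by rw [h.prod, log_one]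
  rw [log_mul (by positivity) hn0.ne', log_pow] at h1
  have h2 : (((d - 1 : ℕ) : ℝ)) = d - 1 := by
    rw [Nat.cast_sub (by have := H.hd; omega)]; simp
  rw [h2] at h1
  have h3 : -log ‖zz ρ φ - 1‖ = (d - 1) * log ρ := by linarith
  rw [h3, ← H.hlog, mul_div_mul_left _ _ (by linarith)]

lemma Root.norm_pos {d j : ℕ} {β ρ φ : ℝ} (h : Root d j β ρ φ) : 0 < ‖zz ρ φ - 1‖ := by
  by_contra hcon
  have h1 : ‖zz ρ φ - 1‖ = 0 := le_antisymm (not_lt.1 hcon) (norm_nonneg _)
  have := h.prod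
  rw [h1, mul_zero] at this
  exact zero_ne_one this

/-- large exponents -/
theorem partA {d k : ℕ} {β : ℝ} (H : Big d β) (hk : 1 ≤ k) (ht : 1 / 3 ≤ k * log β) :
    ¬ Parry (β ^ k) := by
  have hpi := Real.pi_pos
  have hpi3 := Real.pi_lt_d4
  have hd' : (800 : ℝ) ≤ d := by exact_mod_cast H.hd
  have hβ1 := H.hβ1
  have hx0 : 0 < β - 1 := by linarith
  obtain ⟨ρ, φ, h⟩ := exists_root (d := d) (j := 1) (by have := H.hd; omega) le_rfl
    (by rw [div_le_one (by linarith)]; push_cast; linarith) hβ1 H.hβ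
  apply critA_polar (by have := H.hd; omega) hβ1 H.hβ h hk
  have hX := H.hX
  have hratio := H.ratio h
  have hlog := H.hlog
  have hσ0 : 0 < ‖zz ρ φ - 1‖ := h.norm_pos
  have hnear := h.near
  set x := β - 1 with hx
  set X := -log x with hXdef
  set σ := ‖zz ρ φ - 1‖ with hσ
  set τ := -log σ with hτ
  have hX0 : 0 < X := by linarith
  have hlβ : 0 < log β := log_pos hβ1
  have hlρ : 0 < log ρ := log_pos h.one_lt
  -- `φ ≤ 2 π x / X`
  have hφ1 : φ * ((d : ℝ) - 1) ≤ 2 * π := by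
    have h1 := h.ub
    rw [lt_div_iff₀ (by linarith)] at h1
    push_cast at h1
    nlinarith [h.φ_pos]
  have hlx : log β ≤ x := by
    have := log_le_sub_one_of_pos (show 0 < β by linarith)
    linarith
  have hφ2 : φ * X ≤ 2 * π * x := by
    have h1 : φ * X = (φ * ((d : ℝ) - 1)) * log β := by
      rw [← hlog]; ring
    rw [h1]
    calc φ * ((d : ℝ) - 1) * log β ≤ 2 * π * log β := by
          apply mul_le_mul_of_nonneg_right hφ1 hlβ.le
      _ ≤ 2 * π * x := by
          apply mul_le_mul_of_nonneg_left hlx (by positivity)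
  have hσ1 : σ ≤ 1.6 * x := by
    apply le_of_sq_le_sq _ (by positivity)
    refine hnear.trans ?_
    have h1 : φ * 5.05 ≤ 2 * π * x := by
      refine le_trans ?_ hφ2
      apply mul_le_mul_of_nonneg_left hX h.φ_pos.le
    have h2 : (φ * 5.05) ^ 2 ≤ (2 * π * x) ^ 2 :=
      pow_le_pow_left₀ (mul_nonneg h.φ_pos.le (by norm_num)) h1 2
    have h3 : π ^ 2 ≤ 9.87 := by nlinarith
    have h4 : (2 * π * x) ^ 2 ≤ 4 * 9.87 * x ^ 2 := by
      have : (2 * π * x) ^ 2 = 4 * π ^ 2 * x ^ 2 := by ring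
      rw [this]; gcongr
    have h5 : φ ^ 2 ≤ 4 * 9.87 / 5.05 ^ 2 * x ^ 2 := by
      have h6 : φ ^ 2 * 5.05 ^ 2 ≤ 4 * 9.87 * x ^ 2 := by
        have := h2.trans h4
        rw [mul_pow] at this
        exact this
      rw [div_mul_eq_mul_div, le_div_iff₀ (by norm_num)]
      exact h6
    have h6 : β * φ ^ 2 ≤ 1.00636 * (4 * 9.87 / 5.05 ^ 2 * x ^ 2) := by
      apply mul_le_mul H.hβ2 h5 (sq_nonneg _) (by norm_num)
    have h7 : 0 ≤ x ^ 2 := sq_nonneg x
    rw [mul_pow]
    nlinarith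
  have hτ1 : X - 0.471 ≤ τ := by
    have h1 := log_le_log hσ0 hσ1
    rw [log_mul (by norm_num) hx0.ne'] at h1
    have h2 : log (1.6 : ℝ) ≤ 0.471 := by
      have h3 : (1.6 : ℝ) = 2 ^ 3 / 5 := by norm_num
      rw [h3, log_div (by norm_num) (by norm_num), log_pow]
      have := log5_gt
      have := log2_lt
      push_cast
      linarith
    linarith
  have hτ0 : 4.579 ≤ τ := by linarith
  -- `u`
  set u := (k : ℝ) * log ρ with hu
  have hu1 : u = τ / X * (k * log β) := by
    rw [← hratio, hu]; field_simp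
  have hlam : 0.9067 ≤ τ / X := by
    rw [le_div_iff₀ hX0]; nlinarith
  have hu2 : 0.3022 ≤ u := by
    rw [hu1]
    calc (0.3022 : ℝ) ≤ 0.9067 * (1 / 3) := by norm_num
      _ ≤ _ := by gcongr
  have hρk : ρ ^ k = exp u := by
    rw [hu, ← log_pow, exp_log (pow_pos (by linarith [h.one_lt]) k)]
  have hexp : u * (1 + u / 2 + u ^ 2 / 6) ≤ ρ ^ k - 1 := by
    rw [hρk]
    have := Real.sum_le_exp_of_nonneg (show 0 ≤ u by linarith) 4
    norm_num [Finset.sum_range_succ, Nat.factorial] at this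
    linarith
  -- `k φ ≤ 2 π u / τ`
  have hkφ : (k * φ) * τ ≤ 2 * π * u := by
    have h1 : τ = ((d : ℝ) - 1) * log ρ := by
      have h2 : log ρ = τ / X * log β := by rw [← hratio]; field_simp
      have h4 : ((d : ℝ) - 1) * log ρ = τ / X * (((d : ℝ) - 1) * log β) := by rw [h2]; ring
      rw [h4, hlog, div_mul_cancel₀ _ hX0.ne']
    have h3 : (k * φ) * τ = k * log ρ * (φ * ((d : ℝ) - 1)) := by
      rw [h1]; ring
    rw [h3]
    calc k * log ρ * (φ * ((d : ℝ) - 1)) ≤ k * log ρ * (2 * π) := by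
          apply mul_le_mul_of_nonneg_left hφ1 (by positivity)
      _ = 2 * π * u := by rw [hu]; ring
  have hkφ0 : 0 ≤ k * φ := mul_nonneg (by positivity) h.φ_pos.le
  have h1 : (k * φ) ^ 2 * τ ^ 2 ≤ 4 * 9.87 * u ^ 2 := by
    have h2 : ((k * φ) * τ) ^ 2 ≤ (2 * π * u) ^ 2 :=
      pow_le_pow_left₀ (mul_nonneg hkφ0 (by linarith)) hkφ 2
    have h3 : π ^ 2 ≤ 9.87 := by nlinarith
    have h4 : (2 * π * u) ^ 2 ≤ 4 * 9.87 * u ^ 2 := by
      have : (2 * π * u) ^ 2 = 4 * π ^ 2 * u ^ 2 := by ring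
      rw [this]; gcongr
    rw [mul_pow] at h2
    exact h2.trans h4
  have hu0 : 0 < u := by linarith
  have h2 : (u * (1 + u / 2 + u ^ 2 / 6)) ^ 3 ≤ (ρ ^ k - 1) ^ 3 :=
    pow_le_pow_left₀ (by positivity) hexp 3
  have h3 : 9.87 < τ ^ 2 * (u * (1 + u / 2 + u ^ 2 / 6) ^ 3) := by
    have a1 : (4.579 : ℝ) ^ 2 ≤ τ ^ 2 := pow_le_pow_left₀ (by norm_num) hτ0 2
    have a2 : (1.1663 : ℝ) ≤ 1 + u / 2 + u ^ 2 / 6 := by nlinarith
    have a3 : (1.1663 : ℝ) ^ 3 ≤ (1 + u / 2 + u ^ 2 / 6) ^ 3 := pow_le_pow_left₀ (by norm_num) a2 3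
    have a4 : (0.3022 : ℝ) * 1.1663 ^ 3 ≤ u * (1 + u / 2 + u ^ 2 / 6) ^ 3 :=
      mul_le_mul hu2 a3 (by norm_num) hu0.le
    have a5 : (4.579 : ℝ) ^ 2 * (0.3022 * 1.1663 ^ 3) ≤
        τ ^ 2 * (u * (1 + u / 2 + u ^ 2 / 6) ^ 3) :=
      mul_le_mul a1 a4 (by norm_num) (by positivity)
    refine lt_of_lt_of_le ?_ a5
    norm_num
  have hτ2 : 0 < τ ^ 2 := by positivity
  have h4 : (k * φ) ^ 2 * τ ^ 2 < 4 * (ρ ^ k - 1) ^ 3 * τ ^ 2 := by
    have h5 : 4 * 9.87 * u ^ 2 < 4 * (u * (1 + u / 2 + u ^ 2 / 6)) ^ 3 * τ ^ 2 := by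
      have : 4 * (u * (1 + u / 2 + u ^ 2 / 6)) ^ 3 * τ ^ 2 =
          4 * (τ ^ 2 * (u * (1 + u / 2 + u ^ 2 / 6) ^ 3)) * u ^ 2 := by ring
      rw [this]
      have hu2' : 0 < u ^ 2 := by positivity
      nlinarith
    nlinarith
  exact lt_of_mul_lt_mul_right h4 hτ2.le

/-- medium exponents -/
theorem partB {d k : ℕ} {β : ℝ} (H : Big d β) {T κ L0 y0 : ℝ} (hk : 10 ≤ k)
    (hT : k * log β ≤ T) (hT3 : T ≤ 1 / 3) (hL : L0 ≤ log k) (hy : y0 ≤ -log T)
    (hκ : T / 2 + 2 * T ^ 2 / 9 ≤ κ)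
    (hF : 0.47 * (L0 + y0) ≤ (L0 - 0.9843) * (y0 - κ)) (hF1 : κ + 0.47 ≤ y0)
    (hF2 : 1.4543 ≤ L0) : ¬ Parry (β ^ k) := by
  have hpi := Real.pi_pos
  have hpi3 := Real.pi_lt_d4
  have hpi4 := Real.pi_gt_d4
  have hd' : (800 : ℝ) ≤ d := by exact_mod_cast H.hd
  have hk' : (10 : ℝ) ≤ k := by exact_mod_cast hk
  have hk0 : (0 : ℝ) < k := by linarith
  have hβ1 := H.hβ1
  have hx0 : 0 < β - 1 := by linarith
  have hX := H.hX
  have hlog := H.hlog
  have hlβ : 0 < log β := log_pos hβ1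
  set x := β - 1 with hx
  set X := -log x with hXdef
  have hX0 : 0 < X := by linarith
  set t := (k : ℝ) * log β with ht
  have ht0 : 0 < t := by positivity
  have ht3 : t ≤ 1 / 3 := hT.trans hT3
  -- `k / d`
  have hkd : (k : ℝ) / d < 0.0661 := by
    rw [div_lt_iff₀ (by linarith)]
    have h1 : (k : ℝ) * X = t * ((d : ℝ) - 1) := by
      rw [ht, ← hlog]; ring
    nlinarith
  obtain ⟨j, ρ, φ, h, hφ1, hφ2⟩ := exists_root_window (d := d) (by have := H.hd; omega)
    (c := 2.62 / k) (by rw [div_le_one hk0]; linarith) (by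
      rw [div_le_div_iff₀ (by linarith) hk0]
      rw [div_lt_iff₀ (by linarith)] at hkd
      nlinarith) hβ1 H.hβ
  have hkφ2 : k * φ < 2.62 := by
    rw [lt_div_iff₀ hk0] at hφ2; linarith
  have hkφ1 : 2 * π / 3 < k * φ := by
    have h1 : (2.62 / k - 5 * π / (2 * d)) * k = 2.62 - 5 * π / 2 * (k / d) := by
      field_simp
    have h2 : (2.62 / k - 5 * π / (2 * d)) * k < φ * k :=
      mul_lt_mul_of_pos_right hφ1 hk0
    rw [h1] at h2
    have h3 : 5 * π / 2 * ((k : ℝ) / d) ≤ 5 * π / 2 * 0.0661 := by gcongr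
    nlinarith
  set δ := β ^ k - 1 with hδ
  have hexpt : β ^ k = exp t := by
    rw [ht, ← log_pow, exp_log (by positivity)]
  have hδ1 : δ ≤ t * (1 + κ) := by
    rw [hδ, hexpt]
    have h1 := Real.exp_bound' ht0.le (show t ≤ 1 by linarith) (n := 3) (by norm_num)
    norm_num [Finset.sum_range_succ, Nat.factorial] at h1
    have h2 : t / 2 + 2 * t ^ 2 / 9 ≤ κ := by
      refine le_trans ?_ hκ
      gcongr
    nlinarith
  have hδ0 : 0 < δ := by
    rw [hδ]; have := one_lt_pow₀ hβ1 (show k ≠ 0 by omega); linarith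
  have hκ0 : 0 ≤ κ := le_trans (by have := ht0.trans_le hT; positivity) hκ
  have hδ2 : δ ≤ 0.3972 := by
    rw [hδ, hexpt]
    have h1 := Real.exp_bound' ht0.le (show t ≤ 1 by linarith) (n := 3) (by norm_num)
    norm_num [Finset.sum_range_succ, Nat.factorial] at h1
    have h2 : t ^ 2 ≤ (1 / 3) ^ 2 := pow_le_pow_left₀ ht0.le ht3 2
    have h3 : t ^ 3 ≤ (1 / 3) ^ 3 := pow_le_pow_left₀ ht0.le ht3 3
    nlinarith
  have hkx : k * x ≤ δ := by
    have := one_add_mul_le_pow (show (-2 : ℝ) ≤ x by linarith) k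
    rw [hδ, show β = 1 + x by rw [hx]; ring]
    linarith
  -- the logarithms
  set σ := ‖zz ρ φ - 1‖ with hσ
  have hσ0 : 0 < σ := h.norm_pos
  set τ := -log σ with hτ
  set L := log (k : ℝ) with hLdef
  set y := -log t with hydef
  have hy' : y0 ≤ y := by
    have := log_le_log ht0 hT
    linarith
  have hτ1 : L - 0.9843 ≤ τ := by
    have h1 : (k * σ) ^ 2 ≤ 7.067 := by
      have h2 : (k * σ) ^ 2 = k ^ 2 * σ ^ 2 := by ring
      rw [h2]
      calc (k : ℝ) ^ 2 * σ ^ 2 ≤ k ^ 2 * (x ^ 2 + β * φ ^ 2) := by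
            gcongr; exact h.near
        _ = (k * x) ^ 2 + β * (k * φ) ^ 2 := by ring
        _ ≤ 0.3972 ^ 2 + 1.00636 * 2.62 ^ 2 := by
            have a1 : (k * x) ^ 2 ≤ 0.3972 ^ 2 :=
              pow_le_pow_left₀ (by positivity) (hkx.trans hδ2) 2
            have a2 : (k * φ) ^ 2 ≤ 2.62 ^ 2 :=
              pow_le_pow_left₀ (mul_nonneg hk0.le h.φ_pos.le) hkφ2.le 2
            have a3 : β * (k * φ) ^ 2 ≤ 1.00636 * 2.62 ^ 2 :=
              mul_le_mul H.hβ2 a2 (sq_nonneg _) (by norm_num)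
            linarith
        _ ≤ 7.067 := by norm_num
    have h2 : log ((k * σ) ^ 2) ≤ log 7.067 := log_le_log (by positivity) h1
    have h3 := log_le_of_pow (x := 7.067) (by norm_num) (a := 71) (b := 25) (by norm_num)
      (by norm_num)
    rw [log_pow, log_mul hk0.ne' hσ0.ne'] at h2
    have := log2_lt
    norm_num at h3 h2
    linarith
  have hXL : X ≤ L + y := by
    have h1 : t / k ≤ x := by
      rw [div_le_iff₀ hk0, ht]
      have := log_le_sub_one_of_pos (show 0 < β by linarith)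
      nlinarith
    have h2 := log_le_log (by positivity) h1
    rw [log_div ht0.ne' hk0.ne'] at h2
    linarith
  have hD : y - κ ≤ -log δ := by
    have h1 := log_le_log hδ0 hδ1
    rw [log_mul ht0.ne' (by positivity)] at h1
    have h2 := log_le_sub_one_of_pos (show 0 < 1 + κ by linarith)
    linarith
  have hmain : 0.47 * X ≤ τ * (-log δ) := by
    have h1 : 0.47 * (L + y) ≤ (L - 0.9843) * (y - κ) := by
      nlinarith [mul_nonneg (show 0 ≤ L - L0 by linarith) (show 0 ≤ y - y0 by linarith),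
        mul_nonneg (show 0 ≤ L - L0 by linarith) (show 0 ≤ y0 - κ - 0.47 by linarith),
        mul_nonneg (show 0 ≤ y - y0 by linarith) (show 0 ≤ L0 - 1.4543 by linarith)]
    have h2 : (L - 0.9843) * (y - κ) ≤ τ * (-log δ) :=
      mul_le_mul hτ1 hD (by linarith) (by linarith)
    nlinarith
  apply critB_polar (E := 1.58) (by have := H.hd; omega) hβ1 H.hβ h (by omega)
    (by linarith) (by linarith)
  · rw [H.ratio h]
    have h1 : 0.47 ≤ τ / X * (-log δ) := by
      rw [div_mul_eq_mul_div, le_div_iff₀ hX0]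
      exact hmain
    refine le_trans ?_ (exp_le_exp.2 h1)
    have := Real.quadratic_le_exp_of_nonneg (show (0 : ℝ) ≤ 0.47 by norm_num)
    norm_num at this ⊢
    linarith
  · have h1 : √3 / 2 ≤ sin (k * φ / 2) := by
      rw [← sin_pi_div_three]
      apply sin_le_sin_of_le_of_le_pi_div_two (by linarith) (by linarith) (by linarith)
    have h2 : (1.732 : ℝ) ≤ √3 := by
      apply Real.le_sqrt_of_sq_le
      norm_num
    nlinarith

/-- small exponents -/
theorem partS {d k : ℕ} {β : ℝ} (H : Big d β) {r : ℝ} (hk2 : 2 ≤ k) (hk9 : k ≤ 9) (hr0 : 0 < r)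
    (hr : ∑ i ∈ Finset.range k, (1.00636 : ℝ) ^ i ≤ r ^ 2)
    (hm : 1 < 2 * (0.05 * k - (0.05 * k) ^ 3 / 6) * (9 / r - 1)) : ¬ Parry (β ^ k) := by
  have hpi := Real.pi_pos
  have hpi3 := Real.pi_lt_d4
  have hpi4 := Real.pi_gt_d4
  have hd' : (800 : ℝ) ≤ d := by exact_mod_cast H.hd
  have hk2' : (2 : ℝ) ≤ k := by exact_mod_cast hk2
  have hk9' : (k : ℝ) ≤ 9 := by exact_mod_cast hk9
  have hk0 : (0 : ℝ) < k := by linarith
  have hβ1 := H.hβ1
  have hx0 : 0 < β - 1 := by linarith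
  have hX := H.hX
  obtain ⟨j, ρ, φ, h, hφ1, hφ2⟩ := exists_root_window (d := d) (by have := H.hd; omega)
    (c := 0.11) (by norm_num) (by
      rw [div_le_iff₀ (by linarith)]; nlinarith) hβ1 H.hβ
  have hφ3 : 0.1 ≤ φ := by
    have : 5 * π / (2 * d) ≤ 5 * π / (2 * 800) := by gcongr
    have h2 : 5 * π / (2 * 800) ≤ 0.00982 := by
      rw [div_le_iff₀ (by norm_num)]; linarith
    linarith
  set x := β - 1 with hx
  set X := -log x with hXdef
  have hX0 : 0 < X := by linarith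
  set σ := ‖zz ρ φ - 1‖ with hσ
  have hσ0 : 0 < σ := h.norm_pos
  set τ := -log σ with hτ
  have hσ1 : σ ≤ 1 / 9 := by
    apply le_of_sq_le_sq _ (by norm_num)
    refine h.near.trans ?_
    have a1 : x ^ 2 ≤ 0.00636 ^ 2 := pow_le_pow_left₀ hx0.le (by have := H.hβ2; linarith) 2
    have a2 : φ ^ 2 ≤ 0.11 ^ 2 := pow_le_pow_left₀ h.φ_pos.le hφ2.le 2
    have a3 : β * φ ^ 2 ≤ 1.00636 * 0.11 ^ 2 :=
      mul_le_mul H.hβ2 a2 (sq_nonneg _) (by norm_num)
    calc _ ≤ (0.00636 : ℝ) ^ 2 + 1.00636 * 0.11 ^ 2 := by linarith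
      _ ≤ _ := by norm_num
  have hτ1 : log 9 ≤ τ := by
    have h1 := log_le_log hσ0 hσ1
    rw [log_div (by norm_num) (by norm_num), log_one] at h1
    linarith
  set M := ∑ i ∈ Finset.range k, β ^ i with hM
  have hMx : β ^ k - 1 = M * x := by
    rw [hM, hx, geom_sum_mul]
  have hM1 : 1 ≤ M := by
    rw [hM]
    calc (1 : ℝ) = ∑ i ∈ Finset.range 1, β ^ i := by simp
      _ ≤ _ := by
        apply Finset.sum_le_sum_of_subset_of_nonneg
        · apply Finset.range_subset_range.2; omega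
        · intro i _ _; positivity
  have hMr : M ≤ r ^ 2 := by
    refine le_trans ?_ hr
    rw [hM]
    gcongr
    exact H.hβ2
  have hm2 : log M ≤ 2 * log r := by
    have := log_le_log (by linarith) hMr
    rwa [log_pow] at this
  have hm0 : 0 ≤ log M := log_nonneg hM1
  have hlogs : -log (β ^ k - 1) = X - log M := by
    rw [hMx, log_mul (by linarith) hx0.ne']; ring
  -- `β ^ k < 2`
  have hγ : β ^ k < 2 := by
    calc β ^ k ≤ 1.00636 ^ k := by gcongr; exact H.hβ2
      _ ≤ 1.00636 ^ 9 := pow_le_pow_right₀ (by norm_num) hk9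
      _ < 2 := by norm_num
  have hD0 : 0 ≤ X - log M := by
    rw [← hlogs]
    have h1 : β ^ k - 1 ≤ 1 := by linarith
    have h2 : 0 < β ^ k - 1 := by rw [hMx]; positivity
    have := log_nonpos h2.le h1
    linarith
  have hlog9 : log 9 ≤ 2.5 := by
    have h3 := log_le_of_pow (x := 9) (by norm_num) (a := 16) (b := 5) (by norm_num)
      (by norm_num)
    have := log2_lt
    norm_num at h3
    linarith
  have hlog9' : 0 < log 9 := log_pos (by norm_num)
  apply critB_polar (E := 9 / r) (by have := H.hd; omega) hβ1 H.hβ h (by omega) hγ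
    (by nlinarith)
  · rw [H.ratio h, hlogs]
    have h1 : log (9 / r) ≤ τ / X * (X - log M) := by
      rw [log_div (by norm_num) hr0.ne']
      have h2 : log 9 / X * (X - log M) ≤ τ / X * (X - log M) := by gcongr
      refine le_trans ?_ h2
      have h3 : log 9 / X * (X - log M) = log 9 - log 9 / X * log M := by
        field_simp
      rw [h3]
      have h4 : log 9 / X ≤ 1 / 2 := by
        rw [div_le_iff₀ hX0]; linarith
      nlinarith
    calc 9 / r = exp (log (9 / r)) := by rw [exp_log (by positivity)]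
      _ ≤ _ := exp_le_exp.2 h1
  · refine lt_of_lt_of_le hm ?_
    have h0 : 0 < 0.05 * (k : ℝ) := by positivity
    have h1 : 0.05 * (k : ℝ) - (0.05 * k) ^ 3 / 6 < sin (0.05 * k) :=
      sin_gt_sub_cube h0
    have h2 : sin (0.05 * k) ≤ sin (k * φ / 2) := by
      apply sin_le_sin_of_le_of_le_pi_div_two (by linarith) (by nlinarith) (by nlinarith)
    have h3 : 0 ≤ 9 / r - 1 := by
      by_contra hcon
      push Not at hcon
      have h4 : 0 ≤ 2 * (0.05 * (k : ℝ) - (0.05 * k) ^ 3 / 6) := by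
        have : (0.05 * (k : ℝ)) ^ 3 ≤ (0.05 * k) * 1 := by
          rw [pow_succ']
          gcongr
          nlinarith
        nlinarith
      nlinarith
    apply mul_le_mul_of_nonneg_right _ h3
    linarith

/-- all exponents for `d ≥ 800` -/
theorem res_large {d : ℕ} (hd : 800 ≤ d) : Res d := by
  intro β hβ1 hβ k hk
  have H := big_of hd hβ1 hβ
  have hlβ : 0 < log β := log_pos hβ1
  by_cases h1 : 1 / 3 ≤ (k : ℝ) * log β
  · exact partA H (by omega) h1
  push Not at h1
  have hlβ2 : log β ≤ 0.00636 := by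
    have := log_le_sub_one_of_pos (show 0 < β by linarith)
    linarith [H.hβ2]
  by_cases h2 : 32 ≤ k
  · apply partB H (T := 1 / 3) (κ := 0.1914) (L0 := 3.4657) (y0 := 1.0974) (by omega) h1.le le_rfl
    · have h3 : log (32 : ℝ) ≤ log k := log_le_log (by norm_num) (by exact_mod_cast h2)
      have h4 : log (32 : ℝ) = 5 * log 2 := by
        rw [show (32 : ℝ) = 2 ^ 5 by norm_num, log_pow]; norm_num
      have := log2_gt
      linarith
    · rw [log_div (by norm_num) (by norm_num), log_one]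
      linarith [log3_gt]
    · norm_num
    · norm_num
    · norm_num
    · norm_num
  by_cases h3 : 10 ≤ k
  · have hk31 : (k : ℝ) ≤ 31 := by exact_mod_cast (by omega : k ≤ 31)
    apply partB H (T := 1 / 5) (κ := 0.109) (L0 := 2.302) (y0 := 1.609) h3 (by nlinarith)
      (by norm_num)
    · have h5 : log (10 : ℝ) ≤ log k := log_le_log (by norm_num) (by exact_mod_cast h3)
      have h4 : log (10 : ℝ) = log 2 + log 5 := by
        rw [← log_mul (by norm_num) (by norm_num)]; norm_num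
      have := log2_gt
      have := log5_gt
      linarith
    · rw [log_div (by norm_num) (by norm_num), log_one]
      linarith [log5_gt]
    · norm_num
    · norm_num
    · norm_num
    · norm_num
  have hk9 : k ≤ 9 := by omega
  interval_cases k
  · exact partS H (r := 1.417) le_rfl (by norm_num) (by norm_num)
      (by norm_num [Finset.sum_range_succ]) (by norm_num)
  · exact partS H (r := 1.738) (by norm_num) (by norm_num) (by norm_num)
      (by norm_num [Finset.sum_range_succ]) (by norm_num)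
  · exact partS H (r := 2.011) (by norm_num) (by norm_num) (by norm_num)
      (by norm_num [Finset.sum_range_succ]) (by norm_num)
  · exact partS H (r := 2.252) (by norm_num) (by norm_num) (by norm_num)
      (by norm_num [Finset.sum_range_succ]) (by norm_num)
  · exact partS H (r := 2.471) (by norm_num) (by norm_num) (by norm_num)
      (by norm_num [Finset.sum_range_succ]) (by norm_num)
  · exact partS H (r := 2.673) (by norm_num) (by norm_num) (by norm_num)
      (by norm_num [Finset.sum_range_succ]) (by norm_num)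
  · exact partS H (r := 2.862) (by norm_num) (by norm_num) (by norm_num)
      (by norm_num [Finset.sum_range_succ]) (by norm_num)
  · exact partS H (r := 3.040) (by norm_num) (by norm_num) (by norm_num)
      (by norm_num [Finset.sum_range_succ]) (by norm_num)

end Pool.Agent.R328.Theta
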