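import Pool.Agent.R328.ThetaD00
import Pool.Agent.R328.ThetaD01
import Pool.Agent.R328.ThetaD02
import Pool.Agent.R328.ThetaD03
import Pool.Agent.R328.ThetaD04
import Pool.Agent.R328.ThetaD05
import Pool.Agent.R328.ThetaD06
import Pool.Agent.R328.ThetaD07
import Pool.Agent.R328.ThetaD08
import Pool.Agent.R328.ThetaD09
import Pool.Agent.R328.ThetaD10
import Pool.Agent.R328.ThetaFin

set_option autoImplicit false

namespace Pool.Agent.R328.Theta

open Pool.Agent.R341.Greedy Pool.Agent.R341.Powers

theorem res_all (d : ℕ) (hd : 6 ≤ d) : Res d := by
  by_cases h42 : d < 42
  · exact d6_res d (by omega) h42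
  by_cases h132 : d < 132
  · exact d42_res d (by omega) h132
  by_cases h187 : d < 187
  · exact d132_res d (by omega) h187
  by_cases h227 : d < 227
  · exact d187_res d (by omega) h227
  by_cases h260 : d < 260
  · exact d227_res d (by omega) h260
  by_cases h288 : d < 288
  · exact d260_res d (by omega) h288
  by_cases h313 : d < 313
  · exact d288_res d (by omega) h313
  by_cases h336 : d < 336
  · exact d313_res d (by omega) h336
  by_cases h357 : d < 357
  · exact d336_res d (by omega) h357
  by_cases h377 : d < 377
  · exact d357_res d (by omega) h377
  by_cases h395 : d < 395
  · exact d377_res d (by omega) h395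
  by_cases h412 : d < 412
  · exact d395_res d (by omega) h412
  by_cases h429 : d < 429
  · exact d412_res d (by omega) h429
  by_cases h445 : d < 445
  · exact d429_res d (by omega) h445
  by_cases h460 : d < 460
  · exact d445_res d (by omega) h460
  by_cases h475 : d < 475
  · exact d460_res d (by omega) h475
  by_cases h489 : d < 489
  · exact d475_res d (by omega) h489
  by_cases h503 : d < 503
  · exact d489_res d (by omega) h503
  by_cases h516 : d < 516
  · exact d503_res d (by omega) h516
  by_cases h529 : d < 529
  · exact d516_res d (by omega) h529
  by_cases h541 : d < 541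
  · exact d529_res d (by omega) h541
  by_cases h553 : d < 553
  · exact d541_res d (by omega) h553
  by_cases h565 : d < 565
  · exact d553_res d (by omega) h565
  by_cases h576 : d < 576
  · exact d565_res d (by omega) h576
  by_cases h587 : d < 587
  · exact d576_res d (by omega) h587
  by_cases h598 : d < 598
  · exact d587_res d (by omega) h598
  by_cases h609 : d < 609
  · exact d598_res d (by omega) h609
  by_cases h619 : d < 619
  · exact d609_res d (by omega) h619
  by_cases h629 : d < 629
  · exact d619_res d (by omega) h629
  by_cases h639 : d < 639
  · exact d629_res d (by omega) h639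
  by_cases h649 : d < 649
  · exact d639_res d (by omega) h649
  by_cases h659 : d < 659
  · exact d649_res d (by omega) h659
  by_cases h668 : d < 668
  · exact d659_res d (by omega) h668
  by_cases h677 : d < 677
  · exact d668_res d (by omega) h677
  by_cases h686 : d < 686
  · exact d677_res d (by omega) h686
  by_cases h695 : d < 695
  · exact d686_res d (by omega) h695
  by_cases h704 : d < 704
  · exact d695_res d (by omega) h704
  by_cases h713 : d < 713
  · exact d704_res d (by omega) h713
  by_cases h722 : d < 722
  · exact d713_res d (by omega) h722
  by_cases h730 : d < 730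
  · exact d722_res d (by omega) h730
  by_cases h738 : d < 738
  · exact d730_res d (by omega) h738
  by_cases h746 : d < 746
  · exact d738_res d (by omega) h746
  by_cases h754 : d < 754
  · exact d746_res d (by omega) h754
  by_cases h762 : d < 762
  · exact d754_res d (by omega) h762
  by_cases h770 : d < 770
  · exact d762_res d (by omega) h770
  by_cases h778 : d < 778
  · exact d770_res d (by omega) h778
  by_cases h786 : d < 786
  · exact d778_res d (by omega) h786
  by_cases h794 : d < 794
  · exact d786_res d (by omega) h794
  by_cases h800 : d < 800
  · exact d794_res d (by omega) h800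
  exact res_large (by omega)

end Pool.Agent.R328.Theta
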