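import Pool.Agent.R328.ThetaData
import Pool.Agent.R341.Powers3

set_option autoImplicit false

namespace Pool.Agent.R328.Theta

open Pool.Agent.R341.Greedy Pool.Agent.R341.Powers Real

/-- a root `ρ e^{iφ}` of `x^d - x^(d-1) - 1` with argument close to `2πj/d` -/
structure Root (d j : ℕ) (β ρ φ : ℝ) : Prop where
  one_lt : 1 < ρ
  lt_beta : ρ < β
  φ_pos : 0 < φ
  lb : (2 * j - 1 / 2) * π / d < φ
  ub : φ < 2 * j * π / d
  eq : zz ρ φ ^ d = zz ρ φ ^ (d - 1) + 1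
  prod : ρ ^ (d - 1) * ‖zz ρ φ - 1‖ = 1
  near : ‖zz ρ φ - 1‖ ^ 2 ≤ (β - 1) ^ 2 + β * φ ^ 2

lemma norm_zz_sub_one (ρ φ : ℝ) : ‖zz ρ φ - 1‖ ^ 2 = (ρ - 1) ^ 2 + 2 * ρ * (1 - cos φ) := by
  rw [← Complex.normSq_eq_norm_sq, Complex.normSq_apply, Complex.sub_re, Complex.sub_im,
    zz_re, zz_im, Complex.one_re, Complex.one_im]
  have := sin_sq_add_cos_sq φ
  linear_combination ρ ^ 2 * this

lemma norm_two_zz_sub_one (ρ φ : ℝ) :
    ‖2 * zz ρ φ - 1‖ ^ 2 = (2 * ρ - 1) ^ 2 + 4 * ρ * (1 - cos φ) := by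
  have h : 2 * zz ρ φ = zz (2 * ρ) φ := by simp only [zz]; push_cast; ring
  rw [h, norm_zz_sub_one]
  ring

theorem exists_root {d j : ℕ} (hd : 8 ≤ d) (hj : 1 ≤ j) (hjd : 2 * j * π / d ≤ 1) {β : ℝ}
    (hβ1 : 1 < β) (hβ : β ^ d = β ^ (d - 1) + 1) : ∃ ρ φ : ℝ, Root d j β ρ φ := by
  have hpi := Real.pi_pos
  have hpi3 := Real.pi_gt_three
  have hd' : (8 : ℝ) ≤ d := by exact_mod_cast hd
  have hj' : (1 : ℝ) ≤ j := by exact_mod_cast hj
  have hd0 : (d : ℝ) ≠ 0 := by positivity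
  let Φ : ℝ → ℝ := fun ω => (2 * j * π - ω) / d
  let H : ℝ → ℝ := fun ω => sin ω ^ d - sin (Φ ω + ω) ^ (d - 1) * sin (Φ ω)
  have hHc : Continuous H := by
    simp only [H, Φ]
    fun_prop
  have hsd : ∀ y : ℝ, y ^ (d - 1) * y = y ^ d := fun y => by
    rw [← pow_succ, Nat.sub_add_cancel (by omega)]
  have hφ0 : 0 < 2 * j * π / d := by positivity
  have hH0 : H 0 < 0 := by
    simp only [H, Φ, sin_zero, sub_zero, add_zero]
    rw [zero_pow (by omega), hsd]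
    have : 0 < sin (2 * j * π / d) := sin_pos_of_pos_of_lt_pi hφ0 (by linarith)
    have := pow_pos this d
    linarith
  have hφ1 : 0 < Φ (π / 2) := by
    simp only [Φ]
    apply div_pos _ (by positivity)
    nlinarith
  have hφ1' : Φ (π / 2) < 1 := by
    refine lt_of_lt_of_le ?_ hjd
    simp only [Φ]
    gcongr
    linarith
  have hH1 : 0 < H (π / 2) := by
    simp only [H, sin_pi_div_two, one_pow, sin_add_pi_div_two]
    have h1 : 0 ≤ cos (Φ (π / 2)) := cos_nonneg_of_neg_pi_div_two_le_of_le (by linarith) (by linarith)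
    have h2 : cos (Φ (π / 2)) ^ (d - 1) ≤ 1 := pow_le_one₀ h1 (cos_le_one _)
    have h3 : 0 < sin (Φ (π / 2)) := sin_pos_of_pos_of_lt_pi hφ1 (by linarith)
    have h4 : sin (Φ (π / 2)) < 1 := by
      rw [← sin_pi_div_two]
      exact sin_lt_sin_of_lt_of_le_pi_div_two (by linarith) le_rfl (by linarith)
    have h5 : 0 ≤ cos (Φ (π / 2)) ^ (d - 1) := pow_nonneg h1 _
    nlinarith
  obtain ⟨ω, hω, hHω⟩ := intermediate_value_Ioo (by linarith : (0 : ℝ) ≤ π / 2) hHc.continuousOn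
    ⟨hH0, hH1⟩
  set φ := Φ ω with hφ
  have hφd : (d : ℝ) * φ = 2 * j * π - ω := by
    simp only [hφ, Φ]; field_simp
  have hφpos : 0 < φ := by
    simp only [hφ, Φ]
    apply div_pos _ (by positivity)
    nlinarith [hω.2]
  have hφub : φ < 2 * j * π / d := by
    rw [lt_div_iff₀ (by positivity)]
    linarith [hω.1]
  have hφlb : (2 * j - 1 / 2) * π / d < φ := by
    rw [div_lt_iff₀ (by positivity)]
    linarith [hω.2]
  have hφ1 : φ < 1 := lt_of_lt_of_le hφub hjd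
  have hs1 : 0 < sin ω := sin_pos_of_pos_of_lt_pi hω.1 (by linarith [hω.2])
  have hs2 : 0 < sin (φ + ω) := sin_pos_of_pos_of_lt_pi (by linarith [hω.1]) (by linarith [hω.2])
  have hs3 : 0 < sin φ := sin_pos_of_pos_of_lt_pi hφpos (by linarith)
  set ρ := sin (φ + ω) / sin ω with hρ
  set s := sin φ / sin ω with hs
  have hρ0 : 0 < ρ := div_pos hs2 hs1
  have hs0 : 0 < s := div_pos hs3 hs1
  have hprod : ρ ^ (d - 1) * s = 1 := by
    have h1 : sin ω ^ d - sin (φ + ω) ^ (d - 1) * sin φ = 0 := hHω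
    rw [hρ, hs, div_pow, div_mul_div_comm, hsd, div_eq_one_iff_eq (by positivity)]
    linarith
  have hz1 : zz ρ φ - 1 = zz s (φ + ω) := by
    apply Complex.ext
    · rw [Complex.sub_re, zz_re, zz_re, Complex.one_re, hρ, hs]
      rw [div_mul_eq_mul_div, div_mul_eq_mul_div, div_sub_one hs1.ne']
      congr 1
      have e : ω = (φ + ω) - φ := by ring
      have : sin ω = sin (φ + ω) * cos φ - cos (φ + ω) * sin φ := by
        conv_lhs => rw [e, sin_sub]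
      linarith
    · rw [Complex.sub_im, zz_im, zz_im, Complex.one_im, hρ, hs]
      rw [div_mul_eq_mul_div, div_mul_eq_mul_div, sub_zero]
      congr 1
      ring
  have hnorm : ‖zz ρ φ - 1‖ = s := by rw [hz1, norm_zz hs0.le]
  have hroot : zz ρ φ ^ (d - 1) * (zz ρ φ - 1) = 1 := by
    rw [hz1, zz_pow, zz, zz, mul_mul_mul_comm, ← Complex.exp_add, ← Complex.ofReal_mul, hprod]
    have : ((((d - 1 : ℕ) : ℝ) * φ : ℝ) : ℂ) * Complex.I + ((φ + ω : ℝ) : ℂ) * Complex.I =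
        (j : ℂ) * (2 * π * Complex.I) := by
      have h1 : (((d - 1 : ℕ) : ℝ) * φ) + (φ + ω) = j * (2 * π) := by
        have : (((d - 1 : ℕ) : ℝ)) = d - 1 := by
          rw [Nat.cast_sub (by omega)]; simp
        rw [this]; linarith
      rw [← add_mul, ← Complex.ofReal_add, h1]
      push_cast
      ring
    rw [this, Complex.exp_nat_mul_two_pi_mul_I]
    simp
  have hsq := norm_zz_sub_one ρ φ
  rw [hnorm] at hsq
  have hcos : 1 / 2 < cos φ := by
    rw [← cos_pi_div_three]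
    exact cos_lt_cos_of_nonneg_of_le_pi hφpos.le (by linarith) (by linarith)
  have hcos1 : cos φ < 1 := by
    rw [← cos_zero]
    exact cos_lt_cos_of_nonneg_of_le_pi le_rfl (by linarith) hφpos
  have hρ1 : 1 < ρ := by
    by_contra hcon
    push Not at hcon
    have h1 : ρ ^ (d - 1) ≤ 1 := pow_le_one₀ hρ0.le hcon
    have h2 : 1 ≤ s := by nlinarith
    nlinarith
  have hβn : β ^ (d - 1) * (β - 1) = 1 := by
    have := hsd β
    linarith
  have hlt : ρ ^ (d - 1) * (ρ - 1) < 1 := by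
    rw [← hprod]
    have : ρ - 1 < s := by
      apply lt_of_pow_lt_pow_left₀ 2 hs0.le
      nlinarith
    have h3 : 0 < ρ ^ (d - 1) := by positivity
    nlinarith
  have hρβ : ρ < β := by
    by_contra hcon
    push Not at hcon
    have h1 : β ^ (d - 1) ≤ ρ ^ (d - 1) := by gcongr
    have h2 : 0 < β ^ (d - 1) := by positivity
    nlinarith
  refine ⟨ρ, φ, hρ1, hρβ, hφpos, hφlb, hφub, ?_, ?_, ?_⟩
  · have h1 : zz ρ φ ^ d = zz ρ φ ^ (d - 1) * zz ρ φ := by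
      rw [← pow_succ, Nat.sub_add_cancel (by omega)]
    linear_combination h1 + hroot
  · rw [hnorm]; exact hprod
  · rw [hnorm, hsq]
    have h1 := one_sub_sq_div_two_le_cos (x := φ)
    have h2 : 2 * ρ * (1 - cos φ) ≤ β * φ ^ 2 := by nlinarith [sq_nonneg φ]
    have h3 : (ρ - 1) ^ 2 ≤ (β - 1) ^ 2 := pow_le_pow_left₀ (by linarith) (by linarith) 2
    linarith

/-- a root with argument in a given window -/
theorem exists_root_window {d : ℕ} (hd : 8 ≤ d) {c : ℝ} (hc1 : c ≤ 1) (hc2 : 2 * π / d ≤ c)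
    {β : ℝ} (hβ1 : 1 < β) (hβ : β ^ d = β ^ (d - 1) + 1) :
    ∃ (j : ℕ) (ρ φ : ℝ), Root d j β ρ φ ∧ c - 5 * π / (2 * d) < φ ∧ φ < c := by
  have hpi := Real.pi_pos
  have hd' : (8 : ℝ) ≤ d := by exact_mod_cast hd
  have hd0 : (0 : ℝ) < d := by linarith
  set j := ⌊c * d / (2 * π)⌋₊ with hj
  have hx : 1 ≤ c * d / (2 * π) := by
    rw [le_div_iff₀ (by positivity)]
    rw [div_le_iff₀ hd0] at hc2
    linarith
  have hj1 : 1 ≤ j := by
    rw [hj]; exact Nat.le_floor (by exact_mod_cast hx)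
  have h1 : (j : ℝ) ≤ c * d / (2 * π) := Nat.floor_le (by linarith)
  have h2 : c * d / (2 * π) < j + 1 := Nat.lt_floor_add_one _
  rw [le_div_iff₀ (by positivity)] at h1
  rw [div_lt_iff₀ (by positivity)] at h2
  have h3 : 2 * j * π / d ≤ c := by
    rw [div_le_iff₀ hd0]; linarith
  obtain ⟨ρ, φ, h⟩ := exists_root hd hj1 (h3.trans hc1) hβ1 hβ
  refine ⟨j, ρ, φ, h, ?_, lt_of_lt_of_le h.ub h3⟩
  refine lt_of_le_of_lt ?_ h.lb
  rw [le_div_iff₀ hd0]
  have : (c - 5 * π / (2 * d)) * d = c * d - 5 * π / 2 := by field_simp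
  rw [this]
  linarith

/-- Criterion A in polar form. -/
theorem critA_polar {d j k : ℕ} {β ρ φ : ℝ} (hd : 8 ≤ d) (hβ1 : 1 < β)
    (hβ : β ^ d = β ^ (d - 1) + 1) (h : Root d j β ρ φ) (hk : 1 ≤ k)
    (hm : (k * φ) ^ 2 < 4 * (ρ ^ k - 1) ^ 3) : ¬ Parry (β ^ k) := by
  have hρ1 := h.one_lt
  have hn : ‖zz ρ φ‖ = ρ := norm_zz (by linarith)
  have hc : Conj β (zz ρ φ) := conj_of_root (by omega) hβ1 hβ (by rw [hn]; exact hρ1) h.eq
  have hρk : 1 < ρ ^ k := one_lt_pow₀ hρ1 (by omega)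
  have hg : ‖zz ρ φ ^ k‖ = ρ ^ k := by rw [norm_pow, hn]
  apply crit_A hc
  · rw [hg]; exact hρk
  · intro heq
    have h6 : ‖zz ρ φ ^ k‖ = ‖(β : ℂ) ^ k‖ := by rw [heq]
    rw [hg, norm_pow, Complex.norm_real, Real.norm_of_nonneg (by linarith)] at h6
    have h7 : ρ ^ k < β ^ k := pow_lt_pow_left₀ h.lt_beta (by linarith) (by omega)
    linarith
  · rw [hg, zz_pow]
    set a := ρ ^ k
    set θ := (k : ℝ) * φ
    apply lt_of_pow_lt_pow_left₀ 2 (mul_nonneg (by linarith) (norm_nonneg _))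
    rw [mul_pow, norm_zz_sub_one, norm_two_zz_sub_one]
    have h1 := one_sub_sq_div_two_le_cos (x := θ)
    have h2 := cos_le_one θ
    set c := 1 - cos θ with hcdef
    have hc0 : 0 ≤ c := by linarith
    have hcθ : c < 2 * (a - 1) ^ 3 := by linarith
    have ha : 0 < a - 1 := by linarith
    -- (a-1)^2 * ((2a-1)^2 + 4ac) - ((a-1)^2 + 2ac) = 4a(a-1)^3 - 2ac(1 - 2(a-1)^2)
    have h3 : (a - 1) ^ 2 * ((2 * a - 1) ^ 2 + 4 * a * c) - ((a - 1) ^ 2 + 2 * a * c) =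
        2 * a * (2 * (a - 1) ^ 3 - c) + 4 * a * c * (a - 1) ^ 2 := by ring
    have h4 : 0 < 2 * a * (2 * (a - 1) ^ 3 - c) := by
      apply mul_pos (by linarith); linarith
    have h5 : 0 ≤ 4 * a * c * (a - 1) ^ 2 := by positivity
    linarith

lemma two_sin_le {a θ : ℝ} (ha : 1 ≤ a) (h0 : 0 ≤ θ) (h2 : θ ≤ 2 * π) :
    2 * sin (θ / 2) ≤ ‖zz a θ - 1‖ := by
  have hs : 0 ≤ sin (θ / 2) := sin_nonneg_of_nonneg_of_le_pi (by linarith) (by linarith)
  apply le_of_sq_le_sq _ (norm_nonneg _)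
  rw [norm_zz_sub_one]
  have h1 : cos θ = 1 - 2 * sin (θ / 2) ^ 2 := by
    have := cos_two_mul (θ / 2)
    rw [show 2 * (θ / 2) = θ by ring] at this
    rw [this, cos_sq']; ring
  rw [h1]
  nlinarith [sq_nonneg (sin (θ / 2)), sq_nonneg (a - 1)]

/-- Criterion B in polar form. -/
theorem critB_polar {d j k : ℕ} {β ρ φ E : ℝ} (hd : 8 ≤ d) (hβ1 : 1 < β)
    (hβ : β ^ d = β ^ (d - 1) + 1) (h : Root d j β ρ φ) (hk : 1 ≤ k) (hγ2 : β ^ k < 2)
    (hθ : k * φ ≤ 2 * π)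
    (hE : E ≤ exp (log ρ / log β * (-log (β ^ k - 1)))) (hm : 1 < 2 * sin (k * φ / 2) * (E - 1)) :
    ¬ Parry (β ^ k) := by
  have hρ1 := h.one_lt
  have hn : ‖zz ρ φ‖ = ρ := norm_zz (by linarith)
  have hc : Conj β (zz ρ φ) := conj_of_root (by omega) hβ1 hβ (by rw [hn]; exact hρ1) h.eq
  have hρk : 1 < ρ ^ k := one_lt_pow₀ hρ1 (by omega)
  have hg : ‖zz ρ φ ^ k‖ = ρ ^ k := by rw [norm_pow, hn]
  have hγ1 : 1 < β ^ k := one_lt_pow₀ hβ1 (by omega)
  have hlβ : 0 < log β := log_pos hβ1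
  have hlρ : 0 < log ρ := log_pos hρ1
  have hex : ∃ q : ℕ, 1 ≤ (β ^ k - 1) * (β ^ k) ^ q := by
    obtain ⟨q, hq⟩ := pow_unbounded_of_one_lt (1 / (β ^ k - 1)) hγ1
    refine ⟨q, ?_⟩
    rw [div_lt_iff₀ (by linarith)] at hq
    linarith
  classical
  set q := Nat.find hex with hqdef
  have hq1 : 1 ≤ (β ^ k - 1) * (β ^ k) ^ q := Nat.find_spec hex
  have hq0 : 1 ≤ q := by
    by_contra hcon
    have : q = 0 := by omega
    rw [this] at hq1
    simp at hq1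
    linarith
  have hq2 : (β ^ k - 1) * (β ^ k) ^ (q - 1) < 1 := by
    have := Nat.find_min hex (m := q - 1) (by omega)
    push Not at this
    exact this
  apply crit_B hc hγ1 hγ2 hq2 (by rw [hg]; exact hρk)
  rw [hg]
  have hθ0 : 0 ≤ (k : ℝ) * φ := mul_nonneg (by positivity) h.φ_pos.le
  have h1 : 2 * sin (k * φ / 2) ≤ ‖zz ρ φ ^ k - 1‖ := by
    rw [zz_pow]
    exact two_sin_le hρk.le hθ0 hθ
  have hs : 0 ≤ sin (k * φ / 2) := sin_nonneg_of_nonneg_of_le_pi (by linarith) (by linarith)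
  -- `(ρ^k)^q ≥ E`
  have h2 : E ≤ (ρ ^ k) ^ q := by
    refine hE.trans ?_
    have h3 : (ρ ^ k) ^ q = exp (q * (k * log ρ)) := by
      rw [← log_pow, ← log_pow, exp_log (by positivity)]
    rw [h3]
    apply exp_le_exp.2
    have h4 : -log (β ^ k - 1) ≤ q * (k * log β) := by
      rw [← log_pow, ← log_pow, ← log_inv]
      apply log_le_log (by apply inv_pos.2; linarith)
      rw [inv_le_iff_one_le_mul₀ (by linarith)]
      linarith
    have h5 : log ρ / log β * (-log (β ^ k - 1)) ≤ log ρ / log β * (q * (k * log β)) :=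
      mul_le_mul_of_nonneg_left h4 (by positivity)
    refine h5.trans (le_of_eq ?_)
    field_simp
  have h3 : 2 * sin (k * φ / 2) * (E - 1) ≤ ‖zz ρ φ ^ k - 1‖ * ((ρ ^ k) ^ q - 1) := by
    have h4 : 0 ≤ (ρ ^ k) ^ q - 1 := by
      have := one_le_pow₀ (n := q) hρk.le
      linarith
    calc 2 * sin (k * φ / 2) * (E - 1) ≤ 2 * sin (k * φ / 2) * ((ρ ^ k) ^ q - 1) := by
          apply mul_le_mul_of_nonneg_left _ (by linarith); linarith
      _ ≤ _ := mul_le_mul_of_nonneg_right h1 h4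
  linarith

end Pool.Agent.R328.Theta
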