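import Pool.Agent.R341.Powers

set_option autoImplicit false

namespace Pool.Agent.R328.Theta

/-- Simulation of the two orbits: `R/S` approximates `r γ n`, `(P+iQ)/S` approximates
`rc γ g n`, with error at most `E/S`. -/
def run (S G U V Gm K T1 : ℤ) : ℕ → ℤ → ℤ → ℤ → ℤ → Bool
  | 0, _, _, _, _ => false
  | n + 1, R, P, Q, E =>
    if (T1 + E) * (T1 + E) ≤ P * P + Q * Q then true
    else
      let c := G * R / S / S * S
      let E' := Gm * E / S + K
      let R' := G * R / S - c
      if E' ≤ R' ∧ R' + E' < S then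
        run S G U V Gm K T1 n R' ((U * P - V * Q) / S - c) ((U * Q + V * P) / S) E'
      else false

/-- The loop over the exponent `k`. -/
def loopK (S B a b e1 : ℤ) (F : ℕ) : ℕ → ℤ → ℤ → ℤ → ℤ → ℤ → Bool
  | 0, _, _, _, _, _ => false
  | n + 1, G, eG, U, V, eg =>
    let N := U * U + V * V - 2 * eg * (|U| + |V|)
    if 26181 * (S * S) ≤ 10000 * N then true
    else
      let Ag := 2 * S * (N - S * S) / (N + 3 * (S * S))
      let D := (G + eG) / S
      let T1 := D * S * S / Ag + 1
      if 0 < Ag ∧ S ≤ T1 ∧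
          run S G U V (G + eG) (2 * eG + eg * (2 * T1 / S + 1) + 3) T1 F S S 0 0 = true then
        loopK S B a b e1 F n (G * B / S) ((eG * (B + 1) + G) / S + 2)
          ((U * a - V * b) / S) ((U * b + V * a) / S)
          ((eg * (|a| + |b| + e1) + (|U| + |V|) * e1) / S + 3)
      else false

end Pool.Agent.R328.Theta
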