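import Pool.Agent.R341.Powers

set_option autoImplicit false

open Polynomial

namespace Pool.Agent.R328.Theta

open Pool.Agent.R341.Greedy Pool.Agent.R341.Powers

/-- the trinomial `x^d - x^(d-1) - 1` -/
noncomputable def tf (d : ℕ) : ℤ[X] := trinomial 0 (d - 1) d (-1 : ℤ) (-1) 1

lemma tf_eq {d : ℕ} : tf d = X ^ d - X ^ (d - 1) - 1 := by
  rw [tf, trinomial_def]
  simp
  ring

lemma tf_mirror {d : ℕ} (hd : 2 ≤ d) : (tf d).mirror = 1 - X - X ^ d := by
  rw [tf, trinomial_mirror (by omega) (by omega) (by norm_num) (by norm_num), trinomial_def]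
  rw [show d - (d - 1) + 0 = 1 by omega]
  simp
  ring

lemma tf_ljunggren {d : ℕ} (hd : 2 ≤ d) {q : ℤ[X]} (h : tf d * (tf d).mirror = q * q.mirror) :
    q = tf d ∨ q = -tf d ∨ q = (tf d).mirror ∨ q = -(tf d).mirror := by
  have hf : (tf d).IsUnitTrinomial :=
    ⟨0, d - 1, d, by omega, by omega, -1, -1, 1, by simp [tf]⟩
  have hq : q.IsUnitTrinomial := (isUnitTrinomial_iff'' h).mp hf
  obtain ⟨k', m', n', hkm', hmn', x, y, z, hq⟩ := hq
  have h0d : 0 < d - 1 := by omega
  have hdd : d - 1 < d := by omega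
  have hp : tf d = trinomial 0 (d - 1) d ((-1 : ℤˣ) : ℤ) ((-1 : ℤˣ) : ℤ) ((1 : ℤˣ) : ℤ) := by
    simp [tf]
  have hk : 0 = k' := by
    rw [← mul_right_inj' (show 2 ≠ 0 from two_ne_zero), ←
      trinomial_natTrailingDegree h0d hdd (-1 : ℤˣ).ne_zero, ← hp, ← natTrailingDegree_mul_mirror,
      h, natTrailingDegree_mul_mirror, hq, trinomial_natTrailingDegree hkm' hmn' x.ne_zero]
  have hn : d = n' := by
    rw [← mul_right_inj' (show 2 ≠ 0 from two_ne_zero), ←
      trinomial_natDegree h0d hdd (1 : ℤˣ).ne_zero, ←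
      hp, ← natDegree_mul_mirror, h, natDegree_mul_mirror, hq,
      trinomial_natDegree hkm' hmn' z.ne_zero]
  subst hk
  subst hn
  rcases eq_or_eq_neg_of_sq_eq_sq (y : ℤ) ((-1 : ℤˣ) : ℤ)
      ((Int.isUnit_sq y.isUnit).trans (Int.isUnit_sq (-1 : ℤˣ).isUnit).symm) with
    (h1 | h1)
  · rw [h1] at hq
    rcases IsUnitTrinomial.irreducible_aux3 h0d hdd hkm' hmn' _ _ _ x z hp hq h with (h2 | h2)
    · exact Or.inl h2
    · exact Or.inr (Or.inr (Or.inl h2))
  · have h1' : (y : ℤ) = ((1 : ℤˣ) : ℤ) := by rw [h1]; simp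
    rw [h1'] at hq
    have hp2 : -tf d = trinomial 0 (d - 1) d ((1 : ℤˣ) : ℤ) ((1 : ℤˣ) : ℤ) ((-1 : ℤˣ) : ℤ) := by
      rw [tf, trinomial_def, trinomial_def]
      simp
      ring
    rw [← neg_mul_neg, ← mirror_neg] at h
    rcases IsUnitTrinomial.irreducible_aux3 h0d hdd hkm' hmn' _ _ _ x z hp2 hq h with h2 | h2
    · exact Or.inr (Or.inl h2)
    · exact Or.inr (Or.inr (Or.inr (by rw [h2, mirror_neg])))

/-- integer polynomials vanishing at the root `β > 1` of `x^d - x^(d-1) - 1` vanish at every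
complex root of modulus greater than one. -/
theorem conj_of_root {d : ℕ} (hd : 2 ≤ d) {β : ℝ} (hβ1 : 1 < β) (hβ : β ^ d = β ^ (d - 1) + 1)
    {z : ℂ} (hz1 : 1 < ‖z‖) (hz : z ^ d = z ^ (d - 1) + 1) : Conj β z := by
  have hfβ : aeval β (tf d) = 0 := by rw [tf_eq]; simp [hβ]
  have hfz : aeval z (tf d) = 0 := by rw [tf_eq]; simp [hz]
  have hmon : (tf d).Monic := by
    have hne : trinomial 0 (d - 1) d (-1 : ℤ) (-1) 1 = tf d := rfl
    rw [Monic, ← hne, trinomial_leadingCoeff (by omega) (by omega) (by norm_num)]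
  have hint : IsIntegral ℤ β := ⟨tf d, hmon, by rwa [← aeval_def]⟩
  obtain ⟨Q, hQ⟩ := minpoly.isIntegrallyClosed_dvd hint hfβ
  set P := minpoly ℤ β with hP
  have hPβ : aeval β P = 0 := minpoly.aeval ℤ β
  -- key: `P` vanishes at `z`
  have key : aeval z P = 0 := by
    have h1 : tf d * (tf d).mirror = (P * Q.mirror) * (P * Q.mirror).mirror := by
      rw [mirror_mul_of_domain P Q.mirror, mirror_mirror]
      conv_lhs => rw [hQ, mirror_mul_of_domain]
      ring
    have hf0 : tf d ≠ 0 := hmon.ne_zero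
    have hP0 : P ≠ 0 := by
      intro h; rw [h, zero_mul] at hQ; exact hf0 hQ
    have hQ0 : Q ≠ 0 := by
      intro h; rw [h, mul_zero] at hQ; exact hf0 hQ
    have hQm0 : Q.mirror ≠ 0 := by rwa [Ne, mirror_eq_zero]
    have hA : Q.mirror = Q ∨ Q.mirror = -Q → aeval z P = 0 := by
      intro hmir
      have h2 : aeval z P * aeval z Q = 0 := by rw [← map_mul, ← hQ]; exact hfz
      rcases mul_eq_zero.1 h2 with h3 | h3
      · exact h3
      exfalso
      have h4 : aeval z Q.mirror = 0 := by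
        rcases hmir with h | h
        · rw [h]; exact h3
        · rw [h, map_neg, h3, neg_zero]
      have h5 : aeval z (tf d).mirror = 0 := by
        rw [hQ, mirror_mul_of_domain, map_mul, h4, mul_zero]
      rw [tf_mirror hd] at h5
      simp at h5
      -- z^d = 1 - z
      have h6 : z ^ d = 1 - z := by linear_combination -h5
      have h7 : z ^ (d - 1) * (z - 1) = 1 := by
        have : z ^ d = z ^ (d - 1) * z := by
          rw [← pow_succ, Nat.sub_add_cancel (by omega)]
        linear_combination hz - this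
      have h8 : ‖z‖ ^ (d - 1) * ‖z - 1‖ = 1 := by
        rw [← norm_pow, ← norm_mul, h7, norm_one]
      have h9 : ‖z‖ ^ d = ‖z - 1‖ := by
        rw [← norm_pow, h6, norm_sub_rev]
      have h10 : 1 < ‖z‖ ^ d := one_lt_pow₀ hz1 (by omega)
      have h11 : 1 ≤ ‖z‖ ^ (d - 1) := one_le_pow₀ hz1.le
      nlinarith
    have hB : P = P.mirror ∨ P = -P.mirror → False := by
      intro hmir
      have h4 : aeval β P.mirror = 0 := by
        rcases hmir with h | h
        · rw [← h]; exact hPβ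
        · have : P.mirror = -P := by rw [h, neg_neg, ← h]
          rw [this, map_neg, hPβ, neg_zero]
      have h5 : aeval β (tf d).mirror = 0 := by
        rw [hQ, mirror_mul_of_domain, map_mul, h4, zero_mul]
      rw [tf_mirror hd] at h5
      simp at h5
      have : 1 < β ^ d := one_lt_pow₀ hβ1 (by omega)
      linarith
    rcases tf_ljunggren hd h1 with h | h | h | h
    · apply hA; left
      rw [hQ] at h
      exact mul_left_cancel₀ hP0 h
    · apply hA; right
      rw [hQ, ← mul_neg] at h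
      exact mul_left_cancel₀ hP0 h
    · exfalso; apply hB; left
      rw [hQ, mirror_mul_of_domain] at h
      exact mul_right_cancel₀ hQm0 h
    · exfalso; apply hB; right
      rw [hQ, mirror_mul_of_domain, ← neg_mul] at h
      exact mul_right_cancel₀ hQm0 h
  intro g hg
  obtain ⟨T, hT⟩ := minpoly.isIntegrallyClosed_dvd hint hg
  rw [hT, map_mul, key, zero_mul]

/-- a polynomial `x^d - x^(d-1) - 1` has a root close to an approximate root -/
lemma exists_near {d : ℕ} (hd : 2 ≤ d) {z₀ : ℂ} {ε : ℝ}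
    (hne : (d : ℂ) * z₀ ^ (d - 1) - ((d - 1 : ℕ) : ℂ) * z₀ ^ (d - 2) ≠ 0)
    (h : d * ‖z₀ ^ d - z₀ ^ (d - 1) - 1‖ ≤
      ε * ‖(d : ℂ) * z₀ ^ (d - 1) - ((d - 1 : ℕ) : ℂ) * z₀ ^ (d - 2)‖) :
    ∃ z : ℂ, z ^ d = z ^ (d - 1) + 1 ∧ ‖z - z₀‖ ≤ ε := by
  classical
  set p : ℂ[X] := X ^ d - X ^ (d - 1) - 1 with hp
  have hp' : p = X ^ d - (X ^ (d - 1) + C 1) := by rw [hp, C_1]; ring
  have hdq : (X ^ (d - 1) + C (1 : ℂ)).natDegree = d - 1 := natDegree_X_pow_add_C
  have hmon : p.Monic := by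
    obtain ⟨n, rfl⟩ : ∃ n, d = n + 1 := ⟨d - 1, by omega⟩
    rw [hp']
    apply monic_X_pow_sub
    rw [show n + 1 - 1 = n by omega]
    rw [degree_X_pow_add_C (by omega)]
    exact_mod_cast (by omega : n < n + 1)
  have hdeg : p.natDegree = d := by
    rw [hp', natDegree_sub_eq_left_of_natDegree_lt, natDegree_X_pow]
    rw [natDegree_X_pow, hdq]
    omega
  have heval : p.eval z₀ = z₀ ^ d - z₀ ^ (d - 1) - 1 := by simp [hp]
  have hder : p.derivative.eval z₀ =
      (d : ℂ) * z₀ ^ (d - 1) - ((d - 1 : ℕ) : ℂ) * z₀ ^ (d - 2) := by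
    simp [hp, derivative_X_pow]
    left
    rfl
  have hroot : ∀ z ∈ p.roots, z ^ d = z ^ (d - 1) + 1 := by
    intro z hz
    have := (mem_roots hmon.ne_zero).1 hz
    rw [IsRoot.def, hp] at this
    simp at this
    linear_combination this
  have hcard : p.roots.card = d := by
    rw [← hdeg]
    exact (splits_iff_card_roots.1 (IsAlgClosed.splits p))
  have hne' : 0 < ‖(d : ℂ) * z₀ ^ (d - 1) - ((d - 1 : ℕ) : ℂ) * z₀ ^ (d - 2)‖ :=
    norm_pos_iff.2 hne
  by_cases h0 : p.eval z₀ = 0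
  · refine ⟨z₀, ?_, ?_⟩
    · rw [heval] at h0; linear_combination h0
    · rw [sub_self, norm_zero]
      have : 0 ≤ ε * ‖(d : ℂ) * z₀ ^ (d - 1) - ((d - 1 : ℕ) : ℂ) * z₀ ^ (d - 2)‖ :=
        le_trans (by positivity) h
      by_contra hcon
      push Not at hcon
      nlinarith
  by_contra hcon
  push Not at hcon
  have hfar : ∀ z ∈ p.roots, ε < ‖z - z₀‖ := fun z hz => hcon z (hroot z hz)
  have h0' : 0 < ‖p.eval z₀‖ := norm_pos_iff.2 h0
  have hε : 0 < ε := by
    by_contra hε
    push Not at hε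
    rw [← heval] at h
    have : (0 : ℝ) < d * ‖p.eval z₀‖ := by
      have : (0 : ℝ) < d := by exact_mod_cast (by omega : 0 < d)
      positivity
    nlinarith
  have hsum := (IsAlgClosed.splits p).eval_derivative_div_eval_of_ne_zero h0
  have hle : ‖p.derivative.eval z₀ / p.eval z₀‖ < d / ε := by
    rw [hsum]
    have h1 : ‖(p.roots.map fun z ↦ 1 / (z₀ - z)).sum‖ ≤
        (p.roots.map fun z ↦ ‖1 / (z₀ - z)‖).sum := by
      have := Multiset.le_sum_of_subadditive (fun x : ℂ => ‖x‖) norm_zero.le norm_add_le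
        (p.roots.map fun z ↦ 1 / (z₀ - z))
      rw [Multiset.map_map] at this
      exact this
    have h2 : (p.roots.map fun z ↦ ‖1 / (z₀ - z)‖).sum < (p.roots.map fun _ ↦ 1 / ε).sum := by
      apply Multiset.sum_lt_sum_of_nonempty
      · intro hemp
        rw [hemp] at hcard
        simp at hcard
        omega
      · intro z hz
        rw [norm_div, norm_one, norm_sub_rev]
        exact one_div_lt_one_div_of_lt hε (hfar z hz)
    rw [Multiset.map_const', Multiset.sum_replicate, hcard, nsmul_eq_mul] at h2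
    calc _ ≤ _ := h1
      _ < d * (1 / ε) := h2
      _ = d / ε := by ring
  rw [norm_div, div_lt_div_iff₀ h0' hε, hder, heval] at hle
  linarith

end Pool.Agent.R328.Theta
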