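import Pool.Agent.R328.ThetaTop

set_option autoImplicit false

namespace Pool.Agent.R328.Theta

open Pool.Agent.R341.Greedy Pool.Agent.R341.Powers

/-- The statement for one degree. -/
def Res (d : ℕ) : Prop :=
  ∀ β : ℝ, 1 < β → β ^ d = β ^ (d - 1) + 1 → ∀ k : ℕ, 2 ≤ k → ¬ Parry (β ^ k)

/-- binary powering of Gaussian integers -/
def gpb : ℕ → ℕ → ℤ → ℤ → ℤ → ℤ → ℤ × ℤ
  | 0, _, _, _, x, y => (x, y)
  | f + 1, n, u, v, x, y =>
    if n % 2 = 1 then gpb f (n / 2) (u * u - v * v) (2 * u * v) (x * u - y * v) (x * v + y * u)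
    else gpb f (n / 2) (u * u - v * v) (2 * u * v) x y

lemma gpb_spec : ∀ (f n : ℕ) (u v x y : ℤ), n < 2 ^ f →
    gi (gpb f n u v x y).1 (gpb f n u v x y).2 = gi x y * gi u v ^ n := by
  intro f
  induction f with
  | zero =>
    intro n u v x y hn
    have : n = 0 := by simpa using hn
    subst this
    simp [gpb]
  | succ f ih =>
    intro n u v x y hn
    have hn2 : n / 2 < 2 ^ f := by
      rw [pow_succ] at hn; omega
    have hsq : gi (u * u - v * v) (2 * u * v) = gi u v ^ 2 := by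
      rw [sq, gi_mul]; congr 1; ring
    rw [gpb]
    by_cases h : n % 2 = 1
    · rw [if_pos h, ih _ _ _ _ _ hn2, hsq, ← gi_mul, ← pow_mul, mul_assoc, ← pow_succ']
      congr 2
      omega
    · rw [if_neg h, ih _ _ _ _ _ hn2, hsq, ← pow_mul]
      congr 2
      omega

/-- the check of the data -/
def chkD (d : ℕ) (S B a b e1 : ℤ) : Bool :=
  decide (0 < S) && decide (S < B) && decide (0 ≤ e1) && decide (e1 < B) &&
    decide (B ^ (d - 1) * (B - S) ≤ S ^ d) && decide (S ^ d ≤ (B + 1) ^ (d - 1) * (B + 1 - S)) &&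
    decide ((S + e1) * (S + e1) < a * a + b * b) &&
    decide (a * a + b * b < (B - e1) * (B - e1)) &&
    (fun (w : ℤ × ℤ) => (fun (A1 A2 D1 D2 : ℤ) =>
      decide (0 < D1 * D1 + D2 * D2) &&
      decide (((d : ℤ) * d) * ((A1 * (a - S) - A2 * b - S ^ d) * (A1 * (a - S) - A2 * b - S ^ d) +
        (A1 * b + A2 * (a - S)) * (A1 * b + A2 * (a - S))) ≤
          (e1 * e1) * (D1 * D1 + D2 * D2)))
        (w.1 * a - w.2 * b) (w.1 * b + w.2 * a)
        (w.1 * (d * a - ((d - 1 : ℕ) : ℤ) * S) - w.2 * (d * b))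
        (w.1 * (d * b) + w.2 * (d * a - ((d - 1 : ℕ) : ℤ) * S)))
      (gpb 11 (d - 2) a b 1 0)

theorem exists_fix {d : ℕ} (hd : 3 ≤ d) (hd2 : d < 2000) {S B a b e1 : ℤ}
    (h : chkD d S B a b e1 = true)
    {β : ℝ} (hβ1 : 1 < β) (hβ : β ^ d = β ^ (d - 1) + 1) : ∃ z, Fix S B a b e1 β z := by
  simp only [chkD, Bool.and_eq_true, decide_eq_true_eq] at h
  obtain ⟨⟨⟨⟨⟨⟨⟨⟨hS, hSB⟩, he1⟩, he1B⟩, hB1⟩, hB2⟩, hn1⟩, hn2⟩, hD0, hF⟩ := h
  obtain ⟨n, rfl⟩ : ∃ n, d = n + 2 := ⟨d - 2, by omega⟩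
  have i1 : n + 2 - 1 = n + 1 := by omega
  have i2 : n + 2 - 2 = n := by omega
  rw [i1] at hB1 hB2 hβ hF hD0
  rw [i2] at hF hD0
  have hw := gpb_spec 11 n a b 1 0 (by omega)
  set w1 := (gpb 11 n a b 1 0).1 with hw1
  set w2 := (gpb 11 n a b 1 0).2 with hw2
  have hgi1 : gi 1 0 = 1 := by simp [gi]
  rw [hgi1, one_mul] at hw
  have hS' : (0 : ℝ) < S := by exact_mod_cast hS
  have hSc : (S : ℂ) ≠ 0 := by exact_mod_cast hS.ne'
  have hSn : ‖(S : ℂ)‖ = S := by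
    rw [Complex.norm_intCast]; exact abs_of_pos hS'
  have hSB' : (S : ℝ) < B := by exact_mod_cast hSB
  have he1' : (0 : ℝ) ≤ e1 := by exact_mod_cast he1
  have he1B' : (e1 : ℝ) < B := by exact_mod_cast he1B
  -- bounds for `β`
  have hβeq : (S * β) ^ (n + 1) * (S * β - S) = (S : ℝ) ^ (n + 2) := by
    have h1 : β ^ (n + 1) * (β - 1) = 1 := by
      have : β ^ (n + 2) = β ^ (n + 1) * β := pow_succ _ _
      linarith
    have : (S * β) ^ (n + 1) * (S * β - S) = S ^ (n + 2) * (β ^ (n + 1) * (β - 1)) := by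
      rw [mul_pow]; ring
    rw [this, h1, mul_one]
  have hBlo : (B : ℝ) ≤ S * β := by
    by_contra hcon
    push Not at hcon
    have h1 : (S * β) ^ (n + 1) ≤ (B : ℝ) ^ (n + 1) := by
      apply pow_le_pow_left₀ (by positivity) hcon.le
    have h2 : (S * β) ^ (n + 1) * (S * β - S) < (B : ℝ) ^ (n + 1) * (B - S) := by
      have h3 : (0 : ℝ) < (S * β) ^ (n + 1) := by positivity
      have h4 : (0 : ℝ) < S * β - S := by nlinarith
      nlinarith
    have h3 : (B : ℝ) ^ (n + 1) * (B - S) ≤ (S : ℝ) ^ (n + 2) := by exact_mod_cast hB1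
    linarith
  have hBhi : S * β ≤ (B : ℝ) + 1 := by
    by_contra hcon
    push Not at hcon
    have h1 : ((B : ℝ) + 1) ^ (n + 1) ≤ (S * β) ^ (n + 1) := by
      apply pow_le_pow_left₀ (by linarith) hcon.le
    have h2 : ((B : ℝ) + 1) ^ (n + 1) * (B + 1 - S) < (S * β) ^ (n + 1) * (S * β - S) := by
      have h3 : (0 : ℝ) < ((B : ℝ) + 1) ^ (n + 1) := by
        apply pow_pos; linarith
      have h4 : (0 : ℝ) < (B : ℝ) + 1 - S := by linarith
      nlinarith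
    have h3 : (S : ℝ) ^ (n + 2) ≤ ((B : ℝ) + 1) ^ (n + 1) * (B + 1 - S) := by exact_mod_cast hB2
    linarith
  -- the root
  have habc : (gi a b / S : ℂ) = gi a b / S := rfl
  set z₀ : ℂ := gi a b / S with hz₀
  have hpow : ∀ j, z₀ ^ j = gi a b ^ j / S ^ j := fun j => by rw [hz₀, div_pow]
  have hder : ((n + 2 : ℕ) : ℂ) * z₀ ^ (n + 2 - 1) - ((n + 2 - 1 : ℕ) : ℂ) * z₀ ^ (n + 2 - 2) =
      gi (w1 * (((n + 2 : ℕ) : ℤ) * a - ((n + 1 : ℕ) : ℤ) * S) - w2 * (((n + 2 : ℕ) : ℤ) * b))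
        (w1 * (((n + 2 : ℕ) : ℤ) * b) + w2 * (((n + 2 : ℕ) : ℤ) * a - ((n + 1 : ℕ) : ℤ) * S)) /
        S ^ (n + 1) := by
    rw [i1, i2, ← gi_mul, hw, hpow, hpow]
    have : gi (((n + 2 : ℕ) : ℤ) * a - ((n + 1 : ℕ) : ℤ) * S) (((n + 2 : ℕ) : ℤ) * b) =
        ((n + 2 : ℕ) : ℂ) * gi a b - ((n + 1 : ℕ) : ℂ) * S := by
      simp only [gi]; push_cast; ring
    rw [this]
    field_simp
    ring
  have hval : z₀ ^ (n + 2) - z₀ ^ (n + 2 - 1) - 1 =
      gi ((w1 * a - w2 * b) * (a - S) - (w1 * b + w2 * a) * b - S ^ (n + 2))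
        ((w1 * a - w2 * b) * b + (w1 * b + w2 * a) * (a - S)) / S ^ (n + 2) := by
    rw [i1]
    have e1 : gi ((w1 * a - w2 * b) * (a - S) - (w1 * b + w2 * a) * b - S ^ (n + 2))
        ((w1 * a - w2 * b) * b + (w1 * b + w2 * a) * (a - S)) =
        gi w1 w2 * gi a b * (gi a b - S) - S ^ (n + 2) := by
      rw [gi_mul]
      have : gi a b - S = gi (a - S) b := by simp only [gi]; push_cast; ring
      rw [this, gi_mul]
      simp only [gi]
      push_cast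
      ring
    rw [e1, hw, hpow, hpow]
    field_simp
    ring
  obtain ⟨z, hz, hzn⟩ := exists_near (d := n + 2) (by omega) (z₀ := z₀) (ε := e1 / S) (by
    rw [hder]
    apply div_ne_zero _ (pow_ne_zero _ hSc)
    intro h0
    have h1 := gi_normSq
      (w1 * (((n + 2 : ℕ) : ℤ) * a - ((n + 1 : ℕ) : ℤ) * S) - w2 * (((n + 2 : ℕ) : ℤ) * b))
      (w1 * (((n + 2 : ℕ) : ℤ) * b) + w2 * (((n + 2 : ℕ) : ℤ) * a - ((n + 1 : ℕ) : ℤ) * S))
    rw [h0, norm_zero] at h1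
    have h2 := hD0
    have h3 : (0 : ℝ) < _ := Int.cast_pos.2 h2
    rw [← h1] at h3
    norm_num at h3) (by
    rw [hder, hval, norm_div, norm_div, norm_pow, norm_pow, hSn]
    set F1 : ℤ := (w1 * a - w2 * b) * (a - S) - (w1 * b + w2 * a) * b - S ^ (n + 2)
    set F2 : ℤ := (w1 * a - w2 * b) * b + (w1 * b + w2 * a) * (a - S)
    set D1 : ℤ := w1 * (((n + 2 : ℕ) : ℤ) * a - ((n + 1 : ℕ) : ℤ) * S) -
      w2 * (((n + 2 : ℕ) : ℤ) * b)
    set D2 : ℤ := w1 * (((n + 2 : ℕ) : ℤ) * b) +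
      w2 * (((n + 2 : ℕ) : ℤ) * a - ((n + 1 : ℕ) : ℤ) * S)
    have h1 : (((n + 2 : ℕ) : ℝ) * ‖gi F1 F2‖) ≤ e1 * ‖gi D1 D2‖ := by
      apply le_of_sq_le_sq _ (by positivity)
      rw [mul_pow, mul_pow, gi_normSq, gi_normSq]
      have h2 := hF
      have h3 : ((((n + 2 : ℕ) : ℤ) * ((n + 2 : ℕ) : ℤ) * (F1 * F1 + F2 * F2) : ℤ) : ℝ) ≤
        ((e1 * e1 * (D1 * D1 + D2 * D2) : ℤ) : ℝ) := by exact_mod_cast h2
      push_cast at h3 ⊢
      linarith
    have h2 : (0 : ℝ) < (S : ℝ) ^ (n + 2) := by positivity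
    calc ((n + 2 : ℕ) : ℝ) * (‖gi F1 F2‖ / (S : ℝ) ^ (n + 2)) =
        (((n + 2 : ℕ) : ℝ) * ‖gi F1 F2‖) / (S : ℝ) ^ (n + 2) := by ring
      _ ≤ (e1 * ‖gi D1 D2‖) / (S : ℝ) ^ (n + 2) := by gcongr
      _ = e1 / S * (‖gi D1 D2‖ / (S : ℝ) ^ (n + 1)) := by
        rw [pow_succ (S : ℝ) (n + 1)]; field_simp)
  have hzz : ‖(S : ℂ) * z - gi a b‖ ≤ e1 := by
    have : (S : ℂ) * z - gi a b = S * (z - z₀) := by
      rw [hz₀]; field_simp
    rw [this, norm_mul, hSn]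
    calc (S : ℝ) * ‖z - z₀‖ ≤ S * (e1 / S) := by gcongr
      _ = e1 := by field_simp
  have hnorm := gi_normSq a b
  have hz1 : 1 < ‖z‖ := by
    have h1 : (S : ℝ) + e1 < ‖gi a b‖ := by
      apply lt_of_pow_lt_pow_left₀ 2 (norm_nonneg _)
      rw [hnorm, sq]
      exact_mod_cast hn1
    have h2 : ‖gi a b‖ - e1 ≤ S * ‖z‖ := by
      have := norm_sub_norm_le (gi a b) ((S : ℂ) * z)
      rw [norm_mul, hSn, norm_sub_rev] at this
      linarith
    nlinarith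
  have hzβ : ‖z‖ < β := by
    have h1 : ‖gi a b‖ < B - e1 := by
      apply lt_of_pow_lt_pow_left₀ 2 (by linarith)
      rw [hnorm, sq]
      exact_mod_cast hn2
    have h2 : S * ‖z‖ - e1 ≤ ‖gi a b‖ := by
      have := norm_sub_norm_le ((S : ℂ) * z) (gi a b)
      rw [norm_mul, hSn] at this
      linarith
    have h3 : S * ‖z‖ < S * β := by linarith
    nlinarith
  refine ⟨z, hS, (hS.trans hSB).le, he1, hβ1, hz1, hzβ, ?_, hzz, ?_⟩
  · rw [abs_le]; constructor <;> linarith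
  · apply conj_of_root (d := n + 2) (by omega) hβ1 _ hz1 hz
    rw [i1]; exact hβ

theorem res_of_loopK {d : ℕ} (hd : 3 ≤ d) (hd2 : d < 2000) {S B a b e1 : ℤ} {F n : ℕ}
    (h : chkD d S B a b e1 = true)
    (h2 : loopK S B a b e1 F n (B * B / S) ((1 * (B + 1) + B) / S + 2) ((a * a - b * b) / S)
      ((a * b + b * a) / S) ((e1 * (|a| + |b| + e1) + (|a| + |b|) * e1) / S + 3) = true) :
    Res d := by
  intro β hβ1 hβ k hk
  obtain ⟨z, hz⟩ := exists_fix hd hd2 h hβ1 hβ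
  exact loopK_sound hz n 2 _ _ _ _ _ (by norm_num) ((Val.start hz).next hz) h2 k hk

/-- list version for small degrees -/
def allK (s F : ℕ) : ℕ → List (ℤ × ℤ × ℤ) → Bool
  | _, [] => true
  | d, (B, a, b) :: t =>
    chkD d (2 ^ s) B a b 64 &&
    loopK (2 ^ s) B a b 64 F F (B * B / 2 ^ s) ((1 * (B + 1) + B) / 2 ^ s + 2)
      ((a * a - b * b) / 2 ^ s) ((a * b + b * a) / 2 ^ s)
      ((64 * (|a| + |b| + 64) + (|a| + |b|) * 64) / 2 ^ s + 3) &&
    allK s F (d + 1) t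

lemma allK_sound {s F : ℕ} : ∀ (L : List (ℤ × ℤ × ℤ)) (d : ℕ), 3 ≤ d → d + L.length ≤ 2000 →
    allK s F d L = true → ∀ e, d ≤ e → e < d + L.length → Res e := by
  intro L
  induction L with
  | nil => intro d _ _ _ e h1 h2; simp at h2; omega
  | cons x t ih =>
    obtain ⟨B, a, b⟩ := x
    intro d hd hd2 h e h1 h2
    simp only [allK, Bool.and_eq_true] at h
    obtain ⟨⟨h3, h4⟩, h5⟩ := h
    simp only [List.length_cons] at h2 hd2
    rcases Nat.eq_or_lt_of_le h1 with h6 | h6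
    · rw [← h6]
      exact res_of_loopK hd (by omega) h3 h4
    · exact ih (d + 1) (by omega) (by omega) h5 e h6 (by omega)

/-- list version for larger degrees -/
def allN (s S SS m MM mSS F : ℕ) : ℕ → List (ℕ × ℕ × ℕ) → Bool
  | _, [] => true
  | d, (B, a, b) :: t =>
    chkD d S B a b 1024 &&
    Nat.ble (b * b) (a * a) &&
    loopN s S SS m MM mSS B a b 1024 F F (B * B / S) ((1 * (B + 1) + B) / S + 2)
      ((a * a - b * b) / S) ((a * b + b * a) / S)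
      ((1024 * (a + b + 1024) + (a + b) * 1024) / S + 3) &&
    allN s S SS m MM mSS F (d + 1) t

lemma allN_sound {s S m F : ℕ} (hs : S = 2 ^ s) (hm : 1 ≤ m) :
    ∀ (L : List (ℕ × ℕ × ℕ)) (d : ℕ), 3 ≤ d → d + L.length ≤ 2000 →
    allN s S (S * S) m (m * S) (m * S * S) F d L = true →
    ∀ e, d ≤ e → e < d + L.length → Res e := by
  intro L
  induction L with
  | nil => intro d _ _ _ e h1 h2; simp at h2; omega
  | cons x t ih =>
    obtain ⟨B, a, b⟩ := x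
    intro d hd hd2 h e h1 h2
    simp only [allN, Bool.and_eq_true, Nat.ble_eq] at h
    obtain ⟨⟨⟨h3, hab⟩, h4⟩, h5⟩ := h
    simp only [List.length_cons] at h2 hd2
    rcases Nat.eq_or_lt_of_le h1 with h6 | h6
    · rw [← h6]
      have h7 := loopN_loopK hs hm _ _ _ _ _ _ h4
      refine res_of_loopK hd (by omega) h3 (F := F) (n := F) ?_
      push_cast [Nat.cast_sub hab] at h7
      rw [abs_of_nonneg (show (0 : ℤ) ≤ a by positivity),
          abs_of_nonneg (show (0 : ℤ) ≤ b by positivity)]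
      exact h7
    · exact ih (d + 1) (by omega) (by omega) h5 e h6 (by omega)

end Pool.Agent.R328.Theta
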