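import Pool.Agent.R341.Powers

set_option autoImplicit false

namespace Pool.Agent.R328.Theta

/-- Fast kernel version of the simulation. All numbers are naturals; `P, Q` are stored with the
offset `M`.  `s` is the binary precision, `S = 2^s`. `C1 = M*S - (U+V)*M`-like constants are
precomputed by the caller: `c1 + U*P + V*(2M-Q)`, `c2 + U*Q + V*P`. -/
def runF (s S M M2 G U V Gm K T1 : ℕ) (n : ℕ) : ℕ → ℕ → ℕ → ℕ → Bool :=
  Nat.rec (motive := fun _ => ℕ → ℕ → ℕ → ℕ → Bool) (fun _ _ _ _ => false)
    (fun _ ih R P Q E =>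
      cond (Nat.ble (Nat.mul (Nat.add T1 E) (Nat.add T1 E))
          (Nat.sub (Nat.add (Nat.add (Nat.mul P P) (Nat.mul Q Q)) (Nat.mul M2 M))
            (Nat.mul M2 (Nat.add P Q)))) true
        ((fun (R1 E' : ℕ) => (fun (c : ℕ) => (fun (R' : ℕ) =>
          cond (Nat.ble E' R')
            (cond (Nat.ble S (Nat.add R' E')) false
              (ih R'
                (Nat.sub (Nat.add M (Nat.shiftRight (Nat.add (Nat.mul U P) (Nat.mul V (Nat.sub M2 Q))) s))
                  (Nat.add c (Nat.shiftRight (Nat.mul (Nat.add U V) M) s)))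
                (Nat.sub (Nat.add M (Nat.shiftRight (Nat.add (Nat.mul U Q) (Nat.mul V P)) s))
                  (Nat.shiftRight (Nat.mul (Nat.add U V) M) s)) E'))
            false) (Nat.sub R1 c)) (Nat.mul (Nat.shiftRight R1 s) S))
          (Nat.shiftRight (Nat.mul G R) s) (Nat.add (Nat.shiftRight (Nat.mul Gm E) s) K))) n

end Pool.Agent.R328.Theta
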