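import Pool.Agent.R328.ThetaRun
import Pool.Agent.R328.ThetaConj

set_option autoImplicit false

namespace Pool.Agent.R328.Theta

open Pool.Agent.R341.Greedy Pool.Agent.R341.Powers

/-- lower bound for `S² ‖g‖²` -/
def Nf (U V eg : ℤ) : ℤ := U * U + V * V - 2 * eg * (|U| + |V|)

/-- lower bound for `S (‖g‖ - 1)` -/
def Agf (S N : ℤ) : ℤ := 2 * S * (N - S * S) / (N + 3 * (S * S))

/-- threshold -/
def T1f (S Ag D : ℤ) : ℤ := D * S * S / Ag + 1

/-- the check for one exponent -/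
def chkK (S : ℤ) (F : ℕ) (G eG U V eg : ℤ) : Bool :=
  decide (S * S < Nf U V eg) && decide (0 < Agf S (Nf U V eg)) &&
    decide (S ≤ T1f S (Agf S (Nf U V eg)) ((G + eG) / S)) &&
    run S G U V (G + eG) (2 * eG + eg * (2 * T1f S (Agf S (Nf U V eg)) ((G + eG) / S) / S + 1) + 3)
      (T1f S (Agf S (Nf U V eg)) ((G + eG) / S)) F S S 0 0

/-- The loop over the exponent `k`. -/
def loopK (S B a b e1 : ℤ) (F : ℕ) : ℕ → ℤ → ℤ → ℤ → ℤ → ℤ → Bool
  | 0, _, _, _, _, _ => false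
  | n + 1, G, eG, U, V, eg =>
    if 26181 * (S * S) ≤ 10000 * Nf U V eg then true
    else
      if chkK S F G eG U V eg = true then
        loopK S B a b e1 F n (G * B / S) ((eG * (B + 1) + G) / S + 2)
          ((U * a - V * b) / S) ((U * b + V * a) / S)
          ((eg * (|a| + |b| + e1) + (|U| + |V|) * e1) / S + 3)
      else false

/-- validity of the state for the exponent `k` -/
structure Val (S : ℤ) (β : ℝ) (z : ℂ) (k : ℕ) (G eG U V eg : ℤ) : Prop where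
  G0 : 0 ≤ G
  eG0 : 0 ≤ eG
  eg0 : 0 ≤ eg
  hG : |(S : ℝ) * β ^ k - G| ≤ eG
  hg : ‖(S : ℂ) * z ^ k - gi U V‖ ≤ eg

/-- the fixed data -/
structure Fix (S B a b e1 : ℤ) (β : ℝ) (z : ℂ) : Prop where
  S0 : 0 < S
  B0 : 0 ≤ B
  e10 : 0 ≤ e1
  hβ : 1 < β
  hz1 : 1 < ‖z‖
  hzβ : ‖z‖ < β
  hB : |(S : ℝ) * β - B| ≤ 1
  hz : ‖(S : ℂ) * z - gi a b‖ ≤ e1
  conj : Conj β z

lemma Val.start {S B a b e1 : ℤ} {β : ℝ} {z : ℂ} (h : Fix S B a b e1 β z) :
    Val S β z 1 B 1 a b e1 where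
  G0 := h.B0
  eG0 := by norm_num
  eg0 := h.e10
  hG := by rw [pow_one]; exact_mod_cast h.hB
  hg := by rw [pow_one]; exact h.hz

lemma Val.norm_le {S : ℤ} {β : ℝ} {z : ℂ} {k : ℕ} {G eG U V eg : ℤ} (hS : 0 < S)
    (v : Val S β z k G eG U V eg) : S * ‖z ^ k‖ ≤ ((|U| + |V| + eg : ℤ) : ℝ) := by
  have hS' : (0 : ℝ) < S := by exact_mod_cast hS
  have hSn : ‖(S : ℂ)‖ = S := by
    rw [Complex.norm_intCast]; exact abs_of_pos hS'
  have h1 := norm_sub_norm_le ((S : ℂ) * z ^ k) (gi U V)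
  rw [norm_mul, hSn] at h1
  have h2 := gi_norm_le U V
  have h3 := v.hg
  push_cast at h2 ⊢
  linarith

lemma Val.next {S B a b e1 : ℤ} {β : ℝ} {z : ℂ} {k : ℕ} {G eG U V eg : ℤ}
    (h : Fix S B a b e1 β z) (v : Val S β z k G eG U V eg) :
    Val S β z (k + 1) (G * B / S) ((eG * (B + 1) + G) / S + 2)
          ((U * a - V * b) / S) ((U * b + V * a) / S)
          ((eg * (|a| + |b| + e1) + (|U| + |V|) * e1) / S + 3) := by
  have hS := h.S0
  have hS' : (0 : ℝ) < S := by exact_mod_cast hS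
  have hB0 : (0 : ℝ) ≤ B := by exact_mod_cast h.B0
  have hG0 : (0 : ℝ) ≤ G := by exact_mod_cast v.G0
  have heG0 : (0 : ℝ) ≤ eG := by exact_mod_cast v.eG0
  have heg0 : (0 : ℝ) ≤ eg := by exact_mod_cast v.eg0
  have he10 : (0 : ℝ) ≤ e1 := by exact_mod_cast h.e10
  have hγ0 : 0 ≤ β ^ k := pow_nonneg (by linarith [h.hβ]) k
  constructor
  · exact Int.ediv_nonneg (mul_nonneg v.G0 h.B0) hS.le
  · have : 0 ≤ (eG * (B + 1) + G) / S := by
      apply Int.ediv_nonneg _ hS.le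
      have := mul_nonneg v.eG0 (by linarith [h.B0] : 0 ≤ B + 1)
      linarith [v.G0]
    linarith
  · have : 0 ≤ (eg * (|a| + |b| + e1) + (|U| + |V|) * e1) / S := by
      apply Int.ediv_nonneg _ hS.le
      have h1 := mul_nonneg v.eg0
        (add_nonneg (add_nonneg (abs_nonneg a) (abs_nonneg b)) h.e10)
      have h2 := mul_nonneg (add_nonneg (abs_nonneg U) (abs_nonneg V)) h.e10
      linarith
    linarith
  · have h1 := mul_near_real hS v.hG h.hB
    rw [pow_succ]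
    refine h1.trans ?_
    have h2 : |β ^ k| * 1 ≤ (G + eG) / S := by
      rw [abs_of_nonneg hγ0, mul_one, le_div_iff₀ hS']
      linarith [(abs_le.1 v.hG).2]
    have h3 : |(B : ℝ)| * eG / S = B * eG / S := by rw [abs_of_nonneg hB0]
    have h4 := floor_ge (a := eG * (B + 1) + G) hS
    push_cast at h4 ⊢
    rw [h3]
    have h5 : ((eG : ℝ) * (B + 1) + G) / S = (G + eG) / S + B * eG / S := by
      field_simp
      ring
    linarith
  · have h1 := mul_near hS v.hg h.hz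
    rw [pow_succ]
    refine h1.trans ?_
    have h2 := v.norm_le hS
    have h3 := gi_norm_le a b
    have h4 := floor_ge (a := eg * (|a| + |b| + e1) + (|U| + |V|) * e1) hS
    push_cast at h2 h3 h4 ⊢
    have h5 : ‖z ^ k‖ * (e1 : ℝ) ≤ (|(U : ℝ)| + |(V : ℝ)| + eg) * e1 / S := by
      rw [le_div_iff₀ hS']
      nlinarith
    have h6 : ‖gi a b‖ * (eg : ℝ) / S ≤ (|(a : ℝ)| + |(b : ℝ)|) * eg / S := by
      gcongr
    have h7 : ((eg : ℝ) * (|(a : ℝ)| + |(b : ℝ)| + e1) + (|(U : ℝ)| + |(V : ℝ)|) * e1) / S =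
        (|(U : ℝ)| + |(V : ℝ)| + eg) * e1 / S + (|(a : ℝ)| + |(b : ℝ)|) * eg / S := by
      field_simp
      ring
    linarith

lemma Val.Nf_le {S : ℤ} {β : ℝ} {z : ℂ} {k : ℕ} {G eG U V eg : ℤ} (hS : 0 < S)
    (v : Val S β z k G eG U V eg) : ((Nf U V eg : ℤ) : ℝ) ≤ (S * ‖z ^ k‖) ^ 2 := by
  have hS' : (0 : ℝ) < S := by exact_mod_cast hS
  have hSn : ‖(S : ℂ)‖ = S := by
    rw [Complex.norm_intCast]; exact abs_of_pos hS'
  have heg0 : (0 : ℝ) ≤ eg := by exact_mod_cast v.eg0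
  have h1 : ‖gi U V‖ - eg ≤ S * ‖z ^ k‖ := by
    have := norm_sub_norm_le (gi U V) ((S : ℂ) * z ^ k)
    rw [norm_mul, hSn, norm_sub_rev] at this
    linarith [v.hg]
  have h2 := gi_norm_le U V
  have h3 := gi_normSq U V
  have h4 : ((Nf U V eg : ℤ) : ℝ) ≤ ‖gi U V‖ ^ 2 - 2 * eg * ‖gi U V‖ := by
    rw [h3, Nf]
    push_cast at h2 ⊢
    nlinarith
  have h5 : 0 ≤ S * ‖z ^ k‖ := by positivity
  by_cases h6 : (eg : ℝ) ≤ ‖gi U V‖
  · have : (‖gi U V‖ - eg) ^ 2 ≤ (S * ‖z ^ k‖) ^ 2 := by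
      apply pow_le_pow_left₀ (by linarith) h1
    nlinarith
  · push Not at h6
    have : 0 ≤ ‖gi U V‖ := norm_nonneg _
    nlinarith

lemma golden_aux {y : ℝ} (hy : 0 ≤ y) (h : 2.6181 ≤ y ^ 2) : y + 1 < y ^ 2 := by
  have : 1.61805 < y := by
    by_contra hcon
    push Not at hcon
    nlinarith
  nlinarith

lemma Val.golden {S B a b e1 : ℤ} {β : ℝ} {z : ℂ} {k : ℕ} {G eG U V eg : ℤ}
    (h : Fix S B a b e1 β z) (v : Val S β z k G eG U V eg) (hk : 1 ≤ k)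
    (hg : 26181 * (S * S) ≤ 10000 * Nf U V eg) (k' : ℕ) (hk' : k ≤ k') : ¬ Parry (β ^ k') := by
  have hS' : (0 : ℝ) < S := by exact_mod_cast h.S0
  have h1 := v.Nf_le h.S0
  have h2 : (26181 : ℝ) * (S * S) ≤ 10000 * (Nf U V eg : ℤ) := by exact_mod_cast hg
  have h3 : 2.6181 ≤ ‖z ^ k‖ ^ 2 := by
    have : (26181 : ℝ) * (S * S) ≤ 10000 * (S * ‖z ^ k‖) ^ 2 := by linarith
    have h4 : (S * ‖z ^ k‖) ^ 2 = (S * S) * ‖z ^ k‖ ^ 2 := by ring
    rw [h4] at this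
    have h5 : (0 : ℝ) < S * S := by positivity
    nlinarith
  have h4 : ‖z ^ k‖ ≤ ‖z ^ k'‖ := by
    rw [norm_pow, norm_pow]
    exact pow_le_pow_right₀ h.hz1.le hk'
  have h5 : 2.6181 ≤ ‖z ^ k'‖ ^ 2 := h3.trans (pow_le_pow_left₀ (norm_nonneg _) h4 2)
  apply crit_golden h.conj
  · rw [norm_pow]; exact one_lt_pow₀ h.hz1 (by omega)
  · exact golden_aux (norm_nonneg _) h5
  · intro heq
    have h6 : ‖z ^ k'‖ = ‖(β : ℂ) ^ k'‖ := by rw [heq]
    rw [norm_pow, norm_pow, Complex.norm_real, Real.norm_of_nonneg (by linarith [h.hβ])] at h6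
    have h7 : ‖z‖ ^ k' < β ^ k' := pow_lt_pow_left₀ h.hzβ (norm_nonneg _) (by omega)
    linarith

lemma ag_aux {y ν : ℝ} (hy : 0 ≤ y) (hν : 1 < ν) (h : ν ≤ y ^ 2) :
    2 * (ν - 1) ≤ (y - 1) * (ν + 3) := by
  have hy1 : 1 < y := by nlinarith
  by_cases h3 : y ≤ 3
  · nlinarith [mul_nonneg (show 0 ≤ 3 - y by linarith) (show 0 ≤ y ^ 2 - ν by linarith),
      mul_nonneg (show 0 ≤ y - 1 by linarith) (mul_nonneg (show 0 ≤ y - 1 by linarith)
        (show 0 ≤ y - 1 by linarith))]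
  · push Not at h3
    nlinarith

lemma Val.sound {S B a b e1 : ℤ} {β : ℝ} {z : ℂ} {k : ℕ} {G eG U V eg : ℤ} {F : ℕ}
    (h : Fix S B a b e1 β z) (v : Val S β z k G eG U V eg) (hk : 1 ≤ k)
    (hc : chkK S F G eG U V eg = true) : ¬ Parry (β ^ k) := by
  have hS := h.S0
  have hS' : (0 : ℝ) < S := by exact_mod_cast hS
  have hβ0 : 0 ≤ β := by linarith [h.hβ]
  simp only [chkK, Bool.and_eq_true, decide_eq_true_eq] at hc
  obtain ⟨⟨⟨hN, hAg⟩, hT1⟩, hrun⟩ := hc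
  set N := Nf U V eg with hNdef
  set Ag := Agf S N with hAgdef
  set D := (G + eG) / S with hD
  set T1 := T1f S Ag D with hT1def
  have hγ : S * β ^ k ≤ ((G + eG : ℤ) : ℝ) := by
    push_cast; linarith [(abs_le.1 v.hG).2]
  have hgγ : ‖z ^ k‖ ≤ β ^ k := by
    rw [norm_pow]; exact pow_le_pow_left₀ (norm_nonneg _) h.hzβ.le k
  obtain ⟨m, hm⟩ := run_sound (γ := β ^ k) (g := z ^ k) (eG := eG) (eg := eg) hS
    (pow_nonneg hβ0 k) v.eG0 v.eg0 v.hG v.hg
    hγ (le_trans (mul_le_mul_of_nonneg_left hgγ hS'.le) hγ) hT1 le_rfl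
    F 0 S S 0 0 (by simp [r]) (by simp [rc, gi]) le_rfl (by linarith) hrun
  have hg1 : 1 < ‖z ^ k‖ := by rw [norm_pow]; exact one_lt_pow₀ h.hz1 (by omega)
  -- lower bound for `‖g‖ - 1`
  have hAg1 : (Ag : ℝ) / S ≤ ‖z ^ k‖ - 1 := by
    have h1 := v.Nf_le hS
    rw [← hNdef] at h1
    have h2 : ((S * S : ℤ) : ℝ) < N := by exact_mod_cast hN
    push_cast at h2
    have h3 : (N : ℝ) / (S * S) ≤ ‖z ^ k‖ ^ 2 := by
      rw [div_le_iff₀ (by positivity)]
      linarith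
    have h4 : 1 < (N : ℝ) / (S * S) := by
      rw [one_lt_div (by positivity)]; exact h2
    have h5 := ag_aux (norm_nonneg _) h4 h3
    have hNpos : (0 : ℝ) < N + 3 * (S * S) := by nlinarith
    have h6 : (Ag : ℝ) ≤ 2 * S * (N - S * S) / (N + 3 * (S * S)) := by
      have h7 : 0 < N + 3 * (S * S) := by exact_mod_cast hNpos
      have h8 := floor_le' (a := 2 * S * (N - S * S)) h7
      rw [hAgdef, Agf]
      push_cast at h8 ⊢
      exact h8
    rw [div_le_iff₀ hS']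
    refine h6.trans ?_
    rw [div_le_iff₀ hNpos]
    have h9 : (N : ℝ) = N / (S * S) * (S * S) := by field_simp
    set ν := (N : ℝ) / (S * S)
    rw [h9]
    have : (0 : ℝ) < S * (S * S) := by positivity
    nlinarith
  have hAg0 : (0 : ℝ) < Ag := by exact_mod_cast hAg
  have hDT : (D : ℝ) * S * S < T1 * Ag := by
    have := Int.lt_ediv_add_one_mul_self (D * S * S) hAg
    rw [hT1def, T1f]
    exact_mod_cast this
  apply crit_C h.conj hg1 (D := (D : ℝ)) _ hβ0 (n₀ := m)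
  · have h1 : (0 : ℝ) < S * S := by positivity
    have h2 : (Ag : ℝ) / S * (T1 / S) ≤ (‖z ^ k‖ - 1) * ‖rc (β ^ k) (z ^ k) m‖ := by
      have h3 : (T1 : ℝ) / S ≤ ‖rc (β ^ k) (z ^ k) m‖ := by
        rw [div_le_iff₀ hS']; linarith
      have hT10 : (0 : ℝ) ≤ T1 := by exact_mod_cast le_trans hS.le hT1
      apply mul_le_mul hAg1 h3 (by positivity) (by linarith)
    refine lt_of_lt_of_le ?_ h2
    rw [div_mul_div_comm, lt_div_iff₀ h1]
    linarith
  · intro n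
    have h1 : β ^ k * r (β ^ k) n < D + 1 := by
      have h2 := r_le_one (β ^ k) n
      have h3 : 0 ≤ β ^ k := pow_nonneg hβ0 k
      have h4 : β ^ k < D + 1 := by
        have h5 : (G + eG) < (D + 1) * S := by
          rw [hD]; exact Int.lt_ediv_add_one_mul_self (G + eG) hS
        have h6 : ((G + eG : ℤ) : ℝ) < (D + 1) * S := by exact_mod_cast h5
        have h7 : S * β ^ k < (D + 1) * S := by linarith
        nlinarith
      nlinarith
    have h2 : ⌊β ^ k * r (β ^ k) n⌋ < D + 1 := by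
      rw [Int.floor_lt]
      push_cast
      exact h1
    have h3 : ⌊β ^ k * r (β ^ k) n⌋ ≤ D := by omega
    exact_mod_cast h3

lemma loopK_sound {S B a b e1 : ℤ} {β : ℝ} {z : ℂ} {F : ℕ} (h : Fix S B a b e1 β z) :
    ∀ (n k : ℕ) (G eG U V eg : ℤ), 1 ≤ k → Val S β z k G eG U V eg →
      loopK S B a b e1 F n G eG U V eg = true → ∀ k', k ≤ k' → ¬ Parry (β ^ k') := by
  intro n
  induction n with
  | zero => intro k G eG U V eg _ _ hl; simp [loopK] at hl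
  | succ n ih =>
    intro k G eG U V eg hk v hl k' hk'
    rw [loopK] at hl
    split_ifs at hl with h1 h2
    · exact v.golden h hk h1 k' hk'
    · rcases Nat.eq_or_lt_of_le hk' with h3 | h3
      · rw [← h3]; exact v.sound h hk h2
      · exact ih (k + 1) _ _ _ _ _ (by omega) (v.next h) hl k' h3

end Pool.Agent.R328.Theta
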