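import Pool.Agent.R328.ThetaLoop

set_option autoImplicit false

namespace Pool.Agent.R328.Theta

open Pool.Agent.R341.Greedy Pool.Agent.R341.Powers

/-- Kernel-friendly version of `run` on natural numbers (offset `m * S` for `P`, `Q`). -/
def runF (s S M2 MM2 H G U V Gm K T1 : ℕ) (n : ℕ) : ℕ → ℕ → ℕ → ℕ → Bool :=
  Nat.rec (motive := fun _ => ℕ → ℕ → ℕ → ℕ → Bool) (fun _ _ _ _ => false)
    (fun _ ih R P Q E =>
      cond (Nat.ble (Nat.mul (Nat.add T1 E) (Nat.add T1 E))
          (Nat.sub (Nat.add (Nat.add (Nat.mul P P) (Nat.mul Q Q)) MM2)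
            (Nat.mul M2 (Nat.add P Q)))) true
        ((fun (R1 E' : ℕ) => (fun (R' : ℕ) =>
          cond (Nat.ble E' R')
            (cond (Nat.ble S (Nat.add R' E')) false
              (ih R'
                (Nat.sub (Nat.shiftRight (Nat.add (Nat.mul U P) (Nat.mul V (Nat.sub M2 Q))) s)
                  (Nat.add (Nat.sub R1 R') H))
                (Nat.sub (Nat.shiftRight (Nat.add (Nat.mul U Q) (Nat.mul V P)) s) H) E'))
            false) (Nat.mod R1 S))
          (Nat.shiftRight (Nat.mul G R) s) (Nat.add (Nat.shiftRight (Nat.mul Gm E) s) K))) n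

lemma runF_zero (s S M2 MM2 H G U V Gm K T1 R P Q E : ℕ) :
    runF s S M2 MM2 H G U V Gm K T1 0 R P Q E = false := rfl

lemma runF_succ (s S M2 MM2 H G U V Gm K T1 n R P Q E : ℕ) :
    runF s S M2 MM2 H G U V Gm K T1 (n + 1) R P Q E =
      cond (Nat.ble ((T1 + E) * (T1 + E)) (P * P + Q * Q + MM2 - M2 * (P + Q))) true
        (cond (Nat.ble ((Gm * E) >>> s + K) (((G * R) >>> s) % S))
          (cond (Nat.ble S (((G * R) >>> s) % S + ((Gm * E) >>> s + K))) false
            (runF s S M2 MM2 H G U V Gm K T1 n (((G * R) >>> s) % S)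
              ((U * P + V * (M2 - Q)) >>> s - ((G * R) >>> s - ((G * R) >>> s) % S + H))
              ((U * Q + V * P) >>> s - H) ((Gm * E) >>> s + K))) false) := rfl

lemma sq_offset (P Q m : ℕ) : (2 * m) * (P + Q) ≤ P * P + Q * Q + 2 * m * m := by
  have : ((2 * m) * (P + Q) : ℤ) ≤ P * P + Q * Q + 2 * m * m := by
    nlinarith [sq_nonneg ((P : ℤ) - m), sq_nonneg ((Q : ℤ) - m)]
  exact_mod_cast this

theorem runF_run {s S m H G U V Gm K T1 : ℕ} (hs : S = 2 ^ s) (hH : (U + V) * m = m * S + H)
    (hM : (U + V) * (T1 + S) + (G + 2) * S ≤ m * S * S) (hM1 : T1 + S ≤ m * S) :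
    ∀ (n R P Q E : ℕ), R ≤ S → E ≤ S →
      runF s S (2 * (m * S)) (2 * (m * S) * (m * S)) H G U V Gm K T1 n R P Q E = true →
      run S G U V Gm K T1 n R ((P : ℤ) - m * S) ((Q : ℤ) - m * S) E = true := by
  have hS : 0 < S := by rw [hs]; positivity
  intro n
  induction n with
  | zero => intro R P Q E _ _ h; simp [runF_zero] at h
  | succ n ih =>
    intro R P Q E hR hE h
    rw [runF_succ] at h
    rw [run]
    simp only [Nat.shiftRight_eq_div_pow, ← hs] at h
    have hsq := sq_offset P Q (m * S)
    by_cases h1 : ((T1 : ℤ) + E) * (T1 + E) ≤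
        ((P : ℤ) - m * S) * (P - m * S) + ((Q : ℤ) - m * S) * (Q - m * S)
    · rw [if_pos h1]
    · rw [if_neg h1]
      have h1' : ¬ ((T1 + E) * (T1 + E) ≤
          P * P + Q * Q + 2 * (m * S) * (m * S) - 2 * (m * S) * (P + Q)) := by
        intro hcon
        apply h1
        have : (((T1 + E) * (T1 + E) : ℕ) : ℤ) ≤
          ((P * P + Q * Q + 2 * (m * S) * (m * S) - 2 * (m * S) * (P + Q) : ℕ) : ℤ) := by
          exact_mod_cast hcon
        rw [Nat.cast_sub hsq] at this
        push_cast at this
        linarith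
      have h1b : Nat.ble ((T1 + E) * (T1 + E))
          (P * P + Q * Q + 2 * (m * S) * (m * S) - 2 * (m * S) * (P + Q)) = false := by
        rw [Bool.eq_false_iff, Ne, Nat.ble_eq]; exact h1'
      rw [h1b, cond_false] at h
      -- bounds for `P`, `Q`
      push Not at h1
      have hPb : |(P : ℤ) - m * S| < T1 + E := by
        apply abs_lt_of_sq_lt_sq _ (by positivity)
        nlinarith [mul_self_nonneg ((Q : ℤ) - m * S)]
      have hQb : |(Q : ℤ) - m * S| < T1 + E := by
        apply abs_lt_of_sq_lt_sq _ (by positivity)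
        nlinarith [mul_self_nonneg ((P : ℤ) - m * S)]
      rw [abs_lt] at hPb hQb
      have hMz : ((U : ℤ) + V) * (T1 + S) + (G + 2) * S ≤ m * S * S := by exact_mod_cast hM
      have hM1z : (T1 : ℤ) + S ≤ m * S := by exact_mod_cast hM1
      have hEz : (E : ℤ) ≤ S := by exact_mod_cast hE
      have hRz : (R : ℤ) ≤ S := by exact_mod_cast hR
      have hSz : (0 : ℤ) < S := by exact_mod_cast hS
      have hHz : ((U : ℤ) + V) * m = m * S + H := by exact_mod_cast hH
      set R1 : ℕ := G * R / S with hR1
      set E' : ℕ := Gm * E / S + K with hE'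
      have hR'eq : ((R1 % S : ℕ) : ℤ) = (R1 : ℤ) - (R1 : ℤ) / S * S := by
        have := Int.emod_add_mul_ediv (R1 : ℤ) S
        push_cast
        linarith
      have e1 : (G : ℤ) * R / S = (R1 : ℤ) := by rw [hR1]; push_cast; ring
      have e2 : (Gm : ℤ) * E / S + K = (E' : ℤ) := by rw [hE']; push_cast; ring
      rw [e1, e2, ← hR'eq]
      have hQM : Q ≤ 2 * (m * S) := by
        have : (Q : ℤ) ≤ 2 * (m * S) := by linarith [hQb.2]
        exact_mod_cast this
      cases h2 : Nat.ble E' (R1 % S) with
      | false => rw [h2] at h; simp at h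
      | true =>
        rw [h2, cond_true] at h
        cases h3 : Nat.ble S (R1 % S + E') with
        | true => rw [h3] at h; simp at h
        | false =>
          rw [h3, cond_false] at h
          rw [Nat.ble_eq] at h2
          rw [Bool.eq_false_iff, Ne, Nat.ble_eq] at h3
          push Not at h3
          have c1 : (E' : ℤ) ≤ ((R1 % S : ℕ) : ℤ) := by exact_mod_cast h2
          have c2 : ((R1 % S : ℕ) : ℤ) + E' < S := by exact_mod_cast h3
          rw [if_pos ⟨c1, c2⟩]
          have hE'S : E' ≤ S := by omega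
          have hR'S : R1 % S ≤ S := (Nat.mod_lt _ hS).le
          have hR1G : (R1 : ℤ) ≤ G := by
            have : R1 ≤ G := by
              rw [hR1]
              apply Nat.div_le_of_le_mul
              rw [Nat.mul_comm]
              exact Nat.mul_le_mul_right _ hR
            exact_mod_cast this
          have hR1' : ((R1 - R1 % S : ℕ) : ℤ) = (R1 : ℤ) / S * S := by
            rw [Nat.cast_sub (Nat.mod_le _ _), hR'eq]; ring
          have hU0 : (0 : ℤ) ≤ U := by positivity
          have hV0 : (0 : ℤ) ≤ V := by positivity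
          -- first coordinate
          have ex : ((U * P + V * (2 * (m * S) - Q) : ℕ) : ℤ) =
              ((U : ℤ) * (P - m * S) - V * (Q - m * S)) + ((U + V) * m) * S := by
            push_cast [Nat.cast_sub hQM]
            ring
          have fx : (((U * P + V * (2 * (m * S) - Q)) / S : ℕ) : ℤ) =
              ((U : ℤ) * (P - m * S) - V * (Q - m * S)) / S + (U + V) * m := by
            rw [Int.natCast_div, ex, Int.add_mul_ediv_right _ _ hSz.ne']
          have lx : -(m * S : ℤ) + R1 ≤ ((U : ℤ) * (P - m * S) - V * (Q - m * S)) / S := by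
            rw [Int.le_ediv_iff_mul_le hSz]
            nlinarith [mul_nonneg hU0 (show (0 : ℤ) ≤ T1 + E + (P - m * S) by linarith [hPb.1]),
              mul_nonneg hV0 (show (0 : ℤ) ≤ T1 + E - (Q - m * S) by linarith [hQb.2]),
              mul_nonneg (add_nonneg hU0 hV0) (show (0 : ℤ) ≤ S - E by linarith),
              mul_nonneg (show (0 : ℤ) ≤ G - R1 by linarith) hSz.le]
          have gx : (R1 - R1 % S + H) ≤ (U * P + V * (2 * (m * S) - Q)) / S := by
            have : ((R1 - R1 % S + H : ℕ) : ℤ) ≤
                (((U * P + V * (2 * (m * S) - Q)) / S : ℕ) : ℤ) := by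
              rw [fx, Nat.cast_add, hHz]
              have : ((R1 - R1 % S : ℕ) : ℤ) ≤ R1 := by
                exact_mod_cast Nat.sub_le _ _
              linarith
            exact_mod_cast this
          have kx : (((U * P + V * (2 * (m * S) - Q)) / S - (R1 - R1 % S + H) : ℕ) : ℤ)
              - m * S = ((U : ℤ) * (P - m * S) - V * (Q - m * S)) / S - (R1 : ℤ) / S * S := by
            rw [Nat.cast_sub gx, fx, Nat.cast_add, hR1', hHz]
            ring
          -- second coordinate
          have ey : ((U * Q + V * P : ℕ) : ℤ) =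
              ((U : ℤ) * (Q - m * S) + V * (P - m * S)) + ((U + V) * m) * S := by
            push_cast
            ring
          have fy : (((U * Q + V * P) / S : ℕ) : ℤ) =
              ((U : ℤ) * (Q - m * S) + V * (P - m * S)) / S + (U + V) * m := by
            rw [Int.natCast_div, ey, Int.add_mul_ediv_right _ _ hSz.ne']
          have ly : -(m * S : ℤ) ≤ ((U : ℤ) * (Q - m * S) + V * (P - m * S)) / S := by
            rw [Int.le_ediv_iff_mul_le hSz]
            nlinarith [mul_nonneg hU0 (show (0 : ℤ) ≤ T1 + E + (Q - m * S) by linarith [hQb.1]),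
              mul_nonneg hV0 (show (0 : ℤ) ≤ T1 + E + (P - m * S) by linarith [hPb.1]),
              mul_nonneg (add_nonneg hU0 hV0) (show (0 : ℤ) ≤ S - E by linarith),
              mul_nonneg (show (0 : ℤ) ≤ G + 2 by positivity) hSz.le]
          have gy : H ≤ (U * Q + V * P) / S := by
            have : (H : ℤ) ≤ (((U * Q + V * P) / S : ℕ) : ℤ) := by
              rw [fy, hHz]
              linarith
            exact_mod_cast this
          have ky : (((U * Q + V * P) / S - H : ℕ) : ℤ)
              - m * S = ((U : ℤ) * (Q - m * S) + V * (P - m * S)) / S := by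
            rw [Nat.cast_sub gy, fy, hHz]
            ring
          have := ih _ _ _ _ hR'S hE'S h
          rw [kx, ky] at this
          exact this

end Pool.Agent.R328.Theta
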