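import Pool.Agent.R341.Powers

set_option autoImplicit false

namespace Pool.Agent.R328.Theta

open Pool.Agent.R341.Greedy Pool.Agent.R341.Powers

/-- Simulation of the two orbits: `R/S` approximates `r γ n`, `(P+iQ)/S` approximates
`rc γ g n`, with error at most `E/S`. -/
def run (S G U V Gm K T1 : ℤ) : ℕ → ℤ → ℤ → ℤ → ℤ → Bool
  | 0, _, _, _, _ => false
  | n + 1, R, P, Q, E =>
    if (T1 + E) * (T1 + E) ≤ P * P + Q * Q then true
    else
      if Gm * E / S + K ≤ G * R / S - G * R / S / S * S ∧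
          G * R / S - G * R / S / S * S + (Gm * E / S + K) < S then
        run S G U V Gm K T1 n (G * R / S - G * R / S / S * S)
          ((U * P - V * Q) / S - G * R / S / S * S) ((U * Q + V * P) / S) (Gm * E / S + K)
      else false

/-- the Gaussian number `u + i v` -/
noncomputable def gi (u v : ℤ) : ℂ := (u : ℂ) + (v : ℂ) * Complex.I

lemma gi_re (u v : ℤ) : (gi u v).re = u := by simp [gi]
lemma gi_im (u v : ℤ) : (gi u v).im = v := by simp [gi]

lemma gi_mul (u v p q : ℤ) : gi u v * gi p q = gi (u * p - v * q) (u * q + v * p) := by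
  simp only [gi]
  push_cast
  linear_combination ((v : ℂ) * q) * Complex.I_sq

lemma gi_normSq (u v : ℤ) : ‖gi u v‖ ^ 2 = ((u * u + v * v : ℤ) : ℝ) := by
  rw [← Complex.normSq_eq_norm_sq, Complex.normSq_apply, gi_re, gi_im]
  push_cast; ring

lemma gi_norm_le (u v : ℤ) : ‖gi u v‖ ≤ ((|u| + |v| : ℤ) : ℝ) := by
  have := Complex.norm_le_abs_re_add_abs_im (gi u v)
  rw [gi_re, gi_im] at this
  push_cast
  exact this

lemma floor_err {a S : ℤ} (hS : 0 < S) : |(a : ℝ) / S - ((a / S : ℤ) : ℝ)| ≤ 1 := by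
  have hS' : (0 : ℝ) < S := by exact_mod_cast hS
  have h1 : (a / S) * S ≤ a := Int.ediv_mul_le a hS.ne'
  have h2 : a < (a / S + 1) * S := by
    have := Int.lt_ediv_add_one_mul_self a hS
    exact this
  have h1' : ((a / S : ℤ) : ℝ) * S ≤ a := by exact_mod_cast h1
  have h2' : (a : ℝ) < (((a / S : ℤ) : ℝ) + 1) * S := by exact_mod_cast h2
  have h3 : ((a / S : ℤ) : ℝ) ≤ (a : ℝ) / S := by rw [le_div_iff₀ hS']; exact h1'
  have h4 : (a : ℝ) / S < ((a / S : ℤ) : ℝ) + 1 := by rw [div_lt_iff₀ hS']; exact h2'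
  rw [abs_le]; constructor <;> linarith

lemma floor_ge {a S : ℤ} (hS : 0 < S) : (a : ℝ) / S - 1 ≤ ((a / S : ℤ) : ℝ) := by
  have := abs_le.1 (floor_err (a := a) hS)
  linarith [this.2]

lemma floor_le' {a S : ℤ} (hS : 0 < S) : ((a / S : ℤ) : ℝ) ≤ (a : ℝ) / S := by
  have hS' : (0 : ℝ) < S := by exact_mod_cast hS
  have h1 : (a / S) * S ≤ a := Int.ediv_mul_le a hS.ne'
  have h1' : ((a / S : ℤ) : ℝ) * S ≤ a := by exact_mod_cast h1
  rw [le_div_iff₀ hS']; exact h1'

/-- product of approximations -/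
lemma mul_near {S : ℤ} (hS : 0 < S) {x y : ℂ} {u v p q : ℤ} {ex ey : ℝ}
    (hx : ‖(S : ℂ) * x - gi u v‖ ≤ ex) (hy : ‖(S : ℂ) * y - gi p q‖ ≤ ey) :
    ‖(S : ℂ) * (x * y) - gi ((u * p - v * q) / S) ((u * q + v * p) / S)‖ ≤
      ‖x‖ * ey + ‖gi p q‖ * ex / S + 2 := by
  have hS' : (0 : ℝ) < S := by exact_mod_cast hS
  have hSc : (S : ℂ) ≠ 0 := by exact_mod_cast hS.ne'
  have hSn : ‖(S : ℂ)‖ = S := by
    rw [Complex.norm_intCast]; exact abs_of_pos hS'
  have e : (S : ℂ) * (x * y) - gi ((u * p - v * q) / S) ((u * q + v * p) / S) =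
      x * (S * y - gi p q) + gi p q * (S * x - gi u v) / S +
        (gi u v * gi p q / S - gi ((u * p - v * q) / S) ((u * q + v * p) / S)) := by
    field_simp
    ring
  rw [e]
  have h1 : ‖x * (S * y - gi p q)‖ ≤ ‖x‖ * ey := by
    rw [norm_mul]; exact mul_le_mul_of_nonneg_left hy (norm_nonneg _)
  have h2 : ‖gi p q * (S * x - gi u v) / S‖ ≤ ‖gi p q‖ * ex / S := by
    rw [norm_div, norm_mul, hSn]
    gcongr
  have h3 : ‖gi u v * gi p q / S - gi ((u * p - v * q) / S) ((u * q + v * p) / S)‖ ≤ 2 := by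
    rw [gi_mul]
    have h4 := Complex.norm_le_abs_re_add_abs_im
      (gi (u * p - v * q) (u * q + v * p) / (S : ℂ) -
        gi ((u * p - v * q) / S) ((u * q + v * p) / S))
    have e1 : (gi (u * p - v * q) (u * q + v * p) / (S : ℂ) -
        gi ((u * p - v * q) / S) ((u * q + v * p) / S)).re =
        ((u * p - v * q : ℤ) : ℝ) / S - (((u * p - v * q) / S : ℤ) : ℝ) := by
      rw [Complex.sub_re, gi_re]
      congr 1
      have : (S : ℂ) = ((S : ℝ) : ℂ) := by push_cast; rfl
      rw [this, Complex.div_ofReal_re, gi_re]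
    have e2 : (gi (u * p - v * q) (u * q + v * p) / (S : ℂ) -
        gi ((u * p - v * q) / S) ((u * q + v * p) / S)).im =
        ((u * q + v * p : ℤ) : ℝ) / S - (((u * q + v * p) / S : ℤ) : ℝ) := by
      rw [Complex.sub_im, gi_im]
      congr 1
      have : (S : ℂ) = ((S : ℝ) : ℂ) := by push_cast; rfl
      rw [this, Complex.div_ofReal_im, gi_im]
    rw [e1, e2] at h4
    have h5 := floor_err (a := u * p - v * q) hS
    have h6 := floor_err (a := u * q + v * p) hS
    linarith
  calc _ ≤ ‖x * (S * y - gi p q) + gi p q * (S * x - gi u v) / S‖ +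
        ‖gi u v * gi p q / S - gi ((u * p - v * q) / S) ((u * q + v * p) / S)‖ := norm_add_le _ _
    _ ≤ ‖x * (S * y - gi p q)‖ + ‖gi p q * (S * x - gi u v) / S‖ +
        ‖gi u v * gi p q / S - gi ((u * p - v * q) / S) ((u * q + v * p) / S)‖ := by
        gcongr; exact norm_add_le _ _
    _ ≤ _ := by linarith

/-- product of real approximations -/
lemma mul_near_real {S : ℤ} (hS : 0 < S) {x y : ℝ} {u p : ℤ} {ex ey : ℝ}
    (hx : |(S : ℝ) * x - u| ≤ ex) (hy : |(S : ℝ) * y - p| ≤ ey) :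
    |(S : ℝ) * (x * y) - ((u * p / S : ℤ) : ℝ)| ≤ |x| * ey + |(p : ℝ)| * ex / S + 1 := by
  have hS' : (0 : ℝ) < S := by exact_mod_cast hS
  have e : (S : ℝ) * (x * y) - ((u * p / S : ℤ) : ℝ) =
      x * (S * y - p) + p * (S * x - u) / S + (((u * p : ℤ) : ℝ) / S - ((u * p / S : ℤ) : ℝ)) := by
    push_cast
    field_simp
    ring
  rw [e]
  have h1 : |x * (S * y - p)| ≤ |x| * ey := by
    rw [abs_mul]; exact mul_le_mul_of_nonneg_left hy (abs_nonneg _)
  have h2 : |p * (S * x - u) / S| ≤ |(p : ℝ)| * ex / S := by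
    rw [abs_div, abs_mul, abs_of_pos hS']
    gcongr
  have h3 := floor_err (a := u * p) hS
  calc _ ≤ |x * (S * y - p) + p * (S * x - u) / S| +
        |((u * p : ℤ) : ℝ) / S - ((u * p / S : ℤ) : ℝ)| := abs_add_le _ _
    _ ≤ |x * (S * y - p)| + |p * (S * x - u) / S| +
        |((u * p : ℤ) : ℝ) / S - ((u * p / S : ℤ) : ℝ)| := by
        gcongr; exact abs_add_le _ _
    _ ≤ _ := by linarith

theorem run_sound {S G U V Gm K T1 eG eg : ℤ} {γ : ℝ} {g : ℂ} (hS : 0 < S) (hγ0 : 0 ≤ γ)
    (heG : 0 ≤ eG) (heg : 0 ≤ eg)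
    (hG : |(S : ℝ) * γ - G| ≤ eG) (hg : ‖(S : ℂ) * g - gi U V‖ ≤ eg)
    (hGm : (S : ℝ) * γ ≤ Gm) (hgm : S * ‖g‖ ≤ Gm) (hT1 : S ≤ T1)
    (hK : 2 * eG + eg * (2 * T1 / S + 1) + 3 ≤ K) :
    ∀ (n m : ℕ) (R P Q E : ℤ), |(S : ℝ) * r γ m - R| ≤ E → ‖(S : ℂ) * rc γ g m - gi P Q‖ ≤ E →
      0 ≤ E → 2 * E ≤ S → run S G U V Gm K T1 n R P Q E = true →
      ∃ m', (T1 : ℝ) ≤ S * ‖rc γ g m'‖ := by
  have hS' : (0 : ℝ) < S := by exact_mod_cast hS
  have hSn : ‖(S : ℂ)‖ = S := by
    rw [Complex.norm_intCast]; exact abs_of_pos hS'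
  intro n
  induction n with
  | zero => intro m R P Q E _ _ _ _ h; simp [run] at h
  | succ n ih =>
    intro m R P Q E hR hW hE0 hE2 h
    have hE0' : (0 : ℝ) ≤ E := by exact_mod_cast hE0
    have hE2' : 2 * (E : ℝ) ≤ S := by exact_mod_cast hE2
    rw [run] at h
    by_cases h1 : (T1 + E) * (T1 + E) ≤ P * P + Q * Q
    · refine ⟨m, ?_⟩
      have hT0 : (0 : ℝ) ≤ T1 + E := by
        have : (0 : ℝ) < T1 := by exact_mod_cast lt_of_lt_of_le hS hT1
        linarith
      have h2 : ((T1 : ℝ) + E) ≤ ‖gi P Q‖ := by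
        apply le_of_sq_le_sq _ (norm_nonneg _)
        rw [gi_normSq, sq]
        exact_mod_cast h1
      have h3 : ‖gi P Q‖ ≤ ‖(S : ℂ) * rc γ g m - gi P Q‖ + ‖(S : ℂ) * rc γ g m‖ := by
        have := norm_sub_norm_le (gi P Q) ((S : ℂ) * rc γ g m)
        rw [norm_sub_rev] at this
        linarith
      rw [norm_mul, hSn] at h3
      linarith
    · rw [if_neg h1] at h
      split_ifs at h with h2
      obtain ⟨h2a, h2b⟩ := h2
      set R1 : ℤ := G * R / S with hR1
      set c0 : ℤ := R1 / S with hc0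
      set E' : ℤ := Gm * E / S + K with hE'
      set R' : ℤ := R1 - c0 * S with hR'
      have hT1' : (S : ℝ) ≤ T1 := by exact_mod_cast hT1
      have heG' : (0 : ℝ) ≤ eG := by exact_mod_cast heG
      have heg' : (0 : ℝ) ≤ eg := by exact_mod_cast heg
      have hW2 : ‖gi P Q‖ ≤ T1 + E := by
        apply le_of_lt
        apply lt_of_pow_lt_pow_left₀ 2 (by linarith)
        rw [gi_normSq, sq]
        exact_mod_cast not_le.1 h1
      -- bound on `R`
      have hRb : |(R : ℝ)| ≤ 2 * S := by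
        have a1 := r_nonneg γ m
        have a2 := r_le_one γ m
        have a3 := abs_le.1 hR
        rw [abs_le]
        constructor <;> nlinarith
      -- the constant `K`
      have hKr : 2 * (eG : ℝ) + eg * ((T1 + E) / S) + 3 ≤ K := by
        have a1 := floor_ge (a := 2 * T1) hS
        have a2 : (2 * (eG : ℝ) + eg * (((2 * T1 / S : ℤ) : ℝ) + 1) + 3) ≤ K := by
          exact_mod_cast hK
        have a3 : ((T1 : ℝ) + E) / S ≤ ((2 * T1 / S : ℤ) : ℝ) + 1 := by
          push_cast at a1 ⊢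
          have : ((T1 : ℝ) + E) / S ≤ 2 * T1 / S := by
            gcongr; linarith
          linarith
        nlinarith
      have hE'r : (Gm : ℝ) * E / S + 2 * eG + eg * ((T1 + E) / S) + 2 ≤ E' := by
        have a1 := floor_ge (a := Gm * E) hS
        push_cast at a1 ⊢
        rw [hE']
        push_cast
        linarith
      have hxR : |(S : ℝ) * (γ * r γ m) - R1| ≤ E' := by
        have a1 := mul_near_real hS hG hR
        have a2 : |γ| * (E : ℝ) ≤ Gm * E / S := by
          rw [abs_of_nonneg hγ0, le_div_iff₀ hS']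
          nlinarith
        have a3 : |(R : ℝ)| * eG / S ≤ 2 * eG := by
          rw [div_le_iff₀ hS']
          nlinarith
        have a4 : 0 ≤ (eg : ℝ) * ((T1 + E) / S) :=
          mul_nonneg heg' (div_nonneg (by linarith) hS'.le)
        rw [hR1]
        linarith
      have hR'r : (R' : ℝ) = R1 - c0 * S := by rw [hR']; push_cast; ring
      have h2a' : (E' : ℝ) ≤ R' := by exact_mod_cast h2a
      have h2b' : (R' : ℝ) + E' < S := by exact_mod_cast h2b
      have hfl : ⌊γ * r γ m⌋ = c0 := by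
        rw [Int.floor_eq_iff]
        have a1 := abs_le.1 hxR
        constructor
        · have : (c0 : ℝ) * S ≤ S * (γ * r γ m) := by linarith [a1.1]
          nlinarith
        · have : S * (γ * r γ m) < ((c0 : ℝ) + 1) * S := by linarith [a1.2]
          nlinarith
      have hE'2 : 2 * E' ≤ S := by
        have : E' ≤ R' := h2a
        have : R' + E' < S := h2b
        omega
      have hE'0 : 0 ≤ E' := by
        have : (0 : ℝ) ≤ E' := by
          refine le_trans ?_ hE'r
          have b1 : (0 : ℝ) ≤ Gm := le_trans (by positivity) hGm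
          have b2 : 0 ≤ (eg : ℝ) * ((T1 + E) / S) :=
            mul_nonneg heg' (div_nonneg (by linarith) hS'.le)
          have b3 : 0 ≤ (Gm : ℝ) * E / S := by positivity
          linarith
        exact_mod_cast this
      refine ih (m + 1) R' ((U * P - V * Q) / S - c0 * S) ((U * Q + V * P) / S) E' ?_ ?_ hE'0 hE'2 h
      · rw [r, hfl, hR'r]
        have : (S : ℝ) * (γ * r γ m - c0) - (R1 - c0 * S) = S * (γ * r γ m) - R1 := by ring
        rw [this]
        exact hxR
      · rw [rc, hfl]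
        have a1 := mul_near hS hg hW
        have e1 : (S : ℂ) * (g * rc γ g m - (c0 : ℤ)) -
            gi ((U * P - V * Q) / S - c0 * S) ((U * Q + V * P) / S) =
            (S : ℂ) * (g * rc γ g m) - gi ((U * P - V * Q) / S) ((U * Q + V * P) / S) := by
          simp only [gi]
          push_cast
          ring
        rw [e1]
        refine a1.trans ?_
        have a2 : ‖g‖ * (E : ℝ) ≤ Gm * E / S := by
          rw [le_div_iff₀ hS']
          nlinarith
        have a3 : ‖gi P Q‖ * eg / S ≤ eg * ((T1 + E) / S) := by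
          rw [mul_div_assoc', div_le_div_iff_of_pos_right hS']
          nlinarith
        linarith

end Pool.Agent.R328.Theta
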