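import Pool.Agent.R328.ThetaNat

set_option autoImplicit false

namespace Pool.Agent.R328.Theta

open Pool.Agent.R341.Greedy Pool.Agent.R341.Powers

/-- one step of the kernel-friendly loop over `k`; `go` is the recursive call. -/
def stepN (s S m MM mSS a b F G eG U V eg Ag T1 UV : ℕ) (go : Bool) : Bool :=
  cond (Nat.ble S UV)
   (cond (Nat.ble (Nat.mul V b) (Nat.mul U a))
    (cond (Nat.ble 1 Ag)
      (cond (Nat.ble S T1)
        (cond (Nat.ble (Nat.add (Nat.mul UV (Nat.add T1 S)) (Nat.mul (Nat.add G 2) S)) mSS)
          (cond (Nat.ble (Nat.add T1 S) MM)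
            (cond (runF s S (Nat.mul 2 MM) (Nat.mul (Nat.mul 2 MM) MM) (Nat.sub (Nat.mul UV m) MM)
                G U V (Nat.add G eG)
                (Nat.add (Nat.add (Nat.mul 2 eG)
                  (Nat.mul eg (Nat.add (Nat.div (Nat.mul 2 T1) S) 1))) 3) T1 F S (Nat.add MM S) MM 0)
              go false) false) false) false) false) false) false

/-- Kernel-friendly version of `loopK`. -/
def loopN (s S SS m MM mSS B a b e1 F : ℕ) (n : ℕ) : ℕ → ℕ → ℕ → ℕ → ℕ → Bool :=
  Nat.rec (motive := fun _ => ℕ → ℕ → ℕ → ℕ → ℕ → Bool) (fun _ _ _ _ _ => false)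
    (fun _ ih G eG U V eg =>
      (fun (UV : ℕ) => (fun (N : ℕ) =>
        cond (Nat.ble (Nat.mul 26181 SS) (Nat.mul 10000 N)) true
          (cond (Nat.ble N SS) false
            ((fun (Ag D : ℕ) => (fun (T1 : ℕ) =>
              stepN s S m MM mSS a b F G eG U V eg Ag T1 UV
                (ih (Nat.div (Nat.mul G B) S)
                  (Nat.add (Nat.div (Nat.add (Nat.mul eG (Nat.add B 1)) G) S) 2)
                  (Nat.div (Nat.sub (Nat.mul U a) (Nat.mul V b)) S)
                  (Nat.div (Nat.add (Nat.mul U b) (Nat.mul V a)) S)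
                  (Nat.add (Nat.div (Nat.add (Nat.mul eg (Nat.add (Nat.add a b) e1))
                    (Nat.mul UV e1)) S) 3)))
              (Nat.add (Nat.div (Nat.mul (Nat.mul D S) S) Ag) 1))
              (Nat.div (Nat.mul (Nat.mul 2 S) (Nat.sub N SS)) (Nat.add N (Nat.mul 3 SS)))
              (Nat.div (Nat.add G eG) S))))
        (Nat.sub (Nat.add (Nat.mul U U) (Nat.mul V V)) (Nat.mul (Nat.mul 2 eg) UV)))
        (Nat.add U V)) n

lemma loopN_zero (s S SS m MM mSS B a b e1 F G eG U V eg : ℕ) :
    loopN s S SS m MM mSS B a b e1 F 0 G eG U V eg = false := rfl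

lemma loopN_succ (s S SS m MM mSS B a b e1 F n G eG U V eg : ℕ) :
    loopN s S SS m MM mSS B a b e1 F (n + 1) G eG U V eg =
      cond (Nat.ble (26181 * SS) (10000 * (U * U + V * V - 2 * eg * (U + V)))) true
        (cond (Nat.ble (U * U + V * V - 2 * eg * (U + V)) SS) false
          (stepN s S m MM mSS a b F G eG U V eg
            (2 * S * (U * U + V * V - 2 * eg * (U + V) - SS) /
              (U * U + V * V - 2 * eg * (U + V) + 3 * SS))
            ((G + eG) / S * S * S / (2 * S * (U * U + V * V - 2 * eg * (U + V) - SS) /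
              (U * U + V * V - 2 * eg * (U + V) + 3 * SS)) + 1) (U + V)
            (loopN s S SS m MM mSS B a b e1 F n (G * B / S) ((eG * (B + 1) + G) / S + 2)
              ((U * a - V * b) / S) ((U * b + V * a) / S)
              ((eg * (a + b + e1) + (U + V) * e1) / S + 3)))) := rfl

lemma stepN_eq (s S m MM mSS a b F G eG U V eg Ag T1 UV : ℕ) (go : Bool) :
    stepN s S m MM mSS a b F G eG U V eg Ag T1 UV go =
     cond (Nat.ble S UV)
     (cond (Nat.ble (V * b) (U * a))
      (cond (Nat.ble 1 Ag)
        (cond (Nat.ble S T1)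
          (cond (Nat.ble (UV * (T1 + S) + (G + 2) * S) mSS)
            (cond (Nat.ble (T1 + S) MM)
              (cond (runF s S (2 * MM) (2 * MM * MM) (UV * m - MM)
                  G U V (G + eG)
                  (2 * eG + eg * (2 * T1 / S + 1) + 3) T1 F S (MM + S) MM 0)
                go false) false) false) false) false) false) false := rfl

lemma cond_true_iff {c x : Bool} : cond c x false = true ↔ c = true ∧ x = true := by
  cases c <;> simp

theorem loopN_loopK {s S m B a b e1 F : ℕ} (hs : S = 2 ^ s) (hm : 1 ≤ m) :
    ∀ (n G eG U V eg : ℕ),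
      loopN s S (S * S) m (m * S) (m * S * S) B a b e1 F n G eG U V eg = true →
      loopK S B a b e1 F n G eG U V eg = true := by
  have hS : 0 < S := by rw [hs]; positivity
  intro n
  induction n with
  | zero => intro G eG U V eg h; simp [loopN_zero] at h
  | succ n ih =>
    intro G eG U V eg h
    rw [loopN_succ] at h
    rw [loopK]
    set N := U * U + V * V - 2 * eg * (U + V) with hN
    have hNf : S * S < N → (Nf U V eg : ℤ) = (N : ℤ) := by
      intro hlt
      have h1 : 2 * eg * (U + V) ≤ U * U + V * V := by
        by_contra hcon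
        push Not at hcon
        have : N = 0 := by rw [hN]; omega
        omega
      rw [Nf, hN, Nat.cast_sub h1]
      push_cast
      rw [abs_of_nonneg (show (0 : ℤ) ≤ U by positivity),
        abs_of_nonneg (show (0 : ℤ) ≤ V by positivity)]
    cases h1 : Nat.ble (26181 * (S * S)) (10000 * N) with
    | true =>
      rw [Nat.ble_eq] at h1
      have h2 : S * S < N := by
        have : 0 < S * S := by positivity
        generalize S * S = T at *
        clear_value N
        omega
      rw [if_pos]
      rw [hNf h2]
      exact_mod_cast h1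
    | false =>
      rw [h1, cond_false] at h
      rw [Bool.eq_false_iff, Ne, Nat.ble_eq] at h1
      cases h2 : Nat.ble N (S * S) with
      | true => rw [h2] at h; simp at h
      | false =>
        rw [h2, cond_false, stepN_eq] at h
        rw [Bool.eq_false_iff, Ne, Nat.ble_eq] at h2
        push Not at h2
        simp only [cond_true_iff, Nat.ble_eq] at h
        obtain ⟨hUV, hVb, hAg, hST, hb1, hb2, hrun, hgo⟩ := h
        have hNz := hNf h2
        rw [if_neg (by rw [hNz]; exact_mod_cast h1)]
        set Ag := 2 * S * (N - S * S) / (N + 3 * (S * S)) with hAgd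
        set T1 := (G + eG) / S * S * S / Ag + 1 with hT1d
        have eAg : Agf (S : ℤ) (N : ℤ) = (Ag : ℤ) := by
          rw [Agf, hAgd, Int.natCast_div, Nat.cast_mul, Nat.cast_sub h2.le]
          push_cast
          ring
        have eD : ((G : ℤ) + eG) / S = (((G + eG) / S : ℕ) : ℤ) := by
          rw [Int.natCast_div]; push_cast; ring
        have eT1 : T1f (S : ℤ) (Ag : ℤ) (((G + eG) / S : ℕ) : ℤ) = (T1 : ℤ) := by
          rw [T1f, hT1d, Nat.cast_add, Int.natCast_div]
          push_cast
          ring
        have hchk : chkK S F G eG U V eg = true := by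
          simp only [chkK, hNz, eAg, eD, eT1, Bool.and_eq_true, decide_eq_true_eq]
          refine ⟨⟨⟨by exact_mod_cast h2, by exact_mod_cast hAg⟩, by exact_mod_cast hST⟩, ?_⟩
          have hUVm : m * S ≤ (U + V) * m := by
            rw [Nat.mul_comm]; exact Nat.mul_le_mul_right _ hUV
          have := runF_run (s := s) (S := S) (m := m) (H := (U + V) * m - m * S) (G := G) (U := U)
            (V := V) (Gm := G + eG) (K := 2 * eG + eg * (2 * T1 / S + 1) + 3) (T1 := T1) hs
            (by omega) hb1 hb2 F S (m * S + S) (m * S) 0 le_rfl (Nat.zero_le _) hrun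
          push_cast at this
          convert this using 2
          · ring
          · ring
        rw [if_pos hchk]
        have := ih _ _ _ _ _ hgo
        push_cast [Nat.cast_sub hVb] at this
        rw [abs_of_nonneg (show (0 : ℤ) ≤ a by positivity),
          abs_of_nonneg (show (0 : ℤ) ≤ b by positivity),
          abs_of_nonneg (show (0 : ℤ) ≤ U by positivity),
          abs_of_nonneg (show (0 : ℤ) ≤ V by positivity)]
        exact this

end Pool.Agent.R328.Theta
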