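import Mathlib
import Pool.Agent.R328.UE

/-!
# The one-variable inequality for pairs of polynomials
-/

set_option autoImplicit false

open Polynomial MeasureTheory

namespace Pool.Agent.R328.GD

open Pool.Agent.H261R2.CM

noncomputable section

lemma log_cont2 (p1 p2 : ℂ[X]) {δ : ℝ} (hδ : 0 < δ) :
    Continuous fun t : ℝ => Real.log (‖p1.eval (ez t)‖ ^ 2 + (‖p2.eval (ez t)‖ ^ 2 + δ)) := by
  apply Continuous.log
  · exact ((p1.continuous.comp D_continuous_ez).norm.pow 2).add
      (((p2.continuous.comp D_continuous_ez).norm.pow 2).add continuous_const)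
  · intro t
    positivity

/-- the inequality for pairs -/
theorem two_var (p1 p2 : ℂ[X]) {s : ℕ} (hs : s ≠ 0)
    (hw : ∀ j, j < s → p1.coeff 0 * p2.coeff j = p1.coeff j * p2.coeff 0)
    (h0 : p1.coeff 0 ≠ 0) {δ : ℝ} (hδ : 0 < δ) :
    Real.log (‖p1.coeff 0‖ ^ 2 + ‖p2.coeff 0‖ ^ 2) +
      Real.log (1 + ‖p1.coeff 0 * p2.coeff s - p1.coeff s * p2.coeff 0‖ ^ 2 /
        (‖p1.coeff 0‖ ^ 2 + ‖p2.coeff 0‖ ^ 2) ^ 2) ≤
      ∫ t in (0:ℝ)..1, Real.log (‖p1.eval (ez t)‖ ^ 2 + (‖p2.eval (ez t)‖ ^ 2 + δ)) := by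
  set I : ℝ := ∫ t in (0:ℝ)..1, Real.log (‖p1.eval (ez t)‖ ^ 2 + (‖p2.eval (ez t)‖ ^ 2 + δ)) with hI
  set a := p1.coeff 0 with ha
  set b := p2.coeff 0 with hb
  set W := a * p2.coeff s - p1.coeff s * b with hW
  set A : ℝ := ‖a‖ ^ 2 + ‖b‖ ^ 2 with hA
  have ha0 : 0 < ‖a‖ := norm_pos_iff.mpr h0
  have hA0 : 0 < A := by positivity
  set T : ℝ := A + ‖W‖ ^ 2 / A with hT
  have hT0 : 0 < T := by positivity
  have e1 : Real.log A + Real.log (1 + ‖W‖ ^ 2 / A ^ 2) = Real.log T := by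
    rw [← Real.log_mul hA0.ne' (by positivity)]
    congr 1
    rw [hT]
    field_simp
  rw [e1]
  apply le_of_forall_pos_le_add
  intro η hη
  set ε : ℝ := η / 4 with hε
  have hε0 : 0 < ε := by positivity
  set ψ : ℝ → ℝ := fun t => -(1 / 2) *
    Real.log (‖p1.eval (ez t)‖ ^ 2 + (‖p2.eval (ez t)‖ ^ 2 + δ)) with hψ
  have hψc : Continuous ψ := (log_cont2 p1 p2 hδ).const_mul _
  have hper : Function.Periodic ψ 1 := by
    intro t
    simp only [hψ, ez_per]
  obtain ⟨q, hq1, hq2⟩ := exp_poly_approx ψ hψc hper ε hε0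
  have hint : ∫ t in (0:ℝ)..1, ψ t = -(1 / 2) * I := by
    simp only [hψ]
    rw [intervalIntegral.integral_const_mul]
  rw [hint] at hq2
  -- masses
  have hm : mass (q * p1) + mass (q * p2) ≤ Real.exp (2 * ε) := by
    unfold mass
    rw [parseval, parseval, ← intervalIntegral.integral_add]
    · calc ∫ t in (0:ℝ)..1, (‖(q * p1).eval (ez t)‖ ^ 2 + ‖(q * p2).eval (ez t)‖ ^ 2)
          ≤ ∫ t in (0:ℝ)..1, Real.exp (2 * ε) := by
            apply intervalIntegral.integral_mono_on zero_le_one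
            · apply Continuous.intervalIntegrable
              exact (((q * p1).continuous.comp D_continuous_ez).norm.pow 2).add
                (((q * p2).continuous.comp D_continuous_ez).norm.pow 2)
            · exact intervalIntegrable_const
            · intro t _
              have hW : 0 < ‖p1.eval (ez t)‖ ^ 2 + (‖p2.eval (ez t)‖ ^ 2 + δ) := by positivity
              have h1 := (hq1 t).2
              have h2 : ‖q.eval (ez t)‖ ^ 2 ≤ Real.exp (2 * ε) /
                  (‖p1.eval (ez t)‖ ^ 2 + (‖p2.eval (ez t)‖ ^ 2 + δ)) := by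
                calc ‖q.eval (ez t)‖ ^ 2 ≤ Real.exp (ψ t + ε) ^ 2 :=
                      pow_le_pow_left₀ (norm_nonneg _) h1 2
                  _ = Real.exp (2 * ε) / (‖p1.eval (ez t)‖ ^ 2 + (‖p2.eval (ez t)‖ ^ 2 + δ)) := by
                      rw [← Real.exp_nat_mul, eq_div_iff hW.ne']
                      have e3 : ((2 : ℕ) : ℝ) * (ψ t + ε) =
                          2 * ε - Real.log (‖p1.eval (ez t)‖ ^ 2 + (‖p2.eval (ez t)‖ ^ 2 + δ)) := by
                        simp only [hψ]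
                        push_cast
                        ring
                      rw [e3, Real.exp_sub, Real.exp_log hW, div_mul_cancel₀ _ hW.ne']
              rw [le_div_iff₀ hW] at h2
              rw [eval_mul, eval_mul, norm_mul, norm_mul]
              have h3 : 0 ≤ ‖q.eval (ez t)‖ ^ 2 * δ := by positivity
              nlinarith
        _ = Real.exp (2 * ε) := by simp
    · apply Continuous.intervalIntegrable
      exact (((q * p1).continuous.comp D_continuous_ez).norm.pow 2)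
    · apply Continuous.intervalIntegrable
      exact (((q * p2).continuous.comp D_continuous_ez).norm.pow 2)
  have h1 : (q * p1).coeff 0 = q.coeff 0 * a := mul_coeff_zero q p1
  have h2 : (q * p2).coeff 0 = q.coeff 0 * b := mul_coeff_zero q p2
  have h3 : a * (q * p2).coeff s - b * (q * p1).coeff s = q.coeff 0 * W := by
    have e2 : a * (q * p2).coeff s - b * (q * p1).coeff s =
        (q * (C a * p2 - C b * p1)).coeff s := by
      rw [mul_sub, mul_left_comm, mul_left_comm q (C b), coeff_sub, coeff_C_mul, coeff_C_mul]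
    rw [e2, coeff_mul, Finset.sum_eq_single (0, s)]
    · simp only [coeff_sub, coeff_C_mul]
      rw [hW]
      ring
    · rintro ⟨i, j⟩ hij hn
      rw [Finset.HasAntidiagonal.mem_antidiagonal] at hij
      dsimp only at hij ⊢
      have hj : j < s := by
        rcases Nat.eq_zero_or_pos i with h | h
        · exfalso
          apply hn
          rw [Prod.mk.injEq]
          exact ⟨h, by omega⟩
        · omega
      rw [coeff_sub, coeff_C_mul, coeff_C_mul, hw j hj]
      ring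
    · intro h
      exfalso
      apply h
      rw [Finset.HasAntidiagonal.mem_antidiagonal]
      simp
  have m1 := mass_ge_two (q * p1) hs
  have m2 := mass_ge_two (q * p2) hs
  rw [h1] at m1
  rw [h2] at m2
  set q0 := q.coeff 0 with hq0
  set c1 := (q * p1).coeff s with hc1
  set c2 := (q * p2).coeff s with hc2
  -- Cauchy-Schwarz
  have h4 : ‖q0‖ ^ 2 * (‖W‖ ^ 2 / A) ≤ ‖c1‖ ^ 2 + ‖c2‖ ^ 2 := by
    have h5 : ‖q0‖ * ‖W‖ ≤ ‖a‖ * ‖c2‖ + ‖b‖ * ‖c1‖ := by
      rw [← norm_mul, ← norm_mul, ← norm_mul, ← h3]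
      exact norm_sub_le _ _
    have h6 : (‖q0‖ * ‖W‖) ^ 2 ≤ (‖a‖ * ‖c2‖ + ‖b‖ * ‖c1‖) ^ 2 :=
      pow_le_pow_left₀ (by positivity) h5 2
    rw [← mul_div_assoc, div_le_iff₀ hA0, hA]
    nlinarith [sq_nonneg (‖a‖ * ‖c1‖ - ‖b‖ * ‖c2‖)]
  have h5 : ‖q0‖ ^ 2 * T ≤ Real.exp (2 * ε) := by
    have e2 : ‖q0‖ ^ 2 * T = ‖q0 * a‖ ^ 2 + ‖q0 * b‖ ^ 2 + ‖q0‖ ^ 2 * (‖W‖ ^ 2 / A) := by
      rw [hT, hA, norm_mul, norm_mul]
      ring
    rw [e2]
    linarith
  have h6 : Real.exp (-I - 2 * ε) ≤ ‖q0‖ ^ 2 := by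
    calc Real.exp (-I - 2 * ε) = Real.exp (-(1 / 2) * I - ε) ^ 2 := by
          rw [← Real.exp_nat_mul]
          congr 1
          push_cast
          ring
      _ ≤ ‖q0‖ ^ 2 := pow_le_pow_left₀ (Real.exp_pos _).le hq2 2
  have h7 : Real.exp (-I - 2 * ε) * T ≤ Real.exp (2 * ε) :=
    (mul_le_mul_of_nonneg_right h6 hT0.le).trans h5
  have h8 := Real.log_le_log (by positivity) h7
  rw [Real.log_mul (Real.exp_pos _).ne' hT0.ne', Real.log_exp, Real.log_exp] at h8
  linarith

end

end Pool.Agent.R328.GD
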