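import Mathlib
import Pool.Agent.R328.VA

/-!
# The first difference of two polynomials, and the growth with a constant weight
-/

set_option autoImplicit false

open MeasureTheory Module

namespace Pool.Agent.R328.GD

open Pool.Agent.H261R2.CM

noncomputable section

variable {k : ℕ}

lemma lev_sub (w : Fin k → ℤ) (n : ℤ) (A B : MvPolynomial (Fin k) ℤ) :
    lev w n (A - B) = lev w n A - lev w n B := by
  ext m
  rw [MvPolynomial.coeff_sub, coeff_lev, coeff_lev, coeff_lev, MvPolynomial.coeff_sub]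
  split_ifs <;> simp

lemma wt_add (w : Fin k → ℤ) (a b : Fin k →₀ ℕ) : wt w (a + b) = wt w a + wt w b := by
  unfold wt
  rw [← Finset.sum_add_distrib]
  refine Finset.sum_congr rfl fun i _ => ?_
  rw [Finsupp.add_apply]
  push_cast
  ring

lemma lev_mono_mul (w : Fin k → ℤ) (n : ℤ) (b : Fin k →₀ ℕ) (c : ℤ) (A : MvPolynomial (Fin k) ℤ) :
    lev w (wt w b + n) (MvPolynomial.monomial b c * A) = MvPolynomial.monomial b c * lev w n A := by
  classical
  ext m
  rw [coeff_lev, MvPolynomial.coeff_monomial_mul', MvPolynomial.coeff_monomial_mul', coeff_lev]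
  by_cases h : b ≤ m
  · rw [if_pos h, if_pos h]
    have e : wt w m = wt w b + wt w (m - b) := by
      rw [← wt_add, add_tsub_cancel_of_le h]
    by_cases h2 : wt w (m - b) = n
    · rw [if_pos (by rw [e, h2]), if_pos h2]
    · rw [if_neg (fun h3 => h2 (by linarith)), if_neg h2, mul_zero]
  · rw [if_neg h, if_neg h]
    split_ifs <;> rfl

lemma tv_mono_mul (b : Fin k →₀ ℕ) (c : ℤ) (A : MvPolynomial (Fin k) ℤ) (t : Fin k → ℝ) :
    tv (MvPolynomial.monomial b c * A) t = ((c : ℤ) : ℂ) * chi b t * tv A t := by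
  rw [J.tv_eq, map_mul, ← J.tv_eq, ← J.tv_eq]
  congr 1
  exact J.tv_monomial b c t

lemma norm_chi (m : Fin k →₀ ℕ) (t : Fin k → ℝ) : ‖chi m t‖ = 1 := by
  unfold chi
  rw [norm_prod]
  apply Finset.prod_eq_one
  intro i _
  rw [norm_pow]
  have : ‖J.zz t i‖ = 1 := by
    have h : J.zz t i = ez (t i) := rfl
    rw [h, norm_ez]
  rw [this, one_pow]

/-- the difference `c_b x ^ b A - c_a x ^ a B` -/
def nn (A B : MvPolynomial (Fin k) ℤ) (a b : Fin k →₀ ℕ) : MvPolynomial (Fin k) ℤ :=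
  MvPolynomial.monomial b (B.coeff b) * A - MvPolynomial.monomial a (A.coeff a) * B

lemma lev_nn (w : Fin k → ℤ) (A B : MvPolynomial (Fin k) ℤ) (a b : Fin k →₀ ℕ) (j : ℤ) :
    lev w (wt w a + wt w b + j) (nn A B a b) =
      MvPolynomial.monomial b (B.coeff b) * lev w (wt w a + j) A -
        MvPolynomial.monomial a (A.coeff a) * lev w (wt w b + j) B := by
  unfold nn
  rw [lev_sub, ← lev_mono_mul, ← lev_mono_mul]
  congr 2 <;> ring

/-- the constant-weight mean -/
def Lc (A : MvPolynomial (Fin k) ℤ) (δ : ℝ) : ℝ :=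
  ∫ t in Set.Icc (0 : Fin k → ℝ) 1, Real.log (‖tv A t‖ ^ 2 + δ)

lemma cont_Lc (A : MvPolynomial (Fin k) ℤ) {δ : ℝ} (hδ : 0 < δ) :
    Continuous fun t => Real.log (‖tv A t‖ ^ 2 + δ) := by
  apply Continuous.log
  · exact cont_c A δ
  · intro t
    positivity

/-- the first difference -/
theorem first_diff {w : Fin k → ℤ} {A B : MvPolynomial (Fin k) ℤ} {a b : Fin k →₀ ℕ}
    (ha : lev w (wt w a) A = MvPolynomial.monomial a (A.coeff a))
    (hb : lev w (wt w b) B = MvPolynomial.monomial b (B.coeff b))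
    (ha0 : A.coeff a ≠ 0)
    (hA : ∀ m ∈ A.support, wt w a ≤ wt w m) (hB : ∀ m ∈ B.support, wt w b ≤ wt w m)
    {s : ℕ} (hs : s ≠ 0) (hz : ∀ j : ℕ, j < s → lev w (wt w a + wt w b + j) (nn A B a b) = 0)
    {δ : ℝ} (hδ : 0 < δ) {D : ℝ} (hD : D = ((A.coeff a : ℤ) : ℝ) ^ 2 + ((B.coeff b : ℤ) : ℝ) ^ 2) :
    Lc (lev w (wt w a + wt w b + s) (nn A B a b)) (D ^ 2) - Real.log D ≤ Ld A B δ := by
  set N := lev w (wt w a + wt w b + s) (nn A B a b) with hN
  have hD0 : 0 < D := by
    have : ((A.coeff a : ℤ) : ℝ) ≠ 0 := by exact_mod_cast ha0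
    rw [hD]
    positivity
  set Φ : UnitAddTorus (Fin k) → ℝ := fun x =>
    Real.log (‖F_G A x‖ ^ 2 + (‖F_G B x‖ ^ 2 + δ)) with hΦ
  have hΦc : Continuous Φ := by
    apply Continuous.log
    · exact ((F_G A).continuous.norm.pow 2).add (((F_G B).continuous.norm.pow 2).add continuous_const)
    · intro x
      positivity
  have e1 : ∀ t, Φ (F_pt t) = Real.log (‖tv A t‖ ^ 2 + (‖tv B t‖ ^ 2 + δ)) := by
    intro t
    simp only [hΦ, F_tv]
  have h1 := slice Φ hΦc w
  have e2 : ∫ t in Set.Icc (0 : Fin k → ℝ) 1, Φ (F_pt t) = Ld A B δ := by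
    unfold Ld
    simp only [e1]
  rw [e2] at h1
  rw [h1]
  have hcont : Continuous fun t : Fin k → ℝ => ∫ x in (0:ℝ)..1, Φ (F_pt (sh w t x)) := by
    apply intervalIntegral.continuous_parametric_intervalIntegral_of_continuous'
    exact hΦc.comp (F_continuous_pt.comp (sh_cont w))
  have hc1 : Continuous fun t : Fin k → ℝ => Real.log (‖tv N t‖ ^ 2 + D ^ 2) :=
    cont_Lc N (by positivity)
  have h2 : ∫ t in Set.Icc (0 : Fin k → ℝ) 1, (Real.log (‖tv N t‖ ^ 2 + D ^ 2) - Real.log D) ≤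
      ∫ t in Set.Icc (0 : Fin k → ℝ) 1, ∫ x in (0:ℝ)..1, Φ (F_pt (sh w t x)) := by
    apply integral_mono (hc1.sub continuous_const).integrableOn_Icc hcont.integrableOn_Icc
    intro t
    have k0 : ∀ j : ℕ, (sp w (wt w a) A t).coeff j = tv (lev w (wt w a + j) A) t :=
      fun j => coeff_sp hA t j
    have k1 : ∀ j : ℕ, (sp w (wt w b) B t).coeff j = tv (lev w (wt w b + j) B) t :=
      fun j => coeff_sp hB t j
    have k2 : (sp w (wt w a) A t).coeff 0 = ((A.coeff a : ℤ) : ℂ) * chi a t := by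
      rw [k0, Nat.cast_zero, add_zero, ha]
      have := tv_mono_mul a (A.coeff a) 1 t
      rw [mul_one] at this
      rw [this, J.tv_eq, map_one, mul_one]
    have k3 : (sp w (wt w b) B t).coeff 0 = ((B.coeff b : ℤ) : ℂ) * chi b t := by
      rw [k1, Nat.cast_zero, add_zero, hb]
      have := tv_mono_mul b (B.coeff b) 1 t
      rw [mul_one] at this
      rw [this, J.tv_eq, map_one, mul_one]
    have k4 : ∀ j : ℕ, tv (lev w (wt w a + wt w b + j) (nn A B a b)) t =
        (sp w (wt w a) A t).coeff j * (sp w (wt w b) B t).coeff 0 -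
          (sp w (wt w a) A t).coeff 0 * (sp w (wt w b) B t).coeff j := by
      intro j
      have k5 : ∀ X Y : MvPolynomial (Fin k) ℤ, tv (X - Y) t = tv X t - tv Y t := by
        intro X Y
        rw [J.tv_eq, J.tv_eq, J.tv_eq, map_sub]
      rw [lev_nn, k5, tv_mono_mul, tv_mono_mul, ← k2, ← k3, ← k0, ← k1]
      ring
    have k6 : ‖((A.coeff a : ℤ) : ℂ) * chi a t‖ ^ 2 = ((A.coeff a : ℤ) : ℝ) ^ 2 := by
      rw [norm_mul, norm_chi, mul_one, Complex.norm_intCast, sq_abs]
    have k7 : ‖((B.coeff b : ℤ) : ℂ) * chi b t‖ ^ 2 = ((B.coeff b : ℤ) : ℝ) ^ 2 := by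
      rw [norm_mul, norm_chi, mul_one, Complex.norm_intCast, sq_abs]
    have h3 := two_var (sp w (wt w a) A t) (sp w (wt w b) B t) hs (fun j hj => by
      have h4 := k4 j
      rw [hz j hj] at h4
      have h5 : tv (0 : MvPolynomial (Fin k) ℤ) t = 0 := by rw [J.tv_eq, map_zero]
      rw [h5] at h4
      linear_combination h4) (by
        rw [k2]
        intro h
        have h8 := k6
        rw [h, norm_zero] at h8
        have h10 : ((A.coeff a : ℤ) : ℝ) ≠ 0 := by exact_mod_cast ha0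
        have h9 : 0 < ((A.coeff a : ℤ) : ℝ) ^ 2 := by positivity
        rw [← h8] at h9
        norm_num at h9) hδ
    have k8 : ‖(sp w (wt w a) A t).coeff 0 * (sp w (wt w b) B t).coeff s -
        (sp w (wt w a) A t).coeff s * (sp w (wt w b) B t).coeff 0‖ = ‖tv N t‖ := by
      rw [hN, k4 s, ← norm_neg]
      congr 1
      ring
    rw [k8, k2, k3, k6, k7, ← hD] at h3
    have k9 : Real.log (‖tv N t‖ ^ 2 + D ^ 2) - Real.log D =
        Real.log D + Real.log (1 + ‖tv N t‖ ^ 2 / D ^ 2) := by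
      have : ‖tv N t‖ ^ 2 + D ^ 2 = D ^ 2 * (1 + ‖tv N t‖ ^ 2 / D ^ 2) := by
        field_simp
        ring
      rw [this, Real.log_mul (by positivity) (by positivity), Real.log_pow]
      push_cast
      ring
    change Real.log (‖tv N t‖ ^ 2 + D ^ 2) - Real.log D ≤ _
    rw [k9]
    refine h3.trans (le_of_eq ?_)
    apply intervalIntegral.integral_congr
    intro x _
    simp only [e1, norm_sp hA, norm_sp hB]
  refine le_trans (le_of_eq ?_) h2
  rw [integral_sub hc1.integrableOn_Icc (integrable_const _), integral_const, probReal_univ, one_smul]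
  rfl

/-! ### growth with a constant weight -/

lemma Lc_base {A : MvPolynomial (Fin k) ℤ} (hA : A ≠ 0) {δ : ℝ} (hδ : 0 < δ) :
    Real.log (1 + δ) ≤ Lc A δ := by
  set μ := (volume : Measure (Fin k → ℝ)).restrict (Set.Icc (0 : Fin k → ℝ) 1) with hμ
  have i1 : Integrable (fun t => Real.log ‖tv A t‖) μ := F_integrable hA
  set y : ℝ := -Real.log δ with hy
  set θ : ℝ := Real.exp y / (1 + Real.exp y) with hθ
  have hθ0 : 0 ≤ θ := by positivity
  have hey : Real.exp y = δ⁻¹ := by rw [hy, Real.exp_neg, Real.exp_log hδ]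
  have e0 : Real.log (1 + δ) = Real.log δ + Real.log (1 + Real.exp y) := by
    rw [hey, ← Real.log_mul hδ.ne' (by positivity)]
    congr 1
    field_simp
    ring
  have h1 : ∫ t, (Real.log (1 + δ) + 2 * θ * Real.log ‖tv A t‖) ∂μ ≤ Lc A δ := by
    unfold Lc
    apply integral_mono_ae ((integrable_const _).add (i1.const_mul _)) (cont_Lc A hδ).integrableOn_Icc
    filter_upwards [F_zero_null hA] with t ht
    have ha : 0 < ‖tv A t‖ := norm_pos_iff.mpr ht
    simp only [Pi.add_apply]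
    have h2 := tangent (2 * Real.log ‖tv A t‖ + y) y
    have h3 : Real.log (‖tv A t‖ ^ 2 + δ) =
        Real.log δ + Real.log (1 + Real.exp (2 * Real.log ‖tv A t‖ + y)) := by
      rw [Real.exp_add, hey, two_mul, Real.exp_add, Real.exp_log ha,
        ← Real.log_mul hδ.ne' (by positivity)]
      congr 1
      field_simp
      ring
    rw [h3, e0]
    rw [← hθ] at h2
    have h4 : θ * (2 * Real.log ‖tv A t‖ + y - y) = 2 * θ * Real.log ‖tv A t‖ := by ring
    rw [h4] at h2
    linarith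
  rw [integral_add (integrable_const _) (i1.const_mul _), integral_const_mul, integral_const,
    probReal_univ, one_smul] at h1
  have h2 : 0 ≤ ∫ t, Real.log ‖tv A t‖ ∂μ := by
    have := one_le_mM A hA
    unfold mM at this
    rwa [Real.one_le_exp_iff] at this
  have : 0 ≤ 2 * θ * ∫ t, Real.log ‖tv A t‖ ∂μ := by positivity
  linarith

/-- Jensen's inequality -/
lemma Lc_jensen {a b : MvPolynomial (Fin k) ℤ} (hb : b ≠ 0) {δ : ℝ} (hδ : 0 < δ) :
    Real.log (1 + δ * Real.exp (-2 * Lc a δ)) ≤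
      ∫ t in Set.Icc (0 : Fin k → ℝ) 1,
        Real.log (1 + ‖tv b t‖ ^ 2 * δ / (‖tv a t‖ ^ 2 + δ) ^ 2) := by
  set ℓ := Lc a δ with hℓ
  set y : ℝ := Real.log δ - 2 * ℓ with hy
  have hey : Real.exp y = δ * Real.exp (-2 * ℓ) := by
    rw [hy, sub_eq_add_neg, Real.exp_add, Real.exp_log hδ]
    congr 2
    ring
  rw [← hey]
  set θ : ℝ := Real.exp y / (1 + Real.exp y) with hθ
  have hθ0 : 0 ≤ θ := by positivity
  set μ := (volume : Measure (Fin k → ℝ)).restrict (Set.Icc (0 : Fin k → ℝ) 1) with hμ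
  set X : (Fin k → ℝ) → ℝ := fun t => 2 * Real.log ‖tv b t‖ + Real.log δ -
    2 * Real.log (‖tv a t‖ ^ 2 + δ) with hX
  have i1 : Integrable (fun t => Real.log ‖tv b t‖) μ := F_integrable hb
  have i3 : Integrable (fun t => Real.log (‖tv a t‖ ^ 2 + δ)) μ := (cont_Lc a hδ).integrableOn_Icc
  have i12 : Integrable (fun t => 2 * Real.log ‖tv b t‖ + Real.log δ) μ :=
    (i1.const_mul 2).add (integrable_const _)
  have iX : Integrable X μ := i12.sub (i3.const_mul 2)
  have hIX : y ≤ ∫ t, X t ∂μ := by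
    have e1 : ∫ t, X t ∂μ = 2 * ∫ t, Real.log ‖tv b t‖ ∂μ + Real.log δ -
        2 * ∫ t, Real.log (‖tv a t‖ ^ 2 + δ) ∂μ := by
      simp only [hX]
      rw [integral_sub i12 (i3.const_mul 2),
        integral_add (i1.const_mul 2) (integrable_const _), integral_const_mul, integral_const_mul,
        integral_const, probReal_univ, one_smul]
    have e2 : 0 ≤ ∫ t, Real.log ‖tv b t‖ ∂μ := by
      have := one_le_mM b hb
      unfold mM at this
      rwa [Real.one_le_exp_iff] at this
    have e4 : ∫ t, Real.log (‖tv a t‖ ^ 2 + δ) ∂μ = ℓ := rfl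
    rw [e1, e4]
    linarith
  have hlow : ∫ t, (Real.log (1 + Real.exp y) + θ * (X t - y)) ∂μ ≤
      ∫ t, Real.log (1 + ‖tv b t‖ ^ 2 * δ / (‖tv a t‖ ^ 2 + δ) ^ 2) ∂μ := by
    apply integral_mono_ae
    · exact (integrable_const _).add ((iX.sub (integrable_const _)).const_mul θ)
    · apply Continuous.integrableOn_Icc
      apply Continuous.log
      · apply continuous_const.add
        apply Continuous.div
        · exact ((F_continuous_tv b).norm.pow 2).mul continuous_const
        · exact (cont_c a δ).pow 2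
        · intro t
          positivity
      · intro t
        positivity
    · filter_upwards [F_zero_null hb] with t ht
      have hb0 : 0 < ‖tv b t‖ := norm_pos_iff.mpr ht
      have ha0 : 0 < ‖tv a t‖ ^ 2 + δ := by positivity
      have e5 : ‖tv b t‖ ^ 2 * δ / (‖tv a t‖ ^ 2 + δ) ^ 2 = Real.exp (X t) := by
        rw [← Real.exp_log (show 0 < ‖tv b t‖ ^ 2 * δ / (‖tv a t‖ ^ 2 + δ) ^ 2 by positivity)]
        congr 1
        rw [Real.log_div (by positivity) (by positivity), Real.log_mul (by positivity) hδ.ne',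
          Real.log_pow, Real.log_pow]
        simp only [hX]
        push_cast
        ring
      rw [e5]
      exact tangent (X t) y
  refine le_trans ?_ hlow
  have i4 : Integrable (fun t => X t - y) μ := iX.sub (integrable_const _)
  rw [integral_add (integrable_const _) (i4.const_mul θ),
    integral_const_mul, integral_sub iX (integrable_const _)]
  have hp : ∀ c : ℝ, ∫ _t, c ∂μ = c := by
    intro c
    rw [integral_const, probReal_univ, one_smul]
  rw [hp, hp]
  have : 0 ≤ θ * (∫ t, X t ∂μ - y) := mul_nonneg hθ0 (by linarith)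
  linarith

/-- one step -/
theorem Lc_step {w : Fin k → ℤ} {n0 : ℤ} {A : MvPolynomial (Fin k) ℤ}
    (hmin : ∀ m ∈ A.support, n0 ≤ wt w m) {s : ℕ} (hs : s ≠ 0)
    (hgap : ∀ m ∈ A.support, n0 < wt w m → n0 + s ≤ wt w m)
    (hb : lev w (n0 + s) A ≠ 0) {δ : ℝ} (hδ : 0 < δ) :
    Lc (lev w n0 A) δ + Real.log (1 + δ * Real.exp (-2 * Lc (lev w n0 A) δ)) ≤ Lc A δ := by
  set a := lev w n0 A with ha
  set b := lev w (n0 + s) A with hb'
  set Φ : UnitAddTorus (Fin k) → ℝ := fun x => Real.log (‖F_G A x‖ ^ 2 + δ) with hΦ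
  have hΦc : Continuous Φ := by
    apply Continuous.log
    · exact ((F_G A).continuous.norm.pow 2).add continuous_const
    · intro x
      positivity
  have e1 : ∀ t, Φ (F_pt t) = Real.log (‖tv A t‖ ^ 2 + δ) := by
    intro t
    simp only [hΦ, F_tv]
  have h1 := slice Φ hΦc w
  have e2 : ∫ t in Set.Icc (0 : Fin k → ℝ) 1, Φ (F_pt t) = Lc A δ := by
    unfold Lc
    simp only [e1]
  rw [e2] at h1
  rw [h1]
  have hcont : Continuous fun t : Fin k → ℝ => ∫ x in (0:ℝ)..1, Φ (F_pt (sh w t x)) := by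
    apply intervalIntegral.continuous_parametric_intervalIntegral_of_continuous'
    exact hΦc.comp (F_continuous_pt.comp (sh_cont w))
  have hc1 : Continuous fun t : Fin k → ℝ => Real.log (‖tv a t‖ ^ 2 + δ) := cont_Lc a hδ
  have hc2 : Continuous fun t : Fin k → ℝ => Real.log (1 + ‖tv b t‖ ^ 2 * δ /
      (‖tv a t‖ ^ 2 + δ) ^ 2) := by
    apply Continuous.log
    · apply continuous_const.add
      apply Continuous.div
      · exact ((F_continuous_tv b).norm.pow 2).mul continuous_const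
      · exact (cont_c a δ).pow 2
      · intro t
        positivity
    · intro t
      positivity
  have h2 : ∫ t in Set.Icc (0 : Fin k → ℝ) 1, (Real.log (‖tv a t‖ ^ 2 + δ) +
      Real.log (1 + ‖tv b t‖ ^ 2 * δ / (‖tv a t‖ ^ 2 + δ) ^ 2)) ≤
      ∫ t in Set.Icc (0 : Fin k → ℝ) 1, ∫ x in (0:ℝ)..1, Φ (F_pt (sh w t x)) := by
    apply integral_mono (hc1.add hc2).integrableOn_Icc hcont.integrableOn_Icc
    intro t
    have h3 := slice_pt hmin hs hgap hδ t
    refine h3.trans (le_of_eq ?_)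
    apply intervalIntegral.integral_congr
    intro x _
    simp only [e1]
  rw [integral_add hc1.integrableOn_Icc hc2.integrableOn_Icc] at h2
  refine le_trans ?_ h2
  have h3 := Lc_jensen (a := a) (b := b) hb hδ
  have e3 : ∫ t in Set.Icc (0 : Fin k → ℝ) 1, Real.log (‖tv a t‖ ^ 2 + δ) = Lc a δ := rfl
  rw [e3]
  linarith

lemma Lc_arith {x y δ u : ℝ} (hx : u ≤ Real.exp (2 * x)) (hδ : 0 < δ)
    (h : x + Real.log (1 + δ * Real.exp (-2 * x)) ≤ y) : u + 2 * δ ≤ Real.exp (2 * y) := by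
  have h1 : 0 < 1 + δ * Real.exp (-2 * x) := by positivity
  have h2 : Real.exp (2 * x) * (1 + δ * Real.exp (-2 * x)) ^ 2 ≤ Real.exp (2 * y) := by
    calc Real.exp (2 * x) * (1 + δ * Real.exp (-2 * x)) ^ 2
        = Real.exp (2 * (x + Real.log (1 + δ * Real.exp (-2 * x)))) := by
          rw [mul_add, Real.exp_add]
          congr 1
          rw [two_mul (Real.log _), Real.exp_add, Real.exp_log h1]
          ring
      _ ≤ _ := Real.exp_le_exp.2 (by linarith)
  have h3 : Real.exp (2 * x) * Real.exp (-2 * x) = 1 := by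
    rw [← Real.exp_add]
    simp
  have h4 : Real.exp (2 * x) * (1 + δ * Real.exp (-2 * x)) ^ 2 =
      Real.exp (2 * x) + 2 * δ + δ ^ 2 * Real.exp (-2 * x) := by
    have : Real.exp (2 * x) * (1 + δ * Real.exp (-2 * x)) ^ 2 = Real.exp (2 * x) +
      2 * δ * (Real.exp (2 * x) * Real.exp (-2 * x)) +
        δ ^ 2 * (Real.exp (2 * x) * Real.exp (-2 * x)) * Real.exp (-2 * x) := by ring
    rw [this, h3]
    ring
  have h5 := Real.exp_pos (-2 * x)
  have h6 : 0 < δ ^ 2 * Real.exp (-2 * x) := by positivity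
  linarith

end

end Pool.Agent.R328.GD
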