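import Mathlib
import Pool.Agent.R328.VB

/-!
# Growth with a constant weight, and directions inside the normal cone of a vertex
-/

set_option autoImplicit false

open MeasureTheory Module

namespace Pool.Agent.R328.GD

open Pool.Agent.H261R2.CM

noncomputable section

variable {k : ℕ}

/-- the levels belonging to a functional -/
lemma lev_data (f : (Fin k → ℚ) →ₗ[ℚ] ℚ) {A : MvPolynomial (Fin k) ℤ} (hA : A ≠ 0)
    (hne : ∃ m ∈ A.support, m ∉ face f A.support) :
    ∃ (w : Fin k → ℤ) (n0 : ℤ) (s : ℕ), s ≠ 0 ∧ (∀ m ∈ A.support, n0 ≤ wt w m) ∧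
      (∀ m ∈ A.support, n0 < wt w m → n0 + s ≤ wt w m) ∧ lev w (n0 + s) A ≠ 0 ∧
      lev w n0 A ≠ 0 ∧ (lev w n0 A).support = face f A.support := by
  classical
  have hT : A.support.Nonempty := MvPolynomial.support_nonempty.2 hA
  obtain ⟨m1, hm1, hm1f⟩ := hne
  obtain ⟨w, D, hD, hw⟩ := exists_int f
  obtain ⟨x0, hx0⟩ := face_nonempty f hT
  have hx0A := (mem_face.1 hx0).1
  set n0 : ℤ := wt w x0 with hn0
  have hle : ∀ a b : Fin k →₀ ℕ, wt w a ≤ wt w b ↔ f (vc a) ≤ f (vc b) := by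
    intro a b
    have h1 : ((wt w a : ℤ) : ℚ) ≤ ((wt w b : ℤ) : ℚ) ↔ f (vc a) ≤ f (vc b) := by
      rw [hw, hw]
      exact mul_le_mul_iff_right₀ hD
    rw [← h1]
    exact Int.cast_le.symm
  have hmin : ∀ m ∈ A.support, n0 ≤ wt w m := fun m hm =>
    (hle x0 m).2 ((mem_face.1 hx0).2 m hm)
  have hface : ∀ m ∈ A.support, (wt w m = n0 ↔ m ∈ face f A.support) := by
    intro m hm
    constructor
    · intro h
      refine mem_face.2 ⟨hm, fun m' hm' => ?_⟩
      rw [← hle, h]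
      exact hmin m' hm'
    · intro h
      apply le_antisymm _ (hmin m hm)
      exact (hle m x0).2 ((mem_face.1 h).2 x0 hx0A)
  have hT' : (A.support.filter fun m => n0 < wt w m).Nonempty := by
    refine ⟨m1, Finset.mem_filter.2 ⟨hm1, lt_of_le_of_ne (hmin m1 hm1) fun h => hm1f ?_⟩⟩
    exact (hface m1 hm1).1 h.symm
  obtain ⟨m2, hm2, hm2min⟩ := Finset.exists_min_image _ (fun m => wt w m) hT'
  rw [Finset.mem_filter] at hm2
  obtain ⟨s, hs⟩ := Int.eq_ofNat_of_zero_le (show 0 ≤ wt w m2 - n0 by linarith [hm2.2])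
  have hs0 : s ≠ 0 := by
    rintro rfl
    have := hm2.2
    simp only [Nat.cast_zero] at hs
    omega
  have hw2 : wt w m2 = n0 + s := by omega
  refine ⟨w, n0, s, hs0, hmin, ?_, ?_, ?_, ?_⟩
  · intro m hm h
    rw [← hw2]
    exact hm2min m (Finset.mem_filter.2 ⟨hm, h⟩)
  · apply MvPolynomial.support_nonempty.1
    exact ⟨m2, mem_lev.2 ⟨hm2.1, hw2⟩⟩
  · apply MvPolynomial.support_nonempty.1
    exact ⟨x0, mem_lev.2 ⟨hx0A, rfl⟩⟩
  · ext m
    rw [mem_lev]
    constructor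
    · rintro ⟨h1, h2⟩
      exact (hface m h1).1 h2
    · intro h
      have h1 := (mem_face.1 h).1
      exact ⟨h1, (hface m h1).2 h⟩

/-- growth with a constant weight -/
theorem Lc_main {δ : ℝ} (hδ : 0 < δ) (r : ℕ) : ∀ A : MvPolynomial (Fin k) ℤ, A ≠ 0 →
    r ≤ finrank ℚ ↥(VS A.support) → (1 + δ) ^ 2 + 2 * δ * (r : ℝ) ≤ Real.exp (2 * Lc A δ) := by
  induction r with
  | zero =>
    intro A hA _
    have h := Lc_base hA hδ
    have h1 : Real.exp (2 * Real.log (1 + δ)) ≤ Real.exp (2 * Lc A δ) :=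
      Real.exp_le_exp.2 (by linarith)
    rw [two_mul, Real.exp_add, Real.exp_log (by positivity)] at h1
    rw [Nat.cast_zero, mul_zero, add_zero, sq]
    exact h1
  | succ r ih =>
    intro A hA hr
    have hT : A.support.Nonempty := MvPolynomial.support_nonempty.2 hA
    have hnot : ¬ VS A.support ≤ ⊥ := by
      intro h
      rw [le_bot_iff.1 h, finrank_bot] at hr
      omega
    obtain ⟨f, -, hne, hdim⟩ := facet hT ⊥ hnot
    rw [sup_bot_eq, sup_bot_eq] at hdim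
    obtain ⟨w, n0, s, hs0, hmin, hgap, hb, ha, hsupp⟩ := lev_data f hA hne
    have h1 := Lc_step hmin hs0 hgap hb hδ
    have h2 := ih (lev w n0 A) ha (by rw [hsupp]; omega)
    have h3 := Lc_arith h2 hδ h1
    push_cast
    linarith

/-- directions inside the normal cone of a vertex `p0` of `E`, for which the face of `S` is large -/
theorem cone_face {E S : Finset (Fin k →₀ ℕ)} {p0 : Fin k →₀ ℕ} (hp0 : p0 ∈ E) (hSE : S ⊆ E)
    (hV : ∃ f : (Fin k → ℚ) →ₗ[ℚ] ℚ, ∀ e ∈ E, e ≠ p0 → 0 < f (vc e - vc p0))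
    (hH : ∀ f : (Fin k → ℚ) →ₗ[ℚ] ℚ, (∀ e ∈ E, 0 ≤ f (vc e - vc p0)) →
      (∃ e ∈ E, e ≠ p0 ∧ f (vc e - vc p0) = 0) → ∃ e ∈ S, f (vc e - vc p0) = 0)
    (hS0 : p0 ∉ S) (hne : ∃ e ∈ E, e ≠ p0) :
    ∃ f : (Fin k → ℚ) →ₗ[ℚ] ℚ, (∀ e ∈ E, e ≠ p0 → 0 < f (vc e - vc p0)) ∧ S.Nonempty ∧
      finrank ℚ ↥(VS E) ≤ finrank ℚ ↥(VS (face f S)) + 1 := by
  classical
  have hSne : S.Nonempty := by
    obtain ⟨e, he, hep⟩ := hne
    obtain ⟨e', he', -⟩ := hH 0 (fun e _ => by simp) ⟨e, he, hep, by simp⟩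
    exact ⟨e', he'⟩
  set P : ((Fin k → ℚ) →ₗ[ℚ] ℚ) → Prop := fun f => ∀ e ∈ E, e ≠ p0 → 0 < f (vc e - vc p0) with hP
  set d : ((Fin k → ℚ) →ₗ[ℚ] ℚ) → ℕ := fun f => finrank ℚ ↥(VS (face f S)) with hd
  have hmax : ∃ f, P f ∧ ∀ g, P g → d g ≤ d f := by
    set N : Set ℕ := {n | ∃ f, P f ∧ d f = n} with hN
    have hne : N.Nonempty := by
      obtain ⟨f, hf⟩ := hV
      exact ⟨d f, f, hf, rfl⟩
    have hb : BddAbove N := by
      refine ⟨k, ?_⟩
      rintro _ ⟨f, -, rfl⟩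
      have := Submodule.finrank_le (VS (face f S))
      rwa [finrank_fin_fun] at this
    obtain ⟨f, hf, hfd⟩ := Nat.sSup_mem hne hb
    refine ⟨f, hf, fun g hg => ?_⟩
    rw [hfd]
    exact le_csSup hb ⟨g, hg, rfl⟩
  obtain ⟨f, hfP, hfm⟩ := hmax
  refine ⟨f, hfP, hSne, ?_⟩
  by_contra hcon
  push Not at hcon
  obtain ⟨e0, he0⟩ := face_nonempty f hSne
  have he0S := (mem_face.1 he0).1
  have hSp : ∀ e ∈ S, e ≠ p0 := fun e he h => hS0 (h ▸ he)
  set c : ℚ := f (vc e0 - vc p0) with hc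
  have hc0 : 0 < c := hfP e0 (hSE he0S) (hSp e0 he0S)
  have hcS : ∀ e ∈ S, c ≤ f (vc e - vc p0) := by
    intro e he
    have := (mem_face.1 he0).2 e he
    rw [hc, map_sub, map_sub]
    linarith
  have hcf : ∀ e ∈ face f S, f (vc e - vc p0) = c := by
    intro e he
    apply le_antisymm _ (hcS e (mem_face.1 he).1)
    have := (mem_face.1 he).2 e0 he0S
    rw [hc, map_sub, map_sub]
    linarith
  set U' := VS (face f S) ⊔ Submodule.span ℚ {vc e0 - vc p0} with hU'
  have hfinU : finrank ℚ ↥U' ≤ finrank ℚ ↥(VS (face f S)) + 1 := by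
    have h1 : finrank ℚ ↥U' ≤ finrank ℚ ↥(VS (face f S)) +
        finrank ℚ ↥(Submodule.span ℚ {vc e0 - vc p0}) :=
      Submodule.finrank_add_le_finrank_add_finrank (VS (face f S))
        (Submodule.span ℚ {vc e0 - vc p0})
    have h2 : finrank ℚ ↥(Submodule.span ℚ {vc e0 - vc p0}) ≤ 1 := by
      have := finrank_span_le_card (R := ℚ) ({vc e0 - vc p0} : Set (Fin k → ℚ))
      simpa using this
    omega
  have hnot : ¬ VS E ≤ U' := by
    intro h
    have := Submodule.finrank_mono h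
    omega
  obtain ⟨v, hv, hvU⟩ := SetLike.not_le_iff_exists.1 hnot
  obtain ⟨g0, hg01, hg02⟩ := Submodule.exists_le_ker_of_notMem hvU
  have hg0 : ∃ e1 ∈ E, g0 (vc e1 - vc p0) ≠ 0 := by
    by_contra hno
    push Not at hno
    apply hg01
    have : VS E ≤ LinearMap.ker g0 := VS_le hp0 fun m hm => LinearMap.mem_ker.2 (hno m hm)
    exact this hv
  obtain ⟨g, e1, he1, hgU, hge1⟩ : ∃ (g : (Fin k → ℚ) →ₗ[ℚ] ℚ) (e1 : Fin k →₀ ℕ), e1 ∈ E ∧
      U' ≤ LinearMap.ker g ∧ g (vc e1 - vc p0) < 0 := by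
    obtain ⟨e1, he1, h⟩ := hg0
    rcases lt_or_gt_of_ne h with h | h
    · exact ⟨g0, e1, he1, hg02, h⟩
    · refine ⟨-g0, e1, he1, fun u hu => ?_, ?_⟩
      · rw [LinearMap.mem_ker, LinearMap.neg_apply, LinearMap.mem_ker.1 (hg02 hu), neg_zero]
      · rw [LinearMap.neg_apply]
        linarith
  have hge0 : g (vc e0 - vc p0) = 0 := by
    apply LinearMap.mem_ker.1 (hgU _)
    exact Submodule.mem_sup_right (Submodule.mem_span_singleton_self _)
  have hgf : ∀ e ∈ face f S, g (vc e - vc p0) = 0 := by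
    intro e he
    have h1 : g (vc e - vc e0) = 0 :=
      LinearMap.mem_ker.1 (hgU (Submodule.mem_sup_left (sub_mem_VS he he0)))
    have h2 : vc e - vc p0 = (vc e - vc e0) + (vc e0 - vc p0) := by abel
    rw [h2, map_add, h1, hge0, add_zero]
  set h : (Fin k →₀ ℕ) → ℚ := fun e => if e ∈ S then c else 0 with hh
  have hhS : ∀ e ∈ S, h e = c := fun e he => by simp only [hh, if_pos he]
  have hhn : ∀ e, e ∉ S → h e = 0 := fun e he => by simp only [hh, if_neg he]
  have hfh : ∀ e ∈ E, h e ≤ f (vc e - vc p0) := by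
    intro e he
    by_cases heS : e ∈ S
    · rw [hhS e heS]
      exact hcS e heS
    · rw [hhn e heS]
      by_cases hep : e = p0
      · rw [hep, sub_self, map_zero]
      · exact (hfP e he hep).le
  have hE' : (E.filter fun e => g (vc e - vc p0) < 0).Nonempty :=
    ⟨e1, Finset.mem_filter.2 ⟨he1, hge1⟩⟩
  obtain ⟨e2, he2, hmin⟩ := Finset.exists_min_image _
    (fun e => (f (vc e - vc p0) - h e) / (-g (vc e - vc p0))) hE'
  rw [Finset.mem_filter] at he2
  set θ : ℚ := (f (vc e2 - vc p0) - h e2) / (-g (vc e2 - vc p0)) with hθ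
  have hg2 : 0 < -g (vc e2 - vc p0) := by linarith [he2.2]
  have hθ0 : 0 ≤ θ := div_nonneg (by linarith [hfh e2 he2.1]) hg2.le
  set F : (Fin k → ℚ) →ₗ[ℚ] ℚ := f + θ • g with hF
  have hFx : ∀ v, F v = f v + θ * g v := fun v => rfl
  have hFa : ∀ e ∈ E, h e ≤ F (vc e - vc p0) := by
    intro e he
    rw [hFx]
    rcases lt_or_ge (g (vc e - vc p0)) 0 with h1 | h1
    · have h2 := hmin e (Finset.mem_filter.2 ⟨he, h1⟩)
      rw [le_div_iff₀ (by linarith)] at h2
      linarith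
    · have h2 := mul_nonneg hθ0 h1
      linarith [hfh e he]
  have hFb : F (vc e2 - vc p0) = h e2 := by
    have h1 : θ * (-g (vc e2 - vc p0)) = f (vc e2 - vc p0) - h e2 :=
      div_mul_cancel₀ _ hg2.ne'
    rw [hFx]
    linarith
  have hh0 : ∀ e, 0 ≤ h e := by
    intro e
    by_cases heS : e ∈ S
    · rw [hhS e heS]; exact hc0.le
    · rw [hhn e heS]
  have hFP : P F := by
    intro e he hep
    rcases ((hh0 e).trans (hFa e he)).lt_or_eq with h1 | h1
    · exact h1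
    · exfalso
      obtain ⟨e', he', h2⟩ := hH F (fun e he => (hh0 e).trans (hFa e he)) ⟨e, he, hep, h1.symm⟩
      have h3 := hFa e' (hSE he')
      rw [hhS e' he', h2] at h3
      linarith
  have he2p : e2 ≠ p0 := by
    rintro rfl
    have := he2.2
    rw [sub_self, map_zero] at this
    exact lt_irrefl _ this
  have he2S : e2 ∈ S := by
    by_contra hn
    have h1 := hFP e2 he2.1 he2p
    rw [hFb, hhn e2 hn] at h1
    exact lt_irrefl _ h1
  rw [hhS e2 he2S] at hFb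
  have hfaceF : ∀ e ∈ S, F (vc e - vc p0) = c → e ∈ face F S := by
    intro e he h1
    refine mem_face.2 ⟨he, fun m' hm' => ?_⟩
    have h2 := hFa m' (hSE hm')
    rw [hhS m' hm'] at h2
    rw [map_sub] at h1 h2
    linarith
  have hsub : face f S ⊆ face F S := by
    intro e he
    apply hfaceF e (mem_face.1 he).1
    rw [hFx, hgf e he, hcf e he]
    ring
  have hlt : d f < d F := by
    have h1 : VS (face f S) ≤ VS (face F S) := VS_mono hsub
    have h2 : vc e2 - vc e0 ∈ VS (face F S) := sub_mem_VS (hfaceF e2 he2S hFb) (hsub he0)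
    have h3 : vc e2 - vc e0 ∉ VS (face f S) := by
      intro h
      have h4 := LinearMap.mem_ker.1 (hgU (Submodule.mem_sup_left h))
      have h5 : vc e2 - vc e0 = (vc e2 - vc p0) - (vc e0 - vc p0) := by abel
      rw [h5, map_sub, hge0] at h4
      linarith
    exact Submodule.finrank_lt_finrank_of_lt (lt_of_le_of_ne h1 fun h => h3 (by rw [h]; exact h2))
  exact absurd (hfm F hFP) (not_le.2 hlt)

end

end Pool.Agent.R328.GD
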