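import Mathlib
import Pool.Agent.R328.VC

/-!
# The inequality for pairs with a good vertex
-/

set_option autoImplicit false

open MeasureTheory Module

namespace Pool.Agent.R328.GD

open Pool.Agent.H261R2.CM

noncomputable section

variable {k : ℕ}

/-- the functional of a direction -/
def fun_of (w : Fin k → ℤ) : (Fin k → ℚ) →ₗ[ℚ] ℚ := ∑ i, ((w i : ℤ) : ℚ) • LinearMap.proj i

lemma fun_of_vc (w : Fin k → ℤ) (m : Fin k →₀ ℕ) : fun_of w (vc m) = ((wt w m : ℤ) : ℚ) := by
  unfold fun_of wt vc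
  rw [LinearMap.sum_apply]
  push_cast
  refine Finset.sum_congr rfl fun i _ => ?_
  simp

lemma mem_nn {A B : MvPolynomial (Fin k) ℤ} {a b m : Fin k →₀ ℕ} (h : m ∈ (nn A B a b).support) :
    (∃ m' ∈ A.support, m = m' + b) ∨ ∃ m' ∈ B.support, m = m' + a := by
  classical
  rw [MvPolynomial.mem_support_iff] at h
  unfold nn at h
  rw [MvPolynomial.coeff_sub, MvPolynomial.coeff_monomial_mul', MvPolynomial.coeff_monomial_mul'] at h
  by_cases h1 : b ≤ m ∧ A.coeff (m - b) ≠ 0
  · left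
    exact ⟨m - b, MvPolynomial.mem_support_iff.2 h1.2, (tsub_add_cancel_of_le h1.1).symm⟩
  · by_cases h2 : a ≤ m ∧ B.coeff (m - a) ≠ 0
    · right
      exact ⟨m - a, MvPolynomial.mem_support_iff.2 h2.2, (tsub_add_cancel_of_le h2.1).symm⟩
    · exfalso
      apply h
      have e1 : (if b ≤ m then B.coeff b * A.coeff (m - b) else 0) = 0 := by
        split_ifs with h3
        · have : A.coeff (m - b) = 0 := by
            by_contra h4
            exact h1 ⟨h3, h4⟩
          rw [this, mul_zero]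
        · rfl
      have e2 : (if a ≤ m then A.coeff a * B.coeff (m - a) else 0) = 0 := by
        split_ifs with h3
        · have : B.coeff (m - a) = 0 := by
            by_contra h4
            exact h2 ⟨h3, h4⟩
          rw [this, mul_zero]
        · rfl
      rw [e1, e2, sub_zero]

lemma nn_p0 (A B : MvPolynomial (Fin k) ℤ) (a b : Fin k →₀ ℕ) : a + b ∉ (nn A B a b).support := by
  rw [MvPolynomial.mem_support_iff, not_not]
  unfold nn
  rw [MvPolynomial.coeff_sub, MvPolynomial.coeff_monomial_mul]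
  rw [add_comm a b, MvPolynomial.coeff_monomial_mul]
  ring

/-- the combinatorial condition: `(a, b)` is a vertex of the pair `(A, B)`, and in every direction in
which `a` and `b` are minimal, but not both the unique minimum, the faces are not proportional -/
def Good (A B : MvPolynomial (Fin k) ℤ) (a b : Fin k →₀ ℕ) : Prop :=
  (∃ w : Fin k → ℤ, (∀ m ∈ A.support, m ≠ a → wt w a < wt w m) ∧
    ∀ m ∈ B.support, m ≠ b → wt w b < wt w m) ∧
  ∀ w : Fin k → ℤ, (∀ m ∈ A.support, wt w a ≤ wt w m) → (∀ m ∈ B.support, wt w b ≤ wt w m) →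
    ((∃ m ∈ A.support, m ≠ a ∧ wt w m = wt w a) ∨ ∃ m ∈ B.support, m ≠ b ∧ wt w m = wt w b) →
    MvPolynomial.monomial b (B.coeff b) * lev w (wt w a) A ≠
      MvPolynomial.monomial a (A.coeff a) * lev w (wt w b) B

lemma arith4 {D : ℝ} (hD : 2 ≤ D) : 25 / 4 * D ^ 2 ≤ (1 + D ^ 2) ^ 2 := by
  have h4 : 4 ≤ D ^ 2 := by nlinarith
  nlinarith

/-- the inequality for the first difference at a vertex -/
theorem core_delta {w : Fin k → ℤ} {A B : MvPolynomial (Fin k) ℤ} {a b : Fin k →₀ ℕ}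
    (ha : a ∈ A.support) (hb : b ∈ B.support)
    (hpA : ∀ m ∈ A.support, m ≠ a → wt w a < wt w m)
    (hpB : ∀ m ∈ B.support, m ≠ b → wt w b < wt w m) {s : ℕ} (hs0 : s ≠ 0)
    (hz : ∀ j : ℕ, j < s → lev w (wt w a + wt w b + j) (nn A B a b) = 0)
    (hlev0 : lev w (wt w a + wt w b + s) (nn A B a b) ≠ 0) {δ : ℝ} (hδ : 0 < δ) :
    25 / 4 + 2 * (ND (lev w (wt w a + wt w b + s) (nn A B a b)) : ℝ) ≤
      Real.exp (2 * Ld A B δ) := by
  have hlevA : lev w (wt w a) A = MvPolynomial.monomial a (A.coeff a) := by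
    classical
    ext m
    rw [coeff_lev, MvPolynomial.coeff_monomial]
    by_cases h : a = m
    · rw [if_pos h, if_pos (by rw [h]), h]
    · rw [if_neg h]
      split_ifs with h1
      · by_contra h2
        have := hpA m (MvPolynomial.mem_support_iff.2 h2) (fun h3 => h h3.symm)
        omega
      · rfl
  have hlevB : lev w (wt w b) B = MvPolynomial.monomial b (B.coeff b) := by
    classical
    ext m
    rw [coeff_lev, MvPolynomial.coeff_monomial]
    by_cases h : b = m
    · rw [if_pos h, if_pos (by rw [h]), h]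
    · rw [if_neg h]
      split_ifs with h1
      · by_contra h2
        have := hpB m (MvPolynomial.mem_support_iff.2 h2) (fun h3 => h h3.symm)
        omega
      · rfl
  have hca := MvPolynomial.mem_support_iff.1 ha
  have hcb := MvPolynomial.mem_support_iff.1 hb
  set Q : ℝ := ((A.coeff a : ℤ) : ℝ) ^ 2 + ((B.coeff b : ℤ) : ℝ) ^ 2 with hQ
  have hsq : ∀ z : ℤ, z ≠ 0 → (1 : ℝ) ≤ (z : ℝ) ^ 2 := by
    intro z hz
    have h1 : (1 : ℤ) ≤ z ^ 2 := by
      have := sq_nonneg z
      have h2 : z ^ 2 ≠ 0 := pow_ne_zero 2 hz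
      omega
    exact_mod_cast h1
  have hQ2 : 2 ≤ Q := by
    have h1 := hsq _ hca
    have h2 := hsq _ hcb
    linarith
  have hQ0 : 0 < Q := by linarith
  have h1 := first_diff hlevA hlevB hca (fun m hm => by
      by_cases h : m = a
      · rw [h]
      · exact (hpA m hm h).le) (fun m hm => by
      by_cases h : m = b
      · rw [h]
      · exact (hpB m hm h).le) hs0 hz hδ hQ
  set W := lev w (wt w a + wt w b + s) (nn A B a b) with hW
  have h2 := Lc_main (δ := Q ^ 2) (by positivity) (ND W) W hlev0 le_rfl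
  have h3 : Real.exp (2 * Lc W (Q ^ 2)) ≤ Q ^ 2 * Real.exp (2 * Ld A B δ) := by
    calc Real.exp (2 * Lc W (Q ^ 2))
        ≤ Real.exp (2 * (Ld A B δ + Real.log Q)) := Real.exp_le_exp.2 (by linarith)
      _ = Q ^ 2 * Real.exp (2 * Ld A B δ) := by
          rw [mul_add, Real.exp_add, two_mul (Real.log Q), Real.exp_add, Real.exp_log hQ0]
          ring
  have h7 := arith4 hQ2
  have h8 : 0 < Q ^ 2 := by positivity
  have h9 : Q ^ 2 * (25 / 4 + 2 * (ND W : ℝ)) ≤ Q ^ 2 * Real.exp (2 * Ld A B δ) := by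
    refine le_trans ?_ (h2.trans h3)
    linarith
  exact le_of_mul_le_mul_left h9 h8

/-- the inequality for the first difference at a vertex -/
theorem core_pair {w : Fin k → ℤ} {A B : MvPolynomial (Fin k) ℤ} {a b : Fin k →₀ ℕ}
    (ha : a ∈ A.support) (hb : b ∈ B.support)
    (hpA : ∀ m ∈ A.support, m ≠ a → wt w a < wt w m)
    (hpB : ∀ m ∈ B.support, m ≠ b → wt w b < wt w m) {s : ℕ} (hs0 : s ≠ 0)
    (hz : ∀ j : ℕ, j < s → lev w (wt w a + wt w b + j) (nn A B a b) = 0)
    (hlev0 : lev w (wt w a + wt w b + s) (nn A B a b) ≠ 0) :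
    8 * (ND (lev w (wt w a + wt w b + s) (nn A B a b)) : ℝ) + 25 ≤ 16 * Real.exp (mx A B) ^ 4 := by
  have hA : A ≠ 0 := MvPolynomial.support_nonempty.1 ⟨a, ha⟩
  have h0 : 25 / 4 + 2 * (ND (lev w (wt w a + wt w b + s) (nn A B a b)) : ℝ) ≤
      4 * Real.exp (mx A B) ^ 4 := by
    apply le_of_forall_pos_le_add
    intro ε hε
    set M : ℝ := 4 * Real.exp (mx A B) ^ 4 with hM
    have hM0 : 0 < M := by positivity
    obtain ⟨η, hη, hη'⟩ : ∃ η > 0, M * Real.exp (2 * η) ≤ M + ε := by
      refine ⟨Real.log ((M + ε) / M) / 2, ?_, ?_⟩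
      · have : 0 < Real.log ((M + ε) / M) := Real.log_pos (by rw [one_lt_div hM0]; linarith)
        linarith
      · rw [mul_div_cancel₀ _ two_ne_zero, Real.exp_log (by positivity), mul_div_cancel₀ _ hM0.ne']
    obtain ⟨δ, hδ, h⟩ := Ld_lim hA B hη
    have h1 := core_delta ha hb hpA hpB hs0 hz hlev0 hδ
    have h2 : Real.exp (2 * Ld A B δ) ≤ M * Real.exp (2 * η) := by
      calc Real.exp (2 * Ld A B δ) ≤ Real.exp (2 * (Real.log 2 + 2 * mx A B + η)) :=
            Real.exp_le_exp.2 (by linarith)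
        _ = M * Real.exp (2 * η) := by
            have e1 : 2 * (Real.log 2 + 2 * mx A B + η) =
                (Real.log 2 + Real.log 2) + (((4 : ℕ) : ℝ) * mx A B + 2 * η) := by
              push_cast; ring
            rw [e1, Real.exp_add, Real.exp_add, Real.exp_add, Real.exp_log (by norm_num),
              Real.exp_nat_mul, hM]
            ring
    linarith
  linarith

/-- a direction in the interior of the normal cone of a good vertex in which the first difference is
large -/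
theorem good_geom {A B : MvPolynomial (Fin k) ℤ} {a b : Fin k →₀ ℕ} (ha : a ∈ A.support)
    (hb : b ∈ B.support) (hG : Good A B a b)
    (hne : (∃ m ∈ A.support, m ≠ a) ∨ ∃ m ∈ B.support, m ≠ b) :
    ∃ (w : Fin k → ℤ) (s : ℕ), (∀ m ∈ A.support, m ≠ a → wt w a < wt w m) ∧
      (∀ m ∈ B.support, m ≠ b → wt w b < wt w m) ∧ s ≠ 0 ∧
      (∀ j : ℕ, j < s → lev w (wt w a + wt w b + j) (nn A B a b) = 0) ∧
      lev w (wt w a + wt w b + s) (nn A B a b) ≠ 0 ∧
      finrank ℚ ↥(VS A.support ⊔ VS B.support) ≤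
        ND (lev w (wt w a + wt w b + s) (nn A B a b)) + 1 := by
  classical
  obtain ⟨⟨w0, hw0A, hw0B⟩, hH⟩ := hG
  set E : Finset (Fin k →₀ ℕ) := A.support.image (fun m => m + b) ∪ B.support.image (fun m => m + a)
    with hE
  set p0 := a + b with hp0
  set n := nn A B a b with hn
  have memE : ∀ e, e ∈ E ↔ (∃ m ∈ A.support, e = m + b) ∨ ∃ m ∈ B.support, e = m + a := by
    intro e
    simp only [hE, Finset.mem_union, Finset.mem_image, eq_comm]
  have hA1 : ∀ m ∈ A.support, m + b ∈ E := fun m hm => (memE _).2 (Or.inl ⟨m, hm, rfl⟩)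
  have hB1 : ∀ m ∈ B.support, m + a ∈ E := fun m hm => (memE _).2 (Or.inr ⟨m, hm, rfl⟩)
  have hp0E : p0 ∈ E := hA1 a ha
  have hSE : n.support ⊆ E := fun e he => (memE e).2 (mem_nn he)
  have conv : ∀ (f : (Fin k → ℚ) →ₗ[ℚ] ℚ) (w : Fin k → ℤ) (D : ℚ),
      (∀ m : Fin k →₀ ℕ, (wt w m : ℚ) = D * f (vc m)) → ∀ e,
      ((wt w e - wt w p0 : ℤ) : ℚ) = D * f (vc e - vc p0) := by
    intro f w D h e
    rw [map_sub, mul_sub, ← h, ← h]
    push_cast
    ring
  have hwA : ∀ (w : Fin k → ℤ) (m : Fin k →₀ ℕ), wt w (m + b) - wt w p0 = wt w m - wt w a := by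
    intro w m
    rw [hp0, wt_add, wt_add]
    ring
  have hwB : ∀ (w : Fin k → ℤ) (m : Fin k →₀ ℕ), wt w (m + a) - wt w p0 = wt w m - wt w b := by
    intro w m
    rw [hp0, wt_add, wt_add]
    ring
  have hwp : ∀ w : Fin k → ℤ, wt w p0 = wt w a + wt w b := fun w => wt_add w a b
  -- the vertex
  have hV : ∃ f : (Fin k → ℚ) →ₗ[ℚ] ℚ, ∀ e ∈ E, e ≠ p0 → 0 < f (vc e - vc p0) := by
    refine ⟨fun_of w0, fun e he hep => ?_⟩
    rw [map_sub, fun_of_vc, fun_of_vc, ← Int.cast_sub, Int.cast_pos]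
    rcases (memE e).1 he with ⟨m, hm, rfl⟩ | ⟨m, hm, rfl⟩
    · rw [hwA]
      have : m ≠ a := fun h => hep (by rw [h])
      linarith [hw0A m hm this]
    · rw [hwB]
      have : m ≠ b := fun h => hep (by rw [h, hp0, add_comm])
      linarith [hw0B m hm this]
  have hH' : ∀ f : (Fin k → ℚ) →ₗ[ℚ] ℚ, (∀ e ∈ E, 0 ≤ f (vc e - vc p0)) →
      (∃ e ∈ E, e ≠ p0 ∧ f (vc e - vc p0) = 0) → ∃ e ∈ n.support, f (vc e - vc p0) = 0 := by
    intro f hf hex
    obtain ⟨w, D, hD, hw⟩ := exists_int f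
    have hc := conv f w D hw
    have h1 : ∀ e ∈ E, 0 ≤ wt w e - wt w p0 := by
      intro e he
      have h2 : (0 : ℚ) ≤ ((wt w e - wt w p0 : ℤ) : ℚ) := by
        rw [hc]
        exact mul_nonneg hD.le (hf e he)
      exact_mod_cast h2
    have h2 : ∀ e, f (vc e - vc p0) = 0 ↔ wt w e - wt w p0 = 0 := by
      intro e
      have h3 := hc e
      constructor
      · intro h
        rw [h, mul_zero] at h3
        exact_mod_cast h3
      · intro h
        rw [h, Int.cast_zero] at h3
        rcases mul_eq_zero.1 h3.symm with h4 | h4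
        · exact absurd h4 hD.ne'
        · exact h4
    have h5 := hH w (fun m hm => by have := h1 _ (hA1 m hm); rw [hwA] at this; linarith)
      (fun m hm => by have := h1 _ (hB1 m hm); rw [hwB] at this; linarith) (by
        obtain ⟨e, he, hep, h3⟩ := hex
        rw [h2] at h3
        rcases (memE e).1 he with ⟨m, hm, rfl⟩ | ⟨m, hm, rfl⟩
        · left
          refine ⟨m, hm, fun h => hep (by rw [h]), ?_⟩
          rw [hwA] at h3
          linarith
        · right
          refine ⟨m, hm, fun h => hep (by rw [h, hp0, add_comm]), ?_⟩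
          rw [hwB] at h3
          linarith)
    have h6 := lev_nn w A B a b 0
    rw [add_zero, add_zero, add_zero] at h6
    have h7 : lev w (wt w a + wt w b) n ≠ 0 := by
      rw [hn, h6]
      exact sub_ne_zero.2 h5
    obtain ⟨e, he⟩ := MvPolynomial.support_nonempty.2 h7
    obtain ⟨he1, he2⟩ := mem_lev.1 he
    refine ⟨e, he1, (h2 e).2 ?_⟩
    rw [he2, hwp, sub_self]
  have hne' : ∃ e ∈ E, e ≠ p0 := by
    rcases hne with ⟨m, hm, h⟩ | ⟨m, hm, h⟩
    · exact ⟨m + b, hA1 m hm, fun h1 => h (add_right_cancel h1)⟩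
    · refine ⟨m + a, hB1 m hm, fun h1 => h ?_⟩
      rw [hp0, add_comm a b] at h1
      exact add_right_cancel h1
  obtain ⟨f, hfP, hSne, hdim⟩ := cone_face hp0E hSE hV hH' (nn_p0 A B a b) hne'
  obtain ⟨w, D, hD, hw⟩ := exists_int f
  have hc := conv f w D hw
  have hpos : ∀ e ∈ E, e ≠ p0 → 0 < wt w e - wt w p0 := by
    intro e he hep
    have h2 : (0 : ℚ) < ((wt w e - wt w p0 : ℤ) : ℚ) := by
      rw [hc]
      exact mul_pos hD (hfP e he hep)
    exact_mod_cast h2
  have hpA : ∀ m ∈ A.support, m ≠ a → wt w a < wt w m := by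
    intro m hm h
    have h1 := hpos _ (hA1 m hm) (fun h1 => h (add_right_cancel h1))
    rw [hwA] at h1
    linarith
  have hpB : ∀ m ∈ B.support, m ≠ b → wt w b < wt w m := by
    intro m hm h
    have h1 := hpos _ (hB1 m hm) (fun h1 => h (by
      rw [hp0, add_comm a b] at h1
      exact add_right_cancel h1))
    rw [hwB] at h1
    linarith
  have hle : ∀ x y : Fin k →₀ ℕ, wt w x ≤ wt w y ↔ f (vc x) ≤ f (vc y) := by
    intro x y
    have h1 : ((wt w x : ℤ) : ℚ) ≤ ((wt w y : ℤ) : ℚ) ↔ f (vc x) ≤ f (vc y) := by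
      rw [hw, hw]
      exact mul_le_mul_iff_right₀ hD
    rw [← h1]
    exact Int.cast_le.symm
  obtain ⟨e0, he0⟩ := face_nonempty f hSne
  have he0S := (mem_face.1 he0).1
  have he0p : e0 ≠ p0 := fun h => nn_p0 A B a b (by rw [← hp0, ← h]; exact he0S)
  have hs1 := hpos e0 (hSE he0S) he0p
  obtain ⟨s, hs⟩ := Int.eq_ofNat_of_zero_le hs1.le
  have hs0 : s ≠ 0 := by
    rintro rfl
    rw [hs] at hs1
    simp at hs1
  have hws : wt w a + wt w b + s = wt w e0 := by
    have hs' : wt w e0 - wt w p0 = (s : ℤ) := hs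
    have := hwp w
    omega
  have hminS : ∀ m ∈ n.support, wt w e0 ≤ wt w m := fun m hm => (hle e0 m).2 ((mem_face.1 he0).2 m hm)
  have hz : ∀ j : ℕ, j < s → lev w (wt w a + wt w b + j) n = 0 := by
    intro j hj
    by_contra hcon
    obtain ⟨m, hm⟩ := MvPolynomial.support_nonempty.2 hcon
    obtain ⟨hm1, hm2⟩ := mem_lev.1 hm
    have := hminS m hm1
    omega
  have hsupp : (lev w (wt w a + wt w b + s) n).support = face f n.support := by
    ext m
    rw [mem_lev, hws]
    constructor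
    · rintro ⟨h1, h2⟩
      refine mem_face.2 ⟨h1, fun m' hm' => ?_⟩
      rw [← hle, h2]
      exact hminS m' hm'
    · intro h
      have h1 := (mem_face.1 h).1
      refine ⟨h1, le_antisymm ?_ (hminS m h1)⟩
      exact (hle m e0).2 ((mem_face.1 h).2 e0 he0S)
  have hlev0 : lev w (wt w a + wt w b + s) n ≠ 0 := by
    rw [← MvPolynomial.support_nonempty, hsupp]
    exact ⟨e0, he0⟩
  have h4 : VS A.support ⊔ VS B.support ≤ VS E := by
    apply sup_le
    · apply VS_le ha
      intro m hm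
      have h5 : vc m - vc a = vc (m + b) - vc (a + b) := by
        ext i
        simp only [vc, Pi.sub_apply, Finsupp.add_apply]
        push_cast
        ring
      rw [h5]
      exact sub_mem_VS (hA1 m hm) (hA1 a ha)
    · apply VS_le hb
      intro m hm
      have h5 : vc m - vc b = vc (m + a) - vc (b + a) := by
        ext i
        simp only [vc, Pi.sub_apply, Finsupp.add_apply]
        push_cast
        ring
      rw [h5]
      exact sub_mem_VS (hB1 m hm) (hB1 b hb)
  refine ⟨w, s, hpA, hpB, hs0, hz, hlev0, ?_⟩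
  unfold ND
  rw [hsupp]
  exact (Submodule.finrank_mono h4).trans hdim

/-- the inequality for pairs with a good vertex -/
theorem good_pair {A B : MvPolynomial (Fin k) ℤ} {a b : Fin k →₀ ℕ} (ha : a ∈ A.support)
    (hb : b ∈ B.support) (hG : Good A B a b)
    (hne : (∃ m ∈ A.support, m ≠ a) ∨ ∃ m ∈ B.support, m ≠ b) :
    8 * (finrank ℚ ↥(VS A.support ⊔ VS B.support) : ℝ) + 17 ≤ 16 * Real.exp (mx A B) ^ 4 := by
  obtain ⟨w, s, hpA, hpB, hs0, hz, hlev0, hdim⟩ := good_geom ha hb hG hne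
  have h := core_pair ha hb hpA hpB hs0 hz hlev0
  have h1 : (finrank ℚ ↥(VS A.support ⊔ VS B.support) : ℝ) ≤
      (ND (lev w (wt w a + wt w b + s) (nn A B a b)) : ℝ) + 1 := by exact_mod_cast hdim
  linarith

end

end Pool.Agent.R328.GD
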