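import Mathlib
import Pool.Agent.R328.VD
import Pool.Agent.H887R3.LW.MV8

/-!
# The reciprocal polynomial, and faces
-/

set_option autoImplicit false

open MeasureTheory Module

namespace Pool.Agent.R328.GD

open Pool.Agent.H261R2.CM

noncomputable section

variable {k : ℕ}

/-- the coefficient at an integral exponent -/
def cz (P : MvPolynomial (Fin k) ℤ) (v : Fin k → ℤ) : ℤ :=
  open Classical in
  if ∀ i, 0 ≤ v i then P.coeff (Finsupp.equivFunOnFinite.symm fun i => (v i).toNat) else 0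

/-- an exponent as an integral vector -/
def ic (m : Fin k →₀ ℕ) : Fin k → ℤ := fun i => ((m i : ℕ) : ℤ)

lemma cz_ic (P : MvPolynomial (Fin k) ℤ) (m : Fin k →₀ ℕ) : cz P (ic m) = P.coeff m := by
  unfold cz
  rw [if_pos (fun i => by simp [ic])]
  congr 1
  ext i
  simp [ic]

lemma ex_ic {v : Fin k → ℤ} (hv : ∀ i, 0 ≤ v i) : ∃ m : Fin k →₀ ℕ, v = ic m := by
  refine ⟨Finsupp.equivFunOnFinite.symm fun i => (v i).toNat, ?_⟩
  funext i
  simp only [ic, Finsupp.equivFunOnFinite_symm_apply_apply]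
  exact (Int.toNat_of_nonneg (hv i)).symm

lemma cz_neg (P : MvPolynomial (Fin k) ℤ) {v : Fin k → ℤ} (hv : ¬ ∀ i, 0 ≤ v i) : cz P v = 0 := by
  unfold cz
  rw [if_neg hv]

lemma cz_mono_mul (b : Fin k →₀ ℕ) (c : ℤ) (P : MvPolynomial (Fin k) ℤ) (v : Fin k → ℤ) :
    cz (MvPolynomial.monomial b c * P) (fun i => b i + v i) = c * cz P v := by
  classical
  by_cases hv : ∀ i, 0 ≤ v i
  · obtain ⟨m, rfl⟩ := ex_ic hv
    have e : (fun i => ((b i : ℕ) : ℤ) + ic m i) = ic (b + m) := by
      funext i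
      simp [ic]
    rw [e, cz_ic, cz_ic, MvPolynomial.coeff_monomial_mul]
  · rw [cz_neg P hv, mul_zero]
    by_cases h2 : ∀ i, 0 ≤ (fun i => ((b i : ℕ) : ℤ) + v i) i
    · obtain ⟨m, hm⟩ := ex_ic h2
      rw [hm, cz_ic, MvPolynomial.coeff_monomial_mul']
      rw [if_neg]
      intro hb
      apply hv
      intro i
      have h3 := congrFun hm i
      have h4 := hb i
      simp only [ic] at h3
      omega
    · exact cz_neg _ h2

lemma cz_lev (w : Fin k → ℤ) (n : ℤ) (P : MvPolynomial (Fin k) ℤ) {v : Fin k → ℤ}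
    (h : ∑ i, w i * v i = n) : cz (lev w n P) v = cz P v := by
  by_cases hv : ∀ i, 0 ≤ v i
  · obtain ⟨m, rfl⟩ := ex_ic hv
    have h' : wt w m = n := h
    rw [cz_ic, cz_ic, coeff_lev, if_pos h']
  · rw [cz_neg _ hv, cz_neg _ hv]

lemma coeff_rv {P : MvPolynomial (Fin k) ℤ} {d : Fin k →₀ ℕ} (hP : J.sle P d) (m : Fin k →₀ ℕ) :
    (J.rv d P).coeff m = if m ≤ d then P.coeff (d - m) else 0 := by
  classical
  unfold J.rv
  rw [MvPolynomial.coeff_sum]
  simp only [MvPolynomial.coeff_monomial]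
  by_cases h : m ≤ d
  · rw [if_pos h]
    by_cases h2 : d - m ∈ P.support
    · rw [Finset.sum_eq_single_of_mem (d - m) h2]
      · rw [if_pos (tsub_tsub_cancel_of_le h)]
      · intro s hs hne
        rw [if_neg]
        intro h3
        apply hne
        rw [← h3, tsub_tsub_cancel_of_le (hP s hs)]
    · rw [MvPolynomial.notMem_support_iff.1 h2]
      apply Finset.sum_eq_zero
      intro s hs
      rw [if_neg]
      intro h3
      apply h2
      rw [← h3, tsub_tsub_cancel_of_le (hP s hs)]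
      exact hs
  · rw [if_neg h]
    apply Finset.sum_eq_zero
    intro s hs
    rw [if_neg]
    rintro rfl
    exact h tsub_le_self

lemma mem_rv {P : MvPolynomial (Fin k) ℤ} {d : Fin k →₀ ℕ} (hP : J.sle P d) {m : Fin k →₀ ℕ} :
    m ∈ (J.rv d P).support ↔ m ≤ d ∧ d - m ∈ P.support := by
  rw [MvPolynomial.mem_support_iff, coeff_rv hP, MvPolynomial.mem_support_iff]
  by_cases h : m ≤ d
  · simp [h]
  · simp [h]

lemma cz_rv {P : MvPolynomial (Fin k) ℤ} {d : Fin k →₀ ℕ} (hP : J.sle P d) (v : Fin k → ℤ) :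
    cz (J.rv d P) v = cz P (fun i => d i - v i) := by
  by_cases hv : ∀ i, 0 ≤ v i
  · obtain ⟨m, rfl⟩ := ex_ic hv
    rw [cz_ic, coeff_rv hP]
    by_cases h : m ≤ d
    · rw [if_pos h]
      have e : (fun i => ((d i : ℕ) : ℤ) - ic m i) = ic (d - m) := by
        funext i
        have := h i
        simp only [ic, Finsupp.coe_tsub, Pi.sub_apply]
        omega
      rw [e, cz_ic]
    · rw [if_neg h, cz_neg]
      intro h2
      apply h
      intro i
      have := h2 i
      simp only [ic] at this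
      omega
  · rw [cz_neg _ hv]
    by_cases h2 : ∀ i, 0 ≤ (fun i => ((d i : ℕ) : ℤ) - v i) i
    · obtain ⟨m, hm⟩ := ex_ic h2
      rw [hm, cz_ic]
      by_contra h3
      have h4 := hP m (MvPolynomial.mem_support_iff.2 fun h => h3 h.symm)
      apply hv
      intro i
      have h5 := congrFun hm i
      have h6 := h4 i
      simp only [ic] at h5
      omega
    · exact (cz_neg _ h2).symm

/-- the combinatorial condition for a polynomial and its reciprocal polynomial -/
def GoodP (P : MvPolynomial (Fin k) ℤ) (a a' : Fin k →₀ ℕ) : Prop :=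
  (∃ w : Fin k → ℤ, ∀ m ∈ P.support, (m ≠ a → wt w a < wt w m) ∧ (m ≠ a' → wt w m < wt w a')) ∧
  ∀ w : Fin k → ℤ, (∀ m ∈ P.support, wt w a ≤ wt w m ∧ wt w m ≤ wt w a') →
    (∃ m ∈ P.support, (m ≠ a ∧ wt w m = wt w a) ∨ (m ≠ a' ∧ wt w m = wt w a')) →
    ∃ v : Fin k → ℤ, ∑ i, w i * v i = 0 ∧
      P.coeff a' * cz P (fun i => a i + v i) ≠ P.coeff a * cz P (fun i => a' i - v i)

lemma wt_rv (w : Fin k → ℤ) {m d : Fin k →₀ ℕ} (h : m ≤ d) : wt w (d - m) = wt w d - wt w m := by
  have h1 : wt w (d - m) + wt w m = wt w d := by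
    rw [← wt_add, tsub_add_cancel_of_le h]
  linarith

lemma goodP_good {P : MvPolynomial (Fin k) ℤ} {a a' : Fin k →₀ ℕ} (ha' : a' ∈ P.support)
    (h : GoodP P a a') {d : Fin k →₀ ℕ} (hd : J.sle P d) : Good P (J.rv d P) a (d - a') := by
  obtain ⟨⟨w0, hw0⟩, hH⟩ := h
  have had := hd a' ha'
  have hmm : ∀ m ∈ (J.rv d P).support, m ≠ d - a' → d - m ≠ a' := by
    intro m hm hne h1
    apply hne
    rw [← h1, tsub_tsub_cancel_of_le ((mem_rv hd).1 hm).1]
  have hwm : ∀ (w : Fin k → ℤ), ∀ m ∈ (J.rv d P).support, wt w m = wt w d - wt w (d - m) := by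
    intro w m hm
    rw [wt_rv w ((mem_rv hd).1 hm).1]
    ring
  refine ⟨⟨w0, fun m hm hne => (hw0 m hm).1 hne, fun m hm hne => ?_⟩, ?_⟩
  · have h1 := (hw0 (d - m) ((mem_rv hd).1 hm).2).2 (hmm m hm hne)
    rw [hwm w0 m hm, wt_rv w0 had]
    linarith
  · intro w h1 h2 h3 heq
    obtain ⟨v, hv, hne⟩ := hH w (fun m hm => ⟨h1 m hm, by
      have hmd := hd m hm
      have h4 := h2 (d - m) ((mem_rv hd).2 ⟨tsub_le_self, by rwa [tsub_tsub_cancel_of_le hmd]⟩)
      rw [wt_rv w had, wt_rv w hmd] at h4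
      linarith⟩) (by
      rcases h3 with ⟨m, hm, hma, hmw⟩ | ⟨m, hm, hma, hmw⟩
      · exact ⟨m, hm, Or.inl ⟨hma, hmw⟩⟩
      · refine ⟨d - m, ((mem_rv hd).1 hm).2, Or.inr ⟨hmm m hm hma, ?_⟩⟩
        rw [hwm w m hm, wt_rv w had] at hmw
        linarith)
    apply hne
    have hcb : (J.rv d P).coeff (d - a') = P.coeff a' := by
      rw [coeff_rv hd, if_pos tsub_le_self, tsub_tsub_cancel_of_le had]
    have hsum : ∀ m : Fin k →₀ ℕ, ∑ i, w i * (((m i : ℕ) : ℤ) + v i) = wt w m := by
      intro m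
      have : ∑ i, w i * (((m i : ℕ) : ℤ) + v i) = wt w m + ∑ i, w i * v i := by
        unfold wt
        rw [← Finset.sum_add_distrib]
        exact Finset.sum_congr rfl fun i _ => by ring
      rw [this, hv, add_zero]
    have e1 := cz_mono_mul (d - a') ((J.rv d P).coeff (d - a')) (lev w (wt w a) P)
      (fun i => ((a i : ℕ) : ℤ) + v i)
    rw [cz_lev w _ P (hsum a), hcb] at e1
    have e2 := cz_mono_mul a (P.coeff a) (lev w (wt w (d - a')) (J.rv d P))
      (fun i => (((d - a') i : ℕ) : ℤ) + v i)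
    rw [cz_lev w _ _ (hsum (d - a')), cz_rv hd] at e2
    have e3 : (fun i => ((d i : ℕ) : ℤ) - ((((d - a') i : ℕ) : ℤ) + v i)) =
        fun i => ((a' i : ℕ) : ℤ) - v i := by
      funext i
      have := had i
      simp only [Finsupp.coe_tsub, Pi.sub_apply]
      omega
    rw [e3] at e2
    rw [← e1, ← e2, ← heq, hcb]
    congr 1
    funext i
    ring

/-- the inequality for a polynomial with a good pair of vertices -/
theorem goodP_mM {P : MvPolynomial (Fin k) ℤ} {a a' : Fin k →₀ ℕ} (ha : a ∈ P.support)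
    (ha' : a' ∈ P.support) (h : GoodP P a a') (hne : ∃ m ∈ P.support, m ≠ a) :
    8 * (ND P : ℝ) + 17 ≤ 16 * mM P ^ 4 := by
  have hd := J.sle_dg P
  have hG := goodP_good ha' h hd
  have hb : J.dg P - a' ∈ (J.rv (J.dg P) P).support :=
    (mem_rv hd).2 ⟨tsub_le_self, by rwa [tsub_tsub_cancel_of_le (hd a' ha')]⟩
  have h1 := good_pair ha hb hG (Or.inl hne)
  have hM : 0 < mM P := Real.exp_pos _
  rw [← J.recip_eq_rv, Pool.Agent.H887R3.LW.mx_recip, Real.exp_log hM] at h1
  have h2 : (ND P : ℝ) ≤ (finrank ℚ ↥(VS P.support ⊔ VS (recip P).support) : ℝ) := by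
    exact_mod_cast Submodule.finrank_mono (le_sup_left : VS P.support ≤ _)
  linarith

/-- the measure of a face -/
theorem face_le {w : Fin k → ℤ} {n : ℤ} {P : MvPolynomial (Fin k) ℤ}
    (hmin : ∀ m ∈ P.support, n ≤ wt w m) (h0 : lev w n P ≠ 0) : mM (lev w n P) ≤ mM P := by
  have hP : P ≠ 0 := by
    rintro rfl
    apply h0
    simp [lev]
  set N : ℕ := ∑ m ∈ P.support, (wt w m - n).toNat with hN
  have hr : ∀ m ∈ P.support, n ≤ wt w m ∧ wt w m ≤ n + N := by
    intro m hm
    refine ⟨hmin m hm, ?_⟩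
    have h1 : (wt w m - n).toNat ≤ N :=
      Finset.single_le_sum (f := fun m => (wt w m - n).toNat) (fun _ _ => Nat.zero_le _) hm
    omega
  have e0 : n + ((0 : ℕ) : ℤ) = n := by simp
  have h1 := level_mx (C := 1) hP hr le_rfl (i := 0) (j := 0)
    (fun q hq => ⟨(coeff_le_one hq).1, (coeff_le_one hq).1⟩) (by rw [e0]; exact h0)
  rw [e0, Real.log_one, zero_add] at h1
  have h2 : mx (lev w n P) (lev w n P) = Real.log (mM (lev w n P)) := by
    unfold mx mM
    simp only [max_self]
    rw [Real.log_exp]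
  rw [h2] at h1
  exact (Real.log_le_log_iff (Real.exp_pos _) (Real.exp_pos _)).1 h1

/-- a vertex pair whose sum has no other representation is good -/
theorem goodP_unique {P : MvPolynomial (Fin k) ℤ} {a a' : Fin k →₀ ℕ} (ha : a ∈ P.support)
    (ha' : a' ∈ P.support)
    (hw : ∃ w : Fin k → ℤ, ∀ m ∈ P.support, (m ≠ a → wt w a < wt w m) ∧ (m ≠ a' → wt w m < wt w a'))
    (hu : ∀ m ∈ P.support, ∀ m' ∈ P.support, m + m' = a + a' → m = a ∨ m = a')
    (h3 : 3 ≤ P.support.card) : GoodP P a a' := by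
  classical
  refine ⟨hw, ?_⟩
  intro w h1 h2
  have hca := MvPolynomial.mem_support_iff.1 ha
  have hca' := MvPolynomial.mem_support_iff.1 ha'
  -- the coefficient at the opposite point vanishes
  have hz : ∀ m ∈ P.support, m ≠ a → m ≠ a' →
      cz P (fun i => ((a i : ℕ) : ℤ) + a' i - m i) = 0 := by
    intro m hm hma hma'
    by_cases hv : ∀ i, 0 ≤ (fun i => ((a i : ℕ) : ℤ) + a' i - m i) i
    · obtain ⟨m', hm'⟩ := ex_ic hv
      rw [hm', cz_ic]
      by_contra hne
      have h4 : m + m' = a + a' := by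
        ext i
        have := congrFun hm' i
        simp only [ic] at this
        simp only [Finsupp.add_apply]
        omega
      rcases hu m hm m' (MvPolynomial.mem_support_iff.2 hne) h4 with h | h
      · exact hma h
      · exact hma' h
    · exact cz_neg _ hv
  have hA : ∀ m ∈ P.support, m ≠ a → m ≠ a' → wt w m = wt w a → ∃ v : Fin k → ℤ,
      ∑ i, w i * v i = 0 ∧
      P.coeff a' * cz P (fun i => a i + v i) ≠ P.coeff a * cz P (fun i => a' i - v i) := by
    intro m hm hma hma' hmw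
    refine ⟨fun i => (m i : ℤ) - a i, ?_, ?_⟩
    · have : ∑ i, w i * ((m i : ℤ) - a i) = wt w m - wt w a := by
        unfold wt
        rw [← Finset.sum_sub_distrib]
        exact Finset.sum_congr rfl fun i _ => by ring
      rw [this, hmw, sub_self]
    · have e1 : (fun i => ((a i : ℕ) : ℤ) + ((m i : ℤ) - a i)) = ic m := by
        funext i
        simp only [ic]
        ring
      have e2 : (fun i => ((a' i : ℕ) : ℤ) - ((m i : ℤ) - a i)) =
          fun i => ((a i : ℕ) : ℤ) + a' i - m i := by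
        funext i
        ring
      rw [e1, e2, cz_ic, hz m hm hma hma', mul_zero]
      exact mul_ne_zero hca' (MvPolynomial.mem_support_iff.1 hm)
  have hconst : wt w a = wt w a' → ∃ v : Fin k → ℤ, ∑ i, w i * v i = 0 ∧
      P.coeff a' * cz P (fun i => a i + v i) ≠ P.coeff a * cz P (fun i => a' i - v i) := by
    intro h
    have h4 : ∃ m ∈ P.support, m ∉ ({a, a'} : Finset (Fin k →₀ ℕ)) := by
      by_contra hcon
      push Not at hcon
      have h5 := Finset.card_le_card (show P.support ⊆ {a, a'} from hcon)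
      have h6 := Finset.card_le_two (a := a) (b := a')
      omega
    obtain ⟨m, hm, hmn⟩ := h4
    rw [Finset.mem_insert, Finset.mem_singleton, not_or] at hmn
    apply hA m hm hmn.1 hmn.2
    have := h1 m hm
    omega
  obtain ⟨m, hm, h | h⟩ := h2
  · by_cases hma' : m = a'
    · exact hconst (by rw [← h.2, hma'])
    · exact hA m hm h.1 hma' h.2
  · by_cases hma : m = a
    · exact hconst (by rw [← h.2, hma])
    · refine ⟨fun i => (a' i : ℤ) - m i, ?_, ?_⟩
      · have : ∑ i, w i * ((a' i : ℤ) - m i) = wt w a' - wt w m := by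
          unfold wt
          rw [← Finset.sum_sub_distrib]
          exact Finset.sum_congr rfl fun i _ => by ring
        rw [this, h.2, sub_self]
      · have e1 : (fun i => ((a' i : ℕ) : ℤ) - ((a' i : ℤ) - m i)) = ic m := by
          funext i
          simp only [ic]
          ring
        have e2 : (fun i => ((a i : ℕ) : ℤ) + ((a' i : ℤ) - m i)) =
            fun i => ((a i : ℕ) : ℤ) + a' i - m i := by
          funext i
          ring
        rw [e1, e2, cz_ic, hz m hm hma h.1, mul_zero]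
        exact (mul_ne_zero hca (MvPolynomial.mem_support_iff.1 hm)).symm

end

end Pool.Agent.R328.GD
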