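import Mathlib
import Pool.Agent.R328.VE

/-!
# Final forms of the inequalities at a vertex
-/

set_option autoImplicit false

open MeasureTheory Module

namespace Pool.Agent.R328.GD

open Pool.Agent.H261R2.CM

noncomputable section

variable {k : ℕ}

/-- the inequality for the lowest part of the difference at a vertex -/
theorem diff_pair {w : Fin k → ℤ} {A B : MvPolynomial (Fin k) ℤ} {a b : Fin k →₀ ℕ}
    (ha : a ∈ A.support) (hb : b ∈ B.support)
    (hpA : ∀ m ∈ A.support, m ≠ a → wt w a < wt w m)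
    (hpB : ∀ m ∈ B.support, m ≠ b → wt w b < wt w m) {j : ℤ}
    (hj : ∀ m ∈ (nn A B a b).support, j ≤ wt w m) (h0 : lev w j (nn A B a b) ≠ 0) :
    8 * (ND (lev w j (nn A B a b)) : ℝ) + 25 ≤ 16 * Real.exp (mx A B) ^ 4 := by
  obtain ⟨m, hm⟩ := MvPolynomial.support_nonempty.2 h0
  obtain ⟨hm1, hm2⟩ := mem_lev.1 hm
  have hpos : wt w a + wt w b < j := by
    rw [← hm2]
    have hne : m ≠ a + b := fun h => nn_p0 A B a b (by rw [← h]; exact hm1)
    rcases mem_nn hm1 with ⟨m', hm', rfl⟩ | ⟨m', hm', rfl⟩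
    · rw [wt_add]
      have h1 : m' ≠ a := fun h => hne (by rw [h])
      linarith [hpA m' hm' h1]
    · rw [wt_add]
      have h1 : m' ≠ b := fun h => hne (by rw [h, add_comm])
      linarith [hpB m' hm' h1]
  obtain ⟨s, hs⟩ := Int.eq_ofNat_of_zero_le (show 0 ≤ j - (wt w a + wt w b) by linarith)
  have hs' : j = wt w a + wt w b + (s : ℤ) := by
    have : j - (wt w a + wt w b) = (s : ℤ) := hs
    linarith
  have hs0 : s ≠ 0 := by
    rintro rfl
    simp at hs'
    omega
  have h1 := core_pair ha hb hpA hpB hs0 (fun i hi => by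
    by_contra hcon
    obtain ⟨m, hm⟩ := MvPolynomial.support_nonempty.2 hcon
    obtain ⟨hm1, hm2⟩ := mem_lev.1 hm
    have := hj m hm1
    omega) (by rw [← hs']; exact h0)
  rw [← hs'] at h1
  exact h1

lemma ND_eq_zero {A B : MvPolynomial (Fin k) ℤ} {a b : Fin k →₀ ℕ} (ha : a ∈ A.support)
    (hb : b ∈ B.support) (hA : ∀ m ∈ A.support, m = a) (hB : ∀ m ∈ B.support, m = b) :
    ND (A * B) = 0 := by
  have hA0 : A ≠ 0 := MvPolynomial.support_nonempty.1 ⟨a, ha⟩
  have hB0 : B ≠ 0 := MvPolynomial.support_nonempty.1 ⟨b, hb⟩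
  have h1 : VS A.support ≤ ⊥ := VS_le ha fun m hm => by
    rw [hA m hm, sub_self]
    exact Submodule.zero_mem _
  have h2 : VS B.support ≤ ⊥ := VS_le hb fun m hm => by
    rw [hB m hm, sub_self]
    exact Submodule.zero_mem _
  have h3 := (VS_mul hA0 hB0).trans (sup_le h1 h2)
  unfold ND
  rw [le_bot_iff.1 h3, finrank_bot]

/-- the inequality for pairs with a good vertex -/
theorem good_pair' {A B : MvPolynomial (Fin k) ℤ} {a b : Fin k →₀ ℕ} (ha : a ∈ A.support)
    (hb : b ∈ B.support) (hG : Good A B a b) (h1 : 1 ≤ ND (A * B)) :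
    8 * (ND (A * B) : ℝ) + 17 ≤ 16 * Real.exp (mx A B) ^ 4 := by
  have hA0 : A ≠ 0 := MvPolynomial.support_nonempty.1 ⟨a, ha⟩
  have hB0 : B ≠ 0 := MvPolynomial.support_nonempty.1 ⟨b, hb⟩
  have hne : (∃ m ∈ A.support, m ≠ a) ∨ ∃ m ∈ B.support, m ≠ b := by
    by_contra hcon
    push Not at hcon
    have := ND_eq_zero ha hb hcon.1 hcon.2
    omega
  have h := good_pair ha hb hG hne
  have h2 : (ND (A * B) : ℝ) ≤ (finrank ℚ ↥(VS A.support ⊔ VS B.support) : ℝ) := by
    exact_mod_cast Submodule.finrank_mono (VS_mul hA0 hB0)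
  linarith

/-- the inequality for a face with a good pair of vertices -/
theorem goodP_face {w : Fin k → ℤ} {n : ℤ} {P : MvPolynomial (Fin k) ℤ}
    (hmin : ∀ m ∈ P.support, n ≤ wt w m) {a a' : Fin k →₀ ℕ} (ha : a ∈ (lev w n P).support)
    (ha' : a' ∈ (lev w n P).support) (h : GoodP (lev w n P) a a') (h1 : 1 ≤ ND (lev w n P)) :
    8 * (ND (lev w n P) : ℝ) + 17 ≤ 16 * mM P ^ 4 := by
  have hF : lev w n P ≠ 0 := MvPolynomial.support_nonempty.1 ⟨a, ha⟩
  have hne : ∃ m ∈ (lev w n P).support, m ≠ a := by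
    by_contra hcon
    push Not at hcon
    have h2 : VS (lev w n P).support ≤ ⊥ := VS_le ha fun m hm => by
      rw [hcon m hm, sub_self]
      exact Submodule.zero_mem _
    unfold ND at h1
    rw [le_bot_iff.1 h2, finrank_bot] at h1
    omega
  have h2 := goodP_mM ha ha' h hne
  have h3 : mM (lev w n P) ^ 4 ≤ mM P ^ 4 := pow_le_pow_left₀ (Real.exp_pos _).le (face_le hmin hF) 4
  linarith

/-- the inequality for a face with a pair of vertices whose sum has no other representation -/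
theorem unique_face {w : Fin k → ℤ} {n : ℤ} {P : MvPolynomial (Fin k) ℤ}
    (hmin : ∀ m ∈ P.support, n ≤ wt w m) {a a' : Fin k →₀ ℕ} (ha : a ∈ (lev w n P).support)
    (ha' : a' ∈ (lev w n P).support)
    (hw : ∃ v : Fin k → ℤ, ∀ m ∈ (lev w n P).support,
      (m ≠ a → wt v a < wt v m) ∧ (m ≠ a' → wt v m < wt v a'))
    (hu : ∀ m ∈ (lev w n P).support, ∀ m' ∈ (lev w n P).support, m + m' = a + a' → m = a ∨ m = a')
    (hc : 3 ≤ (lev w n P).support.card) :
    8 * (ND (lev w n P) : ℝ) + 17 ≤ 16 * mM P ^ 4 := by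
  have hF : lev w n P ≠ 0 := MvPolynomial.support_nonempty.1 ⟨a, ha⟩
  have hne : ∃ m ∈ (lev w n P).support, m ≠ a := by
    by_contra hcon
    push Not at hcon
    have h5 := Finset.card_le_card (show (lev w n P).support ⊆ {a} from fun m hm =>
      Finset.mem_singleton.2 (hcon m hm))
    rw [Finset.card_singleton] at h5
    omega
  have h2 := goodP_mM ha ha' (goodP_unique ha ha' hw hu hc) hne
  have h3 : mM (lev w n P) ^ 4 ≤ mM P ^ 4 := pow_le_pow_left₀ (Real.exp_pos _).le (face_le hmin hF) 4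
  linarith

end

end Pool.Agent.R328.GD
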