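import Mathlib
import Pool.Agent.R328.VF

/-!
# Growth with a weight `κ² |B|²`
-/

set_option autoImplicit false

open MeasureTheory Module

namespace Pool.Agent.R328.GD

open Pool.Agent.H261R2.CM

noncomputable section

variable {k : ℕ}

/-- the weighted mean -/
def Lw (A B : MvPolynomial (Fin k) ℤ) (κ δ : ℝ) : ℝ :=
  ∫ t in Set.Icc (0 : Fin k → ℝ) 1, Real.log (‖tv A t‖ ^ 2 + (κ ^ 2 * ‖tv B t‖ ^ 2 + δ))

lemma cont_w (B : MvPolynomial (Fin k) ℤ) (κ δ : ℝ) :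
    Continuous fun t => κ ^ 2 * ‖tv B t‖ ^ 2 + δ :=
  (((F_continuous_tv B).norm.pow 2).const_mul _).add continuous_const

lemma cont_Lw (A B : MvPolynomial (Fin k) ℤ) (κ : ℝ) {δ : ℝ} (hδ : 0 < δ) :
    Continuous fun t => Real.log (‖tv A t‖ ^ 2 + (κ ^ 2 * ‖tv B t‖ ^ 2 + δ)) := by
  apply Continuous.log
  · exact ((F_continuous_tv A).norm.pow 2).add (cont_w B κ δ)
  · intro t
    positivity

lemma cont_lw (B : MvPolynomial (Fin k) ℤ) (κ : ℝ) {δ : ℝ} (hδ : 0 < δ) :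
    Continuous fun t => Real.log (κ ^ 2 * ‖tv B t‖ ^ 2 + δ) := by
  apply Continuous.log
  · exact cont_w B κ δ
  · intro t
    positivity

/-- the start of the induction -/
lemma w_base {A B : MvPolynomial (Fin k) ℤ} (hA : A ≠ 0) {κ δ D : ℝ} (hδ : 0 < δ) (hD : 0 < D)
    (hB : 2 * Real.log D ≤ ∫ t in Set.Icc (0 : Fin k → ℝ) 1, Real.log (κ ^ 2 * ‖tv B t‖ ^ 2 + δ)) :
    Real.log (1 + D ^ 2) ≤ Lw A B κ δ := by
  set μ := (volume : Measure (Fin k → ℝ)).restrict (Set.Icc (0 : Fin k → ℝ) 1) with hμ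
  have i1 : Integrable (fun t => Real.log ‖tv A t‖) μ := F_integrable hA
  have i2 : Integrable (fun t => Real.log (κ ^ 2 * ‖tv B t‖ ^ 2 + δ)) μ :=
    (cont_lw B κ hδ).integrableOn_Icc
  set y : ℝ := -(2 * Real.log D) with hy
  set θ : ℝ := Real.exp y / (1 + Real.exp y) with hθ
  have hθ0 : 0 ≤ θ := by positivity
  have hθ1 : θ ≤ 1 := by
    rw [hθ, div_le_one (by positivity)]
    linarith [Real.exp_pos y]
  have hey : Real.exp y = (D ^ 2)⁻¹ := by
    rw [hy, Real.exp_neg, two_mul, Real.exp_add, Real.exp_log hD, sq]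
  have e0 : Real.log (1 + D ^ 2) = Real.log (1 + Real.exp y) - y := by
    have h1 : 1 + D ^ 2 = D ^ 2 * (1 + Real.exp y) := by
      rw [hey]
      field_simp
      ring
    rw [h1, Real.log_mul (by positivity) (by positivity), Real.log_pow, hy]
    push_cast
    ring
  have i3 : Integrable (fun t => 2 * θ * Real.log ‖tv A t‖ +
      (1 - θ) * Real.log (κ ^ 2 * ‖tv B t‖ ^ 2 + δ)) μ := (i1.const_mul _).add (i2.const_mul _)
  have h1 : ∫ t, ((Real.log (1 + Real.exp y) - θ * y) + (2 * θ * Real.log ‖tv A t‖ +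
      (1 - θ) * Real.log (κ ^ 2 * ‖tv B t‖ ^ 2 + δ))) ∂μ ≤ Lw A B κ δ := by
    unfold Lw
    apply integral_mono_ae ((integrable_const _).add i3) (cont_Lw A B κ hδ).integrableOn_Icc
    filter_upwards [F_zero_null hA] with t ht
    have ha : 0 < ‖tv A t‖ := norm_pos_iff.mpr ht
    simp only [Pi.add_apply]
    have hc : 0 < κ ^ 2 * ‖tv B t‖ ^ 2 + δ := by positivity
    set z : ℝ := Real.log (κ ^ 2 * ‖tv B t‖ ^ 2 + δ) with hz
    have h2 := tangent (2 * Real.log ‖tv A t‖ - z) y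
    have h3 : Real.log (‖tv A t‖ ^ 2 + (κ ^ 2 * ‖tv B t‖ ^ 2 + δ)) =
        z + Real.log (1 + Real.exp (2 * Real.log ‖tv A t‖ - z)) := by
      rw [Real.exp_sub, two_mul, Real.exp_add, Real.exp_log ha, hz, Real.exp_log hc,
        ← Real.log_mul hc.ne' (by positivity)]
      congr 1
      field_simp
      ring
    rw [h3]
    rw [← hθ] at h2
    linarith
  rw [integral_add (integrable_const _) i3, integral_add (i1.const_mul _) (i2.const_mul _),
    integral_const_mul, integral_const_mul, integral_const, probReal_univ, one_smul] at h1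
  have h2 : 0 ≤ ∫ t, Real.log ‖tv A t‖ ∂μ := by
    have := one_le_mM A hA
    unfold mM at this
    rwa [Real.one_le_exp_iff] at this
  have h3 : 0 ≤ 2 * θ * ∫ t, Real.log ‖tv A t‖ ∂μ := by positivity
  have h4 : (1 - θ) * (-y) ≤ (1 - θ) * ∫ t, Real.log (κ ^ 2 * ‖tv B t‖ ^ 2 + δ) ∂μ := by
    apply mul_le_mul_of_nonneg_left _ (by linarith)
    rw [hy]
    linarith
  rw [e0]
  linarith

/-- Jensen's inequality -/
lemma w_jensen {a b B : MvPolynomial (Fin k) ℤ} (hb : b ≠ 0) {κ δ D : ℝ} (hδ : 0 < δ) (hD : 0 < D)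
    (hB : 2 * Real.log D ≤ ∫ t in Set.Icc (0 : Fin k → ℝ) 1, Real.log (κ ^ 2 * ‖tv B t‖ ^ 2 + δ)) :
    Real.log (1 + D ^ 2 * Real.exp (-2 * Lw a B κ δ)) ≤
      ∫ t in Set.Icc (0 : Fin k → ℝ) 1,
        Real.log (1 + ‖tv b t‖ ^ 2 * (κ ^ 2 * ‖tv B t‖ ^ 2 + δ) /
          (‖tv a t‖ ^ 2 + (κ ^ 2 * ‖tv B t‖ ^ 2 + δ)) ^ 2) := by
  set ℓ := Lw a B κ δ with hℓ
  set y : ℝ := 2 * Real.log D - 2 * ℓ with hy
  have hey : Real.exp y = D ^ 2 * Real.exp (-2 * ℓ) := by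
    rw [hy, sub_eq_add_neg, Real.exp_add, two_mul (Real.log D), Real.exp_add, Real.exp_log hD, sq]
    congr 2
    ring
  rw [← hey]
  set θ : ℝ := Real.exp y / (1 + Real.exp y) with hθ
  have hθ0 : 0 ≤ θ := by positivity
  set μ := (volume : Measure (Fin k → ℝ)).restrict (Set.Icc (0 : Fin k → ℝ) 1) with hμ
  set X : (Fin k → ℝ) → ℝ := fun t => 2 * Real.log ‖tv b t‖ +
    Real.log (κ ^ 2 * ‖tv B t‖ ^ 2 + δ) -
    2 * Real.log (‖tv a t‖ ^ 2 + (κ ^ 2 * ‖tv B t‖ ^ 2 + δ)) with hX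
  have i1 : Integrable (fun t => Real.log ‖tv b t‖) μ := F_integrable hb
  have i2 : Integrable (fun t => Real.log (κ ^ 2 * ‖tv B t‖ ^ 2 + δ)) μ :=
    (cont_lw B κ hδ).integrableOn_Icc
  have i3 : Integrable (fun t => Real.log (‖tv a t‖ ^ 2 + (κ ^ 2 * ‖tv B t‖ ^ 2 + δ))) μ :=
    (cont_Lw a B κ hδ).integrableOn_Icc
  have i12 : Integrable (fun t => 2 * Real.log ‖tv b t‖ +
      Real.log (κ ^ 2 * ‖tv B t‖ ^ 2 + δ)) μ := (i1.const_mul 2).add i2
  have iX : Integrable X μ := i12.sub (i3.const_mul 2)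
  have hIX : y ≤ ∫ t, X t ∂μ := by
    have e1 : ∫ t, X t ∂μ = 2 * ∫ t, Real.log ‖tv b t‖ ∂μ +
        ∫ t, Real.log (κ ^ 2 * ‖tv B t‖ ^ 2 + δ) ∂μ -
        2 * ∫ t, Real.log (‖tv a t‖ ^ 2 + (κ ^ 2 * ‖tv B t‖ ^ 2 + δ)) ∂μ := by
      simp only [hX]
      rw [integral_sub i12 (i3.const_mul 2),
        integral_add (i1.const_mul 2) i2, integral_const_mul, integral_const_mul]
    have e2 : 0 ≤ ∫ t, Real.log ‖tv b t‖ ∂μ := by
      have := one_le_mM b hb
      unfold mM at this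
      rwa [Real.one_le_exp_iff] at this
    have e4 : ∫ t, Real.log (‖tv a t‖ ^ 2 + (κ ^ 2 * ‖tv B t‖ ^ 2 + δ)) ∂μ = ℓ := rfl
    rw [e1, e4]
    linarith
  have hlow : ∫ t, (Real.log (1 + Real.exp y) + θ * (X t - y)) ∂μ ≤
      ∫ t, Real.log (1 + ‖tv b t‖ ^ 2 * (κ ^ 2 * ‖tv B t‖ ^ 2 + δ) /
        (‖tv a t‖ ^ 2 + (κ ^ 2 * ‖tv B t‖ ^ 2 + δ)) ^ 2) ∂μ := by
    apply integral_mono_ae
    · exact (integrable_const _).add ((iX.sub (integrable_const _)).const_mul θ)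
    · apply Continuous.integrableOn_Icc
      apply Continuous.log
      · apply continuous_const.add
        apply Continuous.div
        · exact ((F_continuous_tv b).norm.pow 2).mul (cont_w B κ δ)
        · exact (((F_continuous_tv a).norm.pow 2).add (cont_w B κ δ)).pow 2
        · intro t
          positivity
      · intro t
        positivity
    · filter_upwards [F_zero_null hb] with t ht
      have hb0 : 0 < ‖tv b t‖ := norm_pos_iff.mpr ht
      have hc0 : 0 < κ ^ 2 * ‖tv B t‖ ^ 2 + δ := by positivity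
      have ha0 : 0 < ‖tv a t‖ ^ 2 + (κ ^ 2 * ‖tv B t‖ ^ 2 + δ) := by positivity
      have e5 : ‖tv b t‖ ^ 2 * (κ ^ 2 * ‖tv B t‖ ^ 2 + δ) /
          (‖tv a t‖ ^ 2 + (κ ^ 2 * ‖tv B t‖ ^ 2 + δ)) ^ 2 = Real.exp (X t) := by
        rw [← Real.exp_log (show 0 < ‖tv b t‖ ^ 2 * (κ ^ 2 * ‖tv B t‖ ^ 2 + δ) /
          (‖tv a t‖ ^ 2 + (κ ^ 2 * ‖tv B t‖ ^ 2 + δ)) ^ 2 by positivity)]
        congr 1
        rw [Real.log_div (by positivity) (by positivity), Real.log_mul (by positivity) hc0.ne',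
          Real.log_pow, Real.log_pow]
        simp only [hX]
        push_cast
        ring
      rw [e5]
      exact tangent (X t) y
  refine le_trans ?_ hlow
  have i4 : Integrable (fun t => X t - y) μ := iX.sub (integrable_const _)
  rw [integral_add (integrable_const _) (i4.const_mul θ),
    integral_const_mul, integral_sub iX (integrable_const _)]
  have hp : ∀ c : ℝ, ∫ _t, c ∂μ = c := by
    intro c
    rw [integral_const, probReal_univ, one_smul]
  rw [hp, hp]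
  have : 0 ≤ θ * (∫ t, X t ∂μ - y) := mul_nonneg hθ0 (by linarith)
  linarith

/-- one step -/
theorem w_step {w : Fin k → ℤ} {n0 n : ℤ} {A B : MvPolynomial (Fin k) ℤ}
    (hBw : ∀ m ∈ B.support, wt w m = n)
    (hmin : ∀ m ∈ A.support, n0 ≤ wt w m) {s : ℕ} (hs : s ≠ 0)
    (hgap : ∀ m ∈ A.support, n0 < wt w m → n0 + s ≤ wt w m)
    (hb : lev w (n0 + s) A ≠ 0) {κ δ D : ℝ} (hδ : 0 < δ) (hD : 0 < D)
    (hB : 2 * Real.log D ≤ ∫ t in Set.Icc (0 : Fin k → ℝ) 1, Real.log (κ ^ 2 * ‖tv B t‖ ^ 2 + δ)) :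
    Lw (lev w n0 A) B κ δ + Real.log (1 + D ^ 2 * Real.exp (-2 * Lw (lev w n0 A) B κ δ)) ≤
      Lw A B κ δ := by
  set a := lev w n0 A with ha
  set b := lev w (n0 + s) A with hb'
  set Φ : UnitAddTorus (Fin k) → ℝ := fun x =>
    Real.log (‖F_G A x‖ ^ 2 + (κ ^ 2 * ‖F_G B x‖ ^ 2 + δ)) with hΦ
  have hΦc : Continuous Φ := by
    apply Continuous.log
    · exact ((F_G A).continuous.norm.pow 2).add
        ((((F_G B).continuous.norm.pow 2).const_mul _).add continuous_const)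
    · intro x
      positivity
  have e1 : ∀ t, Φ (F_pt t) = Real.log (‖tv A t‖ ^ 2 + (κ ^ 2 * ‖tv B t‖ ^ 2 + δ)) := by
    intro t
    simp only [hΦ, F_tv]
  have h1 := slice Φ hΦc w
  have e2 : ∫ t in Set.Icc (0 : Fin k → ℝ) 1, Φ (F_pt t) = Lw A B κ δ := by
    unfold Lw
    simp only [e1]
  rw [e2] at h1
  rw [h1]
  have hcont : Continuous fun t : Fin k → ℝ => ∫ x in (0:ℝ)..1, Φ (F_pt (sh w t x)) := by
    apply intervalIntegral.continuous_parametric_intervalIntegral_of_continuous'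
    exact hΦc.comp (F_continuous_pt.comp (sh_cont w))
  have hc1 : Continuous fun t : Fin k → ℝ =>
      Real.log (‖tv a t‖ ^ 2 + (κ ^ 2 * ‖tv B t‖ ^ 2 + δ)) := cont_Lw a B κ hδ
  have hc2 : Continuous fun t : Fin k → ℝ => Real.log (1 + ‖tv b t‖ ^ 2 *
      (κ ^ 2 * ‖tv B t‖ ^ 2 + δ) / (‖tv a t‖ ^ 2 + (κ ^ 2 * ‖tv B t‖ ^ 2 + δ)) ^ 2) := by
    apply Continuous.log
    · apply continuous_const.add
      apply Continuous.div
      · exact ((F_continuous_tv b).norm.pow 2).mul (cont_w B κ δ)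
      · exact (((F_continuous_tv a).norm.pow 2).add (cont_w B κ δ)).pow 2
      · intro t
        positivity
    · intro t
      positivity
  have h2 : ∫ t in Set.Icc (0 : Fin k → ℝ) 1,
      (Real.log (‖tv a t‖ ^ 2 + (κ ^ 2 * ‖tv B t‖ ^ 2 + δ)) +
      Real.log (1 + ‖tv b t‖ ^ 2 * (κ ^ 2 * ‖tv B t‖ ^ 2 + δ) /
        (‖tv a t‖ ^ 2 + (κ ^ 2 * ‖tv B t‖ ^ 2 + δ)) ^ 2)) ≤
      ∫ t in Set.Icc (0 : Fin k → ℝ) 1, ∫ x in (0:ℝ)..1, Φ (F_pt (sh w t x)) := by
    apply integral_mono (hc1.add hc2).integrableOn_Icc hcont.integrableOn_Icc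
    intro t
    have h3 := slice_pt hmin hs hgap (c := κ ^ 2 * ‖tv B t‖ ^ 2 + δ) (by positivity) t
    refine h3.trans (le_of_eq ?_)
    apply intervalIntegral.integral_congr
    intro x _
    simp only [e1, norm_const hBw]
  rw [integral_add hc1.integrableOn_Icc hc2.integrableOn_Icc] at h2
  refine le_trans ?_ h2
  have h3 := w_jensen (a := a) (b := b) (B := B) hb hδ hD hB
  have e3 : ∫ t in Set.Icc (0 : Fin k → ℝ) 1,
      Real.log (‖tv a t‖ ^ 2 + (κ ^ 2 * ‖tv B t‖ ^ 2 + δ)) = Lw a B κ δ := rfl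
  rw [e3]
  linarith

/-- the levels belonging to a functional -/
lemma lev_data' (f : (Fin k → ℚ) →ₗ[ℚ] ℚ) {A : MvPolynomial (Fin k) ℤ} (hA : A ≠ 0)
    (hne : ∃ m ∈ A.support, m ∉ face f A.support) :
    ∃ (w : Fin k → ℤ) (n0 : ℤ) (s : ℕ), s ≠ 0 ∧ (∀ m ∈ A.support, n0 ≤ wt w m) ∧
      (∀ m ∈ A.support, n0 < wt w m → n0 + s ≤ wt w m) ∧ lev w (n0 + s) A ≠ 0 ∧
      lev w n0 A ≠ 0 ∧ (lev w n0 A).support = face f A.support ∧
      ∀ m m' : Fin k →₀ ℕ, f (vc m) = f (vc m') → wt w m = wt w m' := by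
  classical
  have hT : A.support.Nonempty := MvPolynomial.support_nonempty.2 hA
  obtain ⟨m1, hm1, hm1f⟩ := hne
  obtain ⟨w, D, hD, hw⟩ := exists_int f
  obtain ⟨x0, hx0⟩ := face_nonempty f hT
  have hx0A := (mem_face.1 hx0).1
  set n0 : ℤ := wt w x0 with hn0
  have hle : ∀ a b : Fin k →₀ ℕ, wt w a ≤ wt w b ↔ f (vc a) ≤ f (vc b) := by
    intro a b
    have h1 : ((wt w a : ℤ) : ℚ) ≤ ((wt w b : ℤ) : ℚ) ↔ f (vc a) ≤ f (vc b) := by
      rw [hw, hw]
      exact mul_le_mul_iff_right₀ hD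
    rw [← h1]
    exact Int.cast_le.symm
  have hmin : ∀ m ∈ A.support, n0 ≤ wt w m := fun m hm =>
    (hle x0 m).2 ((mem_face.1 hx0).2 m hm)
  have hface : ∀ m ∈ A.support, (wt w m = n0 ↔ m ∈ face f A.support) := by
    intro m hm
    constructor
    · intro h
      refine mem_face.2 ⟨hm, fun m' hm' => ?_⟩
      rw [← hle, h]
      exact hmin m' hm'
    · intro h
      apply le_antisymm _ (hmin m hm)
      exact (hle m x0).2 ((mem_face.1 h).2 x0 hx0A)
  have hT' : (A.support.filter fun m => n0 < wt w m).Nonempty := by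
    refine ⟨m1, Finset.mem_filter.2 ⟨hm1, lt_of_le_of_ne (hmin m1 hm1) fun h => hm1f ?_⟩⟩
    exact (hface m1 hm1).1 h.symm
  obtain ⟨m2, hm2, hm2min⟩ := Finset.exists_min_image _ (fun m => wt w m) hT'
  rw [Finset.mem_filter] at hm2
  obtain ⟨s, hs⟩ := Int.eq_ofNat_of_zero_le (show 0 ≤ wt w m2 - n0 by linarith [hm2.2])
  have hs0 : s ≠ 0 := by
    rintro rfl
    have := hm2.2
    simp only [Nat.cast_zero] at hs
    omega
  have hw2 : wt w m2 = n0 + s := by omega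
  refine ⟨w, n0, s, hs0, hmin, ?_, ?_, ?_, ?_, ?_⟩
  · intro m hm h
    rw [← hw2]
    exact hm2min m (Finset.mem_filter.2 ⟨hm, h⟩)
  · apply MvPolynomial.support_nonempty.1
    exact ⟨m2, mem_lev.2 ⟨hm2.1, hw2⟩⟩
  · apply MvPolynomial.support_nonempty.1
    exact ⟨x0, mem_lev.2 ⟨hx0A, rfl⟩⟩
  · ext m
    rw [mem_lev]
    constructor
    · rintro ⟨h1, h2⟩
      exact (hface m h1).1 h2
    · intro h
      have h1 := (mem_face.1 h).1
      exact ⟨h1, (hface m h1).2 h⟩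
  · intro m m' h
    apply le_antisymm
    · exact (hle m m').2 h.le
    · exact (hle m' m).2 h.ge

/-- growth with a weight -/
theorem w_main {B : MvPolynomial (Fin k) ℤ} (hB0 : B ≠ 0) {κ δ D : ℝ} (hδ : 0 < δ) (hD : 0 < D)
    (hB : 2 * Real.log D ≤ ∫ t in Set.Icc (0 : Fin k → ℝ) 1, Real.log (κ ^ 2 * ‖tv B t‖ ^ 2 + δ))
    (r : ℕ) : ∀ A : MvPolynomial (Fin k) ℤ, A ≠ 0 →
    finrank ℚ ↥(VS B.support) + r ≤ finrank ℚ ↥(VS A.support ⊔ VS B.support) →
    (1 + D ^ 2) ^ 2 + 2 * D ^ 2 * (r : ℝ) ≤ Real.exp (2 * Lw A B κ δ) := by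
  induction r with
  | zero =>
    intro A hA _
    have h := w_base hA hδ hD hB
    have h1 : Real.exp (2 * Real.log (1 + D ^ 2)) ≤ Real.exp (2 * Lw A B κ δ) :=
      Real.exp_le_exp.2 (by linarith)
    rw [two_mul, Real.exp_add, Real.exp_log (by positivity)] at h1
    rw [Nat.cast_zero, mul_zero, add_zero, sq]
    exact h1
  | succ r ih =>
    intro A hA hr
    have hT : A.support.Nonempty := MvPolynomial.support_nonempty.2 hA
    have hnot : ¬ VS A.support ≤ VS B.support := by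
      intro h
      rw [sup_eq_right.2 h] at hr
      omega
    obtain ⟨f, hfU, hne, hdim⟩ := facet hT (VS B.support) hnot
    obtain ⟨w, n0, s, hs0, hmin, hgap, hb, ha, hsupp, heq⟩ := lev_data' f hA hne
    obtain ⟨y0, hy0⟩ := MvPolynomial.support_nonempty.2 hB0
    have hBw : ∀ m ∈ B.support, wt w m = wt w y0 := by
      intro m hm
      have h1 := LinearMap.mem_ker.1 (hfU (sub_mem_VS hm hy0))
      rw [map_sub] at h1
      exact heq m y0 (by linarith)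
    have h1 := w_step hBw hmin hs0 hgap hb hδ hD hB
    have h2 := ih (lev w n0 A) ha (by rw [hsupp]; omega)
    have h3 := Lc_arith h2 (show 0 < D ^ 2 by positivity) h1
    push_cast
    linarith

end

end Pool.Agent.R328.GD
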