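import Mathlib
import Pool.Agent.R328.VG

/-!
# The first difference over a common face
-/

set_option autoImplicit false

open MeasureTheory Module

namespace Pool.Agent.R328.GD

open Pool.Agent.H261R2.CM

noncomputable section

variable {k : ℕ}

lemma mM_monomial (a : Fin k →₀ ℕ) (c : ℤ) (hc : c ≠ 0) :
    mM (MvPolynomial.monomial a c) = |((c : ℤ) : ℝ)| := by
  unfold mM
  have h1 : ∀ t : Fin k → ℝ, Real.log ‖tv (MvPolynomial.monomial a c) t‖ =
      Real.log |((c : ℤ) : ℝ)| := by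
    intro t
    have h2 := tv_mono_mul a c 1 t
    rw [mul_one] at h2
    have h3 : tv (1 : MvPolynomial (Fin k) ℤ) t = 1 := by rw [J.tv_eq, map_one]
    rw [h2, h3, mul_one, norm_mul, norm_chi, mul_one, Complex.norm_intCast]
  simp only [h1]
  rw [integral_const, probReal_univ, one_smul, Real.exp_log]
  exact abs_pos.2 (by exact_mod_cast hc)

/-- the coefficient of a vertex -/
lemma vertex_le {A : MvPolynomial (Fin k) ℤ} {a : Fin k →₀ ℕ} (ha : a ∈ A.support)
    {w : Fin k → ℤ} (hw : ∀ m ∈ A.support, m ≠ a → wt w a < wt w m) :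
    |((A.coeff a : ℤ) : ℝ)| ≤ mM A := by
  classical
  have hlev : lev w (wt w a) A = MvPolynomial.monomial a (A.coeff a) := by
    ext m
    rw [coeff_lev, MvPolynomial.coeff_monomial]
    by_cases h : a = m
    · rw [if_pos h, if_pos (by rw [h]), h]
    · rw [if_neg h]
      split_ifs with h1
      · by_contra h2
        have := hw m (MvPolynomial.mem_support_iff.2 h2) (fun h3 => h h3.symm)
        omega
      · rfl
  have hc := MvPolynomial.mem_support_iff.1 ha
  have h1 := face_le (w := w) (n := wt w a) (P := A) (fun m hm => by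
    by_cases h : m = a
    · rw [h]
    · exact (hw m hm h).le) (by
    rw [hlev]
    intro h0
    exact hc (MvPolynomial.monomial_eq_zero.1 h0))
  rwa [hlev, mM_monomial a _ hc] at h1

/-- `∫ log (κ² |A|² + δ) ≥ 2 log κ + 2 log M(A)` -/
lemma w_lower {A : MvPolynomial (Fin k) ℤ} (hA : A ≠ 0) {κ δ : ℝ} (hκ : 0 < κ) (hδ : 0 < δ) :
    2 * Real.log κ + 2 * Real.log (mM A) ≤
      ∫ t in Set.Icc (0 : Fin k → ℝ) 1, Real.log (κ ^ 2 * ‖tv A t‖ ^ 2 + δ) := by
  set μ := (volume : Measure (Fin k → ℝ)).restrict (Set.Icc (0 : Fin k → ℝ) 1) with hμ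
  have i1 : Integrable (fun t => Real.log ‖tv A t‖) μ := F_integrable hA
  have h1 : ∫ t, (2 * Real.log κ + 2 * Real.log ‖tv A t‖) ∂μ ≤
      ∫ t, Real.log (κ ^ 2 * ‖tv A t‖ ^ 2 + δ) ∂μ := by
    apply integral_mono_ae ((integrable_const _).add (i1.const_mul _))
      (cont_lw A κ hδ).integrableOn_Icc
    filter_upwards [F_zero_null hA] with t ht
    have ha : 0 < ‖tv A t‖ := norm_pos_iff.mpr ht
    simp only [Pi.add_apply]
    have h2 : 2 * Real.log κ + 2 * Real.log ‖tv A t‖ = Real.log (κ ^ 2 * ‖tv A t‖ ^ 2) := by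
      rw [Real.log_mul (by positivity) (by positivity), Real.log_pow, Real.log_pow]
      push_cast
      ring
    rw [h2]
    exact Real.log_le_log (by positivity) (by linarith)
  rw [integral_add (integrable_const _) (i1.const_mul _), integral_const,
    probReal_univ, one_smul, integral_const_mul, ← log_mM] at h1
  exact h1

/-- the first difference over a common face -/
theorem first_diff2 {w : Fin k → ℤ} {A B : MvPolynomial (Fin k) ℤ} {a b : Fin k →₀ ℕ}
    (hbal : MvPolynomial.monomial b (B.coeff b) * lev w (wt w a) A =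
      MvPolynomial.monomial a (A.coeff a) * lev w (wt w b) B)
    (ha0 : A.coeff a ≠ 0) (hb0 : B.coeff b ≠ 0)
    (hA : ∀ m ∈ A.support, wt w a ≤ wt w m) (hB : ∀ m ∈ B.support, wt w b ≤ wt w m)
    {s : ℕ} (hs : s ≠ 0) (hz : ∀ j : ℕ, j < s → lev w (wt w a + wt w b + j) (nn A B a b) = 0)
    {δ δ' : ℝ} (hδ : 0 < δ) (hδ' : 0 < δ')
    {D κ : ℝ} (hD : D = ((A.coeff a : ℤ) : ℝ) ^ 2 + ((B.coeff b : ℤ) : ℝ) ^ 2)
    (hκ : κ = D / |((A.coeff a : ℤ) : ℝ)|) :
    Lw (lev w (wt w a + wt w b + s) (nn A B a b)) (lev w (wt w a) A) κ δ' -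
      ((∫ t in Set.Icc (0 : Fin k → ℝ) 1, Real.log (κ ^ 2 * ‖tv (lev w (wt w a) A) t‖ ^ 2 + δ')) -
        (2 * Real.log κ + 2 * Real.log (mM (lev w (wt w a) A)))) - Real.log D ≤ Ld A B δ := by
  set N := lev w (wt w a + wt w b + s) (nn A B a b) with hN
  set A0 := lev w (wt w a) A with hA0
  set ca : ℝ := ((A.coeff a : ℤ) : ℝ) with hca
  set cb : ℝ := ((B.coeff b : ℤ) : ℝ) with hcb
  have hca0 : ca ≠ 0 := by rw [hca]; exact_mod_cast ha0
  have hcb0 : cb ≠ 0 := by rw [hcb]; exact_mod_cast hb0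
  have hD0 : 0 < D := by rw [hD]; positivity
  have hκ0 : 0 < κ := by rw [hκ]; positivity
  have hκ2 : κ ^ 2 * ca ^ 2 = D ^ 2 := by
    rw [hκ, div_pow, sq_abs]
    field_simp
  have hA0ne : A0 ≠ 0 := by
    intro h
    have h1 : A0.coeff a = A.coeff a := by rw [hA0, coeff_lev, if_pos rfl]
    rw [h, MvPolynomial.coeff_zero] at h1
    exact ha0 h1.symm
  set Φ : UnitAddTorus (Fin k) → ℝ := fun x =>
    Real.log (‖F_G A x‖ ^ 2 + (‖F_G B x‖ ^ 2 + δ)) with hΦ
  have hΦc : Continuous Φ := by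
    apply Continuous.log
    · exact ((F_G A).continuous.norm.pow 2).add (((F_G B).continuous.norm.pow 2).add continuous_const)
    · intro x
      positivity
  have e1 : ∀ t, Φ (F_pt t) = Real.log (‖tv A t‖ ^ 2 + (‖tv B t‖ ^ 2 + δ)) := by
    intro t
    simp only [hΦ, F_tv]
  have h1 := slice Φ hΦc w
  have e2 : ∫ t in Set.Icc (0 : Fin k → ℝ) 1, Φ (F_pt t) = Ld A B δ := by
    unfold Ld
    simp only [e1]
  rw [e2] at h1
  rw [h1]
  have hcont : Continuous fun t : Fin k → ℝ => ∫ x in (0:ℝ)..1, Φ (F_pt (sh w t x)) := by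
    apply intervalIntegral.continuous_parametric_intervalIntegral_of_continuous'
    exact hΦc.comp (F_continuous_pt.comp (sh_cont w))
  set μ := (volume : Measure (Fin k → ℝ)).restrict (Set.Icc (0 : Fin k → ℝ) 1) with hμ
  have i1 : Integrable (fun t => Real.log (‖tv N t‖ ^ 2 + (κ ^ 2 * ‖tv A0 t‖ ^ 2 + δ'))) μ :=
    (cont_Lw N A0 κ hδ').integrableOn_Icc
  have i2 : Integrable (fun t => Real.log (κ ^ 2 * ‖tv A0 t‖ ^ 2 + δ')) μ :=
    (cont_lw A0 κ hδ').integrableOn_Icc
  have i3 : Integrable (fun t => Real.log ‖tv A0 t‖) μ := F_integrable hA0ne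
  have i4 : Integrable (fun t => 2 * Real.log κ + 2 * Real.log ‖tv A0 t‖) μ :=
    (integrable_const _).add (i3.const_mul _)
  have i5 : Integrable (fun t => Real.log (κ ^ 2 * ‖tv A0 t‖ ^ 2 + δ') -
      (2 * Real.log κ + 2 * Real.log ‖tv A0 t‖)) μ := i2.sub i4
  have i6 : Integrable (fun t => Real.log (‖tv N t‖ ^ 2 + (κ ^ 2 * ‖tv A0 t‖ ^ 2 + δ')) -
      (Real.log (κ ^ 2 * ‖tv A0 t‖ ^ 2 + δ') - (2 * Real.log κ + 2 * Real.log ‖tv A0 t‖))) μ :=
    i1.sub i5
  have h2 : ∫ t, (Real.log (‖tv N t‖ ^ 2 + (κ ^ 2 * ‖tv A0 t‖ ^ 2 + δ')) -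
      (Real.log (κ ^ 2 * ‖tv A0 t‖ ^ 2 + δ') - (2 * Real.log κ + 2 * Real.log ‖tv A0 t‖)) -
        Real.log D) ∂μ ≤ ∫ t, (∫ x in (0:ℝ)..1, Φ (F_pt (sh w t x))) ∂μ := by
    apply integral_mono_ae (i6.sub (integrable_const _)) hcont.integrableOn_Icc
    filter_upwards [F_zero_null hA0ne] with t ht
    have ha : 0 < ‖tv A0 t‖ := norm_pos_iff.mpr ht
    have k0 : ∀ j : ℕ, (sp w (wt w a) A t).coeff j = tv (lev w (wt w a + j) A) t :=
      fun j => coeff_sp hA t j
    have k1 : ∀ j : ℕ, (sp w (wt w b) B t).coeff j = tv (lev w (wt w b + j) B) t :=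
      fun j => coeff_sp hB t j
    have k2 : (sp w (wt w a) A t).coeff 0 = tv A0 t := by
      rw [k0, Nat.cast_zero, add_zero]
    set B0t : ℂ := (sp w (wt w b) B t).coeff 0 with hB0t
    have k3 : B0t = tv (lev w (wt w b) B) t := by
      rw [hB0t, k1, Nat.cast_zero, add_zero]
    set α : ℂ := ((A.coeff a : ℤ) : ℂ) * chi a t with hα
    set β : ℂ := ((B.coeff b : ℤ) : ℂ) * chi b t with hβ
    have k5 : β * tv A0 t = α * B0t := by
      have h3 := tv_mono_mul b (B.coeff b) A0 t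
      have h4 := tv_mono_mul a (A.coeff a) (lev w (wt w b) B) t
      rw [hbal, h4] at h3
      rw [k3, hα, hβ, h3]
    have nα : ‖α‖ = |ca| := by
      rw [hα, norm_mul, norm_chi, mul_one, Complex.norm_intCast]
    have nβ : ‖β‖ = |cb| := by
      rw [hβ, norm_mul, norm_chi, mul_one, Complex.norm_intCast]
    have k4 : ∀ j : ℕ, tv (lev w (wt w a + wt w b + j) (nn A B a b)) t =
        β * (sp w (wt w a) A t).coeff j - α * (sp w (wt w b) B t).coeff j := by
      intro j
      have k5 : ∀ X Y : MvPolynomial (Fin k) ℤ, tv (X - Y) t = tv X t - tv Y t := by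
        intro X Y
        rw [J.tv_eq, J.tv_eq, J.tv_eq, map_sub]
      rw [lev_nn, k5, tv_mono_mul, tv_mono_mul, ← k0, ← k1]
    have k6 : ∀ j : ℕ, α * (tv A0 t * (sp w (wt w b) B t).coeff j -
        (sp w (wt w a) A t).coeff j * B0t) =
        - (tv A0 t * tv (lev w (wt w a + wt w b + j) (nn A B a b)) t) := by
      intro j
      rw [k4 j]
      linear_combination (sp w (wt w a) A t).coeff j * k5
    have hα0 : α ≠ 0 := by
      intro h
      rw [h, norm_zero] at nα
      exact hca0 (abs_eq_zero.1 nα.symm)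
    have h3 := two_var (sp w (wt w a) A t) (sp w (wt w b) B t) hs (fun j hj => by
      have h4 := k6 j
      rw [hz j hj] at h4
      have h5 : tv (0 : MvPolynomial (Fin k) ℤ) t = 0 := by rw [J.tv_eq, map_zero]
      rw [h5, mul_zero, neg_zero] at h4
      have h6 := (mul_eq_zero.1 h4).resolve_left hα0
      rw [k2]
      linear_combination h6) (by
        rw [k2]
        exact ht) hδ
    rw [k2, ← hB0t] at h3
    have n1 : |cb| * ‖tv A0 t‖ = |ca| * ‖B0t‖ := by
      rw [← nα, ← nβ, ← norm_mul, ← norm_mul, k5]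
    have n2 : ‖tv A0 t * (sp w (wt w b) B t).coeff s - (sp w (wt w a) A t).coeff s * B0t‖ * |ca| =
        ‖tv A0 t‖ * ‖tv N t‖ := by
      rw [mul_comm, ← nα, ← norm_mul, ← norm_mul, k6 s, norm_neg]
    set W := tv A0 t * (sp w (wt w b) B t).coeff s - (sp w (wt w a) A t).coeff s * B0t with hW
    set x : ℝ := ‖tv N t‖ ^ 2 with hx
    set y : ℝ := κ ^ 2 * ‖tv A0 t‖ ^ 2 with hy
    have hy0 : 0 < y := by positivity
    have hx0 : 0 ≤ x := by positivity
    have n3 : (‖tv A0 t‖ ^ 2 + ‖B0t‖ ^ 2) * D = y := by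
      have h4 : cb ^ 2 * ‖tv A0 t‖ ^ 2 = ca ^ 2 * ‖B0t‖ ^ 2 := by
        rw [← sq_abs cb, ← sq_abs ca, ← mul_pow, ← mul_pow, n1]
      have h5 : ca ^ 2 * ((‖tv A0 t‖ ^ 2 + ‖B0t‖ ^ 2) * D) = ca ^ 2 * y := by
        have : ca ^ 2 * y = D ^ 2 * ‖tv A0 t‖ ^ 2 := by
          rw [hy, ← hκ2]
          ring
        rw [this]
        have h6 : ca ^ 2 * (‖tv A0 t‖ ^ 2 + ‖B0t‖ ^ 2) = D * ‖tv A0 t‖ ^ 2 := by
          rw [mul_add, ← h4, hD]
          ring
        calc ca ^ 2 * ((‖tv A0 t‖ ^ 2 + ‖B0t‖ ^ 2) * D)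
            = (ca ^ 2 * (‖tv A0 t‖ ^ 2 + ‖B0t‖ ^ 2)) * D := by ring
          _ = D ^ 2 * ‖tv A0 t‖ ^ 2 := by rw [h6]; ring
      exact mul_left_cancel₀ (by positivity) h5
    have n4 : ‖W‖ ^ 2 * D ^ 2 = x * y := by
      have h4 : ‖W‖ ^ 2 * ca ^ 2 = ‖tv A0 t‖ ^ 2 * x := by
        rw [← sq_abs ca, ← mul_pow, n2, mul_pow]
      rw [← hκ2, hy]
      linear_combination κ ^ 2 * h4
    have n5 : Real.log (‖tv A0 t‖ ^ 2 + ‖B0t‖ ^ 2) +
        Real.log (1 + ‖W‖ ^ 2 / (‖tv A0 t‖ ^ 2 + ‖B0t‖ ^ 2) ^ 2) =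
        Real.log (x + y) - Real.log D := by
      have hg : 0 < ‖tv A0 t‖ ^ 2 + ‖B0t‖ ^ 2 := by positivity
      rw [← Real.log_mul hg.ne' (by positivity), ← Real.log_div (by positivity) hD0.ne']
      congr 1
      have h4 : ‖tv A0 t‖ ^ 2 + ‖B0t‖ ^ 2 = y / D := by
        rw [eq_div_iff hD0.ne']
        exact n3
      rw [h4]
      have h5 : ‖W‖ ^ 2 = x * y / D ^ 2 := by
        rw [eq_div_iff (by positivity)]
        exact n4
      rw [h5]
      field_simp
      ring
    rw [n5] at h3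
    have n6 : Real.log (x + (y + δ')) - (Real.log (y + δ') -
        (2 * Real.log κ + 2 * Real.log ‖tv A0 t‖)) ≤ Real.log (x + y) := by
      have h4 : 2 * Real.log κ + 2 * Real.log ‖tv A0 t‖ = Real.log y := by
        rw [hy, Real.log_mul (by positivity) (by positivity), Real.log_pow, Real.log_pow]
        push_cast
        ring
      rw [h4]
      have h5 : Real.log (x + (y + δ')) + Real.log y ≤ Real.log (x + y) + Real.log (y + δ') := by
        rw [← Real.log_mul (by positivity) hy0.ne', ← Real.log_mul (by positivity) (by positivity)]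
        apply Real.log_le_log (by positivity)
        nlinarith [mul_nonneg hx0 hδ'.le]
      linarith
    have h8 : Real.log (x + y) - Real.log D ≤ ∫ x in (0:ℝ)..1, Φ (F_pt (sh w t x)) := by
      refine h3.trans (le_of_eq ?_)
      apply intervalIntegral.integral_congr
      intro x _
      simp only [e1, norm_sp hA, norm_sp hB]
    change Real.log (x + (y + δ')) - (Real.log (y + δ') -
        (2 * Real.log κ + 2 * Real.log ‖tv A0 t‖)) - Real.log D ≤ _
    linarith
  rw [integral_sub i6 (integrable_const _), integral_sub i1 i5, integral_sub i2 i4,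
    integral_add (integrable_const _) (i3.const_mul _), integral_const, probReal_univ, one_smul,
    integral_const, probReal_univ, one_smul, integral_const_mul, ← log_mM] at h2
  exact h2

/-- the inequality for the first difference over a common face -/
theorem core2 {w : Fin k → ℤ} {A B : MvPolynomial (Fin k) ℤ} {a b : Fin k →₀ ℕ}
    (ha : a ∈ A.support) (hb : b ∈ B.support)
    {w0 : Fin k → ℤ} (hw0 : ∀ m ∈ A.support, m ≠ a → wt w0 a < wt w0 m)
    (hbal : MvPolynomial.monomial b (B.coeff b) * lev w (wt w a) A =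
      MvPolynomial.monomial a (A.coeff a) * lev w (wt w b) B)
    (hA : ∀ m ∈ A.support, wt w a ≤ wt w m) (hB : ∀ m ∈ B.support, wt w b ≤ wt w m)
    {s : ℕ} (hs : s ≠ 0) (hz : ∀ j : ℕ, j < s → lev w (wt w a + wt w b + j) (nn A B a b) = 0)
    (hlev0 : lev w (wt w a + wt w b + s) (nn A B a b) ≠ 0) {r : ℕ}
    (hr : finrank ℚ ↥(VS (lev w (wt w a) A).support) + r ≤
      finrank ℚ ↥(VS (lev w (wt w a + wt w b + s) (nn A B a b)).support ⊔
        VS (lev w (wt w a) A).support)) :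
    8 * (r : ℝ) + 25 ≤ 16 * Real.exp (mx A B) ^ 4 := by
  have hA0 : A ≠ 0 := MvPolynomial.support_nonempty.1 ⟨a, ha⟩
  have hca := MvPolynomial.mem_support_iff.1 ha
  have hcb := MvPolynomial.mem_support_iff.1 hb
  set N := lev w (wt w a + wt w b + s) (nn A B a b) with hN
  set F := lev w (wt w a) A with hF
  have haF : a ∈ F.support := mem_lev.2 ⟨ha, rfl⟩
  have hF0 : F ≠ 0 := MvPolynomial.support_nonempty.1 ⟨a, haF⟩
  set D : ℝ := ((A.coeff a : ℤ) : ℝ) ^ 2 + ((B.coeff b : ℤ) : ℝ) ^ 2 with hD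
  have hsq : ∀ z : ℤ, z ≠ 0 → (1 : ℝ) ≤ (z : ℝ) ^ 2 := by
    intro z hz
    have h1 : (1 : ℤ) ≤ z ^ 2 := by
      have := sq_nonneg z
      have h2 : z ^ 2 ≠ 0 := pow_ne_zero 2 hz
      omega
    exact_mod_cast h1
  have hD2 : 2 ≤ D := by
    have h1 := hsq _ hca
    have h2 := hsq _ hcb
    linarith
  have hD0 : 0 < D := by linarith
  have hca' : 0 < |((A.coeff a : ℤ) : ℝ)| := abs_pos.2 (by exact_mod_cast hca)
  set κ : ℝ := D / |((A.coeff a : ℤ) : ℝ)| with hκ
  have hκ0 : 0 < κ := by positivity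
  have hMF : |((A.coeff a : ℤ) : ℝ)| ≤ mM F := by
    have h1 : F.coeff a = A.coeff a := by rw [hF, coeff_lev, if_pos rfl]
    rw [← h1]
    exact vertex_le haF (w := w0) fun m hm hne => hw0 m (mem_lev.1 hm).1 hne
  have hDF : Real.log D ≤ Real.log κ + Real.log (mM F) := by
    have h1 := Real.log_le_log hca' hMF
    rw [hκ, Real.log_div hD0.ne' hca'.ne']
    linarith
  have h0 : 25 / 4 + 2 * (r : ℝ) ≤ 4 * Real.exp (mx A B) ^ 4 := by
    apply le_of_forall_pos_le_add
    intro ε hε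
    set M : ℝ := 4 * Real.exp (mx A B) ^ 4 with hM
    have hM0 : 0 < M := by positivity
    obtain ⟨η, hη, hη'⟩ : ∃ η > 0, M * Real.exp (4 * η) ≤ M + ε := by
      refine ⟨Real.log ((M + ε) / M) / 4, ?_, ?_⟩
      · have : 0 < Real.log ((M + ε) / M) := Real.log_pos (by rw [one_lt_div hM0]; linarith)
        linarith
      · rw [mul_div_cancel₀ _ four_ne_zero, Real.exp_log (by positivity), mul_div_cancel₀ _ hM0.ne']
    obtain ⟨δ, hδ, h⟩ := Ld_lim hA0 B hη
    obtain ⟨δ0, hδ0, hδx⟩ := mM_upper F hF0 (2 * Real.log (mM F) + η) (by linarith)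
    set δ' : ℝ := κ ^ 2 * δ0 with hδ'
    have hδ'0 : 0 < δ' := by positivity
    have h1 := first_diff2 hbal hca hcb hA hB hs hz hδ hδ'0 hD hκ
    have h2 := w_main hF0 (κ := κ) hδ'0 hD0 (by
      have := w_lower hF0 hκ0 hδ'0
      linarith) r N hlev0 hr
    have h3 : ∫ t in Set.Icc (0 : Fin k → ℝ) 1, Real.log (κ ^ 2 * ‖tv F t‖ ^ 2 + δ') ≤
        2 * Real.log κ + 2 * Real.log (mM F) + η := by
      have h4 : ∀ t : Fin k → ℝ, Real.log (κ ^ 2 * ‖tv F t‖ ^ 2 + δ') =
          2 * Real.log κ + Real.log (‖tv F t‖ ^ 2 + δ0) := by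
        intro t
        have : κ ^ 2 * ‖tv F t‖ ^ 2 + δ' = κ ^ 2 * (‖tv F t‖ ^ 2 + δ0) := by
          rw [hδ']
          ring
        rw [this, Real.log_mul (by positivity) (by positivity), Real.log_pow]
        push_cast
        ring
      simp only [h4]
      have i1 : IntegrableOn (fun t => Real.log (‖tv F t‖ ^ 2 + δ0))
        (Set.Icc (0 : Fin k → ℝ) 1) := (F_cont_f F δ0 hδ0).integrableOn_Icc
      rw [integral_add (integrable_const _) i1, integral_const, probReal_univ, one_smul]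
      linarith
    have h4 : Real.exp (2 * Lw N F κ δ') ≤ D ^ 2 * (M * Real.exp (4 * η)) := by
      calc Real.exp (2 * Lw N F κ δ')
          ≤ Real.exp (2 * (Real.log 2 + 2 * mx A B + η + η + Real.log D)) :=
            Real.exp_le_exp.2 (by linarith)
        _ = D ^ 2 * (M * Real.exp (4 * η)) := by
            have e1 : 2 * (Real.log 2 + 2 * mx A B + η + η + Real.log D) =
                (Real.log 2 + Real.log 2) + (((4 : ℕ) : ℝ) * mx A B + 4 * η) +
                  (Real.log D + Real.log D) := by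
              push_cast; ring
            rw [e1, Real.exp_add, Real.exp_add, Real.exp_add, Real.exp_add, Real.exp_add,
              Real.exp_log (by norm_num), Real.exp_log hD0, Real.exp_nat_mul, hM]
            ring
    have h7 := arith4 hD2
    have h8 : 0 < D ^ 2 := by positivity
    have h9 : D ^ 2 * (25 / 4 + 2 * (r : ℝ)) ≤ D ^ 2 * (M * Real.exp (4 * η)) := by
      refine le_trans ?_ (h2.trans h4)
      linarith
    have h10 := le_of_mul_le_mul_left h9 h8
    linarith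
  linarith

end

end Pool.Agent.R328.GD
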