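import Mathlib
import Pool.Agent.R328.VH

/-!
# Balanced directions: reciprocal opposite faces of small codimension
-/

set_option autoImplicit false

open MeasureTheory Module

namespace Pool.Agent.R328.GD

open Pool.Agent.H261R2.CM

noncomputable section

variable {k : ℕ}

/-- the points of `E` at the level of `p0` -/
def zf (f : (Fin k → ℚ) →ₗ[ℚ] ℚ) (p0 : Fin k →₀ ℕ) (E : Finset (Fin k →₀ ℕ)) :
    Finset (Fin k →₀ ℕ) := E.filter fun e => f (vc e - vc p0) = 0

lemma mem_zf {f : (Fin k → ℚ) →ₗ[ℚ] ℚ} {p0 : Fin k →₀ ℕ} {E : Finset (Fin k →₀ ℕ)}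
    {e : Fin k →₀ ℕ} : e ∈ zf f p0 E ↔ e ∈ E ∧ f (vc e - vc p0) = 0 := by
  unfold zf
  rw [Finset.mem_filter]

/-- directions in the normal cone of a vertex, positive on `S`, for which the face of `S` is large
modulo the face at the vertex -/
theorem cone_face2 {E S : Finset (Fin k →₀ ℕ)} {p0 : Fin k →₀ ℕ} (hp0 : p0 ∈ E) (hSE : S ⊆ E)
    (hSne : S.Nonempty)
    (hV : ∃ f : (Fin k → ℚ) →ₗ[ℚ] ℚ, (∀ e ∈ E, 0 ≤ f (vc e - vc p0)) ∧
      ∀ e ∈ S, 0 < f (vc e - vc p0)) :
    ∃ f : (Fin k → ℚ) →ₗ[ℚ] ℚ, (∀ e ∈ E, 0 ≤ f (vc e - vc p0)) ∧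
      (∀ e ∈ S, 0 < f (vc e - vc p0)) ∧
      finrank ℚ ↥(VS E) ≤ finrank ℚ ↥(VS (face f S) ⊔ VS (zf f p0 E)) + 1 := by
  classical
  set P : ((Fin k → ℚ) →ₗ[ℚ] ℚ) → Prop := fun f => (∀ e ∈ E, 0 ≤ f (vc e - vc p0)) ∧
    ∀ e ∈ S, 0 < f (vc e - vc p0) with hP
  set d : ((Fin k → ℚ) →ₗ[ℚ] ℚ) → ℕ := fun f =>
    finrank ℚ ↥(VS (face f S) ⊔ VS (zf f p0 E)) with hd
  have hmax : ∃ f, P f ∧ ∀ g, P g → d g ≤ d f := by
    set N : Set ℕ := {n | ∃ f, P f ∧ d f = n} with hN
    have hne : N.Nonempty := by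
      obtain ⟨f, hf⟩ := hV
      exact ⟨d f, f, hf, rfl⟩
    have hb : BddAbove N := by
      refine ⟨k, ?_⟩
      rintro _ ⟨f, -, rfl⟩
      have := Submodule.finrank_le (VS (face f S) ⊔ VS (zf f p0 E))
      rwa [finrank_fin_fun] at this
    obtain ⟨f, hf, hfd⟩ := Nat.sSup_mem hne hb
    refine ⟨f, hf, fun g hg => ?_⟩
    rw [hfd]
    exact le_csSup hb ⟨g, hg, rfl⟩
  obtain ⟨f, ⟨hfE, hfS⟩, hfm⟩ := hmax
  refine ⟨f, hfE, hfS, ?_⟩
  by_contra hcon
  push Not at hcon
  obtain ⟨e0, he0⟩ := face_nonempty f hSne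
  have he0S := (mem_face.1 he0).1
  set c : ℚ := f (vc e0 - vc p0) with hc
  have hc0 : 0 < c := hfS e0 he0S
  have hcS : ∀ e ∈ S, c ≤ f (vc e - vc p0) := by
    intro e he
    have := (mem_face.1 he0).2 e he
    rw [hc, map_sub, map_sub]
    linarith
  have hcf : ∀ e ∈ face f S, f (vc e - vc p0) = c := by
    intro e he
    apply le_antisymm _ (hcS e (mem_face.1 he).1)
    have := (mem_face.1 he).2 e0 he0S
    rw [hc, map_sub, map_sub]
    linarith
  have hp0z : p0 ∈ zf f p0 E := mem_zf.2 ⟨hp0, by rw [sub_self, map_zero]⟩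
  set V := VS (face f S) ⊔ VS (zf f p0 E) with hV'
  set U' := V ⊔ Submodule.span ℚ {vc e0 - vc p0} with hU'
  have hfinU : finrank ℚ ↥U' ≤ finrank ℚ ↥V + 1 := by
    have h1 : finrank ℚ ↥U' ≤ finrank ℚ ↥V +
        finrank ℚ ↥(Submodule.span ℚ {vc e0 - vc p0}) :=
      Submodule.finrank_add_le_finrank_add_finrank V (Submodule.span ℚ {vc e0 - vc p0})
    have h2 : finrank ℚ ↥(Submodule.span ℚ {vc e0 - vc p0}) ≤ 1 := by
      have := finrank_span_le_card (R := ℚ) ({vc e0 - vc p0} : Set (Fin k → ℚ))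
      simpa using this
    omega
  have hnot : ¬ VS E ≤ U' := by
    intro h
    have := Submodule.finrank_mono h
    omega
  obtain ⟨v, hv, hvU⟩ := SetLike.not_le_iff_exists.1 hnot
  obtain ⟨g0, hg01, hg02⟩ := Submodule.exists_le_ker_of_notMem hvU
  have hg0 : ∃ e1 ∈ E, g0 (vc e1 - vc p0) ≠ 0 := by
    by_contra hno
    push Not at hno
    apply hg01
    have : VS E ≤ LinearMap.ker g0 := VS_le hp0 fun m hm => LinearMap.mem_ker.2 (hno m hm)
    exact this hv
  obtain ⟨g, e1, he1, hgU, hge1⟩ : ∃ (g : (Fin k → ℚ) →ₗ[ℚ] ℚ) (e1 : Fin k →₀ ℕ), e1 ∈ E ∧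
      U' ≤ LinearMap.ker g ∧ g (vc e1 - vc p0) < 0 := by
    obtain ⟨e1, he1, h⟩ := hg0
    rcases lt_or_gt_of_ne h with h | h
    · exact ⟨g0, e1, he1, hg02, h⟩
    · refine ⟨-g0, e1, he1, fun u hu => ?_, ?_⟩
      · rw [LinearMap.mem_ker, LinearMap.neg_apply, LinearMap.mem_ker.1 (hg02 hu), neg_zero]
      · rw [LinearMap.neg_apply]
        linarith
  have hgV : ∀ x ∈ V, g x = 0 := fun x hx =>
    LinearMap.mem_ker.1 (hgU (Submodule.mem_sup_left hx))
  have hge0 : g (vc e0 - vc p0) = 0 := by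
    apply LinearMap.mem_ker.1 (hgU _)
    exact Submodule.mem_sup_right (Submodule.mem_span_singleton_self _)
  have hgf : ∀ e ∈ face f S, g (vc e - vc p0) = 0 := by
    intro e he
    have h1 : g (vc e - vc e0) = 0 := hgV _ (Submodule.mem_sup_left (sub_mem_VS he he0))
    have h2 : vc e - vc p0 = (vc e - vc e0) + (vc e0 - vc p0) := by abel
    rw [h2, map_add, h1, hge0, add_zero]
  have hgz : ∀ e ∈ zf f p0 E, g (vc e - vc p0) = 0 := fun e he =>
    hgV _ (Submodule.mem_sup_right (sub_mem_VS he hp0z))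
  set h : (Fin k →₀ ℕ) → ℚ := fun e => if e ∈ S then c else 0 with hh
  have hhS : ∀ e ∈ S, h e = c := fun e he => by simp only [hh, if_pos he]
  have hhn : ∀ e, e ∉ S → h e = 0 := fun e he => by simp only [hh, if_neg he]
  have hfh : ∀ e ∈ E, h e ≤ f (vc e - vc p0) := by
    intro e he
    by_cases heS : e ∈ S
    · rw [hhS e heS]
      exact hcS e heS
    · rw [hhn e heS]
      exact hfE e he
  have hE' : (E.filter fun e => g (vc e - vc p0) < 0).Nonempty :=
    ⟨e1, Finset.mem_filter.2 ⟨he1, hge1⟩⟩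
  obtain ⟨e2, he2, hmin⟩ := Finset.exists_min_image _
    (fun e => (f (vc e - vc p0) - h e) / (-g (vc e - vc p0))) hE'
  rw [Finset.mem_filter] at he2
  set θ : ℚ := (f (vc e2 - vc p0) - h e2) / (-g (vc e2 - vc p0)) with hθ
  have hg2 : 0 < -g (vc e2 - vc p0) := by linarith [he2.2]
  have hθ0 : 0 ≤ θ := div_nonneg (by linarith [hfh e2 he2.1]) hg2.le
  set F : (Fin k → ℚ) →ₗ[ℚ] ℚ := f + θ • g with hF
  have hFx : ∀ v, F v = f v + θ * g v := fun v => rfl
  have hFa : ∀ e ∈ E, h e ≤ F (vc e - vc p0) := by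
    intro e he
    rw [hFx]
    rcases lt_or_ge (g (vc e - vc p0)) 0 with h1 | h1
    · have h2 := hmin e (Finset.mem_filter.2 ⟨he, h1⟩)
      rw [le_div_iff₀ (by linarith)] at h2
      linarith
    · have h2 := mul_nonneg hθ0 h1
      linarith [hfh e he]
  have hFb : F (vc e2 - vc p0) = h e2 := by
    have h1 : θ * (-g (vc e2 - vc p0)) = f (vc e2 - vc p0) - h e2 :=
      div_mul_cancel₀ _ hg2.ne'
    rw [hFx]
    linarith
  have hh0 : ∀ e, 0 ≤ h e := by
    intro e
    by_cases heS : e ∈ S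
    · rw [hhS e heS]; exact hc0.le
    · rw [hhn e heS]
  have hFP : P F := by
    refine ⟨fun e he => (hh0 e).trans (hFa e he), fun e he => ?_⟩
    have h3 := hFa e (hSE he)
    rw [hhS e he] at h3
    linarith
  have hfaceF : ∀ e ∈ S, F (vc e - vc p0) = c → e ∈ face F S := by
    intro e he h1
    refine mem_face.2 ⟨he, fun m' hm' => ?_⟩
    have h2 := hFa m' (hSE hm')
    rw [hhS m' hm'] at h2
    rw [map_sub] at h1 h2
    linarith
  have hsub : face f S ⊆ face F S := by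
    intro e he
    apply hfaceF e (mem_face.1 he).1
    rw [hFx, hgf e he, hcf e he]
    ring
  have hsub2 : zf f p0 E ⊆ zf F p0 E := by
    intro e he
    refine mem_zf.2 ⟨(mem_zf.1 he).1, ?_⟩
    rw [hFx, hgz e he, (mem_zf.1 he).2]
    ring
  have hlt : d f < d F := by
    have h1 : V ≤ VS (face F S) ⊔ VS (zf F p0 E) := sup_le_sup (VS_mono hsub) (VS_mono hsub2)
    have h2 : ∃ x ∈ VS (face F S) ⊔ VS (zf F p0 E), g x ≠ 0 := by
      by_cases he2S : e2 ∈ S
      · rw [hhS e2 he2S] at hFb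
        refine ⟨vc e2 - vc e0, Submodule.mem_sup_left
          (sub_mem_VS (hfaceF e2 he2S hFb) (hsub he0)), ?_⟩
        have h5 : vc e2 - vc e0 = (vc e2 - vc p0) - (vc e0 - vc p0) := by abel
        rw [h5, map_sub, hge0]
        intro h6
        linarith
      · rw [hhn e2 he2S] at hFb
        refine ⟨vc e2 - vc p0, Submodule.mem_sup_right
          (sub_mem_VS (mem_zf.2 ⟨he2.1, hFb⟩) (hsub2 hp0z)), ?_⟩
        intro h6
        linarith
    obtain ⟨x, hx, hgx⟩ := h2
    exact Submodule.finrank_lt_finrank_of_lt (lt_of_le_of_ne h1 fun h => hgx (hgV x (h.ge hx)))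
  exact absurd (hfm F hFP) (not_le.2 hlt)

/-- there is a balanced direction with a face of small codimension -/
theorem balanced_pair {A B : MvPolynomial (Fin k) ℤ} {a b : Fin k →₀ ℕ} (ha : a ∈ A.support)
    (hb : b ∈ B.support)
    (hV : ∃ w : Fin k → ℤ, (∀ m ∈ A.support, m ≠ a → wt w a < wt w m) ∧
      ∀ m ∈ B.support, m ≠ b → wt w b < wt w m)
    (hn0 : MvPolynomial.monomial b (B.coeff b) * A ≠ MvPolynomial.monomial a (A.coeff a) * B) :
    ∃ w : Fin k → ℤ, (∀ m ∈ A.support, wt w a ≤ wt w m) ∧ (∀ m ∈ B.support, wt w b ≤ wt w m) ∧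
      MvPolynomial.monomial b (B.coeff b) * lev w (wt w a) A =
        MvPolynomial.monomial a (A.coeff a) * lev w (wt w b) B ∧
      8 * (finrank ℚ ↥(VS A.support ⊔ VS B.support) : ℝ) + 17 ≤
        16 * Real.exp (mx A B) ^ 4 + 8 * (ND (lev w (wt w a) A) : ℝ) := by
  classical
  obtain ⟨w0, hw0A, hw0B⟩ := hV
  set E : Finset (Fin k →₀ ℕ) := A.support.image (fun m => m + b) ∪ B.support.image (fun m => m + a)
    with hE
  set p0 := a + b with hp0
  set n := nn A B a b with hn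
  have hSne : n.support.Nonempty := by
    rw [MvPolynomial.support_nonempty, hn]
    exact sub_ne_zero.2 hn0
  have memE : ∀ e, e ∈ E ↔ (∃ m ∈ A.support, e = m + b) ∨ ∃ m ∈ B.support, e = m + a := by
    intro e
    simp only [hE, Finset.mem_union, Finset.mem_image, eq_comm]
  have hA1 : ∀ m ∈ A.support, m + b ∈ E := fun m hm => (memE _).2 (Or.inl ⟨m, hm, rfl⟩)
  have hB1 : ∀ m ∈ B.support, m + a ∈ E := fun m hm => (memE _).2 (Or.inr ⟨m, hm, rfl⟩)
  have hp0E : p0 ∈ E := hA1 a ha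
  have hSE : n.support ⊆ E := fun e he => (memE e).2 (mem_nn he)
  have conv : ∀ (f : (Fin k → ℚ) →ₗ[ℚ] ℚ) (w : Fin k → ℤ) (D : ℚ),
      (∀ m : Fin k →₀ ℕ, (wt w m : ℚ) = D * f (vc m)) → ∀ e,
      ((wt w e - wt w p0 : ℤ) : ℚ) = D * f (vc e - vc p0) := by
    intro f w D h e
    rw [map_sub, mul_sub, ← h, ← h]
    push_cast
    ring
  have hwA : ∀ (w : Fin k → ℤ) (m : Fin k →₀ ℕ), wt w (m + b) - wt w p0 = wt w m - wt w a := by
    intro w m
    rw [hp0, wt_add, wt_add]
    ring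
  have hwB : ∀ (w : Fin k → ℤ) (m : Fin k →₀ ℕ), wt w (m + a) - wt w p0 = wt w m - wt w b := by
    intro w m
    rw [hp0, wt_add, wt_add]
    ring
  have hwp : ∀ w : Fin k → ℤ, wt w p0 = wt w a + wt w b := fun w => wt_add w a b
  -- the vertex
  have hV1 : ∀ e ∈ E, e ≠ p0 → 0 < fun_of w0 (vc e - vc p0) := by
    intro e he hep
    rw [map_sub, fun_of_vc, fun_of_vc, ← Int.cast_sub, Int.cast_pos]
    rcases (memE e).1 he with ⟨m, hm, rfl⟩ | ⟨m, hm, rfl⟩
    · rw [hwA]
      have : m ≠ a := fun h => hep (by rw [h])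
      linarith [hw0A m hm this]
    · rw [hwB]
      have : m ≠ b := fun h => hep (by rw [h, hp0, add_comm])
      linarith [hw0B m hm this]
  have hSp : ∀ e ∈ n.support, e ≠ p0 := fun e he h => nn_p0 A B a b (by rw [← hp0, ← h]; exact he)
  obtain ⟨f, hfE, hfS, hdim⟩ := cone_face2 hp0E hSE hSne ⟨fun_of w0, fun e he => by
    by_cases hep : e = p0
    · rw [hep, sub_self, map_zero]
    · exact (hV1 e he hep).le, fun e he => hV1 e (hSE he) (hSp e he)⟩
  obtain ⟨w, D, hD, hw⟩ := exists_int f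
  have hc := conv f w D hw
  have hge : ∀ e ∈ E, 0 ≤ wt w e - wt w p0 := by
    intro e he
    have h2 : (0 : ℚ) ≤ ((wt w e - wt w p0 : ℤ) : ℚ) := by
      rw [hc]
      exact mul_nonneg hD.le (hfE e he)
    exact_mod_cast h2
  have hpos : ∀ e ∈ n.support, 0 < wt w e - wt w p0 := by
    intro e he
    have h2 : (0 : ℚ) < ((wt w e - wt w p0 : ℤ) : ℚ) := by
      rw [hc]
      exact mul_pos hD (hfS e he)
    exact_mod_cast h2
  have hmA : ∀ m ∈ A.support, wt w a ≤ wt w m := by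
    intro m hm
    have h1 := hge _ (hA1 m hm)
    rw [hwA] at h1
    linarith
  have hmB : ∀ m ∈ B.support, wt w b ≤ wt w m := by
    intro m hm
    have h1 := hge _ (hB1 m hm)
    rw [hwB] at h1
    linarith
  have hbal : MvPolynomial.monomial b (B.coeff b) * lev w (wt w a) A =
      MvPolynomial.monomial a (A.coeff a) * lev w (wt w b) B := by
    have h6 := lev_nn w A B a b 0
    rw [add_zero, add_zero, add_zero] at h6
    have h7 : lev w (wt w a + wt w b) n = 0 := by
      by_contra hcon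
      obtain ⟨m, hm⟩ := MvPolynomial.support_nonempty.2 hcon
      obtain ⟨hm1, hm2⟩ := mem_lev.1 hm
      have := hpos m hm1
      rw [hm2, hwp] at this
      omega
    rw [← hn, h7] at h6
    exact (sub_eq_zero.1 h6.symm)
  have hle : ∀ x y : Fin k →₀ ℕ, wt w x ≤ wt w y ↔ f (vc x) ≤ f (vc y) := by
    intro x y
    have h1 : ((wt w x : ℤ) : ℚ) ≤ ((wt w y : ℤ) : ℚ) ↔ f (vc x) ≤ f (vc y) := by
      rw [hw, hw]
      exact mul_le_mul_iff_right₀ hD
    rw [← h1]
    exact Int.cast_le.symm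
  obtain ⟨e0, he0⟩ := face_nonempty f hSne
  have he0S := (mem_face.1 he0).1
  have hs1 := hpos e0 he0S
  obtain ⟨s, hs⟩ := Int.eq_ofNat_of_zero_le hs1.le
  have hs0 : s ≠ 0 := by
    rintro rfl
    rw [hs] at hs1
    simp at hs1
  have hws : wt w a + wt w b + s = wt w e0 := by
    have hs' : wt w e0 - wt w p0 = (s : ℤ) := hs
    have := hwp w
    omega
  have hminS : ∀ m ∈ n.support, wt w e0 ≤ wt w m := fun m hm => (hle e0 m).2 ((mem_face.1 he0).2 m hm)
  have hz : ∀ j : ℕ, j < s → lev w (wt w a + wt w b + j) n = 0 := by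
    intro j hj
    by_contra hcon
    obtain ⟨m, hm⟩ := MvPolynomial.support_nonempty.2 hcon
    obtain ⟨hm1, hm2⟩ := mem_lev.1 hm
    have := hminS m hm1
    omega
  have hsupp : (lev w (wt w a + wt w b + s) n).support = face f n.support := by
    ext m
    rw [mem_lev, hws]
    constructor
    · rintro ⟨h1, h2⟩
      refine mem_face.2 ⟨h1, fun m' hm' => ?_⟩
      rw [← hle, h2]
      exact hminS m' hm'
    · intro h
      have h1 := (mem_face.1 h).1
      refine ⟨h1, le_antisymm ?_ (hminS m h1)⟩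
      exact (hle m e0).2 ((mem_face.1 h).2 e0 he0S)
  have hlev0 : lev w (wt w a + wt w b + s) n ≠ 0 := by
    rw [← MvPolynomial.support_nonempty, hsupp]
    exact ⟨e0, he0⟩
  have h4 : VS A.support ⊔ VS B.support ≤ VS E := by
    apply sup_le
    · apply VS_le ha
      intro m hm
      have h5 : vc m - vc a = vc (m + b) - vc (a + b) := by
        ext i
        simp only [vc, Pi.sub_apply, Finsupp.add_apply]
        push_cast
        ring
      rw [h5]
      exact sub_mem_VS (hA1 m hm) (hA1 a ha)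
    · apply VS_le hb
      intro m hm
      have h5 : vc m - vc b = vc (m + a) - vc (b + a) := by
        ext i
        simp only [vc, Pi.sub_apply, Finsupp.add_apply]
        push_cast
        ring
      rw [h5]
      exact sub_mem_VS (hB1 m hm) (hB1 b hb)
  set F := lev w (wt w a) A with hF
  have haF : a ∈ F.support := mem_lev.2 ⟨ha, rfl⟩
  -- the points at the level of the vertex
  have hzF : VS (zf f p0 E) ≤ VS F.support := by
    have hp0z : p0 ∈ zf f p0 E := mem_zf.2 ⟨hp0E, by rw [sub_self, map_zero]⟩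
    apply VS_le hp0z
    intro e he
    obtain ⟨heE, he2⟩ := mem_zf.1 he
    have hwe : wt w e - wt w p0 = 0 := by
      have h3 := hc e
      rw [he2, mul_zero] at h3
      exact_mod_cast h3
    have key : ∃ m ∈ F.support, e = m + b := by
      rcases (memE e).1 heE with ⟨m, hm, rfl⟩ | ⟨m, hm, rfl⟩
      · rw [hwA] at hwe
        exact ⟨m, mem_lev.2 ⟨hm, by linarith⟩, rfl⟩
      · rw [hwB] at hwe
        have h5 := congrArg (MvPolynomial.coeff (m + a)) hbal
        rw [add_comm m a, MvPolynomial.coeff_monomial_mul, coeff_lev,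
          if_pos (by linarith), MvPolynomial.coeff_monomial_mul'] at h5
        by_cases hba : b ≤ a + m
        · rw [if_pos hba] at h5
          refine ⟨a + m - b, ?_, ?_⟩
          · rw [MvPolynomial.mem_support_iff]
            intro h6
            rw [h6, mul_zero] at h5
            exact mul_ne_zero (MvPolynomial.mem_support_iff.1 ha)
              (MvPolynomial.mem_support_iff.1 hm) h5.symm
          · rw [tsub_add_cancel_of_le hba, add_comm]
        · exfalso
          rw [if_neg hba] at h5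
          exact mul_ne_zero (MvPolynomial.mem_support_iff.1 ha)
            (MvPolynomial.mem_support_iff.1 hm) h5.symm
    obtain ⟨m, hm, rfl⟩ := key
    have h5 : vc (m + b) - vc p0 = vc m - vc a := by
      rw [hp0]
      ext i
      simp only [vc, Pi.sub_apply, Finsupp.add_apply]
      push_cast
      ring
    rw [h5]
    exact sub_mem_VS hm haF
  refine ⟨w, hmA, hmB, hbal, ?_⟩
  set N := lev w (wt w a + wt w b + s) n with hN
  have hF1 : ND F ≤ finrank ℚ ↥(VS N.support ⊔ VS F.support) :=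
    Submodule.finrank_mono le_sup_right
  have hr : ND F + (finrank ℚ ↥(VS N.support ⊔ VS F.support) - ND F) ≤
      finrank ℚ ↥(VS N.support ⊔ VS F.support) := by omega
  have h5 := core2 ha hb hw0A hbal hmA hmB hs0 hz hlev0
    (r := finrank ℚ ↥(VS N.support ⊔ VS F.support) - ND F) hr
  rw [Nat.cast_sub hF1] at h5
  have h6 : finrank ℚ ↥(VS A.support ⊔ VS B.support) ≤
      finrank ℚ ↥(VS N.support ⊔ VS F.support) + 1 := by
    refine (Submodule.finrank_mono h4).trans (hdim.trans ?_)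
    have h7 : VS (face f n.support) ⊔ VS (zf f p0 E) ≤ VS N.support ⊔ VS F.support := by
      rw [hsupp]
      exact sup_le_sup le_rfl hzF
    have := Submodule.finrank_mono h7
    omega
  have h8 : (finrank ℚ ↥(VS A.support ⊔ VS B.support) : ℝ) ≤
      (finrank ℚ ↥(VS N.support ⊔ VS F.support) : ℝ) + 1 := by exact_mod_cast h6
  linarith

/-- coefficients of balanced faces -/
lemma bal_cz {P : MvPolynomial (Fin k) ℤ} {a a' d : Fin k →₀ ℕ} (hd : J.sle P d)
    (had : a' ≤ d) {w : Fin k → ℤ}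
    (heq : MvPolynomial.monomial (d - a') ((J.rv d P).coeff (d - a')) * lev w (wt w a) P =
      MvPolynomial.monomial a (P.coeff a) * lev w (wt w (d - a')) (J.rv d P)) (v : Fin k → ℤ)
    (hv : ∑ i, w i * v i = 0) :
    P.coeff a' * cz P (fun i => a i + v i) = P.coeff a * cz P (fun i => a' i - v i) := by
  have hcb : (J.rv d P).coeff (d - a') = P.coeff a' := by
    rw [coeff_rv hd, if_pos tsub_le_self, tsub_tsub_cancel_of_le had]
  have hsum : ∀ m : Fin k →₀ ℕ, ∑ i, w i * (((m i : ℕ) : ℤ) + v i) = wt w m := by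
    intro m
    have : ∑ i, w i * (((m i : ℕ) : ℤ) + v i) = wt w m + ∑ i, w i * v i := by
      unfold wt
      rw [← Finset.sum_add_distrib]
      exact Finset.sum_congr rfl fun i _ => by ring
    rw [this, hv, add_zero]
  have e1 := cz_mono_mul (d - a') ((J.rv d P).coeff (d - a')) (lev w (wt w a) P)
    (fun i => ((a i : ℕ) : ℤ) + v i)
  rw [cz_lev w _ P (hsum a), hcb] at e1
  have e2 := cz_mono_mul a (P.coeff a) (lev w (wt w (d - a')) (J.rv d P))
    (fun i => (((d - a') i : ℕ) : ℤ) + v i)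
  rw [cz_lev w _ _ (hsum (d - a')), cz_rv hd] at e2
  have e3 : (fun i => ((d i : ℕ) : ℤ) - ((((d - a') i : ℕ) : ℤ) + v i)) =
      fun i => ((a' i : ℕ) : ℤ) - v i := by
    funext i
    have := had i
    simp only [Finsupp.coe_tsub, Pi.sub_apply]
    omega
  rw [e3] at e2
  rw [← e1, ← e2, ← heq, hcb]
  congr 1
  funext i
  ring

lemma lev_zero (P : MvPolynomial (Fin k) ℤ) (m : Fin k →₀ ℕ) :
    lev (0 : Fin k → ℤ) (wt 0 m) P = P := by
  ext x
  rw [coeff_lev, if_pos]
  simp [wt]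

/-- a nonreciprocal polynomial has, at opposite vertices, opposite faces of small codimension that
are reciprocal to each other -/
theorem balanced_faces {P : MvPolynomial (Fin k) ℤ} {a a' : Fin k →₀ ℕ} (ha : a ∈ P.support)
    (ha' : a' ∈ P.support)
    (hV : ∃ w : Fin k → ℤ, ∀ m ∈ P.support, (m ≠ a → wt w a < wt w m) ∧
      (m ≠ a' → wt w m < wt w a'))
    (hn : ∃ v : Fin k → ℤ,
      P.coeff a' * cz P (fun i => a i + v i) ≠ P.coeff a * cz P (fun i => a' i - v i)) :
    ∃ w : Fin k → ℤ, ((∀ m ∈ P.support, wt w a ≤ wt w m ∧ wt w m ≤ wt w a') ∧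
      ∀ v : Fin k → ℤ, ∑ i, w i * v i = 0 →
        P.coeff a' * cz P (fun i => a i + v i) = P.coeff a * cz P (fun i => a' i - v i)) ∧
      8 * (ND P : ℝ) + 17 ≤ 16 * mM P ^ 4 + 8 * (ND (lev w (wt w a) P) : ℝ) := by
  set d := J.dg P with hd'
  have hd : J.sle P d := J.sle_dg P
  have had := hd a' ha'
  obtain ⟨w0, hw0⟩ := hV
  have hmm : ∀ m ∈ (J.rv d P).support, m ≠ d - a' → d - m ≠ a' := by
    intro m hm hne h1
    apply hne
    rw [← h1, tsub_tsub_cancel_of_le ((mem_rv hd).1 hm).1]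
  have hwm : ∀ (w : Fin k → ℤ), ∀ m ∈ (J.rv d P).support, wt w m = wt w d - wt w (d - m) := by
    intro w m hm
    rw [wt_rv w ((mem_rv hd).1 hm).1]
    ring
  have hb : d - a' ∈ (J.rv d P).support :=
    (mem_rv hd).2 ⟨tsub_le_self, by rwa [tsub_tsub_cancel_of_le had]⟩
  obtain ⟨w, hA, hB, hbal, hineq⟩ := balanced_pair ha hb
    ⟨w0, fun m hm hne => (hw0 m hm).1 hne, fun m hm hne => by
      have h1 := (hw0 (d - m) ((mem_rv hd).1 hm).2).2 (hmm m hm hne)
      rw [hwm w0 m hm, wt_rv w0 had]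
      linarith⟩ (by
      intro heq
      obtain ⟨v, hv⟩ := hn
      apply hv
      apply bal_cz hd had (w := 0) _ v (by simp)
      rw [lev_zero, lev_zero]
      exact heq)
  refine ⟨w, ⟨fun m hm => ⟨hA m hm, ?_⟩, fun v hv => bal_cz hd had hbal v hv⟩, ?_⟩
  · have hmd := hd m hm
    have h4 := hB (d - m) ((mem_rv hd).2 ⟨tsub_le_self, by rwa [tsub_tsub_cancel_of_le hmd]⟩)
    rw [wt_rv w had, wt_rv w hmd] at h4
    linarith
  · have hM : 0 < mM P := Real.exp_pos _
    rw [hd', ← J.recip_eq_rv, Pool.Agent.H887R3.LW.mx_recip, Real.exp_log hM] at hineq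
    have h2 : (ND P : ℝ) ≤ (finrank ℚ ↥(VS P.support ⊔ VS (recip P).support) : ℝ) := by
      exact_mod_cast Submodule.finrank_mono (le_sup_left : VS P.support ≤ _)
    linarith

/-- the same with the measure of a polynomial with the face `F` -/
theorem balanced_faces' {w0 : Fin k → ℤ} {n : ℤ} {P : MvPolynomial (Fin k) ℤ}
    (hmin : ∀ m ∈ P.support, n ≤ wt w0 m) {a a' : Fin k →₀ ℕ} (ha : a ∈ (lev w0 n P).support)
    (ha' : a' ∈ (lev w0 n P).support)
    (hV : ∃ w : Fin k → ℤ, ∀ m ∈ (lev w0 n P).support, (m ≠ a → wt w a < wt w m) ∧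
      (m ≠ a' → wt w m < wt w a'))
    (hn : ∃ v : Fin k → ℤ, (lev w0 n P).coeff a' * cz (lev w0 n P) (fun i => a i + v i) ≠
      (lev w0 n P).coeff a * cz (lev w0 n P) (fun i => a' i - v i)) :
    ∃ w : Fin k → ℤ, ((∀ m ∈ (lev w0 n P).support, wt w a ≤ wt w m ∧ wt w m ≤ wt w a') ∧
      ∀ v : Fin k → ℤ, ∑ i, w i * v i = 0 →
        (lev w0 n P).coeff a' * cz (lev w0 n P) (fun i => a i + v i) =
          (lev w0 n P).coeff a * cz (lev w0 n P) (fun i => a' i - v i)) ∧
      8 * (ND (lev w0 n P) : ℝ) + 17 ≤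
        16 * mM P ^ 4 + 8 * (ND (lev w (wt w a) (lev w0 n P)) : ℝ) := by
  obtain ⟨w, h1, h2⟩ := balanced_faces ha ha' hV hn
  refine ⟨w, h1, ?_⟩
  have hF : lev w0 n P ≠ 0 := MvPolynomial.support_nonempty.1 ⟨a, ha⟩
  have h3 : mM (lev w0 n P) ^ 4 ≤ mM P ^ 4 :=
    pow_le_pow_left₀ (Real.exp_pos _).le (face_le hmin hF) 4
  linarith

end

end Pool.Agent.R328.GD
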