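import Mathlib
import Pool.Agent.R328.VI

/-!
# Final forms for balanced directions
-/

set_option autoImplicit false

open MeasureTheory Module

namespace Pool.Agent.R328.GD

open Pool.Agent.H261R2.CM

noncomputable section

variable {k : ℕ}

/-- the inequality for the lowest part of the difference over balanced faces -/
theorem diff_balanced {w w0 : Fin k → ℤ} {A B : MvPolynomial (Fin k) ℤ} {a b : Fin k →₀ ℕ}
    (ha : a ∈ A.support) (hb : b ∈ B.support)
    (hw0 : ∀ m ∈ A.support, m ≠ a → wt w0 a < wt w0 m)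
    (hA : ∀ m ∈ A.support, wt w a ≤ wt w m) (hB : ∀ m ∈ B.support, wt w b ≤ wt w m)
    (hbal : MvPolynomial.monomial b (B.coeff b) * lev w (wt w a) A =
      MvPolynomial.monomial a (A.coeff a) * lev w (wt w b) B) {j : ℤ}
    (hj : ∀ m ∈ (nn A B a b).support, j ≤ wt w m) (h0 : lev w j (nn A B a b) ≠ 0) :
    8 * ((ND (lev w j (nn A B a b) * lev w (wt w a) A) : ℝ) - (ND (lev w (wt w a) A) : ℝ)) + 25 ≤
      16 * Real.exp (mx A B) ^ 4 := by
  have hz0 : lev w (wt w a + wt w b) (nn A B a b) = 0 := by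
    have h6 := lev_nn w A B a b 0
    rw [add_zero, add_zero, add_zero] at h6
    rw [h6, hbal, sub_self]
  obtain ⟨m, hm⟩ := MvPolynomial.support_nonempty.2 h0
  obtain ⟨hm1, hm2⟩ := mem_lev.1 hm
  have hpos : wt w a + wt w b < j := by
    rw [← hm2]
    have hge : wt w a + wt w b ≤ wt w m := by
      rcases mem_nn hm1 with ⟨m', hm', rfl⟩ | ⟨m', hm', rfl⟩
      · rw [wt_add]
        linarith [hA m' hm']
      · rw [wt_add]
        linarith [hB m' hm']
    rcases hge.lt_or_eq with h | h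
    · exact h
    · exfalso
      have h1 : m ∈ (lev w (wt w a + wt w b) (nn A B a b)).support := mem_lev.2 ⟨hm1, h.symm⟩
      rw [hz0] at h1
      simp at h1
  obtain ⟨s, hs⟩ := Int.eq_ofNat_of_zero_le (show 0 ≤ j - (wt w a + wt w b) by linarith)
  have hs' : j = wt w a + wt w b + (s : ℤ) := by
    have : j - (wt w a + wt w b) = (s : ℤ) := hs
    linarith
  have hs0 : s ≠ 0 := by
    rintro rfl
    simp at hs'
    omega
  set N := lev w j (nn A B a b) with hN
  set F := lev w (wt w a) A with hF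
  have hF0 : F ≠ 0 := MvPolynomial.support_nonempty.1 ⟨a, mem_lev.2 ⟨ha, rfl⟩⟩
  have hF1 : ND F ≤ finrank ℚ ↥(VS N.support ⊔ VS F.support) :=
    Submodule.finrank_mono le_sup_right
  have hr : ND F + (finrank ℚ ↥(VS N.support ⊔ VS F.support) - ND F) ≤
      finrank ℚ ↥(VS N.support ⊔ VS F.support) := by omega
  have h1 := core2 ha hb hw0 hbal hA hB hs0 (fun i hi => by
    by_contra hcon
    obtain ⟨m, hm⟩ := MvPolynomial.support_nonempty.2 hcon
    obtain ⟨hm1, hm2⟩ := mem_lev.1 hm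
    have := hj m hm1
    omega) (by rw [← hs']; exact h0)
    (r := finrank ℚ ↥(VS N.support ⊔ VS F.support) - ND F) (by
      rw [← hs']
      exact hr)
  rw [Nat.cast_sub hF1] at h1
  have h2 : (ND (N * F) : ℝ) ≤ (finrank ℚ ↥(VS N.support ⊔ VS F.support) : ℝ) := by
    exact_mod_cast Submodule.finrank_mono (VS_mul h0 hF0)
  linarith

/-- the pair form with the dimension of `N(A B)` -/
theorem balanced_pair' {A B : MvPolynomial (Fin k) ℤ} {a b : Fin k →₀ ℕ} (ha : a ∈ A.support)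
    (hb : b ∈ B.support)
    (hV : ∃ w : Fin k → ℤ, (∀ m ∈ A.support, m ≠ a → wt w a < wt w m) ∧
      ∀ m ∈ B.support, m ≠ b → wt w b < wt w m)
    (hn0 : MvPolynomial.monomial b (B.coeff b) * A ≠ MvPolynomial.monomial a (A.coeff a) * B) :
    ∃ w : Fin k → ℤ, ((∀ m ∈ A.support, wt w a ≤ wt w m) ∧ (∀ m ∈ B.support, wt w b ≤ wt w m) ∧
      MvPolynomial.monomial b (B.coeff b) * lev w (wt w a) A =
        MvPolynomial.monomial a (A.coeff a) * lev w (wt w b) B) ∧
      8 * (ND (A * B) : ℝ) + 17 ≤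
        16 * Real.exp (mx A B) ^ 4 + 8 * (ND (lev w (wt w a) A) : ℝ) := by
  have hA0 : A ≠ 0 := MvPolynomial.support_nonempty.1 ⟨a, ha⟩
  have hB0 : B ≠ 0 := MvPolynomial.support_nonempty.1 ⟨b, hb⟩
  obtain ⟨w, h1, h2, h3, h4⟩ := balanced_pair ha hb hV hn0
  refine ⟨w, ⟨h1, h2, h3⟩, ?_⟩
  have h5 : (ND (A * B) : ℝ) ≤ (finrank ℚ ↥(VS A.support ⊔ VS B.support) : ℝ) := by
    exact_mod_cast Submodule.finrank_mono (VS_mul hA0 hB0)
  linarith

/-- the height of two levels -/
theorem level_le {w : Fin k → ℤ} {n : ℤ} {P : MvPolynomial (Fin k) ℤ} {N : ℕ}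
    (hr : ∀ m ∈ P.support, n ≤ wt w m ∧ wt w m ≤ n + N) {i j : ℕ}
    (hi : lev w (n + i) P ≠ 0) :
    Real.exp (mx (lev w (n + i) P) (lev w (n + j) P)) ≤ 2 ^ N * mM P := by
  have hP : P ≠ 0 := by
    rintro rfl
    apply hi
    simp [lev]
  have h2 := level_mx (C := 2 ^ N) hP hr (one_le_pow₀ (by norm_num))
    (fun q hq => ⟨coeff_le_two hq i, coeff_le_two hq j⟩) hi (j := j)
  have hM : 0 < mM P := Real.exp_pos _
  rw [← Real.log_mul (by positivity) hM.ne'] at h2
  exact (Real.le_log_iff_exp_le (by positivity)).1 h2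

/-- the height of opposite faces -/
theorem opp_le {w : Fin k → ℤ} {n : ℤ} {P : MvPolynomial (Fin k) ℤ} {N : ℕ}
    (hr : ∀ m ∈ P.support, n ≤ wt w m ∧ wt w m ≤ n + N) (hi : lev w n P ≠ 0) :
    Real.exp (mx (lev w n P) (lev w (n + N) P)) ≤ mM P := by
  have hP : P ≠ 0 := by
    rintro rfl
    apply hi
    simp [lev]
  have e0 : n + ((0 : ℕ) : ℤ) = n := by simp
  have h2 := level_mx (C := 1) hP hr le_rfl (i := 0) (j := N)
    (fun q hq => coeff_le_one hq) (by rw [e0]; exact hi)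
  rw [e0, Real.log_one, zero_add] at h2
  have hM : 0 < mM P := Real.exp_pos _
  exact (Real.le_log_iff_exp_le hM).1 h2

end

end Pool.Agent.R328.GD
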