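import Mathlib
import Pool.Agent.R328.VF

/-!
# Explicit growth of the Mahler measure with the dimension, by comparison at one vertex

Boyd asks whether the Mahler measures of irreducible integer polynomials tend to infinity with the
dimension of the Newton polytope.  The starting result `NonreciprocalOrThin` gives this for
nonreciprocal polynomials, by compactness and without a rate.  Here is an explicit bound,
`M(P) ^ 4 ≥ (8 dim N(F) + 17) / 16`, where `F` is `P` or any face of `P` (so `P` may be reciprocal and
reducible), under a condition on the coefficients of `F` near one pair of opposite vertices `a`, `a'`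
of `F`: in every direction in which `a` is minimal and `a'` maximal, but not both uniquely, the
opposite faces at `a` and at `a'` are not reciprocal to each other, i.e.
`c_{a'} c_{a + v} ≠ c_a c_{a' - v}` for some integral `v` in the hyperplane of that direction.
The condition holds for all coefficients if `a + a'` is not the sum of two other exponents of `F`.

The proof compares two polynomials `A`, `B` at a vertex `(a, b)`: with `D = c_a² + c_b²`, a direction
`w` in which `a`, `b` are the unique minima, and with the `w`-lowest part `W` of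
`c_b x ^ b A - c_a x ^ a B`, one has `∫ log (|A|² + |B|²) ≥ ∫ log (|W|² + D²) - log D`, and the last
integral grows with the dimension of `N(W)`.  The direction `w` is chosen in the interior of the normal
cone so that this dimension is maximal; then it is at least `dim N(A B) - 1`.
-/

set_option autoImplicit false

namespace Pool.Agent.Results.MP_417103_nt.VertexGrowth

noncomputable section

/-- Value of an integer polynomial in `k` variables at the torus point
`(exp (2 π i t_1), …, exp (2 π i t_k))`. -/
def value {k : ℕ} (F : MvPolynomial (Fin k) ℤ) (t : Fin k → ℝ) : ℂ :=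
  MvPolynomial.eval (fun j : Fin k => Complex.exp (2 * (Real.pi : ℂ) * Complex.I * ((t j : ℝ) : ℂ)))
    (MvPolynomial.map (Int.castRingHom ℂ) F)

/-- The Mahler measure of an integer polynomial in `k` variables. -/
def mahler {k : ℕ} (F : MvPolynomial (Fin k) ℤ) : ℝ :=
  Real.exp (∫ t in Set.Icc (0 : Fin k → ℝ) 1, Real.log ‖value F t‖)

/-- The dimension of the affine hull of the exponent vectors of `F` (the dimension of its Newton
polytope). -/
def newtonDim {k : ℕ} (F : MvPolynomial (Fin k) ℤ) : ℕ :=
  Module.finrank ℚ (vectorSpan ℚ ((fun s : Fin k →₀ ℕ => fun i : Fin k => ((s i : ℕ) : ℚ)) ''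
    (F.support : Set (Fin k →₀ ℕ))))

/-- The polynomial `F + z_0 G` for `F`, `G` in the variables `z_1, …, z_k`. -/
def linear {k : ℕ} (F G : MvPolynomial (Fin k) ℤ) : MvPolynomial (Fin (k + 1)) ℤ :=
  MvPolynomial.rename Fin.succ F + MvPolynomial.X 0 * MvPolynomial.rename Fin.succ G

/-- The weight of an exponent vector in the direction `w`. -/
def weight {k : ℕ} (w : Fin k → ℤ) (m : Fin k →₀ ℕ) : ℤ := ∑ i, w i * (m i : ℤ)

/-- The sum of the terms of weight `n` of a polynomial. -/
def level {k : ℕ} (w : Fin k → ℤ) (n : ℤ) (P : MvPolynomial (Fin k) ℤ) : MvPolynomial (Fin k) ℤ :=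
  ∑ m ∈ P.support.filter (fun m => weight w m = n), MvPolynomial.monomial m (P.coeff m)

/-- The coefficient of `P` at an integral exponent vector, `0` if some entry is negative. -/
def coeffAt {k : ℕ} (P : MvPolynomial (Fin k) ℤ) (v : Fin k → ℤ) : ℤ :=
  open Classical in
  if ∀ i, 0 ≤ v i then P.coeff (Finsupp.equivFunOnFinite.symm fun i => (v i).toNat) else 0

/-- Opposite vertices `a`, `a'` of `F`: in some direction `a` is the unique minimum and `a'` the
unique maximum on the exponents of `F`. -/
def OppositeVertices {k : ℕ} (F : MvPolynomial (Fin k) ℤ) (a a' : Fin k →₀ ℕ) : Prop :=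
  a ∈ F.support ∧ a' ∈ F.support ∧ ∃ w : Fin k → ℤ, ∀ m ∈ F.support,
    (m ≠ a → weight w a < weight w m) ∧ (m ≠ a' → weight w m < weight w a')

/-- In every direction `w` in which `a` is minimal and `a'` is maximal on the exponents of `F`, but
not both uniquely, the two faces are not reciprocal to each other: there is a vector `v` orthogonal to
`w` with `c_{a'} c_{a + v} ≠ c_a c_{a' - v}`. -/
def FacesDiffer {k : ℕ} (F : MvPolynomial (Fin k) ℤ) (a a' : Fin k →₀ ℕ) : Prop :=
  ∀ w : Fin k → ℤ, (∀ m ∈ F.support, weight w a ≤ weight w m ∧ weight w m ≤ weight w a') →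
    (∃ m ∈ F.support, (m ≠ a ∧ weight w m = weight w a) ∨ (m ≠ a' ∧ weight w m = weight w a')) →
    ∃ v : Fin k → ℤ, ∑ i, w i * v i = 0 ∧
      F.coeff a' * coeffAt F (fun i => a i + v i) ≠ F.coeff a * coeffAt F (fun i => a' i - v i)

/-- `c_b x ^ b A - c_a x ^ a B`, with the coefficients `c_a` of `A` and `c_b` of `B`. -/
def difference {k : ℕ} (A B : MvPolynomial (Fin k) ℤ) (a b : Fin k →₀ ℕ) :
    MvPolynomial (Fin k) ℤ :=
  MvPolynomial.monomial b (B.coeff b) * A - MvPolynomial.monomial a (A.coeff a) * B

/-- In the direction `w`, `a` and `b` are the unique minima on the exponents of `A` and of `B`. -/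
def UniqueMinima {k : ℕ} (A B : MvPolynomial (Fin k) ℤ) (a b : Fin k →₀ ℕ) (w : Fin k → ℤ) : Prop :=
  (∀ m ∈ A.support, m ≠ a → weight w a < weight w m) ∧
    ∀ m ∈ B.support, m ≠ b → weight w b < weight w m

/-- In every direction in which `a` and `b` are minima on the exponents of `A` and of `B`, but not
both unique, the lowest parts of `c_b x ^ b A` and `c_a x ^ a B` differ. -/
def PairDiffers {k : ℕ} (A B : MvPolynomial (Fin k) ℤ) (a b : Fin k →₀ ℕ) : Prop :=
  ∀ w : Fin k → ℤ, (∀ m ∈ A.support, weight w a ≤ weight w m) →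
    (∀ m ∈ B.support, weight w b ≤ weight w m) →
    ((∃ m ∈ A.support, m ≠ a ∧ weight w m = weight w a) ∨
      ∃ m ∈ B.support, m ≠ b ∧ weight w m = weight w b) →
    MvPolynomial.monomial b (B.coeff b) * level w (weight w a) A ≠
      MvPolynomial.monomial a (A.coeff a) * level w (weight w b) B

theorem result :
    (∀ (k : ℕ) (P F : MvPolynomial (Fin k) ℤ) (w : Fin k → ℤ) (n : ℤ),
      (∀ m ∈ P.support, n ≤ weight w m) → F = level w n P →
      ∀ a a' : Fin k →₀ ℕ, OppositeVertices F a a' →
        (FacesDiffer F a a' → 1 ≤ newtonDim F → (8 * (newtonDim F : ℝ) + 17) / 16 ≤ mahler P ^ 4) ∧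
        (3 ≤ F.support.card →
          (∀ m ∈ F.support, ∀ m' ∈ F.support, m + m' = a + a' → m = a ∨ m = a') →
          (8 * (newtonDim F : ℝ) + 17) / 16 ≤ mahler P ^ 4)) ∧
    (∀ (k : ℕ) (A B : MvPolynomial (Fin k) ℤ) (a b : Fin k →₀ ℕ) (w : Fin k → ℤ),
      a ∈ A.support → b ∈ B.support → UniqueMinima A B a b w →
        (PairDiffers A B a b → 1 ≤ newtonDim (A * B) →
          (8 * (newtonDim (A * B) : ℝ) + 17) / 16 ≤ mahler (linear A B) ^ 4) ∧
        ∀ j : ℤ, (∀ m ∈ (difference A B a b).support, j ≤ weight w m) →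
          level w j (difference A B a b) ≠ 0 →
          (8 * (newtonDim (level w j (difference A B a b)) : ℝ) + 25) / 16 ≤
            mahler (linear A B) ^ 4) := by
  have hlin : ∀ (k : ℕ) (A B : MvPolynomial (Fin k) ℤ), A ≠ 0 →
      mahler (linear A B) = Real.exp (Pool.Agent.H261R2.CM.mx A B) := fun k A B hA =>
    Pool.Agent.H887R3.LW.mM_lin A B hA
  refine ⟨?_, ?_⟩
  · rintro k P F w n hmin rfl a a' ⟨ha, ha', hw⟩
    refine ⟨fun hF h1 => ?_, fun hc hu => ?_⟩
    · have h : 8 * (newtonDim (level w n P) : ℝ) + 17 ≤ 16 * mahler P ^ 4 :=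
        Pool.Agent.R328.GD.goodP_face hmin ha ha' ⟨hw, hF⟩ h1
      linarith
    · have h : 8 * (newtonDim (level w n P) : ℝ) + 17 ≤ 16 * mahler P ^ 4 :=
        Pool.Agent.R328.GD.unique_face hmin ha ha' hw hu hc
      linarith
  · intro k A B a b w ha hb hw
    have hA : A ≠ 0 := MvPolynomial.support_nonempty.1 ⟨a, ha⟩
    rw [hlin k A B hA]
    refine ⟨fun hP h1 => ?_, fun j hj h0 => ?_⟩
    · have h : 8 * (newtonDim (A * B) : ℝ) + 17 ≤
          16 * Real.exp (Pool.Agent.H261R2.CM.mx A B) ^ 4 :=
        Pool.Agent.R328.GD.good_pair' ha hb ⟨⟨w, hw⟩, hP⟩ h1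
      linarith
    · have h : 8 * (newtonDim (level w j (difference A B a b)) : ℝ) + 25 ≤
          16 * Real.exp (Pool.Agent.H261R2.CM.mx A B) ^ 4 :=
        Pool.Agent.R328.GD.diff_pair ha hb hw.1 hw.2 hj h0
      linarith

end

end Pool.Agent.Results.MP_417103_nt.VertexGrowth
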